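import Pool.Agent.SAPY.Defs

/-!
Decay of the twisted occupation measures in the frequency of the additive functional.
-/

namespace Pool.Agent.SAPY

open Filter Topology Pool.Agent.SAPX

namespace Coin

/-- weighted geometric mean -/
noncomputable def Gm (θ a b : ℝ) : ℝ := a ^ θ * b ^ (1 - θ)

lemma Gm_nonneg {θ a b : ℝ} (ha : 0 ≤ a) (hb : 0 ≤ b) : 0 ≤ Gm θ a b :=
  mul_nonneg (Real.rpow_nonneg ha _) (Real.rpow_nonneg hb _)

lemma Gm_mono {θ a b a' b' : ℝ} (h0 : 0 ≤ θ) (h1 : θ ≤ 1) (ha : 0 ≤ a) (hb : 0 ≤ b)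
    (haa : a ≤ a') (hbb : b ≤ b') : Gm θ a b ≤ Gm θ a' b' :=
  mul_le_mul (Real.rpow_le_rpow ha haa h0) (Real.rpow_le_rpow hb hbb (by linarith))
    (Real.rpow_nonneg hb _) (Real.rpow_nonneg (ha.trans haa) _)

lemma Gm_self {θ a : ℝ} (ha : 0 ≤ a) : Gm θ a a = a := by
  unfold Gm
  rcases ha.eq_or_lt with rfl | h
  · by_cases hθ : θ = 0
    · subst hθ
      simp
    · rw [Real.zero_rpow hθ, zero_mul]
  · rw [← Real.rpow_add h]
    simp

lemma Gm_mul {θ a b a' b' : ℝ} (ha : 0 ≤ a) (hb : 0 ≤ b) (ha' : 0 ≤ a') (hb' : 0 ≤ b') :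
    Gm θ (a * a') (b * b') = Gm θ a b * Gm θ a' b' := by
  unfold Gm
  rw [Real.mul_rpow ha ha', Real.mul_rpow hb hb']
  ring

lemma Gm_le {θ a b : ℝ} (h0 : 0 ≤ θ) (h1 : θ ≤ 1) (ha : 0 ≤ a) (hb : 0 ≤ b) :
    Gm θ a b ≤ θ * a + (1 - θ) * b :=
  Real.geom_mean_le_arith_mean2_weighted h0 (by linarith) ha hb (by ring)

lemma Gm_add {θ a b c d : ℝ} (h0 : 0 ≤ θ) (h1 : θ ≤ 1) (ha : 0 ≤ a) (hb : 0 ≤ b) (hc : 0 ≤ c)
    (hd : 0 ≤ d) : Gm θ a b + Gm θ c d ≤ Gm θ (a + c) (b + d) := by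
  rcases h0.eq_or_lt with rfl | h0'
  · simp [Gm]
  rcases h1.eq_or_lt with rfl | h1'
  · simp [Gm]
  rcases (add_nonneg ha hc).eq_or_lt with h | h
  · have ha0 : a = 0 := by linarith
    have hc0 : c = 0 := by linarith
    subst ha0
    subst hc0
    simp [Gm, Real.zero_rpow h0'.ne']
  rcases (add_nonneg hb hd).eq_or_lt with h' | h'
  · have hb0 : b = 0 := by linarith
    have hd0 : d = 0 := by linarith
    subst hb0
    subst hd0
    have h2 : (1 - θ) ≠ 0 := by linarith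
    simp [Gm, Real.zero_rpow h2]
  have e1 : Gm θ a b = Gm θ (a + c) (b + d) * Gm θ (a / (a + c)) (b / (b + d)) := by
    rw [← Gm_mul h.le h'.le (div_nonneg ha h.le) (div_nonneg hb h'.le), mul_div_cancel₀ _ h.ne',
      mul_div_cancel₀ _ h'.ne']
  have e2 : Gm θ c d = Gm θ (a + c) (b + d) * Gm θ (c / (a + c)) (d / (b + d)) := by
    rw [← Gm_mul h.le h'.le (div_nonneg hc h.le) (div_nonneg hd h'.le), mul_div_cancel₀ _ h.ne',
      mul_div_cancel₀ _ h'.ne']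
  rw [e1, e2, ← mul_add]
  refine mul_le_of_le_one_right (Gm_nonneg h.le h'.le) ?_
  have h3 := Gm_le (θ := θ) h0 h1 (div_nonneg ha h.le) (div_nonneg hb h'.le)
  have h4 := Gm_le (θ := θ) h0 h1 (div_nonneg hc h.le) (div_nonneg hd h'.le)
  have h5 : a / (a + c) + c / (a + c) = 1 := by
    rw [← add_div, div_self h.ne']
  have h6 : b / (b + d) + d / (b + d) = 1 := by
    rw [← add_div, div_self h'.ne']
  nlinarith

lemma Gm_sum {ι : Type*} (s : Finset ι) {θ : ℝ} {a b : ι → ℝ} (h0 : 0 ≤ θ) (h1 : θ ≤ 1)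
    (ha : ∀ i ∈ s, 0 ≤ a i) (hb : ∀ i ∈ s, 0 ≤ b i) :
    ∑ i ∈ s, Gm θ (a i) (b i) ≤ Gm θ (∑ i ∈ s, a i) (∑ i ∈ s, b i) := by
  classical
  induction s using Finset.induction_on with
  | empty =>
    simp only [Finset.sum_empty]
    exact Gm_nonneg le_rfl le_rfl
  | insert i s hi ih =>
    rw [Finset.sum_insert hi, Finset.sum_insert hi, Finset.sum_insert hi]
    have h2 : ∀ j ∈ s, 0 ≤ a j := fun j hj => ha j (Finset.mem_insert_of_mem hj)
    have h3 : ∀ j ∈ s, 0 ≤ b j := fun j hj => hb j (Finset.mem_insert_of_mem hj)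
    refine le_trans (add_le_add le_rfl (ih h2 h3)) ?_
    exact Gm_add h0 h1 (ha i (Finset.mem_insert_self _ _)) (hb i (Finset.mem_insert_self _ _))
      (Finset.sum_nonneg h2) (Finset.sum_nonneg h3)

/-- occupation measures are log convex -/
lemma occ_Gm {g g₀ g₁ : ℕ → ℤ → ℤ → ℝ} {l A A₀ A₁ : ℕ → ℤ → ℝ} {θ : ℝ} (h0 : 0 ≤ θ) (h1 : θ ≤ 1)
    (hA : Rec g l A) (hA₀ : Rec g₀ l A₀) (hA₁ : Rec g₁ l A₁) (hl : ∀ m y, 0 ≤ l m y)
    (hg : ∀ m x y, 0 ≤ g m x y) (hg₀ : ∀ m x y, 0 ≤ g₀ m x y) (hg₁ : ∀ m x y, 0 ≤ g₁ m x y)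
    (h : ∀ m x y, g m x y ≤ Gm θ (g₀ m x y) (g₁ m x y)) (m : ℕ) (y : ℤ) :
    A m y ≤ Gm θ (A₀ m y) (A₁ m y) := by
  induction m using Nat.strong_induction_on generalizing y with
  | _ m ih =>
    have n0 := hA₀.nonneg hg₀ hl
    have n1 := hA₁.nonneg hg₁ hl
    have n := hA.nonneg hg hl
    rw [hA m y, hA₀ m y, hA₁ m y]
    have e : ∀ k ∈ Finset.range m,
        ∑ x ∈ Finset.Icc (y - ((m : ℤ) - k)) (y + ((m : ℤ) - k)), A k x * g (m - k) x y ≤
        Gm θ (∑ x ∈ Finset.Icc (y - ((m : ℤ) - k)) (y + ((m : ℤ) - k)), A₀ k x * g₀ (m - k) x y)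
          (∑ x ∈ Finset.Icc (y - ((m : ℤ) - k)) (y + ((m : ℤ) - k)), A₁ k x * g₁ (m - k) x y) := by
      intro k hk
      refine le_trans (Finset.sum_le_sum fun x _ => ?_) (Gm_sum _ h0 h1
        (fun x _ => mul_nonneg (n0 k x) (hg₀ _ _ _)) (fun x _ => mul_nonneg (n1 k x) (hg₁ _ _ _)))
      rw [Gm_mul (n0 _ _) (n1 _ _) (hg₀ _ _ _) (hg₁ _ _ _)]
      exact mul_le_mul (ih k (Finset.mem_range.1 hk) x) (h _ _ _) (hg _ _ _)
        (Gm_nonneg (n0 _ _) (n1 _ _))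
    have e2 := (Finset.sum_le_sum e).trans (Gm_sum _ h0 h1
      (fun k _ => Finset.sum_nonneg fun x _ => mul_nonneg (n0 k x) (hg₀ _ _ _))
      (fun k _ => Finset.sum_nonneg fun x _ => mul_nonneg (n1 k x) (hg₁ _ _ _)))
    refine le_trans (add_le_add (Gm_self (θ := θ) (hl m y)).ge e2) ?_
    exact Gm_add h0 h1 (hl m y) (hl m y)
      (Finset.sum_nonneg fun k _ => Finset.sum_nonneg fun x _ => mul_nonneg (n0 k x) (hg₀ _ _ _))
      (Finset.sum_nonneg fun k _ => Finset.sum_nonneg fun x _ => mul_nonneg (n1 k x) (hg₁ _ _ _))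

/-- a sum over incoming transitions is bounded by a sum over all blocks -/
lemma sum_in_le {Φ : ℕ × ℤ → ℝ} (h0 : ∀ p, 0 ≤ Φ p) (hs : Summable Φ) (m : ℕ) (y : ℤ) :
    ∑ k ∈ Finset.range m, ∑ x ∈ Finset.Icc (y - ((m : ℤ) - k)) (y + ((m : ℤ) - k)),
      Φ (m - k, y - x) ≤ ∑' p, Φ p := by
  classical
  rw [Finset.sum_sigma']
  set s : Finset (Σ _ : ℕ, ℤ) := (Finset.range m).sigma
    (fun k => Finset.Icc (y - ((m : ℤ) - k)) (y + ((m : ℤ) - k))) with hsdef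
  have hinj : Set.InjOn (fun q : (Σ _ : ℕ, ℤ) => ((m - q.1, y - q.2) : ℕ × ℤ)) (s : Set _) := by
    rintro ⟨k, x⟩ hk ⟨k', x'⟩ hk' h
    simp only [Prod.mk.injEq] at h
    have h1 := Finset.mem_range.1 (Finset.mem_sigma.1 hk).1
    have h2 := Finset.mem_range.1 (Finset.mem_sigma.1 hk').1
    dsimp only at h1 h2
    have h3 : k = k' := by omega
    have h4 : x = x' := by omega
    subst h3
    subst h4
    rfl
  have h1 := Finset.sum_image (f := Φ) hinj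
  rw [← h1]
  exact hs.sum_le_tsum _ (fun p _ => h0 p)

section decay
variable {f : ℕ → ℤ → ℝ} {g : ℕ → ℤ → ℤ → ℝ} {l A : ℕ → ℤ → ℝ}

/-- the kernel that loses mass `κ` at every far jump of type `(m₀, d₀)` -/
noncomputable def coin (g : ℕ → ℤ → ℤ → ℝ) (m₀ : ℕ) (d₀ : ℤ) (κ : ℝ) (m : ℕ) (x y : ℤ) : ℝ :=
  g m x y - (if m = m₀ ∧ y - x = d₀ ∧ (m₀ : ℤ) < x then κ else 0)

lemma coin_nonneg (hg : Killed f g) {m₀ : ℕ} {d₀ : ℤ} {κ : ℝ} (hκ : κ ≤ f m₀ d₀) (m : ℕ)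
    (x y : ℤ) : 0 ≤ coin g m₀ d₀ κ m x y := by
  unfold coin
  split_ifs with h
  · obtain ⟨rfl, h2, h3⟩ := h
    rw [hg.far m x y (Or.inl h3), h2]
    linarith
  · have := hg.nonneg m x y
    linarith

lemma coin_le {m₀ : ℕ} {d₀ : ℤ} {κ : ℝ} (hκ : 0 ≤ κ) (m : ℕ) (x y : ℤ) :
    coin g m₀ d₀ κ m x y ≤ g m x y := by
  unfold coin
  split_ifs <;> linarith

lemma coin_Gm (hg : Killed f g) {m₀ : ℕ} {d₀ : ℤ} {κ θ : ℝ} (hκ0 : 0 ≤ κ) (hκ : κ ≤ f m₀ d₀)
    (h0 : 0 ≤ θ) (h1 : θ ≤ 1) (m : ℕ) (x y : ℤ) :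
    coin g m₀ d₀ (θ * κ) m x y ≤ Gm θ (coin g m₀ d₀ (κ / 2) m x y) (g m x y) := by
  unfold coin
  split_ifs with h
  · obtain ⟨rfl, h2, h3⟩ := h
    have h4 : g m x y = f m d₀ := by
      rw [hg.far m x y (Or.inl h3), h2]
    rw [h4]
    have h5 : 0 ≤ f m d₀ - κ := by linarith
    have h6 := Gm_add h0 h1 h5 h5 (by linarith : 0 ≤ κ * (1 / 2)) hκ0
    have h7 : f m d₀ - κ + κ * (1 / 2) = f m d₀ - κ / 2 := by ring
    rw [h7, sub_add_cancel, Gm_self h5] at h6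
    refine le_trans ?_ h6
    have h8 : Gm θ (κ * (1 / 2)) κ = κ * Gm θ (1 / 2) 1 := by
      have := Gm_mul (θ := θ) hκ0 hκ0 (by norm_num : (0 : ℝ) ≤ 1 / 2) (zero_le_one)
      rw [mul_one, Gm_self hκ0] at this
      exact this
    have h9 : 1 - θ ≤ Gm θ (1 / 2) 1 := by
      unfold Gm
      rw [Real.one_rpow, mul_one, Real.rpow_def_of_pos (by norm_num)]
      have h10 := Real.add_one_le_exp (Real.log (1 / 2) * θ)
      have h11 : -1 ≤ Real.log (1 / 2) := by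
        have := Real.one_sub_inv_le_log_of_pos (by norm_num : (0 : ℝ) < 1 / 2)
        norm_num at this ⊢
        linarith
      nlinarith
    rw [h8]
    nlinarith
  · rw [sub_zero, Gm_self (hg.nonneg m x y)]

/-- positive probabilities to jump from `y ≤ N` to `0` -/
lemma down_unif (hd : ∀ x : ℕ, 0 < x → ∃ m, 0 < f m (-(x : ℤ))) (N : ℕ) :
    ∃ η, 0 < η ∧ ∀ x : ℕ, 0 < x → x ≤ N → ∃ m, η ≤ f m (-(x : ℤ)) := by
  induction N with
  | zero => exact ⟨1, one_pos, fun x hx hx' => absurd hx (by omega)⟩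
  | succ N ih =>
    obtain ⟨η, hη, h⟩ := ih
    obtain ⟨m, hm⟩ := hd (N + 1) (Nat.succ_pos N)
    refine ⟨min η (f m (-((N + 1 : ℕ) : ℤ))), lt_min hη hm, fun x hx hx' => ?_⟩
    rcases Nat.lt_or_ge x (N + 1) with h1 | h1
    · obtain ⟨m', hm'⟩ := h x hx (by omega)
      exact ⟨m', (min_le_left _ _).trans hm'⟩
    · have h2 : x = N + 1 := by omega
      subst h2
      exact ⟨m, min_le_right _ _⟩

/-- exponential moments close to `1` -/
lemma exp_moment (hf : FreeLaw f) {η : ℝ} (hη : 0 < η) {δ' : ℝ} (hδ' : 0 < δ') : ∃ k, 0 < k ∧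
    k ≤ δ' ∧ Summable (fun p : ℕ × ℤ => f p.1 p.2 * Real.exp (k * p.1)) ∧
    ∑' p : ℕ × ℤ, f p.1 p.2 * Real.exp (k * p.1) ≤ 1 + η := by
  obtain ⟨δ, hδ, hs⟩ := hf.tail
  set Z := ∑' p : ℕ × ℤ, f p.1 p.2 * Real.exp (δ * p.1) with hZ
  have hZ0 : 0 ≤ Z := tsum_nonneg fun p => mul_nonneg (hf.nonneg _ _) (Real.exp_pos _).le
  -- `e^(k m) ≤ 1 + (k/δ) e^(δ m)`
  set k := min δ' (min δ (δ * η / (Z + 1))) with hk
  have hk0 : 0 < k := lt_min hδ' (lt_min hδ (by positivity))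
  have hk1 : k ≤ δ := (min_le_right _ _).trans (min_le_left _ _)
  have hk2 : k ≤ δ * η / (Z + 1) := (min_le_right _ _).trans (min_le_right _ _)
  have key : ∀ m : ℕ, Real.exp (k * m) ≤ 1 + k / δ * Real.exp (δ * m) := by
    intro m
    have h1 : k / δ ≤ 1 := (div_le_one hδ).2 hk1
    have h2 : 0 ≤ k / δ := by positivity
    have h3 := convexOn_exp.2 (Set.mem_univ (0 : ℝ)) (Set.mem_univ (δ * m))
      (by linarith : 0 ≤ 1 - k / δ) h2 (by ring)
    simp only [smul_eq_mul, mul_zero, zero_add, Real.exp_zero, mul_one] at h3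
    have h4 : k / δ * (δ * m) = k * m := by
      field_simp
    rw [h4] at h3
    linarith
  have hle : ∀ p : ℕ × ℤ, f p.1 p.2 * Real.exp (k * p.1) ≤
      f p.1 p.2 + k / δ * (f p.1 p.2 * Real.exp (δ * p.1)) := by
    intro p
    have := mul_le_mul_of_nonneg_left (key p.1) (hf.nonneg p.1 p.2)
    linarith
  have hs1 : Summable (fun p : ℕ × ℤ => f p.1 p.2 + k / δ * (f p.1 p.2 * Real.exp (δ * p.1))) :=
    hf.total.summable.add (hs.mul_left _)
  have hs2 : Summable (fun p : ℕ × ℤ => f p.1 p.2 * Real.exp (k * p.1)) :=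
    Summable.of_nonneg_of_le (fun p => mul_nonneg (hf.nonneg _ _) (Real.exp_pos _).le) hle hs1
  refine ⟨k, hk0, min_le_left _ _, hs2, (hs2.tsum_le_tsum hle hs1).trans ?_⟩
  rw [hf.total.summable.tsum_add (hs.mul_left _), tsum_mul_left, hf.total.tsum_eq, ← hZ]
  have h5 : k / δ * Z ≤ η := by
    have h6 : k / δ ≤ η / (Z + 1) := by
      rw [div_le_iff₀ hδ]
      refine hk2.trans (le_of_eq ?_)
      ring
    calc k / δ * Z ≤ η / (Z + 1) * Z := mul_le_mul_of_nonneg_right h6 hZ0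
      _ = η * (Z / (Z + 1)) := by ring
      _ ≤ η * 1 := by
        refine mul_le_mul_of_nonneg_left ?_ hη.le
        rw [div_le_one (by linarith)]
        linarith
      _ = η := mul_one _
  linarith

/-- exponential decay of the occupation measure when mass is lost everywhere -/
lemma coin_decay (hf : FreeLaw f) (hg : Killed f g) (hl : CapLaw l)
    (hd : ∀ x : ℕ, 0 < x → ∃ m, 0 < f m (-(x : ℤ))) {m₀ : ℕ} {d₀ : ℤ} {κ : ℝ} (hκ0 : 0 < κ)
    (hκ : κ ≤ f m₀ d₀) (hA : Rec (coin g m₀ d₀ κ) l A) :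
    ∃ K k, 0 < K ∧ 0 < k ∧ ∀ (m : ℕ) (y : ℤ), A m y ≤ K * Real.exp (-(k * m)) := by
  classical
  obtain ⟨δ', hδ', hls⟩ := hl.tail
  obtain ⟨η₁, hη₁, hη⟩ := down_unif hd (m₀ + d₀).toNat
  set η := min κ η₁ with hηdef
  have hη0 : 0 < η := lt_min hκ0 hη₁
  obtain ⟨k, hk, hkδ, hs, hZ⟩ := exp_moment hf (half_pos hη0) hδ'
  set Z := ∑' p : ℕ × ℤ, f p.1 p.2 * Real.exp (k * p.1) with hZdef
  set Kl := ∑' p : ℕ × ℤ, l p.1 p.2 * Real.exp (δ' * p.1) with hKl
  have hl0 : ∀ p : ℕ × ℤ, 0 ≤ l p.1 p.2 * Real.exp (δ' * p.1) := fun p =>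
    mul_nonneg (hl.nonneg _ _) (Real.exp_pos _).le
  have hKl0 : 0 ≤ Kl := tsum_nonneg hl0
  set q := 1 - η / 2 with hq
  have hcn := coin_nonneg hg hκ
  have hAn := hA.nonneg hcn hl.nonneg
  -- incoming mass
  have hin : ∀ y : ℤ, 0 < y → ∀ m : ℕ, ∑ j ∈ Finset.range m,
      ∑ x ∈ Finset.Icc (y - ((m : ℤ) - j)) (y + ((m : ℤ) - j)),
        coin g m₀ d₀ κ (m - j) x y * Real.exp (k * ((m - j : ℕ) : ℝ)) ≤ q := by
    intro y hy m
    obtain ⟨pt, hpt, hpt'⟩ : ∃ pt : ℕ × ℤ, η ≤ f pt.1 pt.2 ∧ coin g m₀ d₀ κ pt.1 (y - pt.2) y ≤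
        f pt.1 pt.2 - η := by
      rcases lt_or_ge (m₀ + d₀ : ℤ) y with h | h
      · refine ⟨(m₀, d₀), (min_le_left _ _).trans hκ, ?_⟩
        unfold coin
        dsimp only
        rw [if_pos ⟨rfl, by ring, by omega⟩, hg.far m₀ (y - d₀) y (Or.inl (by omega)),
          sub_sub_cancel]
        have : η ≤ κ := min_le_left _ _
        linarith
      · obtain ⟨n, hn⟩ := hη y.toNat (by omega) (by omega)
        have h1 : ((y.toNat : ℕ) : ℤ) = y := by omega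
        rw [h1, hf.symm] at hn
        refine ⟨(n, y), (min_le_right _ _).trans hn, ?_⟩
        dsimp only
        rw [sub_self]
        have h2 : g n 0 y = 0 := by
          by_contra h3
          exact absurd (hg.pos _ _ _ h3).1 (lt_irrefl _)
        have h3 := coin_le (g := g) (m₀ := m₀) (d₀ := d₀) hκ0.le n 0 y
        have h4 : η ≤ f n y := (min_le_right _ _).trans hn
        linarith
    set Φ : ℕ × ℤ → ℝ := fun p => f p.1 p.2 * Real.exp (k * p.1) - (if p = pt then η else 0)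
      with hΦ
    have hexp : ∀ n : ℕ, 1 ≤ Real.exp (k * n) := fun n => Real.one_le_exp (by positivity)
    have hΦ0 : ∀ p, 0 ≤ Φ p := by
      intro p
      rw [hΦ]
      dsimp only
      split_ifs with h
      · subst h
        have := mul_le_mul hpt (hexp p.1) zero_le_one (hf.nonneg _ _)
        linarith
      · have := mul_nonneg (hf.nonneg p.1 p.2) (Real.exp_pos (k * p.1)).le
        linarith
    have hs1 : HasSum (fun p : ℕ × ℤ => if p = pt then η else 0) η := hasSum_ite_eq pt η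
    have hs2 : HasSum Φ (Z - η) := hs.hasSum.sub hs1
    refine le_trans ?_ ((sum_in_le hΦ0 hs2.summable m y).trans ?_)
    · refine Finset.sum_le_sum fun j _ => Finset.sum_le_sum fun x _ => ?_
      rw [hΦ]
      dsimp only
      split_ifs with h
      · have e1 : m - j = pt.1 := congrArg Prod.fst h
        have e2 : y - x = pt.2 := congrArg Prod.snd h
        have e3 : x = y - pt.2 := by omega
        rw [e1, e2, e3]
        have h1 := mul_le_mul_of_nonneg_right hpt' (Real.exp_pos (k * (pt.1 : ℕ))).le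
        have h2 := mul_le_mul_of_nonneg_left (hexp pt.1) hη0.le
        rw [sub_mul] at h1
        linarith
      · rw [sub_zero]
        exact mul_le_mul_of_nonneg_right ((coin_le hκ0.le _ _ _).trans (hg.le _ _ _))
          (Real.exp_pos _).le
    · rw [hs2.tsum_eq]
      rw [hq]
      linarith
  have hq1 : 0 < 1 - q := by rw [hq]; linarith
  set K := (Kl + 1) / (1 - q) with hK
  have hK0 : 0 < K := by positivity
  have hKq : Kl + K * q ≤ K := by
    have : K * (1 - q) = Kl + 1 := div_mul_cancel₀ _ hq1.ne'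
    linarith
  refine ⟨K, k, hK0, hk, fun m y => ?_⟩
  induction m using Nat.strong_induction_on generalizing y with
  | _ m ih =>
    rcases le_or_gt y 0 with hy | hy
    · have h1 : A m y = 0 := by
        rw [hA m y]
        have h2 : l m y = 0 := by
          by_contra h3
          have := (hl.supp _ _ h3).1
          omega
        rw [h2, zero_add]
        refine Finset.sum_eq_zero fun j _ => Finset.sum_eq_zero fun x _ => ?_
        have h3 : g (m - j) x y = 0 := by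
          by_contra h4
          have := (hg.pos _ _ _ h4).2
          omega
        have h4 := coin_le (g := g) (m₀ := m₀) (d₀ := d₀) hκ0.le (m - j) x y
        have h5 := hcn (m - j) x y
        have h6 : coin g m₀ d₀ κ (m - j) x y = 0 := by linarith
        rw [h6, mul_zero]
      rw [h1]
      positivity
    · have h1 : A m y * Real.exp (k * m) ≤ K := by
        rw [hA m y, add_mul, Finset.sum_mul]
        have h2 : l m y * Real.exp (k * m) ≤ Kl := by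
          refine le_trans ?_ (hls.le_tsum (m, y) (fun p _ => hl0 p))
          refine mul_le_mul_of_nonneg_left (Real.exp_le_exp.2 ?_) (hl.nonneg _ _)
          exact mul_le_mul_of_nonneg_right hkδ (Nat.cast_nonneg _)
        have h3 : ∑ j ∈ Finset.range m, (∑ x ∈ Finset.Icc (y - ((m : ℤ) - j))
            (y + ((m : ℤ) - j)), A j x * coin g m₀ d₀ κ (m - j) x y) * Real.exp (k * m) ≤
            K * q := by
          refine le_trans ?_ (mul_le_mul_of_nonneg_left (hin y hy m) hK0.le)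
          rw [Finset.mul_sum]
          refine Finset.sum_le_sum fun j hj => ?_
          rw [Finset.sum_mul, Finset.mul_sum]
          refine Finset.sum_le_sum fun x _ => ?_
          have hj' := Finset.mem_range.1 hj
          have e1 : Real.exp (k * m) = Real.exp (k * j) * Real.exp (k * ((m - j : ℕ) : ℝ)) := by
            rw [← Real.exp_add, Nat.cast_sub hj'.le]
            congr 1
            ring
          have e2 : A j x * Real.exp (k * j) ≤ K := by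
            have := mul_le_mul_of_nonneg_right (ih j hj' x) (Real.exp_pos (k * j)).le
            rw [mul_assoc, ← Real.exp_add, neg_add_cancel, Real.exp_zero, mul_one] at this
            exact this
          rw [e1]
          calc A j x * coin g m₀ d₀ κ (m - j) x y * (Real.exp (k * j) *
                Real.exp (k * ((m - j : ℕ) : ℝ))) =
              (A j x * Real.exp (k * j)) * (coin g m₀ d₀ κ (m - j) x y *
                Real.exp (k * ((m - j : ℕ) : ℝ))) := by ring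
            _ ≤ K * (coin g m₀ d₀ κ (m - j) x y * Real.exp (k * ((m - j : ℕ) : ℝ))) :=
              mul_le_mul_of_nonneg_right e2 (mul_nonneg (hcn _ _ _) (Real.exp_pos _).le)
        linarith
      rw [Real.exp_neg, ← div_eq_mul_inv, le_div_iff₀ (Real.exp_pos _)]
      exact h1

/-- `e^(-k m)` is smaller than the profile -/
lemma exp_le_profile {k : ℝ} (hk : 0 < k) : ∃ K, 0 < K ∧ ∀ (m : ℕ) (y : ℤ) (c : ℝ), 0 < y →
    y ≤ m → 0 ≤ c → c ≤ k / 4 → Real.exp (-(k * m)) ≤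
      K * (|(y : ℝ)| / ((m : ℝ) + 1) ^ (3 / 2 : ℝ) * Real.exp (-(c * (y : ℝ) ^ 2 / (m + 1)))) *
        Real.exp (-(k / 2 * m)) := by
  -- `(m + 1)^(3/2) ≤ (m+1)^2 ≤ K e^(k m / 4)`
  obtain ⟨K, hK⟩ : ∃ K : ℝ, ∀ m : ℕ, ((m : ℝ) + 1) ^ 2 ≤ K * Real.exp (k / 4 * m) := by
    refine ⟨(1 + 8 / k) ^ 2, fun m => ?_⟩
    have h1 : (m : ℝ) + 1 ≤ (1 + 8 / k) * Real.exp (k / 8 * m) := by
      have h2 := Real.add_one_le_exp (k / 8 * (m : ℝ))
      have h3 : (1 + 8 / k) * (k / 8 * m + 1) = (m + 1) + (k / 8 * m + 8 / k) := by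
        field_simp
        ring
      have h4 : 0 ≤ k / 8 * m + 8 / k := by positivity
      have h5 := mul_le_mul_of_nonneg_left h2 (by positivity : 0 ≤ 1 + 8 / k)
      linarith
    calc ((m : ℝ) + 1) ^ 2 ≤ ((1 + 8 / k) * Real.exp (k / 8 * m)) ^ 2 :=
          pow_le_pow_left₀ (by positivity) h1 2
      _ = (1 + 8 / k) ^ 2 * Real.exp (k / 4 * m) := by
        rw [mul_pow, ← Real.exp_nat_mul]
        congr 2
        push_cast
        ring
  have hK0 : 0 < K := by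
    have h1 := hK 0
    simp only [Nat.cast_zero, zero_add, one_pow, mul_zero, Real.exp_zero, mul_one] at h1
    linarith
  refine ⟨K, hK0, fun m y c hy hym hc hck => ?_⟩
  have hy1 : (1 : ℝ) ≤ |(y : ℝ)| := by
    have : (1 : ℤ) ≤ y := by omega
    have h2 : (1 : ℝ) ≤ (y : ℝ) := by exact_mod_cast this
    rw [abs_of_pos (by linarith)]
    exact h2
  have hym' : (y : ℝ) ≤ m := by exact_mod_cast hym
  have hy0 : (0 : ℝ) < y := by exact_mod_cast hy
  have hm1 : (0 : ℝ) < (m : ℝ) + 1 := by positivity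
  have e1 : c * (y : ℝ) ^ 2 / (m + 1) ≤ k / 4 * m := by
    rw [div_le_iff₀ hm1]
    have h1 : (y : ℝ) ^ 2 ≤ m * (m + 1) := by nlinarith
    calc c * (y : ℝ) ^ 2 ≤ (k / 4) * (m * (m + 1)) :=
          mul_le_mul hck h1 (by positivity) (by positivity)
      _ = k / 4 * m * (m + 1) := by ring
  have e2 : Real.exp (-(k / 4 * m)) ≤ Real.exp (-(c * (y : ℝ) ^ 2 / (m + 1))) :=
    Real.exp_le_exp.2 (by linarith)
  have e3 : ((m : ℝ) + 1) ^ (3 / 2 : ℝ) ≤ K * Real.exp (k / 4 * m) := by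
    refine le_trans ?_ (hK m)
    rw [← Real.rpow_natCast ((m : ℝ) + 1) 2]
    exact Real.rpow_le_rpow_of_exponent_le (by linarith [(Nat.cast_nonneg m : (0 : ℝ) ≤ m)])
      (by norm_num)
  have e4 : 0 < ((m : ℝ) + 1) ^ (3 / 2 : ℝ) := Real.rpow_pos_of_pos hm1 _
  have e5 : Real.exp (-(k / 4 * m)) ≤ K * (|(y : ℝ)| / ((m : ℝ) + 1) ^ (3 / 2 : ℝ)) := by
    have h1 : 1 ≤ K * Real.exp (k / 4 * m) / ((m : ℝ) + 1) ^ (3 / 2 : ℝ) := (one_le_div e4).2 e3
    have h2 : Real.exp (-(k / 4 * m)) * (K * Real.exp (k / 4 * m) /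
        ((m : ℝ) + 1) ^ (3 / 2 : ℝ)) = K * (1 / ((m : ℝ) + 1) ^ (3 / 2 : ℝ)) := by
      rw [Real.exp_neg]
      field_simp
    calc Real.exp (-(k / 4 * m)) = Real.exp (-(k / 4 * m)) * 1 := (mul_one _).symm
      _ ≤ Real.exp (-(k / 4 * m)) * (K * Real.exp (k / 4 * m) /
          ((m : ℝ) + 1) ^ (3 / 2 : ℝ)) := mul_le_mul_of_nonneg_left h1 (Real.exp_pos _).le
      _ = K * (1 / ((m : ℝ) + 1) ^ (3 / 2 : ℝ)) := h2
      _ ≤ K * (|(y : ℝ)| / ((m : ℝ) + 1) ^ (3 / 2 : ℝ)) := by gcongr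
  have e6 : Real.exp (-(k * m)) = Real.exp (-(k / 4 * m)) * Real.exp (-(k / 4 * m)) *
      Real.exp (-(k / 2 * m)) := by
    rw [← Real.exp_add, ← Real.exp_add]
    congr 1
    ring
  rw [e6]
  refine mul_le_mul_of_nonneg_right ?_ (Real.exp_pos _).le
  calc Real.exp (-(k / 4 * m)) * Real.exp (-(k / 4 * m)) ≤
      K * (|(y : ℝ)| / ((m : ℝ) + 1) ^ (3 / 2 : ℝ)) *
        Real.exp (-(c * (y : ℝ) ^ 2 / (m + 1))) :=
        mul_le_mul e5 e2 (Real.exp_pos _).le (by positivity)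
    _ = _ := by ring

end decay

end Coin

section
variable {f : ℕ → ℤ → ℝ} (hf : FreeLaw f) {F : ℝ → ℕ → ℤ → ℂ} {s2 : ℝ} (hF : TwLaw f F s2)
include hf hF

open Coin in
theorem LC_bound {g : ℕ → ℤ → ℤ → ℝ} (hg : Killed f g) {l L : ℕ → ℤ → ℝ} (hl : CapLaw l)
    (hL : Rec g l L) {G : ℝ → ℕ → ℤ → ℤ → ℂ} (hG : TwKilled f g F G) {l' L' : ℝ → ℕ → ℤ → ℂ}
    (hl' : TwCap l l') (hL' : ∀ ψ, RecC (G ψ) (l' ψ) (L' ψ)) :
    ∃ K c, 0 < K ∧ 0 < c ∧ ∀ ψ : ℝ, |ψ| ≤ Real.pi → ∀ (m : ℕ) (y : ℤ), ‖L' ψ m y‖ ≤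
      K * |(y : ℝ)| / ((m : ℝ) + 1) ^ (3 / 2 : ℝ) * Real.exp (-(c * (y : ℝ) ^ 2 / (m + 1))) *
        Real.exp (-(c * ψ ^ 2 * m)) := by
  obtain ⟨κ₁, hκ₁, m₀, d₀, hgap⟩ := hF.gap
  have hpi := Real.pi_pos
  set κ := κ₁ * Real.pi ^ 2 with hκdef
  have hκ0 : 0 < κ := by positivity
  have hκ : κ ≤ f m₀ d₀ := by
    have h1 := hgap Real.pi (abs_of_pos hpi).le
    have h2 := norm_nonneg (F Real.pi m₀ d₀)
    linarith
  set A := occ (coin g m₀ d₀ (κ / 2)) l with hAdef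
  have hA : Rec (coin g m₀ d₀ (κ / 2)) l A := rec_occ _ _
  obtain ⟨K₁, k, hK₁, hk, hdec⟩ := coin_decay hf hg hl hF.down (half_pos hκ0)
    ((half_le_self hκ0.le).trans hκ) hA
  obtain ⟨K₂, c₂, hK₂, hc₂, hLb⟩ := L_bound hf hg hl hL
  obtain ⟨K₃, hK₃, hprof⟩ := exp_le_profile hk
  set c' := min c₂ (k / 4) with hc'
  have hc'0 : 0 < c' := lt_min hc₂ (by positivity)
  set K := max K₂ (K₁ * K₃) with hKdef
  have hK0 : 0 < K := lt_max_of_lt_left hK₂
  set c := min c' (k / 2 / Real.pi ^ 2) with hcdef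
  have hc0 : 0 < c := lt_min hc'0 (by positivity)
  refine ⟨K, c, hK0, hc0, fun ψ hψ m y => ?_⟩
  have hψ2 : ψ ^ 2 ≤ Real.pi ^ 2 := by
    rw [← sq_abs]
    exact pow_le_pow_left₀ (abs_nonneg _) hψ 2
  set θ := ψ ^ 2 / Real.pi ^ 2 with hθ
  have h0 : 0 ≤ θ := by positivity
  have h1 : θ ≤ 1 := (div_le_one (by positivity)).2 hψ2
  -- comparison with the real kernel with coins
  have hθκ : θ * κ = κ₁ * ψ ^ 2 := by
    rw [hθ, hκdef]
    field_simp
  have hθκ' : θ * κ ≤ f m₀ d₀ := le_trans (mul_le_of_le_one_left hκ0.le h1) hκ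
  have hGc : ∀ m x y, ‖G ψ m x y‖ ≤ coin g m₀ d₀ (θ * κ) m x y := by
    intro m x y
    unfold coin
    split_ifs with h
    · obtain ⟨rfl, h2, h3⟩ := h
      have h4 : g m x y = f m (y - x) := hg.far m x y (Or.inl h3)
      have h5 := hG.sub ψ m x y
      rw [← h4, sub_self] at h5
      have h6 : F ψ m (y - x) = G ψ m x y := by
        have := norm_le_zero_iff.1 h5
        exact sub_eq_zero.1 this
      rw [← h6, h4, h2, hθκ]
      exact hgap ψ hψ
    · rw [sub_zero]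
      exact hG.le ψ m x y
  have hB : Rec (coin g m₀ d₀ (θ * κ)) l (occ (coin g m₀ d₀ (θ * κ)) l) := rec_occ _ _
  have e1 : ‖L' ψ m y‖ ≤ occ (coin g m₀ d₀ (θ * κ)) l m y :=
    recC_norm_le hB (hL' ψ) hGc (hl'.le ψ) m y
  have e2 : occ (coin g m₀ d₀ (θ * κ)) l m y ≤ Gm θ (A m y) (L m y) :=
    occ_Gm h0 h1 hB hA hL hl.nonneg (coin_nonneg hg hθκ')
      (coin_nonneg hg ((half_le_self hκ0.le).trans hκ)) hg.nonneg
      (coin_Gm hg hκ0.le hκ h0 h1) m y
  have hAn : 0 ≤ A m y := hA.nonneg (coin_nonneg hg ((half_le_self hκ0.le).trans hκ)) hl.nonneg m y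
  have hLn : 0 ≤ L m y := hL.nonneg hg.nonneg hl.nonneg m y
  by_cases hLz : L m y = 0
  · have h2 := recC_norm_le hL (hL' ψ) (hG.le ψ) (hl'.le ψ) m y
    rw [hLz] at h2
    refine h2.trans ?_
    positivity
  obtain ⟨hy, hym, -⟩ := hL.supp hf hg hl hLz
  set Q := |(y : ℝ)| / ((m : ℝ) + 1) ^ (3 / 2 : ℝ) * Real.exp (-(c' * (y : ℝ) ^ 2 / (m + 1)))
    with hQ
  have hQ0 : 0 ≤ Q := by positivity
  have e3 : A m y ≤ K * Q * Real.exp (-(k / 2 * m)) := by
    refine (hdec m y).trans ((mul_le_mul_of_nonneg_left (hprof m y c' hy hym hc'0.le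
      (min_le_right _ _)) hK₁.le).trans ?_)
    rw [← hQ]
    have h2 : K₁ * K₃ ≤ K := le_max_right _ _
    calc K₁ * (K₃ * Q * Real.exp (-(k / 2 * m))) =
        K₁ * K₃ * (Q * Real.exp (-(k / 2 * m))) := by ring
      _ ≤ K * (Q * Real.exp (-(k / 2 * m))) := mul_le_mul_of_nonneg_right h2 (by positivity)
      _ = _ := by ring
  have e4 : L m y ≤ K * Q := by
    refine (hLb m y).trans ?_
    have h2 : K₂ ≤ K := le_max_left _ _
    have h3 : Real.exp (-(c₂ * (y : ℝ) ^ 2 / (m + 1))) ≤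
        Real.exp (-(c' * (y : ℝ) ^ 2 / (m + 1))) := by
      refine Real.exp_le_exp.2 (neg_le_neg ?_)
      have : c' ≤ c₂ := min_le_left _ _
      gcongr
    calc K₂ * |(y : ℝ)| / ((m : ℝ) + 1) ^ (3 / 2 : ℝ) *
          Real.exp (-(c₂ * (y : ℝ) ^ 2 / (m + 1))) =
        K₂ * (|(y : ℝ)| / ((m : ℝ) + 1) ^ (3 / 2 : ℝ) *
          Real.exp (-(c₂ * (y : ℝ) ^ 2 / (m + 1)))) := by ring
      _ ≤ K * Q := by
        rw [hQ]
        gcongr
  have hKQ : 0 ≤ K * Q := by positivity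
  have e5 : Gm θ (A m y) (L m y) ≤ K * Q * Real.exp (-(k / 2 * m * θ)) := by
    refine (Gm_mono h0 h1 hAn hLn e3 e4).trans (le_of_eq ?_)
    have h2 := Gm_mul (θ := θ) hKQ hKQ (Real.exp_pos (-(k / 2 * m))).le zero_le_one
    rw [mul_one, Gm_self hKQ] at h2
    rw [h2]
    congr 1
    unfold Gm
    rw [Real.one_rpow, mul_one, ← Real.exp_mul]
    congr 1
    ring
  refine (e1.trans (e2.trans e5)).trans ?_
  have e6 : Q ≤ |(y : ℝ)| / ((m : ℝ) + 1) ^ (3 / 2 : ℝ) *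
      Real.exp (-(c * (y : ℝ) ^ 2 / (m + 1))) := by
    rw [hQ]
    have : c ≤ c' := min_le_left _ _
    gcongr
  have e7 : Real.exp (-(k / 2 * m * θ)) ≤ Real.exp (-(c * ψ ^ 2 * m)) := by
    refine Real.exp_le_exp.2 (neg_le_neg ?_)
    have h2 : c ≤ k / 2 / Real.pi ^ 2 := min_le_right _ _
    calc c * ψ ^ 2 * m ≤ k / 2 / Real.pi ^ 2 * ψ ^ 2 * m := by gcongr
      _ = k / 2 * m * θ := by
        rw [hθ]
        ring
  calc K * Q * Real.exp (-(k / 2 * m * θ)) ≤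
      K * (|(y : ℝ)| / ((m : ℝ) + 1) ^ (3 / 2 : ℝ) *
        Real.exp (-(c * (y : ℝ) ^ 2 / (m + 1)))) * Real.exp (-(c * ψ ^ 2 * m)) := by
        refine mul_le_mul (mul_le_mul_of_nonneg_left e6 hK0.le) e7 (Real.exp_pos _).le ?_
        positivity
    _ = _ := by ring

end

end Pool.Agent.SAPY
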