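import Pool.Agent.SAPX.MainX

/-!
Self-avoiding polygons of given perimeter and given width: definitions.

Every block of length `m` and span `s` gets the additional complex factor `exp (i ψ (s - μ m))`; the
kernels `F ψ`, `G ψ` below are the twisted versions of the kernels `f`, `g` of `SAPX`.
-/

namespace Pool.Agent.SAPY

open Filter Topology Pool.Agent.SAPX

/-! ### complex occupation measures -/

/-- `L` is the occupation measure of the complex kernel `g` started with the law `l` -/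
def RecC (g : ℕ → ℤ → ℤ → ℂ) (l L : ℕ → ℤ → ℂ) : Prop :=
  ∀ m y, L m y = l m y + ∑ k ∈ Finset.range m,
    ∑ x ∈ Finset.Icc (y - ((m : ℤ) - k)) (y + ((m : ℤ) - k)), L k x * g (m - k) x y

/-- the complex occupation measure -/
noncomputable def occC (g : ℕ → ℤ → ℤ → ℂ) (l : ℕ → ℤ → ℂ) (m : ℕ) (y : ℤ) : ℂ :=
  l m y + ∑ k : Fin m,
    ∑ x ∈ Finset.Icc (y - ((m : ℤ) - (k : ℕ))) (y + ((m : ℤ) - (k : ℕ))),
      occC g l k x * g (m - k) x y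
termination_by m
decreasing_by exact k.2

lemma recC_occC (g : ℕ → ℤ → ℤ → ℂ) (l : ℕ → ℤ → ℂ) : RecC g l (occC g l) := by
  intro m y
  rw [occC]
  congr 1
  exact Fin.sum_univ_eq_sum_range (fun k =>
    ∑ x ∈ Finset.Icc (y - ((m : ℤ) - k)) (y + ((m : ℤ) - k)), occC g l k x * g (m - k) x y) m

lemma RecC.unique {g : ℕ → ℤ → ℤ → ℂ} {l L L' : ℕ → ℤ → ℂ} (h : RecC g l L) (h' : RecC g l L') :
    L = L' := by
  have key : ∀ m, ∀ y, L m y = L' m y := by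
    intro m
    induction m using Nat.strong_induction_on with
    | _ m ih =>
      intro y
      rw [h m y, h' m y]
      congr 1
      refine Finset.sum_congr rfl fun k hk => Finset.sum_congr rfl fun x _ => ?_
      rw [ih k (Finset.mem_range.1 hk) x]
  funext m y
  exact key m y

/-- a complex occupation measure is bounded by the real one -/
lemma recC_norm_le {g : ℕ → ℤ → ℤ → ℝ} {l L : ℕ → ℤ → ℝ} {g' : ℕ → ℤ → ℤ → ℂ} {l' L' : ℕ → ℤ → ℂ}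
    (h : Rec g l L) (h' : RecC g' l' L') (hg : ∀ m x y, ‖g' m x y‖ ≤ g m x y)
    (hl : ∀ m y, ‖l' m y‖ ≤ l m y) (m : ℕ) (y : ℤ) : ‖L' m y‖ ≤ L m y := by
  induction m using Nat.strong_induction_on generalizing y with
  | _ m ih =>
    rw [h m y, h' m y]
    refine (norm_add_le _ _).trans (add_le_add (hl m y) ?_)
    refine (norm_sum_le _ _).trans (Finset.sum_le_sum fun k hk => ?_)
    refine (norm_sum_le _ _).trans (Finset.sum_le_sum fun x _ => ?_)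
    rw [norm_mul]
    exact mul_le_mul (ih k (Finset.mem_range.1 hk) x) (hg _ _ _) (norm_nonneg _)
      ((norm_nonneg _).trans (ih k (Finset.mem_range.1 hk) x))

/-- reversed kernel -/
def revC (g : ℕ → ℤ → ℤ → ℂ) (m : ℕ) (x y : ℤ) : ℂ := g m y x

/-- the free kernel -/
def freeC (F : ℕ → ℤ → ℂ) (m : ℕ) (x y : ℤ) : ℂ := F m (y - x)

/-- unit mass at `(k, x)` -/
def dlC (k : ℕ) (x : ℤ) (m : ℕ) (y : ℤ) : ℂ := if m = k ∧ y = x then 1 else 0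

/-- renewal measure of the free walk -/
noncomputable def uC (F : ℕ → ℤ → ℂ) : ℕ → ℤ → ℂ := occC (freeC F) (dlC 0 0)

/-- its cosine transform -/
noncomputable def UC (F : ℕ → ℤ → ℂ) (θ : ℝ) (m : ℕ) : ℂ :=
  ∑ d ∈ Finset.Icc (-(m : ℤ)) m, uC F m d * ((Real.cos (θ * d) : ℝ) : ℂ)

/-! ### twisted kernels -/

/-- twisted law; `s2` is the second moment of the additive functional of a block -/
structure TwLaw (f : ℕ → ℤ → ℝ) (F : ℝ → ℕ → ℤ → ℂ) (s2 : ℝ) : Prop where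
  s2_pos : 0 < s2
  le : ∀ ψ m d, ‖F ψ m d‖ ≤ f m d
  symm : ∀ ψ m d, F ψ m (-d) = F ψ m d
  lip : ∃ K, 0 ≤ K ∧ ∀ ψ m d, ‖F ψ m d - (f m d : ℂ)‖ ≤ K * |ψ| * m * f m d
  sec : ∃ K, 0 ≤ K ∧ ∀ ψ : ℝ, ‖(∑' p : ℕ × ℤ, ((f p.1 p.2 : ℂ) - F ψ p.1 p.2)) -
    ((s2 / 2 * ψ ^ 2 : ℝ) : ℂ)‖ ≤ K * |ψ| ^ 3
  gap : ∃ κ > 0, ∃ (m₀ : ℕ) (d₀ : ℤ), ∀ ψ : ℝ, |ψ| ≤ Real.pi → ‖F ψ m₀ d₀‖ ≤ f m₀ d₀ - κ * ψ ^ 2
  down : ∀ x : ℕ, 0 < x → ∃ m, 0 < f m (-(x : ℤ))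

/-- twisted killed kernel -/
structure TwKilled (f : ℕ → ℤ → ℝ) (g : ℕ → ℤ → ℤ → ℝ) (F : ℝ → ℕ → ℤ → ℂ)
    (G : ℝ → ℕ → ℤ → ℤ → ℂ) : Prop where
  le : ∀ ψ m x y, ‖G ψ m x y‖ ≤ g m x y
  sub : ∀ ψ m x y, ‖F ψ m (y - x) - G ψ m x y‖ ≤ f m (y - x) - g m x y
  cont : ∀ m x y, Tendsto (fun ψ => G ψ m x y) (𝓝 0) (𝓝 (g m x y : ℂ))

/-- twisted law of a cap -/
structure TwCap (l : ℕ → ℤ → ℝ) (l' : ℝ → ℕ → ℤ → ℂ) : Prop where
  le : ∀ ψ m x, ‖l' ψ m x‖ ≤ l m x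
  cont : ∀ m x, Tendsto (fun ψ => l' ψ m x) (𝓝 0) (𝓝 (l m x : ℂ))

/-- twisted marked kernel -/
structure TwMarked (φ : ℕ → ℤ → ℝ) (ψ₀ : ℕ → ℤ → ℤ → ℝ) (Φ : ℝ → ℕ → ℤ → ℂ)
    (Ψ : ℝ → ℕ → ℤ → ℤ → ℂ) : Prop where
  le : ∀ ψ m x y, ‖Ψ ψ m x y‖ ≤ ψ₀ m x y
  far : ∀ ψ (m : ℕ) (x y : ℤ), (m : ℤ) < x → Ψ ψ m x y = Φ ψ m (y - x)
  cont : ∀ m d, Tendsto (fun ψ => Φ ψ m d) (𝓝 0) (𝓝 (φ m d : ℂ))

/-- what is used about the twisted occupation measures (`s` is the variance of the height and `b`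
the variance of the additive functional, per unit of length) -/
structure ProfC (s b : ℝ) (L : ℝ → ℕ → ℤ → ℂ) (C : ℝ) : Prop where
  supp : ∀ ψ m y, L ψ m y ≠ 0 → 0 < y ∧ y ≤ m ∧ Even ((m : ℤ) + y)
  bd : ∃ K c, 0 < K ∧ 0 < c ∧ ∀ ψ : ℝ, |ψ| ≤ Real.pi → ∀ (m : ℕ) (y : ℤ), ‖L ψ m y‖ ≤
      K * |(y : ℝ)| / ((m : ℝ) + 1) ^ (3 / 2 : ℝ) * Real.exp (-(c * (y : ℝ) ^ 2 / (m + 1))) *
        Real.exp (-(c * ψ ^ 2 * m))
  lim : ∀ (t χ : ℝ), 0 < t → ∀ (m : ℕ → ℕ) (y : ℕ → ℤ) (ψ : ℕ → ℝ), Tendsto m atTop atTop →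
    (∀ᶠ k in atTop, Even ((m k : ℤ) + y k)) →
    Tendsto (fun k => (y k : ℝ) / Real.sqrt (m k)) atTop (𝓝 t) →
    Tendsto (fun k => ψ k * Real.sqrt (m k)) atTop (𝓝 χ) →
    Tendsto (fun k => ((m k : ℝ) : ℂ) * L (ψ k) (m k) (y k)) atTop
      (𝓝 ((C * (t * Real.exp (-(t ^ 2 / (2 * s)))) * Real.exp (-(b * χ ^ 2 / 2)) : ℝ) : ℂ))

/-- sums over configurations with a marked block -/
noncomputable def SSC (a : ℕ) (L : ℕ → ℤ → ℂ) (Ψ : ℕ → ℤ → ℤ → ℂ) (R : ℕ → ℤ → ℂ) (N : ℕ) : ℂ :=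
  ∑ i ∈ Finset.range (N + 1), ∑ j ∈ Finset.range (N + 1 - i), ∑ x ∈ Finset.Icc 1 (i : ℤ),
    ∑ y ∈ Finset.Icc 1 ((N - i - j : ℕ) : ℤ),
      (x : ℂ) ^ a * L i x * Ψ j x y * R (N - i - j) y

/-- Gaussian density with variance `b` -/
noncomputable def gau (b z : ℝ) : ℝ := 1 / Real.sqrt (2 * Real.pi * b) * Real.exp (-(z ^ 2 / (2 * b)))

lemma gau_pos {b : ℝ} (hb : 0 < b) (z : ℝ) : 0 < gau b z := by
  unfold gau
  have := Real.pi_pos
  positivity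

/-! ### the kernels of the polygons -/

open Pool.Agent.SAPF Pool.Agent.SAPK

/-- the additional factor of a pair -/
noncomputable def tw (μ ψ : ℝ) (p : PW) : ℂ :=
  Complex.exp (Complex.I * ((ψ * (((X p.1 : ℝ) + X p.2) / 2 - μ * ln p) : ℝ) : ℂ))

open Classical in
/-- total twisted weight of the marked blocks of length `m` and height `d` -/
noncomputable def mkfC (A : Set Word) (u c μ : ℝ) (ω : PW → ℝ) (ψ : ℝ) (m : ℕ) (d : ℤ) : ℂ :=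
  ∑ p ∈ (blk A m).filter (fun p => ht p = d), ((ω p * wt u c p : ℝ) : ℂ) * tw μ ψ p

open Classical in
/-- the same, for the blocks admissible at the gap `x` that lead to the gap `y` -/
noncomputable def mkgC (A : Set Word) (u c μ : ℝ) (ω : PW → ℝ) (ψ : ℝ) (m : ℕ) (x y : ℤ) : ℂ :=
  if 0 < x ∧ 0 < y then
    ∑ p ∈ (blk A m).filter (fun p => ht p = y - x ∧ Disj x p), ((ω p * wt u c p : ℝ) : ℂ) * tw μ ψ p
  else 0

open Classical in
/-- twisted left caps -/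
noncomputable def lamC (A : Set Word) (u c μ : ℝ) (ψ : ℝ) (m : ℕ) (x : ℤ) : ℂ :=
  if 0 < x then ∑ p ∈ (blk A m).filter (fun p => ht p = x ∧ CapL p), (wt u c p : ℂ) * tw μ ψ p
  else 0

open Classical in
/-- twisted right caps -/
noncomputable def rhoC (A : Set Word) (u c μ : ℝ) (ψ : ℝ) (m : ℕ) (x : ℤ) : ℂ :=
  if 0 < x then ∑ p ∈ (blk A m).filter (fun p => CapR x p), (wt u c p : ℂ) * tw μ ψ p else 0

/-- twisted occupation measure from the left -/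
noncomputable def LC (A : Set Word) (u c μ ψ : ℝ) : ℕ → ℤ → ℂ :=
  occC (mkgC A u c μ one ψ) (lamC A u c μ ψ)

/-- twisted occupation measure from the right -/
noncomputable def RC (A : Set Word) (u c μ ψ : ℝ) : ℕ → ℤ → ℂ :=
  occC (revC (mkgC A u c μ one ψ)) (rhoC A u c μ ψ)

/-- the span of a block -/
noncomputable def spn (q : PW) : ℝ := |((X q.1 : ℤ) : ℝ)|

/-- mean span per unit of length -/
noncomputable def muA (A : Set Word) (u c : ℝ) : ℝ :=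
  (∑' p : ℕ × ℤ, mkf A u c spn p.1 p.2) / mean (mkf A u c one)

/-- second moment of `span - μ length` of a block -/
noncomputable def s2A (A : Set Word) (u c μ : ℝ) : ℝ :=
  ∑' p : ℕ × ℤ, mkf A u c (fun q => (spn q - μ * ln q) ^ 2) p.1 p.2

/-- the block of length 8, height 2 and span 2 (its partner is `(ENNNN, ENN)`) -/
def bw : Word := [Dir.E, Dir.E, Dir.N, Dir.W, Dir.N, Dir.E]

open Classical in
/-- canonical pairs of the polygons of perimeter `2 n` and width `W - 1` -/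
noncomputable def canW (A : Set Word) (n : ℕ) (W : ℤ) : Finset PW :=
  (can A n).filter fun p => X p.1 = W

end Pool.Agent.SAPY
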