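import Pool.Agent.SAPY.FixW

/-!
Mean area at fixed width, and for sets of widths with a given minimum.
-/

namespace Pool.Agent.SAPY

open Filter Topology Pool.Agent.SAPX Pool.Agent.SAPF Pool.Agent.SAPK

section
variable {A : Set Word} {u c : ℝ}

open Classical in
lemma canW_sum_le {n : ℕ} (W : ℤ) {r : PW → ℝ} (hr : ∀ p ∈ can A n, 0 ≤ r p) :
    ∑ p ∈ canW A n W, r p ≤ ∑ p ∈ can A n, r p := by
  unfold canW
  exact Finset.sum_le_sum_of_subset_of_nonneg (Finset.filter_subset _ _) fun p hp _ => hr p hp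

open Classical in
lemma mem_canW {n : ℕ} {W : ℤ} {p : PW} : p ∈ canW A n W ↔ p ∈ can A n ∧ X p.1 = W := by
  unfold canW
  rw [Finset.mem_filter]

/-- all blocks at fixed width -/
lemma fixed_tot (hA : IsClass A) (hf : FreeLaw (mkf A u c one)) {k : ℕ → ℝ} {b : ℝ}
    (h : ∀ (a q : ℕ) (ω : PW → ℝ), (∀ p, 0 ≤ ω p) →
    (∀ p, IsPIrr p → ω p ≤ (ln p : ℝ) ^ q) → (∀ q, IsPIrr q → ω (q.2, q.1) = ω q) →
    (∀ (n : ℕ → ℕ) (W : ℕ → ℤ) (z : ℝ), Tendsto n atTop atTop →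
    Tendsto (fun j => ((W j : ℝ) - muA A u c * ((2 * (n j + 1) : ℕ) : ℝ)) /
      Real.sqrt ((2 * (n j + 1) : ℕ) : ℝ)) atTop (𝓝 z) →
    Tendsto (fun j : ℕ => ((2 * (n j + 1) : ℕ) : ℝ) ^ ((2 - (a : ℝ)) / 2) *
      ∑ p ∈ canW A (n j) (W j), wt u c p * inr a ω p) atTop
      (𝓝 (k a * (∑' p : ℕ × ℤ, mkf A u c ω p.1 p.2) * gau b z))) ∧
    ∃ K, ∀ n : ℕ, 2 ≤ n → ∀ W : ℤ, ((2 * (n + 1) : ℕ) : ℝ) ^ ((2 - (a : ℝ)) / 2) *
      ∑ p ∈ canW A n W, wt u c p * inr a ω p ≤ K)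
    (q : ℕ) (ω : PW → ℝ) (h0 : ∀ p, 0 ≤ ω p)
    (h1 : ∀ p, IsPIrr p → ω p ≤ (ln p : ℝ) ^ q) (hω : ∀ q, IsPIrr q → ω (q.2, q.1) = ω q) :
    (∀ (n : ℕ → ℕ) (W : ℕ → ℤ) (z : ℝ), Tendsto n atTop atTop →
    Tendsto (fun j => ((W j : ℝ) - muA A u c * ((2 * (n j + 1) : ℕ) : ℝ)) /
      Real.sqrt ((2 * (n j + 1) : ℕ) : ℝ)) atTop (𝓝 z) →
    Tendsto (fun j : ℕ => ((2 * (n j + 1) : ℕ) : ℝ) *
      ∑ p ∈ canW A (n j) (W j), wt u c p * tot ω p) atTop
      (𝓝 (k 0 * (∑' p : ℕ × ℤ, mkf A u c ω p.1 p.2) * gau b z))) ∧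
    ∃ K, ∀ n : ℕ, 2 ≤ n → ∀ W : ℤ, ((2 * (n + 1) : ℕ) : ℝ) *
      ∑ p ∈ canW A n W, wt u c p * tot ω p ≤ K := by
  have he := fixed_ends hA hf h0 h1 hω
  obtain ⟨h2, K, h3⟩ := h 0 q ω h0 h1 hω
  have hnn : ∀ n, ∀ p ∈ can A n, 0 ≤ wt u c p * (tot ω p - inr 0 ω p) := fun n p _ =>
    mul_nonneg (wt_pos u c p).le (sub_nonneg.2 (inr_le_tot h0 p))
  have hpow : ∀ n : ℕ, ((2 * (n + 1) : ℕ) : ℝ) ^ ((2 - ((0 : ℕ) : ℝ)) / 2) =
      ((2 * (n + 1) : ℕ) : ℝ) := by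
    intro n
    rw [show ((2 : ℝ) - ((0 : ℕ) : ℝ)) / 2 = 1 by norm_num, Real.rpow_one]
  have hsplit : ∀ (n : ℕ) (W : ℤ), ((2 * (n + 1) : ℕ) : ℝ) * ∑ p ∈ canW A n W, wt u c p * tot ω p =
      ((2 * (n + 1) : ℕ) : ℝ) * ∑ p ∈ canW A n W, wt u c p * inr 0 ω p +
      ((2 * (n + 1) : ℕ) : ℝ) * ∑ p ∈ canW A n W, wt u c p * (tot ω p - inr 0 ω p) := by
    intro n W
    rw [← mul_add, ← Finset.sum_add_distrib]
    congr 1
    refine Finset.sum_congr rfl fun p _ => ?_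
    ring
  simp only [hpow] at h2 h3
  refine ⟨fun n W z hn hW => ?_, ?_⟩
  · have h4 := h2 n W z hn hW
    have h5 : Tendsto (fun j : ℕ => ((2 * (n j + 1) : ℕ) : ℝ) *
        ∑ p ∈ canW A (n j) (W j), wt u c p * (tot ω p - inr 0 ω p)) atTop (𝓝 0) := by
      refine squeeze_zero (fun j => ?_) (fun j => ?_) (he.comp hn)
      · exact mul_nonneg (by positivity) (Finset.sum_nonneg fun p hp =>
          hnn (n j) p (mem_canW.1 hp).1)
      · exact mul_le_mul_of_nonneg_left (canW_sum_le _ (hnn (n j))) (by positivity)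
    have h6 := h4.add h5
    rw [add_zero] at h6
    exact h6.congr fun j => (hsplit (n j) (W j)).symm
  · obtain ⟨B, hB⟩ := he.bddAbove_range
    refine ⟨K + B, fun n hn W => ?_⟩
    rw [hsplit]
    refine add_le_add (h3 n hn W) (le_trans ?_ (hB ⟨n, rfl⟩))
    exact mul_le_mul_of_nonneg_left (canW_sum_le _ (hnn n)) (by positivity)

/-- partition function and total area at fixed width -/
theorem fixed_main (hA : IsClass A) (hb : bw ∈ A) (hf : FreeLaw (mkf A u c one)) :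
    ∃ κ₀ κ₁ b K : ℝ, 0 < κ₀ ∧ 0 < κ₁ ∧ 0 < b ∧
    (∀ (n : ℕ → ℕ) (W : ℕ → ℤ) (z : ℝ), Tendsto n atTop atTop →
    Tendsto (fun j => ((W j : ℝ) - muA A u c * ((2 * (n j + 1) : ℕ) : ℝ)) /
      Real.sqrt ((2 * (n j + 1) : ℕ) : ℝ)) atTop (𝓝 z) →
    Tendsto (fun j : ℕ => ((2 * (n j + 1) : ℕ) : ℝ) ^ 2 *
      ∑ p ∈ canW A (n j) (W j), wt u c p) atTop (𝓝 (κ₀ * gau b z)) ∧
    Tendsto (fun j : ℕ => ((2 * (n j + 1) : ℕ) : ℝ) ^ (1 / 2 : ℝ) *
      ∑ p ∈ canW A (n j) (W j), wt u c p * area (poly (n j) p)) atTop (𝓝 (κ₁ * gau b z))) ∧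
    ∀ n : ℕ, 2 ≤ n → ∀ W : ℤ,
      ((2 * (n + 1) : ℕ) : ℝ) ^ 2 * ∑ p ∈ canW A n W, wt u c p ≤ K ∧
      ((2 * (n + 1) : ℕ) : ℝ) ^ (1 / 2 : ℝ) *
        ∑ p ∈ canW A n W, wt u c p * area (poly n p) ≤ K := by
  obtain ⟨k, hk, b, hbp, h⟩ := fixed_sum hA hb hf
  -- the functionals
  obtain ⟨z1, K1, hK1⟩ := fixed_tot hA hf h 1 (fun q => (ln q : ℝ)) (fun p => by positivity)
    (fun p _ => by simp) (fun q _ => by simp only [ln]; push_cast; ring)
  obtain ⟨z2, K2, hK2⟩ := h 1 1 (fun q => |((X q.1 : ℤ) : ℝ)|) (fun p => abs_nonneg _)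
    (fun p hp => sp_le hp) (fun q hq => by simp only; rw [hq.pb.span])
  obtain ⟨z3, K3, hK3⟩ := fixed_tot hA hf h 2 (fun q => (ln q : ℝ) ^ 2) (fun p => by positivity)
    (fun p _ => le_rfl) (fun q _ => by simp only [ln]; push_cast; ring)
  set S₀ : ℝ := ∑' p : ℕ × ℤ, mkf A u c (fun q => (ln q : ℝ)) p.1 p.2 with hS₀
  have hS₀pos : 0 < S₀ := sum_mkf_pos hA hf (q := 1) (fun p => by positivity)
    (fun p _ => by simp) (by simp [ln])
  set S₁ : ℝ := ∑' p : ℕ × ℤ, mkf A u c (fun q => |((X q.1 : ℤ) : ℝ)|) p.1 p.2 with hS₁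
  have hS₁pos : 0 < S₁ := sum_mkf_pos hA hf (q := 1) (fun p => abs_nonneg _)
    (fun p hp => sp_le hp) (by simp [Dir.dx])
  have hZ : ∀ (n : ℕ) (W : ℤ), ((2 * (n + 1) : ℕ) : ℝ) ^ 2 * ∑ p ∈ canW A n W, wt u c p =
      ((2 * (n + 1) : ℕ) : ℝ) * ∑ p ∈ canW A n W, wt u c p * tot (fun q => (ln q : ℝ)) p := by
    intro n W
    rw [sq, mul_assoc, Finset.mul_sum]
    congr 1
    refine Finset.sum_congr rfl fun p hp => ?_
    rw [tot_ln (mem_canW.1 hp).1, mul_comm]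
  have hpow : ∀ n : ℕ, ((2 * (n + 1) : ℕ) : ℝ) ^ ((2 - ((1 : ℕ) : ℝ)) / 2) =
      ((2 * (n + 1) : ℕ) : ℝ) ^ (1 / 2 : ℝ) := by
    intro n
    norm_num
  simp only [hpow] at z2 hK2
  -- the error
  have herr : ∀ (n : ℕ) (W : ℤ), 2 ≤ n →
      |((2 * (n + 1) : ℕ) : ℝ) ^ (1 / 2 : ℝ) *
        ∑ p ∈ canW A n W, wt u c p * area (poly n p) -
      ((2 * (n + 1) : ℕ) : ℝ) ^ (1 / 2 : ℝ) *
        ∑ p ∈ canW A n W, wt u c p * inr 1 (fun q => |((X q.1 : ℤ) : ℝ)|) p| ≤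
      2 * (((2 * (n + 1) : ℕ) : ℝ) ^ (1 / 2 : ℝ))⁻¹ * (((2 * (n + 1) : ℕ) : ℝ) *
        ∑ p ∈ canW A n W, wt u c p * tot (fun q => (ln q : ℝ) ^ 2) p) := by
    intro n W hn
    have hN : (0 : ℝ) < ((2 * (n + 1) : ℕ) : ℝ) := by positivity
    rw [← mul_sub, abs_mul, abs_of_nonneg (by positivity :
      (0 : ℝ) ≤ ((2 * (n + 1) : ℕ) : ℝ) ^ (1 / 2 : ℝ)), ← Finset.sum_sub_distrib]
    have h5 : |∑ p ∈ canW A n W, (wt u c p * area (poly n p) -
        wt u c p * inr 1 (fun q => |((X q.1 : ℤ) : ℝ)|) p)| ≤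
        2 * ∑ p ∈ canW A n W, wt u c p * tot (fun q => (ln q : ℝ) ^ 2) p := by
      rw [Finset.mul_sum]
      refine (Finset.abs_sum_le_sum_abs _ _).trans (Finset.sum_le_sum fun p hp => ?_)
      rw [← mul_sub, abs_mul, abs_of_pos (wt_pos u c p)]
      calc wt u c p * |(area (poly n p) : ℝ) - inr 1 (fun q => |((X q.1 : ℤ) : ℝ)|) p|
          ≤ wt u c p * (2 * tot (fun q => (ln q : ℝ) ^ 2) p) :=
            mul_le_mul_of_nonneg_left (area_blocks hn (mem_canW.1 hp).1) (wt_pos u c p).le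
        _ = _ := by ring
    refine (mul_le_mul_of_nonneg_left h5 (by positivity)).trans (le_of_eq ?_)
    have h6 : ((2 * (n + 1) : ℕ) : ℝ) = ((2 * (n + 1) : ℕ) : ℝ) ^ (1 / 2 : ℝ) *
        ((2 * (n + 1) : ℕ) : ℝ) ^ (1 / 2 : ℝ) := by
      rw [← Real.rpow_add hN]
      norm_num
    have h7 : (((2 * (n + 1) : ℕ) : ℝ) ^ (1 / 2 : ℝ))⁻¹ * ((2 * (n + 1) : ℕ) : ℝ) =
        ((2 * (n + 1) : ℕ) : ℝ) ^ (1 / 2 : ℝ) := by
      nth_rewrite 2 [h6]
      rw [← mul_assoc, inv_mul_cancel₀ (by positivity), one_mul]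
    calc _ = ((2 * (n + 1) : ℕ) : ℝ) ^ (1 / 2 : ℝ) *
          (2 * ∑ p ∈ canW A n W, wt u c p * tot (fun q => (ln q : ℝ) ^ 2) p) := by ring
      _ = 2 * ((((2 * (n + 1) : ℕ) : ℝ) ^ (1 / 2 : ℝ))⁻¹ * ((2 * (n + 1) : ℕ) : ℝ)) *
          ∑ p ∈ canW A n W, wt u c p * tot (fun q => (ln q : ℝ) ^ 2) p := by rw [h7]; ring
      _ = _ := by ring
  refine ⟨k 0 * S₀, k 1 * S₁, b, max K1 (K2 + 2 * |K3|), mul_pos (hk 0) hS₀pos,
    mul_pos (hk 1) hS₁pos, hbp, fun n W z hn hW => ⟨?_, ?_⟩, fun n hn W => ⟨?_, ?_⟩⟩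
  · exact (z1 n W z hn hW).congr fun j => (hZ (n j) (W j)).symm
  · have hinv : Tendsto (fun j : ℕ => (((2 * (n j + 1) : ℕ) : ℝ) ^ (1 / 2 : ℝ))⁻¹) atTop
        (𝓝 0) := by
      refine Tendsto.inv_tendsto_atTop ?_
      refine (tendsto_rpow_atTop (by norm_num : (0 : ℝ) < 1 / 2)).comp ?_
      exact tendsto_natCast_atTop_atTop.comp (tendsto_N.comp hn)
    have h4 := (hinv.const_mul 2).mul (z3 n W z hn hW)
    simp only [mul_zero, zero_mul] at h4
    have h5 : Tendsto (fun j => ((2 * (n j + 1) : ℕ) : ℝ) ^ (1 / 2 : ℝ) *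
        ∑ p ∈ canW A (n j) (W j), wt u c p * area (poly (n j) p) -
      ((2 * (n j + 1) : ℕ) : ℝ) ^ (1 / 2 : ℝ) *
        ∑ p ∈ canW A (n j) (W j), wt u c p * inr 1 (fun q => |((X q.1 : ℤ) : ℝ)|) p)
        atTop (𝓝 0) := by
      refine squeeze_zero_norm' ?_ h4
      filter_upwards [hn.eventually (eventually_ge_atTop 2)] with j hj
      rw [Real.norm_eq_abs]
      exact herr (n j) (W j) hj
    have h6 := h5.add (z2 n W z hn hW)
    rw [zero_add] at h6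
    exact h6.congr fun j => by ring
  · exact ((hZ n W).le.trans (hK1 n hn W)).trans (le_max_left _ _)
  · have h4 := (abs_le.1 (herr n W hn)).2
    have h5 := hK2 n hn W
    have h6 := hK3 n hn W
    have hN : (1 : ℝ) ≤ ((2 * (n + 1) : ℕ) : ℝ) := by
      have : 1 ≤ 2 * (n + 1) := by omega
      exact_mod_cast this
    have h7 : (((2 * (n + 1) : ℕ) : ℝ) ^ (1 / 2 : ℝ))⁻¹ ≤ 1 :=
      inv_le_one_of_one_le₀ (Real.one_le_rpow hN (by norm_num))
    have h8 : 0 < (((2 * (n + 1) : ℕ) : ℝ) ^ (1 / 2 : ℝ))⁻¹ := by positivity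
    have h9 : 2 * (((2 * (n + 1) : ℕ) : ℝ) ^ (1 / 2 : ℝ))⁻¹ * (((2 * (n + 1) : ℕ) : ℝ) *
        ∑ p ∈ canW A n W, wt u c p * tot (fun q => (ln q : ℝ) ^ 2) p) ≤ 2 * |K3| := by
      calc _ ≤ 2 * (((2 * (n + 1) : ℕ) : ℝ) ^ (1 / 2 : ℝ))⁻¹ * |K3| :=
            mul_le_mul_of_nonneg_left (h6.trans (le_abs_self _)) (by positivity)
        _ ≤ 2 * 1 * |K3| := by gcongr
        _ = _ := by ring
    refine le_trans ?_ (le_max_right _ _)
    linarith

/-! ### sets of widths -/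

lemma wt_can {n : ℕ} {W : ℤ} {p : PW} (hp : p ∈ canW A n W) :
    wt u c p = Real.exp (-(u * ((2 * (n + 1) : ℕ) : ℝ)) + 2 * c * W) := by
  obtain ⟨h1, h2⟩ := mem_canW.1 hp
  obtain ⟨h3, h4, -, -⟩ := mem_can.1 h1
  unfold wt
  rw [← h4.pb.span, h3, h2]
  congr 1
  push_cast
  ring

lemma canW_empty {n : ℕ} {W : ℤ} (h : (2 * n + 2 : ℤ) < W) : canW A n W = ∅ := by
  refine Finset.eq_empty_of_forall_notMem fun p hp => ?_
  obtain ⟨h1, h2⟩ := mem_canW.1 hp
  obtain ⟨h3, -, -, -⟩ := mem_can.1 h1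
  have h4 := (abs_le.1 (abs_X_le p.1)).2
  unfold ln at h3
  omega

open Classical in
/-- the polygons with width in `J` -/
noncomputable def canJ (A : Set Word) (n : ℕ) (J : Set ℤ) : Finset PW :=
  (can A n).filter fun p => X p.1 - 1 ∈ J

open Classical in
lemma sum_canJ {n : ℕ} {J : Set ℤ} {w : ℤ} (hw : IsLeast J w) (r : PW → ℝ) :
    ∑ p ∈ canJ A n J, r p =
      ∑' k : ℕ, if w + k ∈ J then ∑ p ∈ canW A n (w + 1 + k), r p else 0 := by
  obtain ⟨M, hM⟩ : ∃ M : ℕ, M = (2 * n + 2 - w : ℤ).toNat := ⟨_, rfl⟩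
  rw [tsum_eq_sum (s := Finset.range M)]
  · rw [← Finset.sum_fiberwise_of_maps_to (s := canJ A n J) (t := Finset.range M)
      (g := fun p => (X p.1 - 1 - w).toNat)]
    · refine Finset.sum_congr rfl fun k _ => ?_
      have h1 : (canJ A n J).filter (fun p => (X p.1 - 1 - w).toNat = k) =
          if w + k ∈ J then canW A n (w + 1 + k) else ∅ := by
        ext p
        unfold canJ
        rw [Finset.mem_filter, Finset.mem_filter]
        constructor
        · rintro ⟨⟨h1, h2⟩, h3⟩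
          have h4 := hw.2 h2
          have h5 : X p.1 = w + 1 + k := by omega
          rw [if_pos (by rw [h5] at h2; rwa [show w + 1 + (k : ℤ) - 1 = w + k by ring] at h2)]
          exact mem_canW.2 ⟨h1, h5⟩
        · intro h1
          split_ifs at h1 with h2
          · obtain ⟨h3, h4⟩ := mem_canW.1 h1
            refine ⟨⟨h3, ?_⟩, ?_⟩
            · rw [h4, show w + 1 + (k : ℤ) - 1 = w + k by ring]
              exact h2
            · rw [h4]
              omega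
          · exact absurd h1 (Finset.notMem_empty p)
      rw [h1]
      split_ifs <;> simp
    · intro p hp
      unfold canJ at hp
      rw [Finset.mem_filter] at hp
      obtain ⟨h3, -, -, -⟩ := mem_can.1 hp.1
      have h4 := (abs_le.1 (abs_X_le p.1)).2
      have h5 := hw.2 hp.2
      unfold ln at h3
      rw [Finset.mem_range]
      omega
  · intro k hk
    rw [Finset.mem_range, not_lt] at hk
    rw [canW_empty (by omega)]
    simp

theorem ratioJ (hA : IsClass A) (hb : bw ∈ A) (hc : 0 < c) (hf : FreeLaw (mkf A u c one)) :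
    ∃ C > 0, ∀ (J : ℕ → Set ℤ) (w : ℕ → ℤ) (B : ℝ), (∀ n, IsLeast (J n) (w n)) →
    (∀ n : ℕ, |(w n : ℝ) - 2 * muA A u c * n| ≤ B * Real.sqrt n) →
    Tendsto (fun n : ℕ => (∑ p ∈ canJ A n (J n), (area (poly n p) : ℝ)) /
      ((canJ A n (J n)).card : ℝ) / (n : ℝ) ^ (3 / 2 : ℝ)) atTop (𝓝 C) := by
  classical
  obtain ⟨κ₀, κ₁, b, K, h₀, h₁, hbp, hlim, hbd⟩ := fixed_main hA hb hf
  set μ := muA A u c with hμ
  refine ⟨κ₁ / κ₀ * (2 : ℝ) ^ (3 / 2 : ℝ), by positivity, fun J w B hJ hB => ?_⟩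
  refine tendsto_of_subseq_tendsto fun ns hns => ?_
  -- convergence of the rescaled width along a subsequence
  have hbdd : ∀ j, (((w (ns j) + 1 : ℤ) : ℝ) - μ * ((2 * (ns j + 1) : ℕ) : ℝ)) /
      Real.sqrt ((2 * (ns j + 1) : ℕ) : ℝ) ∈
      Set.Icc (-(|B| + 1 + 2 * |μ|)) (|B| + 1 + 2 * |μ|) := by
    intro j
    rw [Set.mem_Icc, ← abs_le, abs_div, abs_of_nonneg (Real.sqrt_nonneg _)]
    have hN : (1 : ℝ) ≤ ((2 * (ns j + 1) : ℕ) : ℝ) := by
      have : 1 ≤ 2 * (ns j + 1) := by omega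
      exact_mod_cast this
    have hs : 1 ≤ Real.sqrt ((2 * (ns j + 1) : ℕ) : ℝ) := Real.one_le_sqrt.2 hN
    rw [div_le_iff₀ (by linarith)]
    have h1 := hB (ns j)
    have h2 : Real.sqrt (ns j) ≤ Real.sqrt ((2 * (ns j + 1) : ℕ) : ℝ) := by
      apply Real.sqrt_le_sqrt
      have : ns j ≤ 2 * (ns j + 1) := by omega
      exact_mod_cast this
    have h3 : ((w (ns j) + 1 : ℤ) : ℝ) - μ * ((2 * (ns j + 1) : ℕ) : ℝ) =
        ((w (ns j) : ℝ) - 2 * μ * (ns j)) + (1 - 2 * μ) := by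
      push_cast
      ring
    have h4 : B * Real.sqrt (ns j) ≤ |B| * Real.sqrt ((2 * (ns j + 1) : ℕ) : ℝ) := by
      calc B * Real.sqrt (ns j) ≤ |B| * Real.sqrt (ns j) :=
            mul_le_mul_of_nonneg_right (le_abs_self _) (Real.sqrt_nonneg _)
        _ ≤ _ := mul_le_mul_of_nonneg_left h2 (abs_nonneg _)
    have h5 : |(1 : ℝ) - 2 * μ| ≤ 1 + 2 * |μ| := by
      refine (abs_sub _ _).trans ?_
      rw [abs_one, abs_mul, abs_two]
    have h6 : 1 + 2 * |μ| ≤ (1 + 2 * |μ|) * Real.sqrt ((2 * (ns j + 1) : ℕ) : ℝ) :=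
      le_mul_of_one_le_right (by positivity) hs
    rw [h3]
    refine (abs_add_le _ _).trans ?_
    nlinarith
  obtain ⟨z, -, ms, hms, hz⟩ := tendsto_subseq_of_bounded (Metric.isBounded_Icc _ _) hbdd
  refine ⟨ms, ?_⟩
  set n : ℕ → ℕ := fun j => ns (ms j) with hn
  have hnt : Tendsto n atTop atTop := hns.comp hms.tendsto_atTop
  have hNt : Tendsto (fun j => Real.sqrt ((2 * (n j + 1) : ℕ) : ℝ)) atTop atTop :=
    Real.tendsto_sqrt_atTop.comp (tendsto_natCast_atTop_atTop.comp (tendsto_N.comp hnt))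
  have hW : ∀ k : ℕ, Tendsto (fun j => (((w (n j) + 1 + k : ℤ) : ℝ) -
      μ * ((2 * (n j + 1) : ℕ) : ℝ)) / Real.sqrt ((2 * (n j + 1) : ℕ) : ℝ)) atTop (𝓝 z) := by
    intro k
    have h1 : Tendsto (fun j => (k : ℝ) / Real.sqrt ((2 * (n j + 1) : ℕ) : ℝ)) atTop (𝓝 0) :=
      tendsto_const_nhds.div_atTop hNt
    have h2 := hz.add h1
    rw [add_zero] at h2
    refine h2.congr fun j => ?_
    simp only [Function.comp, hn]
    rw [← add_div]
    congr 1
    push_cast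
    ring
  have hl := fun k : ℕ => hlim n (fun j => w (n j) + 1 + k) z hnt (hW k)
  -- the summands
  set a : ℕ → ℕ → ℝ := fun j k => if w (n j) + k ∈ J (n j) then Real.exp (-(2 * c * k)) *
    (((2 * (n j + 1) : ℕ) : ℝ) ^ (1 / 2 : ℝ) *
      ∑ p ∈ canW A (n j) (w (n j) + 1 + k), wt u c p * area (poly (n j) p)) else 0 with ha
  set d : ℕ → ℕ → ℝ := fun j k => if w (n j) + k ∈ J (n j) then Real.exp (-(2 * c * k)) *
    (((2 * (n j + 1) : ℕ) : ℝ) ^ 2 *
      ∑ p ∈ canW A (n j) (w (n j) + 1 + k), wt u c p) else 0 with hd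
  have hgeo : Summable fun k : ℕ => Real.exp (-(2 * c * k)) := by
    have h1 := summable_geometric_of_lt_one (Real.exp_pos (-(2 * c))).le
      (Real.exp_lt_one_iff.2 (by linarith : -(2 * c) < 0))
    refine h1.congr fun k => ?_
    rw [← Real.exp_nat_mul]
    congr 1
    ring
  have hKn : 0 ≤ K := by
    have h1 := (hbd 2 le_rfl 0).1
    refine le_trans ?_ h1
    exact mul_nonneg (by positivity) (Finset.sum_nonneg fun p _ => (wt_pos u c p).le)
  have ha0 : ∀ j k, 0 ≤ a j k := by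
    intro j k
    simp only [ha]
    split_ifs
    · exact mul_nonneg (Real.exp_pos _).le (mul_nonneg (by positivity)
        (Finset.sum_nonneg fun p _ => mul_nonneg (wt_pos u c p).le (Nat.cast_nonneg _)))
    · exact le_rfl
  have hd0 : ∀ j k, 0 ≤ d j k := by
    intro j k
    simp only [hd]
    split_ifs
    · exact mul_nonneg (Real.exp_pos _).le (mul_nonneg (by positivity)
        (Finset.sum_nonneg fun p _ => (wt_pos u c p).le))
    · exact le_rfl
  have haK : ∀ᶠ j in atTop, ∀ k, a j k ≤ K * Real.exp (-(2 * c * k)) := by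
    filter_upwards [hnt.eventually (eventually_ge_atTop 2)] with j hj k
    simp only [ha]
    split_ifs
    · rw [mul_comm K]
      exact mul_le_mul_of_nonneg_left (hbd (n j) hj _).2 (Real.exp_pos _).le
    · positivity
  have hdK : ∀ᶠ j in atTop, ∀ k, d j k ≤ K * Real.exp (-(2 * c * k)) := by
    filter_upwards [hnt.eventually (eventually_ge_atTop 2)] with j hj k
    simp only [hd]
    split_ifs
    · rw [mul_comm K]
      exact mul_le_mul_of_nonneg_left (hbd (n j) hj _).1 (Real.exp_pos _).le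
    · positivity
  have has : ∀ᶠ j in atTop, Summable (a j) := by
    filter_upwards [haK] with j hj
    exact Summable.of_nonneg_of_le (ha0 j) hj (hgeo.mul_left K)
  have hds : ∀ᶠ j in atTop, Summable (d j) := by
    filter_upwards [hdK] with j hj
    exact Summable.of_nonneg_of_le (hd0 j) hj (hgeo.mul_left K)
  -- the difference tends to zero
  set ρ := κ₁ / κ₀ with hρ
  have hρ0 : 0 < ρ := by positivity
  have hdiff : Tendsto (fun j => ∑' k, (a j k - ρ * d j k)) atTop (𝓝 0) := by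
    have h1 : Tendsto (fun j => ∑' k, (a j k - ρ * d j k)) atTop (𝓝 (∑' _ : ℕ, (0 : ℝ))) := by
      refine tendsto_tsum_of_dominated_convergence
        (bound := fun k : ℕ => (K + ρ * K) * Real.exp (-(2 * c * k))) (hgeo.mul_left _) ?_ ?_
      · intro k
        have h2 := (hl k).2.sub ((hl k).1.const_mul ρ)
        have h3 : κ₁ * gau b z - ρ * (κ₀ * gau b z) = 0 := by
          rw [hρ]
          field_simp
          ring
        rw [h3] at h2
        have h4 := h2.const_mul (Real.exp (-(2 * c * k)))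
        rw [mul_zero] at h4
        have h5 := h4.norm
        rw [norm_zero] at h5
        refine squeeze_zero_norm (fun j => ?_) h5
        have h6 : a j k - ρ * d j k = if w (n j) + k ∈ J (n j) then
            Real.exp (-(2 * c * k)) * (((2 * (n j + 1) : ℕ) : ℝ) ^ (1 / 2 : ℝ) *
              ∑ p ∈ canW A (n j) (w (n j) + 1 + k), wt u c p * area (poly (n j) p) -
              ρ * (((2 * (n j + 1) : ℕ) : ℝ) ^ 2 *
                ∑ p ∈ canW A (n j) (w (n j) + 1 + k), wt u c p)) else 0 := by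
          simp only [ha, hd]
          split_ifs <;> ring
        rw [h6]
        split_ifs
        · exact le_rfl
        · rw [norm_zero]
          exact norm_nonneg _
      · filter_upwards [haK, hdK] with j h5 h6 k
        rw [Real.norm_eq_abs, abs_le]
        have h7 := h5 k
        have h8 := mul_le_mul_of_nonneg_left (h6 k) hρ0.le
        have h9 := ha0 j k
        have h10 := mul_nonneg hρ0.le (hd0 j k)
        have h11 : 0 ≤ K * Real.exp (-(2 * c * k)) := by positivity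
        have h12 : 0 ≤ ρ * (K * Real.exp (-(2 * c * k))) := by positivity
        constructor <;> nlinarith
    simpa using h1
  -- the denominator is bounded below
  have hden : Tendsto (fun j => d j 0) atTop (𝓝 (κ₀ * gau b z)) := by
    refine (hl 0).1.congr fun j => ?_
    simp only [hd]
    rw [if_pos (by simpa using (hJ (n j)).1)]
    simp
  have hgz : 0 < κ₀ * gau b z := mul_pos h₀ (gau_pos hbp z)
  have hden2 : ∀ᶠ j in atTop, κ₀ * gau b z / 2 ≤ ∑' k, d j k := by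
    filter_upwards [hden.eventually (lt_mem_nhds (half_lt_self hgz)), hds] with j h1 h2
    exact h1.le.trans (h2.le_tsum 0 fun k _ => hd0 j k)
  have hratio : Tendsto (fun j => (∑' k, a j k) / ∑' k, d j k) atTop (𝓝 ρ) := by
    have h1 : Tendsto (fun j => (∑' k, (a j k - ρ * d j k)) / ∑' k, d j k) atTop (𝓝 0) := by
      have h2 : Tendsto (fun j => |∑' k, (a j k - ρ * d j k)| / (κ₀ * gau b z / 2)) atTop
          (𝓝 0) := by
        have := hdiff.abs.div_const (κ₀ * gau b z / 2)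
        simpa using this
      refine squeeze_zero_norm' ?_ h2
      filter_upwards [hden2] with j hj
      rw [Real.norm_eq_abs, abs_div]
      have h3 : κ₀ * gau b z / 2 ≤ |∑' k, d j k| := hj.trans (le_abs_self _)
      exact div_le_div_of_nonneg_left (abs_nonneg _) (by linarith) h3
    have h4 := h1.add_const ρ
    rw [zero_add] at h4
    refine h4.congr' ?_
    filter_upwards [hden2, has, hds] with j h5 h6 h7
    have h8 : 0 < ∑' k, d j k := by linarith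
    rw [h6.tsum_sub (h7.mul_left ρ), tsum_mul_left]
    field_simp
    ring
  -- conclusion
  have hpow : Tendsto (fun j => (((2 * (n j + 1) : ℕ) : ℝ) / (n j : ℝ)) ^ (3 / 2 : ℝ)) atTop
      (𝓝 ((2 : ℝ) ^ (3 / 2 : ℝ))) := by
    have h1 : Tendsto (fun n : ℕ => ((2 * (n + 1) : ℕ) : ℝ) / n) atTop (𝓝 2) := by
      have h2 : Tendsto (fun n : ℕ => (2 : ℝ) + 2 / n) atTop (𝓝 (2 + 0)) :=
        tendsto_const_nhds.add (tendsto_const_div_atTop_nhds_zero_nat 2)
      rw [add_zero] at h2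
      refine h2.congr' ?_
      filter_upwards [eventually_ge_atTop 1] with n hn
      have : (n : ℝ) ≠ 0 := by
        have : n ≠ 0 := by omega
        exact_mod_cast this
      push_cast
      field_simp
    exact (h1.comp hnt).rpow_const (Or.inl (by norm_num))
  have hfin := hratio.mul hpow
  refine hfin.congr' ?_
  filter_upwards [hnt.eventually (eventually_ge_atTop 2), hden2] with j hj hj2
  have hn' : (0 : ℝ) < n j := by
    have : 0 < n j := by omega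
    exact_mod_cast this
  have hN : (0 : ℝ) < ((2 * (n j + 1) : ℕ) : ℝ) := by positivity
  -- unweighted sums
  set e : ℝ := Real.exp (u * ((2 * (n j + 1) : ℕ) : ℝ) - 2 * c * (w (n j) + 1)) with he
  have he0 : 0 < e := Real.exp_pos _
  have hwt : ∀ (k : ℕ), ∀ p ∈ canW A (n j) (w (n j) + 1 + k),
      1 = e * Real.exp (-(2 * c * k)) * wt u c p := by
    intro k p hp
    rw [wt_can hp, he, ← Real.exp_add, ← Real.exp_add]
    have : u * ((2 * (n j + 1) : ℕ) : ℝ) - 2 * c * (w (n j) + 1) + -(2 * c * k) +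
        (-(u * ((2 * (n j + 1) : ℕ) : ℝ)) + 2 * c * ((w (n j) + 1 + k : ℤ) : ℝ)) = 0 := by
      push_cast
      ring
    rw [this, Real.exp_zero]
  have hsumA : ∑ p ∈ canJ A (n j) (J (n j)), (area (poly (n j) p) : ℝ) =
      e * (((2 * (n j + 1) : ℕ) : ℝ) ^ (1 / 2 : ℝ))⁻¹ * ∑' k, a j k := by
    rw [sum_canJ (hJ (n j)), ← tsum_mul_left]
    refine tsum_congr fun k => ?_
    simp only [ha]
    split_ifs
    · have h1 : ∑ p ∈ canW A (n j) (w (n j) + 1 + k), (area (poly (n j) p) : ℝ) =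
          e * Real.exp (-(2 * c * k)) *
            ∑ p ∈ canW A (n j) (w (n j) + 1 + k), wt u c p * area (poly (n j) p) := by
        rw [Finset.mul_sum]
        refine Finset.sum_congr rfl fun p hp => ?_
        rw [← mul_assoc, ← hwt k p hp, one_mul]
      rw [h1]
      have h2 : (((2 * (n j + 1) : ℕ) : ℝ) ^ (1 / 2 : ℝ))⁻¹ *
          ((2 * (n j + 1) : ℕ) : ℝ) ^ (1 / 2 : ℝ) = 1 := inv_mul_cancel₀ (by positivity)
      linear_combination (-(e * Real.exp (-(2 * c * k)) *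
            ∑ p ∈ canW A (n j) (w (n j) + 1 + k), wt u c p * area (poly (n j) p))) * h2
    · simp
  have hsumZ : ((canJ A (n j) (J (n j))).card : ℝ) =
      e * (((2 * (n j + 1) : ℕ) : ℝ) ^ 2)⁻¹ * ∑' k, d j k := by
    have h0 : ((canJ A (n j) (J (n j))).card : ℝ) = ∑ p ∈ canJ A (n j) (J (n j)), (1 : ℝ) := by
      simp
    rw [h0, sum_canJ (hJ (n j)), ← tsum_mul_left]
    refine tsum_congr fun k => ?_
    simp only [hd]
    split_ifs
    · have h1 : ∑ p ∈ canW A (n j) (w (n j) + 1 + k), (1 : ℝ) =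
          e * Real.exp (-(2 * c * k)) *
            ∑ p ∈ canW A (n j) (w (n j) + 1 + k), wt u c p := by
        rw [Finset.mul_sum]
        exact Finset.sum_congr rfl fun p hp => hwt k p hp
      rw [h1]
      have h2 : (((2 * (n j + 1) : ℕ) : ℝ) ^ 2)⁻¹ *
          ((2 * (n j + 1) : ℕ) : ℝ) ^ 2 = 1 := inv_mul_cancel₀ (by positivity)
      linear_combination (-(e * Real.exp (-(2 * c * k)) *
            ∑ p ∈ canW A (n j) (w (n j) + 1 + k), wt u c p)) * h2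
    · simp
  have hdpos : 0 < ∑' k, d j k := by linarith
  change _ = (∑ p ∈ canJ A (n j) (J (n j)), (area (poly (n j) p) : ℝ)) /
      ((canJ A (n j) (J (n j))).card : ℝ) / (n j : ℝ) ^ (3 / 2 : ℝ)
  rw [hsumA, hsumZ, Real.div_rpow hN.le hn'.le]
  have h3 : ((2 * (n j + 1) : ℕ) : ℝ) ^ (3 / 2 : ℝ) * ((2 * (n j + 1) : ℕ) : ℝ) ^ (1 / 2 : ℝ) =
      ((2 * (n j + 1) : ℕ) : ℝ) ^ 2 := by
    rw [← Real.rpow_add hN, ← Real.rpow_two]
    norm_num
  rw [← h3]
  have h4 : ((2 * (n j + 1) : ℕ) : ℝ) ^ (3 / 2 : ℝ) ≠ 0 := (Real.rpow_pos_of_pos hN _).ne'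
  have h5 : ((2 * (n j + 1) : ℕ) : ℝ) ^ (1 / 2 : ℝ) ≠ 0 := (Real.rpow_pos_of_pos hN _).ne'
  have h6 : (n j : ℝ) ^ (3 / 2 : ℝ) ≠ 0 := (Real.rpow_pos_of_pos hn' _).ne'
  field_simp

end

end Pool.Agent.SAPY
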