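import Pool.Agent.SAPY.MarkC

/-!
Module Y6: domination in the frequency of the sums over configurations with a marked block.
-/

namespace Pool.Agent.SAPY

open Filter Topology Pool.Agent.SAPX

namespace FourC

/-- exponentially tilted law -/
lemma tilt {f : ℕ → ℤ → ℝ} (hf : FreeLaw f) : ∃ η > 0, ∃ Z > 0,
    FreeLaw (fun m d => Z⁻¹ * (Real.exp (η * m) * f m d)) := by
  obtain ⟨δ, hδ, hs⟩ := hf.tail
  set g : ℕ × ℤ → ℝ := fun p => Real.exp (δ / 2 * p.1) * f p.1 p.2 with hg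
  have hle : ∀ p : ℕ × ℤ, g p ≤ f p.1 p.2 * Real.exp (δ * p.1) := by
    intro p
    rw [hg]
    simp only
    rw [mul_comm]
    refine mul_le_mul_of_nonneg_left (Real.exp_le_exp.2 ?_) (hf.nonneg _ _)
    have : (0 : ℝ) ≤ p.1 := Nat.cast_nonneg _
    nlinarith
  have hg0 : ∀ p, 0 ≤ g p := fun p => mul_nonneg (Real.exp_pos _).le (hf.nonneg _ _)
  have hgs : Summable g := Summable.of_nonneg_of_le hg0 hle hs
  have hZ : 0 < ∑' p, g p := hgs.tsum_pos hg0 (2, 0) (mul_pos (Real.exp_pos _) hf.two)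
  refine ⟨δ / 2, by positivity, ∑' p, g p, hZ, ?_, ?_, ?_, ?_, ?_, ?_, ?_⟩
  · intro m d
    have := hf.nonneg m d
    positivity
  · intro m d h
    refine hf.supp m d fun h0 => h ?_
    rw [h0]; ring
  · intro m d
    simp only [hf.symm]
  · have := hf.two
    positivity
  · have := hf.three
    positivity
  · have h1 := hgs.hasSum.mul_left (∑' p, g p)⁻¹
    rw [inv_mul_cancel₀ hZ.ne'] at h1
    exact h1
  · refine ⟨δ / 2, by positivity, ?_⟩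
    refine (hs.mul_left (∑' p, g p)⁻¹).congr fun p => ?_
    have h1 : Real.exp (δ * p.1) = Real.exp (δ / 2 * p.1) * Real.exp (δ / 2 * p.1) := by
      rw [← Real.exp_add]
      congr 1
      ring
    rw [h1]
    ring

/-- bound of a profile by the majorant and the decay in the frequency -/
lemma prof_bd {s b C : ℝ} {L : ℝ → ℕ → ℤ → ℂ} (hL : ProfC s b L C) : ∃ K c, 0 < K ∧ 0 < c ∧
    ∀ c', 0 < c' → c' ≤ c → ∀ ψ : ℝ, |ψ| ≤ Real.pi → ∀ (m : ℕ) (y : ℤ),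
      ‖L ψ m y‖ ≤ MarkC.bb K c' m y * Real.exp (-(c' * ψ ^ 2 * m)) := by
  obtain ⟨K, c, hK, hc, hbd⟩ := hL.bd
  refine ⟨K, c, hK, hc, fun c' hc' hcc ψ hψ m y => ?_⟩
  unfold MarkC.bb
  split_ifs with hcond
  · refine (hbd ψ hψ m y).trans ?_
    have h1 : Real.exp (-(c * (y : ℝ) ^ 2 / (m + 1))) ≤
        Real.exp (-(c' * (y : ℝ) ^ 2 / (m + 1))) := by
      rw [Real.exp_le_exp]
      have : c' * (y : ℝ) ^ 2 / (m + 1) ≤ c * (y : ℝ) ^ 2 / (m + 1) := by gcongr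
      linarith
    have h2 : Real.exp (-(c * ψ ^ 2 * m)) ≤ Real.exp (-(c' * ψ ^ 2 * m)) := by
      rw [Real.exp_le_exp]
      have : c' * ψ ^ 2 * m ≤ c * ψ ^ 2 * m := by gcongr
      linarith
    gcongr
  · have h0 : L ψ m y = 0 := by
      by_contra h'
      exact hcond (hL.supp ψ m y h')
    rw [h0, norm_zero, zero_mul]

end FourC

open FourC in
theorem marked_bdC {f : ℕ → ℤ → ℝ} (hf : FreeLaw f) {s b : ℝ}
    {L R : ℝ → ℕ → ℤ → ℂ} {C C' : ℝ} (hL : ProfC s b L C) (hR : ProfC s b R C')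
    (a q : ℕ) {φ : ℕ → ℤ → ℝ} {ψ₀ : ℕ → ℤ → ℤ → ℝ}
    {Φ : ℝ → ℕ → ℤ → ℂ} {Ψ : ℝ → ℕ → ℤ → ℤ → ℂ} (hψ : Marked f q φ ψ₀) (hΨ : TwMarked φ ψ₀ Φ Ψ) :
    ∃ K c, 0 < K ∧ 0 < c ∧ ∀ n : ℕ, 1 ≤ n → ∀ ψ : ℝ, |ψ| ≤ Real.pi →
      ‖((((2 * n : ℕ) : ℝ) ^ ((1 - (a : ℝ)) / 2) : ℝ) : ℂ) *
        SSC a (L ψ) (Ψ ψ) (R ψ) (2 * n)‖ ≤ K * Real.exp (-(c * ψ ^ 2 * ((2 * n : ℕ) : ℝ))) := by
  obtain ⟨η, hη, Z, hZ, hf'⟩ := tilt hf
  obtain ⟨K₁, c₁, hK₁, hc₁, h1⟩ := prof_bd hL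
  obtain ⟨K₂, c₂, hK₂, hc₂, h2⟩ := prof_bd hR
  have hpi := Real.pi_pos
  obtain ⟨c, hc, hcc₁, hcc₂, hcη⟩ : ∃ c : ℝ, 0 < c ∧ c ≤ c₁ ∧ c ≤ c₂ ∧ c * Real.pi ^ 2 ≤ η := by
    refine ⟨min (min c₁ c₂) (η / Real.pi ^ 2), by positivity, ?_, ?_, ?_⟩
    · exact (min_le_left _ _).trans (min_le_left _ _)
    · exact (min_le_left _ _).trans (min_le_right _ _)
    · rw [← le_div_iff₀ (by positivity)]
      exact min_le_right _ _
  -- the tilted marked kernel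
  have hM : Marked (fun m d => Z⁻¹ * (Real.exp (η * m) * f m d)) q
      (fun m d => Z⁻¹ * (Real.exp (η * m) * φ m d))
      (fun m x y => Z⁻¹ * (Real.exp (η * m) * ψ₀ m x y)) := by
    refine ⟨fun m x y => ?_, fun m x y => ?_, fun m x y h => ?_, fun m d => ?_⟩
    · have := hψ.nonneg m x y
      positivity
    · have := hψ.le m x y
      gcongr
    · simp only [hψ.far m x y h]
    · calc Z⁻¹ * (Real.exp (η * m) * φ m d)
          ≤ Z⁻¹ * (Real.exp (η * m) * ((m : ℝ) ^ q * f m d)) := by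
            have := hψ.bd m d
            gcongr
        _ = _ := by ring
  have hpL := MarkC.bb_profile hK₁ hc
  have hpR := MarkC.bb_profile hK₂ hc
  obtain ⟨κ, -, hlim⟩ := marked_lim hf' (s := 1 / (2 * c)) (by positivity) hK₁ hK₂ hpL hpR
  obtain ⟨B, hB⟩ := (hlim a q _ _ hM).bddAbove_range
  set ψ₁ : ℕ → ℤ → ℤ → ℝ := fun m x y => Z⁻¹ * (Real.exp (η * m) * ψ₀ m x y) with hψ₁
  refine ⟨Z * (|B| + 1), c, by positivity, hc, fun n hn ψ hψπ => ?_⟩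
  set N := 2 * n with hN
  have hNpos : (0 : ℝ) < (N : ℝ) := by
    have : 0 < N := by omega
    exact_mod_cast this
  have hmain : ‖SSC a (L ψ) (Ψ ψ) (R ψ) N‖ ≤
      Real.exp (-(c * ψ ^ 2 * N)) * (Z * SS a (MarkC.bb K₁ c) ψ₁ (MarkC.bb K₂ c) N) := by
    unfold SSC SS
    simp only [Finset.mul_sum]
    refine (norm_sum_le _ _).trans (Finset.sum_le_sum fun i hi => ?_)
    refine (norm_sum_le _ _).trans (Finset.sum_le_sum fun j hj => ?_)
    refine (norm_sum_le _ _).trans (Finset.sum_le_sum fun x hx => ?_)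
    refine (norm_sum_le _ _).trans (Finset.sum_le_sum fun y hy => ?_)
    have hi' := Finset.mem_range.1 hi
    have hj' := Finset.mem_range.1 hj
    have hx0 : (0 : ℝ) ≤ (x : ℝ) := by
      have := (Finset.mem_Icc.1 hx).1
      have h3 : (0 : ℤ) ≤ x := by omega
      exact_mod_cast h3
    have e1 : ‖(x : ℂ) ^ a‖ = (x : ℝ) ^ a := by
      rw [norm_pow, Complex.norm_intCast, abs_of_nonneg hx0]
    rw [norm_mul, norm_mul, norm_mul, e1]
    have b1 := h1 c hc hcc₁ ψ hψπ i x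
    have b2 := h2 c hc hcc₂ ψ hψπ (N - i - j) y
    have b3 := hΨ.le ψ j x y
    have p1 := MarkC.bb_nonneg hK₁ c i x
    have p2 := MarkC.bb_nonneg hK₂ c (N - i - j) y
    have p3 := hψ.nonneg j x y
    have hsum : Real.exp (-(c * ψ ^ 2 * i)) * Real.exp (-(c * ψ ^ 2 * ((N - i - j : ℕ) : ℝ))) ≤
        Real.exp (-(c * ψ ^ 2 * N)) * Real.exp (η * j) := by
      rw [← Real.exp_add, ← Real.exp_add, Real.exp_le_exp]
      have e2 : ((N - i - j : ℕ) : ℝ) = (N : ℝ) - i - j := by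
        rw [Nat.cast_sub (by omega), Nat.cast_sub (by omega)]
      have e3 : ψ ^ 2 ≤ Real.pi ^ 2 := by
        rw [← sq_abs ψ]
        exact pow_le_pow_left₀ (abs_nonneg _) hψπ 2
      have e4 : c * ψ ^ 2 * j ≤ η * j := by
        refine mul_le_mul_of_nonneg_right ?_ (Nat.cast_nonneg j)
        exact (mul_le_mul_of_nonneg_left e3 hc.le).trans hcη
      rw [e2]
      linarith
    calc (x : ℝ) ^ a * ‖L ψ i x‖ * ‖Ψ ψ j x y‖ * ‖R ψ (N - i - j) y‖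
        ≤ (x : ℝ) ^ a * (MarkC.bb K₁ c i x * Real.exp (-(c * ψ ^ 2 * i))) * ψ₀ j x y *
          (MarkC.bb K₂ c (N - i - j) y *
            Real.exp (-(c * ψ ^ 2 * ((N - i - j : ℕ) : ℝ)))) := by gcongr
      _ = (x : ℝ) ^ a * MarkC.bb K₁ c i x * ψ₀ j x y * MarkC.bb K₂ c (N - i - j) y *
          (Real.exp (-(c * ψ ^ 2 * i)) *
            Real.exp (-(c * ψ ^ 2 * ((N - i - j : ℕ) : ℝ)))) := by ring
      _ ≤ (x : ℝ) ^ a * MarkC.bb K₁ c i x * ψ₀ j x y * MarkC.bb K₂ c (N - i - j) y *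
          (Real.exp (-(c * ψ ^ 2 * N)) * Real.exp (η * j)) := by gcongr
      _ = Real.exp (-(c * ψ ^ 2 * N)) * ((Z * Z⁻¹) * ((x : ℝ) ^ a * MarkC.bb K₁ c i x *
          (Real.exp (η * j) * ψ₀ j x y) * MarkC.bb K₂ c (N - i - j) y)) := by
            rw [mul_inv_cancel₀ hZ.ne']
            ring
      _ = _ := by
            rw [hψ₁]
            ring
  have hbound := hB ⟨n, rfl⟩
  simp only at hbound
  rw [norm_mul, Complex.norm_real, Real.norm_eq_abs, abs_of_nonneg (by positivity)]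
  calc (N : ℝ) ^ ((1 - (a : ℝ)) / 2) * ‖SSC a (L ψ) (Ψ ψ) (R ψ) N‖
      ≤ (N : ℝ) ^ ((1 - (a : ℝ)) / 2) * (Real.exp (-(c * ψ ^ 2 * N)) *
        (Z * SS a (MarkC.bb K₁ c) ψ₁ (MarkC.bb K₂ c) N)) := by gcongr
    _ = Z * ((N : ℝ) ^ ((1 - (a : ℝ)) / 2) * SS a (MarkC.bb K₁ c) ψ₁ (MarkC.bb K₂ c) N) *
        Real.exp (-(c * ψ ^ 2 * N)) := by ring
    _ ≤ Z * (|B| + 1) * Real.exp (-(c * ψ ^ 2 * N)) := by
        have h5 : (N : ℝ) ^ ((1 - (a : ℝ)) / 2) * SS a (MarkC.bb K₁ c) ψ₁ (MarkC.bb K₂ c) N ≤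
            |B| + 1 := by
          have := le_abs_self B
          linarith
        gcongr

end Pool.Agent.SAPY
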