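import Pool.Agent.SAPY.Defs

/-!
Local limit theorem from the limit and the domination of the Fourier transforms.
-/

namespace Pool.Agent.SAPY

open Filter Topology

namespace GauF

open MeasureTheory

/-- the Fourier transform of the Gaussian -/
lemma gauss_ft {b : ℝ} (hb : 0 < b) (A z : ℝ) :
    ∫ χ : ℝ, ((A * Real.exp (-(b * χ ^ 2 / 2)) : ℝ) : ℂ) *
      Complex.exp (-(Complex.I * ((χ * z : ℝ) : ℂ))) = ((2 * Real.pi * (A * gau b z) : ℝ) : ℂ) := by
  have h := fourierIntegral_gaussian (b := ((b / 2 : ℝ) : ℂ)) (by simpa using hb) ((-z : ℝ) : ℂ)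
  have h1 : (Real.pi / ((b / 2 : ℝ) : ℂ) : ℂ) ^ (1 / 2 : ℂ) *
      Complex.exp (-(((-z : ℝ) : ℂ)) ^ 2 / (4 * ((b / 2 : ℝ) : ℂ))) =
      ((Real.sqrt (Real.pi / (b / 2)) * Real.exp (-(z ^ 2 / (2 * b))) : ℝ) : ℂ) := by
    rw [Real.sqrt_eq_rpow]
    push_cast
    rw [Complex.ofReal_cpow (by positivity)]
    push_cast
    congr 2
    field_simp
    ring
  rw [h1] at h
  have h2 : ∀ χ : ℝ, ((A * Real.exp (-(b * χ ^ 2 / 2)) : ℝ) : ℂ) *
      Complex.exp (-(Complex.I * ((χ * z : ℝ) : ℂ))) =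
      (A : ℂ) * (Complex.exp (Complex.I * ((-z : ℝ) : ℂ) * χ) *
        Complex.exp (-((b / 2 : ℝ) : ℂ) * (χ : ℂ) ^ 2)) := by
    intro χ
    rw [Complex.ofReal_mul, Complex.ofReal_exp, mul_assoc]
    congr 1
    rw [mul_comm]
    congr 1
    · congr 1
      push_cast
      ring
    · congr 1
      push_cast
      ring
  simp_rw [h2]
  rw [integral_const_mul, h, ← Complex.ofReal_mul]
  congr 1
  unfold gau
  have hpi := Real.pi_pos
  have e1 : Real.sqrt (Real.pi / (b / 2)) = 2 * Real.pi * (1 / Real.sqrt (2 * Real.pi * b)) := by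
    have e2 : Real.pi / (b / 2) = (2 * Real.pi) ^ 2 / (2 * Real.pi * b) := by
      field_simp
      try ring
    rw [e2, Real.sqrt_div (by positivity), Real.sqrt_sq (by positivity)]
    ring
  rw [e1]
  ring

end GauF

theorem local_of_fourier {S : ℝ → ℕ → ℂ} (hcont : ∀ n, Continuous fun ψ => S ψ n) {A b : ℝ}
    (hb : 0 < b)
    (hlim : ∀ (χ : ℝ) (ψ : ℕ → ℝ),
      Tendsto (fun n : ℕ => ψ n * Real.sqrt ((2 * n : ℕ) : ℝ)) atTop (𝓝 χ) →
      Tendsto (fun n => S (ψ n) n) atTop (𝓝 ((A * Real.exp (-(b * χ ^ 2 / 2)) : ℝ) : ℂ)))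
    {K c : ℝ} (hc : 0 < c) (hbd : ∀ n : ℕ, 1 ≤ n → ∀ ψ : ℝ, |ψ| ≤ Real.pi →
      ‖S ψ n‖ ≤ K * Real.exp (-(c * ψ ^ 2 * ((2 * n : ℕ) : ℝ))))
    {n : ℕ → ℕ} (hn : Tendsto n atTop atTop) {x : ℕ → ℝ} {z : ℝ}
    (hx : Tendsto (fun k => x k / Real.sqrt ((2 * n k : ℕ) : ℝ)) atTop (𝓝 z)) :
    Tendsto (fun k => ((Real.sqrt ((2 * n k : ℕ) : ℝ) / (2 * Real.pi) : ℝ) : ℂ) *
      ∫ ψ in (-Real.pi)..Real.pi, S ψ (n k) * Complex.exp (-(Complex.I * ((ψ * x k : ℝ) : ℂ))))
      atTop (𝓝 ((A * gau b z : ℝ) : ℂ)) := by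
  have hpi := Real.pi_pos
  set r : ℕ → ℝ := fun k => Real.sqrt ((2 * n k : ℕ) : ℝ) with hr
  have hr0 : ∀ k, 1 ≤ n k → 0 < r k := by
    intro k hk
    simp only [hr]
    apply Real.sqrt_pos.2
    have : 0 < 2 * n k := by omega
    exact_mod_cast this
  have hn1 : ∀ᶠ k in atTop, 1 ≤ n k := hn.eventually_ge_atTop 1
  have hrtop : Tendsto r atTop atTop := by
    have h1 : Tendsto (fun k => ((2 * n k : ℕ) : ℝ)) atTop atTop := by
      refine tendsto_natCast_atTop_atTop.comp ?_
      exact tendsto_atTop_mono (fun k => by omega) hn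
    exact Real.tendsto_sqrt_atTop.comp h1
  -- the rescaled integrand
  let g : ℕ → ℝ → ℂ := fun k χ => Set.indicator (Set.Ioc (-Real.pi * r k) (Real.pi * r k))
    (fun χ => S (χ / r k) (n k) * Complex.exp (-(Complex.I * ((χ / r k * x k : ℝ) : ℂ)))) χ
  have hg : ∀ k, 1 ≤ n k → ((r k / (2 * Real.pi) : ℝ) : ℂ) *
      ∫ ψ in (-Real.pi)..Real.pi, S ψ (n k) * Complex.exp (-(Complex.I * ((ψ * x k : ℝ) : ℂ))) =
      ((1 / (2 * Real.pi) : ℝ) : ℂ) * ∫ χ : ℝ, g k χ := by
    intro k hk
    have h0 := hr0 k hk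
    have e1 : ∫ χ : ℝ, g k χ = ∫ χ in (-Real.pi * r k)..(Real.pi * r k),
        S (χ / r k) (n k) * Complex.exp (-(Complex.I * ((χ / r k * x k : ℝ) : ℂ))) := by
      rw [intervalIntegral.integral_of_le (by nlinarith),
        ← MeasureTheory.integral_indicator measurableSet_Ioc]
    rw [e1]
    have e2 := intervalIntegral.integral_comp_div
      (f := fun ψ : ℝ => S ψ (n k) * Complex.exp (-(Complex.I * ((ψ * x k : ℝ) : ℂ))))
      (a := -Real.pi * r k) (b := Real.pi * r k) h0.ne'
    rw [e2]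
    rw [mul_div_assoc, div_self h0.ne', mul_one, mul_div_assoc, div_self h0.ne', mul_one]
    rw [Complex.real_smul, ← mul_assoc, ← Complex.ofReal_mul]
    congr 2
    ring
  have hlim2 : Tendsto (fun k => ∫ χ : ℝ, g k χ) atTop
      (𝓝 (∫ χ : ℝ, ((A * Real.exp (-(b * χ ^ 2 / 2)) : ℝ) : ℂ) *
        Complex.exp (-(Complex.I * ((χ * z : ℝ) : ℂ))))) := by
    refine MeasureTheory.tendsto_integral_filter_of_dominated_convergence
      (fun χ => |K| * Real.exp (-c * χ ^ 2)) ?_ ?_ ?_ ?_
    · refine Eventually.of_forall fun k => ?_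
      refine (Continuous.aestronglyMeasurable ?_).indicator measurableSet_Ioc
      have := (hcont (n k)).comp (continuous_id.div_const (r k))
      refine Continuous.mul this ?_
      fun_prop
    · filter_upwards [hn1] with k hk
      refine Eventually.of_forall fun χ => ?_
      have h0 := hr0 k hk
      simp only [g]
      by_cases hχ : χ ∈ Set.Ioc (-Real.pi * r k) (Real.pi * r k)
      · rw [Set.indicator_of_mem hχ, norm_mul]
        have e1 : ‖Complex.exp (-(Complex.I * ((χ / r k * x k : ℝ) : ℂ)))‖ = 1 := by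
          rw [show -(Complex.I * ((χ / r k * x k : ℝ) : ℂ)) =
            ((-(χ / r k * x k) : ℝ) : ℂ) * Complex.I by push_cast; ring]
          exact Complex.norm_exp_ofReal_mul_I _
        rw [e1, mul_one]
        have hab : |χ / r k| ≤ Real.pi := by
          rw [abs_div, abs_of_pos h0, div_le_iff₀ h0, abs_le]
          constructor
          · nlinarith [hχ.1]
          · exact hχ.2
        refine (hbd (n k) hk (χ / r k) hab).trans ?_
        have e2 : c * (χ / r k) ^ 2 * ((2 * n k : ℕ) : ℝ) = c * χ ^ 2 := by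
          have e3 : ((2 * n k : ℕ) : ℝ) = r k ^ 2 := by
            simp only [hr]
            rw [Real.sq_sqrt (by positivity)]
          rw [e3]
          field_simp
        rw [e2, neg_mul]
        exact mul_le_mul_of_nonneg_right (le_abs_self K) (Real.exp_pos _).le
      · rw [Set.indicator_of_notMem hχ, norm_zero]
        positivity
    · exact (integrable_exp_neg_mul_sq hc).const_mul _
    · refine Eventually.of_forall fun χ => ?_
      have h1 : Tendsto (fun k => S (χ / r k) (n k)) atTop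
          (𝓝 ((A * Real.exp (-(b * χ ^ 2 / 2)) : ℝ) : ℂ)) := by
        have h2 := hlim χ (fun m => χ / Real.sqrt ((2 * m : ℕ) : ℝ)) (by
          refine tendsto_const_nhds.congr' ?_
          filter_upwards [eventually_ge_atTop 1] with m hm
          have : 0 < Real.sqrt ((2 * m : ℕ) : ℝ) := by
            apply Real.sqrt_pos.2
            have : 0 < 2 * m := by omega
            exact_mod_cast this
          field_simp)
        exact h2.comp hn
      have h3 : Tendsto (fun k => Complex.exp (-(Complex.I * ((χ / r k * x k : ℝ) : ℂ)))) atTop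
          (𝓝 (Complex.exp (-(Complex.I * ((χ * z : ℝ) : ℂ))))) := by
        refine (Complex.continuous_exp.tendsto _).comp ?_
        refine (Tendsto.const_mul Complex.I ?_).neg
        refine (Complex.continuous_ofReal.tendsto _).comp ?_
        have := hx.const_mul χ
        refine this.congr fun k => ?_
        simp only [hr]
        ring
      refine (h1.mul h3).congr' ?_
      have hbig : ∀ᶠ k in atTop, |χ| / Real.pi < r k := hrtop.eventually_gt_atTop _
      filter_upwards [hbig] with k hk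
      simp only [g]
      rw [Set.indicator_of_mem]
      rw [div_lt_iff₀ hpi] at hk
      rw [abs_lt] at hk
      exact ⟨by nlinarith [hk.1], by nlinarith [hk.2]⟩
  rw [GauF.gauss_ft hb] at hlim2
  have hfin := hlim2.const_mul ((1 / (2 * Real.pi) : ℝ) : ℂ)
  rw [← Complex.ofReal_mul] at hfin
  have e : 1 / (2 * Real.pi) * (2 * Real.pi * (A * gau b z)) = A * gau b z := by
    field_simp
  rw [e] at hfin
  refine hfin.congr' ?_
  filter_upwards [hn1] with k hk
  exact (hg k hk).symm

end Pool.Agent.SAPY
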