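import Pool.Agent.SAPY.Defs

/-!
The decomposition of the polygons at a marked interior block, with complex twisted weights
(identity theorem in the complex parameter of the twist).
-/

namespace Pool.Agent.SAPY

open Filter Topology Pool.Agent.SAPX Pool.Agent.SAPF Pool.Agent.SAPK

namespace InterC

/-- the weight with a complex parameter -/
noncomputable def wz (u c μ : ℝ) (z : ℂ) (p : PW) : ℂ :=
  Complex.exp (-(((u : ℂ) + z * μ) * (ln p : ℂ)) +
    ((c : ℂ) + z / 2) * (((X p.1 : ℤ) : ℂ) + ((X p.2 : ℤ) : ℂ)))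

lemma wz_real (u c μ t : ℝ) (p : PW) :
    wz u c μ (t : ℂ) p = ((wt (u + t * μ) (c + t / 2) p : ℝ) : ℂ) := by
  unfold wz wt
  push_cast
  rfl

lemma wz_I (u c μ ψ : ℝ) (p : PW) :
    wz u c μ (Complex.I * (ψ : ℂ)) p = ((wt u c p : ℝ) : ℂ) * tw μ ψ p := by
  unfold wz wt tw
  rw [Complex.ofReal_exp, ← Complex.exp_add]
  congr 1
  push_cast
  ring

lemma wz_diff (u c μ : ℝ) (p : PW) : Differentiable ℂ (fun z => wz u c μ z p) := by
  unfold wz
  fun_prop

open Classical in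
/-- marked kernel -/
noncomputable def kz (A : Set Word) (u c μ : ℝ) (ω : PW → ℝ) (z : ℂ) (m : ℕ) (x y : ℤ) : ℂ :=
  if 0 < x ∧ 0 < y then
    ∑ p ∈ (blk A m).filter (fun p => ht p = y - x ∧ Disj x p), ((ω p : ℝ) : ℂ) * wz u c μ z p
  else 0

open Classical in
/-- left caps -/
noncomputable def lz (A : Set Word) (u c μ : ℝ) (z : ℂ) (m : ℕ) (x : ℤ) : ℂ :=
  if 0 < x then ∑ p ∈ (blk A m).filter (fun p => ht p = x ∧ CapL p), wz u c μ z p else 0

open Classical in
/-- right caps -/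
noncomputable def rz (A : Set Word) (u c μ : ℝ) (z : ℂ) (m : ℕ) (x : ℤ) : ℂ :=
  if 0 < x then ∑ p ∈ (blk A m).filter (fun p => CapR x p), wz u c μ z p else 0

lemma kz_diff (A : Set Word) (u c μ : ℝ) (ω : PW → ℝ) (m : ℕ) (x y : ℤ) :
    Differentiable ℂ (fun z => kz A u c μ ω z m x y) := by
  classical
  unfold kz
  by_cases h : 0 < x ∧ 0 < y
  · simp only [if_pos h]
    exact Differentiable.fun_sum fun p _ => (differentiable_const _).mul (wz_diff u c μ p)
  · simp only [if_neg h]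
    exact differentiable_const _

lemma lz_diff (A : Set Word) (u c μ : ℝ) (m : ℕ) (x : ℤ) :
    Differentiable ℂ (fun z => lz A u c μ z m x) := by
  classical
  unfold lz
  by_cases h : 0 < x
  · simp only [if_pos h]
    exact Differentiable.fun_sum fun p _ => wz_diff u c μ p
  · simp only [if_neg h]
    exact differentiable_const _

lemma rz_diff (A : Set Word) (u c μ : ℝ) (m : ℕ) (x : ℤ) :
    Differentiable ℂ (fun z => rz A u c μ z m x) := by
  classical
  unfold rz
  by_cases h : 0 < x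
  · simp only [if_pos h]
    exact Differentiable.fun_sum fun p _ => wz_diff u c μ p
  · simp only [if_neg h]
    exact differentiable_const _

lemma kz_real (A : Set Word) (u c μ : ℝ) (ω : PW → ℝ) (t : ℝ) :
    kz A u c μ ω (t : ℂ) = fun m x y => ((mkg A (u + t * μ) (c + t / 2) ω m x y : ℝ) : ℂ) := by
  classical
  funext m x y
  unfold kz mkg
  by_cases h : 0 < x ∧ 0 < y
  · rw [if_pos h, if_pos h, Complex.ofReal_sum]
    refine Finset.sum_congr rfl fun p _ => ?_
    rw [wz_real, Complex.ofReal_mul]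
  · rw [if_neg h, if_neg h, Complex.ofReal_zero]

lemma lz_real (A : Set Word) (u c μ : ℝ) (t : ℝ) :
    lz A u c μ (t : ℂ) = fun m x => ((lamA A (u + t * μ) (c + t / 2) one m x : ℝ) : ℂ) := by
  classical
  funext m x
  unfold lz lamA
  by_cases h : 0 < x
  · rw [if_pos h, if_pos h, Complex.ofReal_sum]
    refine Finset.sum_congr rfl fun p _ => ?_
    rw [wz_real, one, one_mul]
  · rw [if_neg h, if_neg h, Complex.ofReal_zero]

lemma rz_real (A : Set Word) (u c μ : ℝ) (t : ℝ) :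
    rz A u c μ (t : ℂ) = fun m x => ((rhoA A (u + t * μ) (c + t / 2) one m x : ℝ) : ℂ) := by
  classical
  funext m x
  unfold rz rhoA
  by_cases h : 0 < x
  · rw [if_pos h, if_pos h, Complex.ofReal_sum]
    refine Finset.sum_congr rfl fun p _ => ?_
    rw [wz_real, one, one_mul]
  · rw [if_neg h, if_neg h, Complex.ofReal_zero]

lemma kz_I (A : Set Word) (u c μ : ℝ) (ω : PW → ℝ) (ψ : ℝ) :
    kz A u c μ ω (Complex.I * (ψ : ℂ)) = mkgC A u c μ ω ψ := by
  classical
  funext m x y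
  unfold kz mkgC
  by_cases h : 0 < x ∧ 0 < y
  · rw [if_pos h, if_pos h]
    refine Finset.sum_congr rfl fun p _ => ?_
    rw [wz_I, Complex.ofReal_mul, mul_assoc]
  · rw [if_neg h, if_neg h]

lemma lz_I (A : Set Word) (u c μ : ℝ) (ψ : ℝ) :
    lz A u c μ (Complex.I * (ψ : ℂ)) = lamC A u c μ ψ := by
  classical
  funext m x
  unfold lz lamC
  by_cases h : 0 < x
  · rw [if_pos h, if_pos h]
    refine Finset.sum_congr rfl fun p _ => ?_
    rw [wz_I]
  · rw [if_neg h, if_neg h]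

lemma rz_I (A : Set Word) (u c μ : ℝ) (ψ : ℝ) :
    rz A u c μ (Complex.I * (ψ : ℂ)) = rhoC A u c μ ψ := by
  classical
  funext m x
  unfold rz rhoC
  by_cases h : 0 < x
  · rw [if_pos h, if_pos h]
    refine Finset.sum_congr rfl fun p _ => ?_
    rw [wz_I]
  · rw [if_neg h, if_neg h]

lemma occC_diff {g : ℂ → ℕ → ℤ → ℤ → ℂ} {l : ℂ → ℕ → ℤ → ℂ}
    (hg : ∀ m x y, Differentiable ℂ fun z => g z m x y)
    (hl : ∀ m x, Differentiable ℂ fun z => l z m x) (m : ℕ) (y : ℤ) :
    Differentiable ℂ fun z => occC (g z) (l z) m y := by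
  induction m using Nat.strong_induction_on generalizing y with
  | _ m ih =>
    have h : (fun z => occC (g z) (l z) m y) = fun z => l z m y + ∑ k ∈ Finset.range m,
        ∑ x ∈ Finset.Icc (y - ((m : ℤ) - k)) (y + ((m : ℤ) - k)),
          occC (g z) (l z) k x * g z (m - k) x y := by
      funext z
      exact recC_occC _ _ m y
    rw [h]
    exact (hl m y).add (Differentiable.fun_sum fun k hk => Differentiable.fun_sum fun x _ =>
      (ih k (Finset.mem_range.1 hk) x).mul (hg _ _ _))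

lemma occC_cast (g : ℕ → ℤ → ℤ → ℝ) (l : ℕ → ℤ → ℝ) :
    occC (fun m x y => ((g m x y : ℝ) : ℂ)) (fun m x => ((l m x : ℝ) : ℂ)) =
      fun m y => ((occ g l m y : ℝ) : ℂ) := by
  refine RecC.unique (recC_occC _ _) fun m y => ?_
  rw [rec_occ g l m y]
  push_cast
  rfl

lemma SSC_cast (a : ℕ) (L : ℕ → ℤ → ℝ) (Ψ : ℕ → ℤ → ℤ → ℝ) (R : ℕ → ℤ → ℝ) (N : ℕ) :
    SSC a (fun m x => ((L m x : ℝ) : ℂ)) (fun m x y => ((Ψ m x y : ℝ) : ℂ))
      (fun m x => ((R m x : ℝ) : ℂ)) N = ((SS a L Ψ R N : ℝ) : ℂ) := by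
  unfold SSC SS
  push_cast
  rfl

lemma SSC_diff (a : ℕ) {L : ℂ → ℕ → ℤ → ℂ} {Ψ : ℂ → ℕ → ℤ → ℤ → ℂ} {R : ℂ → ℕ → ℤ → ℂ}
    (hL : ∀ m x, Differentiable ℂ fun z => L z m x)
    (hΨ : ∀ m x y, Differentiable ℂ fun z => Ψ z m x y)
    (hR : ∀ m x, Differentiable ℂ fun z => R z m x) (N : ℕ) :
    Differentiable ℂ fun z => SSC a (L z) (Ψ z) (R z) N := by
  unfold SSC
  exact Differentiable.fun_sum fun i _ => Differentiable.fun_sum fun j _ =>
    Differentiable.fun_sum fun x _ => Differentiable.fun_sum fun y _ =>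
      (((differentiable_const _).mul (hL _ _)).mul (hΨ _ _ _)).mul (hR _ _)

end InterC

open InterC in
theorem interiorC {A : Set Word} (hA : IsClass A) (u c μ ψ : ℝ) (a : ℕ) {ω : PW → ℝ}
    (h0 : ∀ p, 0 ≤ ω p) (hω : ∀ q, IsPIrr q → ω (q.2, q.1) = ω q) {n : ℕ} (hn : 2 ≤ n) :
    ∑ p ∈ can A n, ((wt u c p * inr a ω p : ℝ) : ℂ) * tw μ ψ p =
      2 * SSC a (LC A u c μ ψ) (mkgC A u c μ ω ψ) (RC A u c μ ψ) (2 * n + 2) := by
  classical
  set f : ℂ → ℂ := fun z => ∑ p ∈ can A n, ((inr a ω p : ℝ) : ℂ) * wz u c μ z p with hf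
  set g : ℂ → ℂ := fun z => 2 * SSC a (occC (kz A u c μ one z) (lz A u c μ z)) (kz A u c μ ω z)
    (occC (revC (kz A u c μ one z)) (rz A u c μ z)) (2 * n + 2) with hg
  have df : Differentiable ℂ f := Differentiable.fun_sum fun p _ =>
    (differentiable_const _).mul (wz_diff u c μ p)
  have dg : Differentiable ℂ g := (differentiable_const _).mul (SSC_diff a
    (occC_diff (fun m x y => kz_diff A u c μ one m x y) (lz_diff A u c μ))
    (fun m x y => kz_diff A u c μ ω m x y)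
    (occC_diff (g := fun z => revC (kz A u c μ one z)) (fun m x y => kz_diff A u c μ one m y x)
      (rz_diff A u c μ)) _)
  have hr : ∀ t : ℝ, f (t : ℂ) = g (t : ℂ) := by
    intro t
    have h1 : f (t : ℂ) = ((∑ p ∈ can A n, wt (u + t * μ) (c + t / 2) p * inr a ω p : ℝ) : ℂ) := by
      rw [hf, Complex.ofReal_sum]
      refine Finset.sum_congr rfl fun p _ => ?_
      rw [wz_real, ← Complex.ofReal_mul, mul_comm]
    have h2 : g (t : ℂ) = ((2 * SS a (LA A (u + t * μ) (c + t / 2))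
        (mkg A (u + t * μ) (c + t / 2) ω) (RA A (u + t * μ) (c + t / 2)) (2 * n + 2) : ℝ) : ℂ) := by
      have h3 : revC (kz A u c μ one (t : ℂ)) = fun m x y =>
          ((rev (mkg A (u + t * μ) (c + t / 2) one) m x y : ℝ) : ℂ) := by
        rw [kz_real]; rfl
      rw [hg]
      change 2 * SSC a (occC (kz A u c μ one (t : ℂ)) (lz A u c μ (t : ℂ)))
        (kz A u c μ ω (t : ℂ)) (occC (revC (kz A u c μ one (t : ℂ))) (rz A u c μ (t : ℂ)))
        (2 * n + 2) = _
      rw [h3, kz_real, lz_real, kz_real, rz_real, occC_cast, occC_cast, SSC_cast]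
      push_cast
      rfl
    rw [h1, h2, interior_sum hA _ _ a h0 hω hn]
  have hfg : f = g := by
    refine AnalyticOnNhd.eq_of_frequently_eq (z₀ := 0) (fun z _ => df.analyticAt z)
      (fun z _ => dg.analyticAt z) ?_
    have ht : Tendsto (fun t : ℝ => (t : ℂ)) (𝓝[≠] 0) (𝓝[≠] 0) := by
      refine tendsto_nhdsWithin_iff.2 ⟨?_, ?_⟩
      · exact (Complex.continuous_ofReal.tendsto' 0 0 Complex.ofReal_zero).mono_left
          nhdsWithin_le_nhds
      · filter_upwards [self_mem_nhdsWithin] with t ht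
        exact Complex.ofReal_ne_zero.2 ht
    exact ht.frequently (Eventually.frequently (Eventually.of_forall hr))
  have key := congrFun hfg (Complex.I * (ψ : ℂ))
  have h1 : f (Complex.I * (ψ : ℂ)) =
      ∑ p ∈ can A n, ((wt u c p * inr a ω p : ℝ) : ℂ) * tw μ ψ p := by
    rw [hf]
    refine Finset.sum_congr rfl fun p _ => ?_
    rw [wz_I, Complex.ofReal_mul]
    ring
  have h2 : g (Complex.I * (ψ : ℂ)) =
      2 * SSC a (LC A u c μ ψ) (mkgC A u c μ ω ψ) (RC A u c μ ψ) (2 * n + 2) := by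
    rw [hg]
    change 2 * SSC a (occC (kz A u c μ one (Complex.I * (ψ : ℂ))) (lz A u c μ (Complex.I * (ψ : ℂ))))
      (kz A u c μ ω (Complex.I * (ψ : ℂ))) (occC (revC (kz A u c μ one (Complex.I * (ψ : ℂ))))
        (rz A u c μ (Complex.I * (ψ : ℂ)))) (2 * n + 2) = _
    rw [kz_I, lz_I, kz_I, rz_I]
    rfl
  rw [← h1, ← h2, key]

end Pool.Agent.SAPY
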