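import Pool.Agent.SAPY.Defs

/-!
Module Y5: limits of the complex sums over configurations with one marked block (port of
`SAPX/MarkLim.lean`; the real version provides all the domination).
-/

namespace Pool.Agent.SAPY

open Filter Topology MeasureTheory Pool.Agent.SAPX

namespace MarkC

/-! ### the real majorant -/

open Classical in
/-- real majorant of the profiles -/
noncomputable def bb (K c : ℝ) (m : ℕ) (y : ℤ) : ℝ :=
  if 0 < y ∧ y ≤ m ∧ Even ((m : ℤ) + y) then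
    K * |(y : ℝ)| / ((m : ℝ) + 1) ^ (3 / 2 : ℝ) * Real.exp (-(c * (y : ℝ) ^ 2 / (m + 1)))
  else 0

lemma bb_nonneg {K : ℝ} (hK : 0 < K) (c : ℝ) (m : ℕ) (y : ℤ) : 0 ≤ bb K c m y := by
  unfold bb
  split_ifs
  · positivity
  · exact le_rfl

lemma bb_profile {K c : ℝ} (hK : 0 < K) (hc : 0 < c) : Profile (1 / (2 * c)) (bb K c) K := by
  refine ⟨bb_nonneg hK c, fun m y h => ?_, ⟨K, c, hK, hc, fun m y => ?_⟩, ?_⟩
  · unfold bb at h
    by_contra h'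
    exact h (if_neg h')
  · unfold bb
    split_ifs
    · exact le_rfl
    · positivity
  · intro t ht m y hm he hy
    have hmr : Tendsto (fun k => (m k : ℝ)) atTop atTop := tendsto_natCast_atTop_atTop.comp hm
    have hsq : Tendsto (fun k => Real.sqrt (m k)) atTop atTop := Real.tendsto_sqrt_atTop.comp hmr
    -- the ratio `m / (m + 1)`
    have hr : Tendsto (fun k => (m k : ℝ) / ((m k : ℝ) + 1)) atTop (𝓝 1) := by
      have h1 : Tendsto (fun k => ((m k : ℝ) + 1)⁻¹) atTop (𝓝 0) :=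
        tendsto_inv_atTop_zero.comp (tendsto_atTop_add_const_right _ _ hmr)
      have h2 : Tendsto (fun k => 1 - ((m k : ℝ) + 1)⁻¹) atTop (𝓝 (1 - 0)) := h1.const_sub 1
      rw [sub_zero] at h2
      refine h2.congr fun k => ?_
      have : (0 : ℝ) < (m k : ℝ) + 1 := by positivity
      field_simp
      ring
    have hr3 : Tendsto (fun k => ((m k : ℝ) / ((m k : ℝ) + 1)) ^ (3 / 2 : ℝ)) atTop
        (𝓝 ((1 : ℝ) ^ (3 / 2 : ℝ))) := hr.rpow_const (Or.inl one_ne_zero)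
    rw [Real.one_rpow] at hr3
    have hex : Tendsto (fun k => Real.exp (-(c * ((y k : ℝ) / Real.sqrt (m k)) ^ 2 *
        ((m k : ℝ) / ((m k : ℝ) + 1))))) atTop (𝓝 (Real.exp (-(c * t ^ 2 * 1)))) :=
      (Real.continuous_exp.tendsto _).comp (((hy.pow 2).const_mul c).mul hr).neg
    have hall := ((hy.const_mul K).mul hr3).mul hex
    have e : K * t * 1 * Real.exp (-(c * t ^ 2 * 1)) =
        K * (t * Real.exp (-(t ^ 2 / (2 * (1 / (2 * c)))))) := by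
      have : t ^ 2 / (2 * (1 / (2 * c))) = c * t ^ 2 * 1 := by
        field_simp
      rw [this]
      ring
    rw [e] at hall
    refine hall.congr' ?_
    have hpos : ∀ᶠ k in atTop, 0 < (y k : ℝ) / Real.sqrt (m k) := hy.eventually_const_lt ht
    have hlt : ∀ᶠ k in atTop, (y k : ℝ) / Real.sqrt (m k) < t + 1 :=
      hy.eventually_lt_const (by linarith)
    filter_upwards [he, hpos, hlt, hsq.eventually_gt_atTop (t + 1), hsq.eventually_gt_atTop 0]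
      with k h1 h2 h3 h4 h5
    have hm0 : (0 : ℝ) < m k := by
      by_contra h
      have : (m k : ℝ) = 0 := le_antisymm (not_lt.1 h) (by positivity)
      rw [this, Real.sqrt_zero] at h5
      exact lt_irrefl _ h5
    have hy0 : (0 : ℝ) < y k := by
      have := mul_pos h2 h5
      rwa [div_mul_cancel₀ _ h5.ne'] at this
    have hym : (y k : ℝ) ≤ m k := by
      rw [div_lt_iff₀ h5] at h3
      have h6 : Real.sqrt (m k) * Real.sqrt (m k) = m k := Real.mul_self_sqrt hm0.le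
      nlinarith
    have hc1 : 0 < y k ∧ y k ≤ m k ∧ Even ((m k : ℤ) + y k) :=
      ⟨by exact_mod_cast hy0, by exact_mod_cast hym, h1⟩
    unfold bb
    rw [if_pos hc1, abs_of_pos hy0]
    have e1 : c * ((y k : ℝ) / Real.sqrt (m k)) ^ 2 * ((m k : ℝ) / ((m k : ℝ) + 1)) =
        c * (y k : ℝ) ^ 2 / (m k + 1) := by
      rw [div_pow, Real.sq_sqrt hm0.le]
      field_simp
    have hm1 : (0 : ℝ) < (m k : ℝ) + 1 := by positivity
    rw [e1, Real.div_rpow hm0.le hm1.le, ← K7.sqrt_three hm0]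
    have : (0 : ℝ) < ((m k : ℝ) + 1) ^ (3 / 2 : ℝ) := by positivity
    field_simp

/-! ### limits -/

lemma scaled_limC {s b C : ℝ} {L : ℝ → ℕ → ℤ → ℂ} (hL : ProfC s b L C) {m : ℕ → ℕ} {y : ℕ → ℤ}
    {ψ : ℕ → ℝ} {r t χ : ℝ} (hr : 0 < r) (ht : 0 < t)
    (hm : Tendsto (fun n : ℕ => (m n : ℝ) / ((2 * n : ℕ) : ℝ)) atTop (𝓝 r))
    (hy : Tendsto (fun n : ℕ => (y n : ℝ) / Real.sqrt ((2 * n : ℕ) : ℝ)) atTop (𝓝 t))
    (he : ∀ᶠ n in atTop, Even ((m n : ℤ) + y n))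
    (hψ : Tendsto (fun n : ℕ => ψ n * Real.sqrt ((2 * n : ℕ) : ℝ)) atTop (𝓝 χ)) :
    Tendsto (fun n : ℕ => ((((2 * n : ℕ) : ℝ) : ℂ)) * L (ψ n) (m n) (y n)) atTop
      (𝓝 ((C * K7.gm s r t * Real.exp (-(b * (r * χ ^ 2) / 2)) : ℝ) : ℂ)) := by
  have h2n := K7.tendsto_two
  have hmt : Tendsto (fun n => (m n : ℝ)) atTop atTop := by
    have := hm.pos_mul_atTop hr h2n
    refine this.congr' ?_
    filter_upwards [eventually_gt_atTop 0] with n hn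
    have : ((2 * n : ℕ) : ℝ) ≠ 0 := by exact_mod_cast (by omega : 2 * n ≠ 0)
    field_simp
  have hmN : Tendsto m atTop atTop := tendsto_natCast_atTop_iff.1 hmt
  have hsq : Tendsto (fun n : ℕ => Real.sqrt ((m n : ℝ) / ((2 * n : ℕ) : ℝ))) atTop
      (𝓝 (Real.sqrt r)) := (Real.continuous_sqrt.tendsto r).comp hm
  have hsr : 0 < Real.sqrt r := Real.sqrt_pos.2 hr
  have hq : Tendsto (fun n => (y n : ℝ) / Real.sqrt (m n)) atTop (𝓝 (t / Real.sqrt r)) := by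
    refine (hy.div hsq hsr.ne').congr' ?_
    filter_upwards [eventually_gt_atTop 0, hmt.eventually_gt_atTop 0] with n hn hn2
    have h1 : (0 : ℝ) < ((2 * n : ℕ) : ℝ) := by exact_mod_cast (by omega : 0 < 2 * n)
    simp only [Pi.div_apply]
    rw [Real.sqrt_div hn2.le]
    have := Real.sqrt_pos.2 h1
    have := Real.sqrt_pos.2 hn2
    field_simp
  have hp : Tendsto (fun n => ψ n * Real.sqrt (m n)) atTop (𝓝 (χ * Real.sqrt r)) := by
    refine (hψ.mul hsq).congr' ?_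
    filter_upwards [eventually_gt_atTop 0, hmt.eventually_gt_atTop 0] with n hn hn2
    have h1 : (0 : ℝ) < ((2 * n : ℕ) : ℝ) := by exact_mod_cast (by omega : 0 < 2 * n)
    rw [Real.sqrt_div hn2.le]
    have := Real.sqrt_pos.2 h1
    field_simp
  have h3 := hL.lim (t / Real.sqrt r) (χ * Real.sqrt r) (by positivity) m y ψ hmN he hq hp
  have hrc : ((r : ℝ) : ℂ) ≠ 0 := by exact_mod_cast hr.ne'
  have hmc : Tendsto (fun n : ℕ => ((((m n : ℝ) / ((2 * n : ℕ) : ℝ) : ℝ)) : ℂ)) atTop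
      (𝓝 ((r : ℝ) : ℂ)) := (Complex.continuous_ofReal.tendsto r).comp hm
  have h4 := h3.div hmc hrc
  have e : ((C * (t / Real.sqrt r * Real.exp (-((t / Real.sqrt r) ^ 2 / (2 * s)))) *
      Real.exp (-(b * (χ * Real.sqrt r) ^ 2 / 2)) : ℝ) : ℂ) / ((r : ℝ) : ℂ) =
      ((C * K7.gm s r t * Real.exp (-(b * (r * χ ^ 2) / 2)) : ℝ) : ℂ) := by
    rw [← Complex.ofReal_div]
    congr 1
    have e1 : (χ * Real.sqrt r) ^ 2 = r * χ ^ 2 := by
      rw [mul_pow, Real.sq_sqrt hr.le, mul_comm]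
    rw [e1]
    unfold K7.gm
    ring
  rw [e] at h4
  refine h4.congr' ?_
  filter_upwards [eventually_gt_atTop 0, hmt.eventually_gt_atTop 0] with n hn hn2
  have h1 : (((2 * n : ℕ) : ℝ) : ℂ) ≠ 0 := by exact_mod_cast (by omega : 2 * n ≠ 0)
  have h2 : ((m n : ℝ) : ℂ) ≠ 0 := by exact_mod_cast hn2.ne'
  simp only [Pi.div_apply, Complex.ofReal_div]
  field_simp

/-! ### the complex summand -/

/-- scaled summand -/
noncomputable def GGc (a : ℕ) (L : ℕ → ℤ → ℂ) (Ψ : ℕ → ℤ → ℤ → ℂ) (R : ℕ → ℤ → ℂ) (N j : ℕ)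
    (h : ℤ) (i k : ℕ) : ℂ :=
  if i + j ≤ N then
    ((1 / 2 * ((K7.xx i k : ℝ) / Real.sqrt N) ^ a : ℝ) : ℂ) *
      (((N : ℝ) : ℂ) * L i (K7.xx i k)) *
      (((N : ℝ) : ℂ) * R (N - i - j) (K7.xx i k + h)) * Ψ j (K7.xx i k) (K7.xx i k + h)
  else 0

lemma GGc_norm {a : ℕ} {L R : ℕ → ℤ → ℂ} {Ψ : ℕ → ℤ → ℤ → ℂ} {Lb Rb : ℕ → ℤ → ℝ}
    {s C C' : ℝ} {f φ : ℕ → ℤ → ℝ} {q : ℕ} {ψ₀ : ℕ → ℤ → ℤ → ℝ}
    (hLb : Profile s Lb C) (hRb : Profile s Rb C') (hψ : Marked f q φ ψ₀)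
    (h1 : ∀ m y, ‖L m y‖ ≤ Lb m y) (h2 : ∀ m y, ‖R m y‖ ≤ Rb m y)
    (h3 : ∀ m x y, ‖Ψ m x y‖ ≤ ψ₀ m x y) (N j : ℕ) (h : ℤ) (i k : ℕ) :
    ‖GGc a L Ψ R N j h i k‖ ≤ K7.GG a Lb ψ₀ Rb N j h i k := by
  have h0 := K7.GG_nonneg hLb hRb hψ a N j h i k
  by_cases hx : Lb i (K7.xx i k) = 0
  · have h4 : L i (K7.xx i k) = 0 := by
      have := h1 i (K7.xx i k)
      rw [hx] at this
      exact norm_le_zero_iff.1 this
    have h5 : GGc a L Ψ R N j h i k = 0 := by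
      unfold GGc
      split_ifs
      · rw [h4]; simp
      · rfl
    rw [h5, norm_zero]
    exact h0
  · have hx0 : 0 < K7.xx i k := (hLb.supp _ _ hx).1
    have hx1 : (0 : ℝ) < (K7.xx i k : ℝ) := by exact_mod_cast hx0
    unfold GGc K7.GG
    split_ifs
    · rw [norm_mul, norm_mul, norm_mul, norm_mul, norm_mul, Complex.norm_real, Complex.norm_real,
        Real.norm_of_nonneg (by positivity), Real.norm_of_nonneg (by positivity : (0 : ℝ) ≤ N)]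
      have a1 := h1 i (K7.xx i k)
      have a2 := h2 (N - i - j) (K7.xx i k + h)
      have a3 := h3 j (K7.xx i k) (K7.xx i k + h)
      have b1 := hLb.nonneg i (K7.xx i k)
      have b2 := hRb.nonneg (N - i - j) (K7.xx i k + h)
      gcongr
    · rw [norm_zero]

lemma GGc_meas (a : ℕ) (L : ℕ → ℤ → ℂ) (Ψ : ℕ → ℤ → ℤ → ℂ) (R : ℕ → ℤ → ℂ) (N j : ℕ) (h : ℤ)
    (u v : ℝ) : Measurable (fun p : ℝ × ℝ => GGc a L Ψ R N j h ⌊p.1 * u⌋₊ ⌊p.2 * v⌋₊) := by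
  have h1 : Measurable (fun ik : ℕ × ℕ => GGc a L Ψ R N j h ik.1 ik.2) := measurable_of_countable _
  have h2 : Measurable (fun p : ℝ × ℝ => (⌊p.1 * u⌋₊, ⌊p.2 * v⌋₊)) := by
    refine Measurable.prodMk ?_ ?_
    · exact Nat.measurable_floor.comp (measurable_fst.mul_const _)
    · exact Nat.measurable_floor.comp (measurable_snd.mul_const _)
  exact h1.comp h2

/-- contribution of the marked block `(j, h)` -/
noncomputable def TTc (a : ℕ) (L : ℕ → ℤ → ℂ) (Ψ : ℕ → ℤ → ℤ → ℂ) (R : ℕ → ℤ → ℂ) (N : ℕ)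
    (q : ℕ × ℤ) : ℂ :=
  ∫ p in K7.DD, GGc a L Ψ R N q.1 q.2 ⌊p.1 * (N : ℝ)⌋₊ ⌊p.2 * (Real.sqrt (N : ℝ) / 2)⌋₊

lemma GGc_lim {s b C C' : ℝ} {L R : ℝ → ℕ → ℤ → ℂ} (hL : ProfC s b L C) (hR : ProfC s b R C')
    {f : ℕ → ℤ → ℝ} (hf : FreeLaw f) {q : ℕ} {φ : ℕ → ℤ → ℝ} {ψ₀ : ℕ → ℤ → ℤ → ℝ}
    {Φ : ℝ → ℕ → ℤ → ℂ} {Ψ : ℝ → ℕ → ℤ → ℤ → ℂ} (hψ : Marked f q φ ψ₀) (hΨ : TwMarked φ ψ₀ Φ Ψ)
    {ψ : ℕ → ℝ} {χ : ℝ}
    (hψl : Tendsto (fun n : ℕ => ψ n * Real.sqrt ((2 * n : ℕ) : ℝ)) atTop (𝓝 χ))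
    (a j : ℕ) (h : ℤ) (hjh : φ j h ≠ 0) {p : ℝ × ℝ} (hp : p ∈ K7.DD) :
    Tendsto (fun n : ℕ => GGc a (L (ψ n)) (Ψ (ψ n)) (R (ψ n)) (2 * n) j h
      ⌊p.1 * ((2 * n : ℕ) : ℝ)⌋₊ ⌊p.2 * (Real.sqrt ((2 * n : ℕ) : ℝ) / 2)⌋₊) atTop
      (𝓝 (((φ j h * (C * C' * K7.HH a s p) * Real.exp (-(b * χ ^ 2 / 2)) : ℝ) : ℂ))) := by
  have hs0 : 0 < p.1 := hp.1.1
  have hs1 : p.1 < 1 := hp.1.2
  have ht : 0 < p.2 := hp.2
  have hs2 : 0 < 1 - p.1 := by linarith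
  have hfne : f j h ≠ 0 := by
    intro h0
    have h3 := hψ.bd j h
    rw [h0, mul_zero] at h3
    exact hjh (le_antisymm h3 (K7.phi_nonneg hψ j h))
  obtain ⟨e, he⟩ := (hf.supp _ _ hfne).2.2
  set i : ℕ → ℕ := fun n => ⌊p.1 * ((2 * n : ℕ) : ℝ)⌋₊ with hi
  set k : ℕ → ℕ := fun n => ⌊p.2 * (Real.sqrt ((2 * n : ℕ) : ℝ) / 2)⌋₊ with hk
  have hi1 : Tendsto (fun n => (i n : ℝ) / ((2 * n : ℕ) : ℝ)) atTop (𝓝 p.1) :=
    (tendsto_nat_floor_mul_div_atTop hs0.le).comp K7.tendsto_two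
  have hk1 : Tendsto (fun n => (k n : ℝ) / Real.sqrt ((2 * n : ℕ) : ℝ)) atTop (𝓝 (p.2 / 2)) := by
    have := (tendsto_nat_floor_mul_div_atTop (a := p.2 / 2) (by positivity)).comp
      K7.tendsto_sqrt_two
    refine this.congr fun n => ?_
    simp only [Function.comp, hk]
    rw [show p.2 / 2 * Real.sqrt ((2 * n : ℕ) : ℝ) = p.2 * (Real.sqrt ((2 * n : ℕ) : ℝ) / 2) by ring]
  have hinv : Tendsto (fun n : ℕ => (Real.sqrt ((2 * n : ℕ) : ℝ))⁻¹) atTop (𝓝 0) :=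
    tendsto_inv_atTop_zero.comp K7.tendsto_sqrt_two
  have hmod : Tendsto (fun n => ((i n % 2 : ℕ) : ℝ) / Real.sqrt ((2 * n : ℕ) : ℝ)) atTop (𝓝 0) := by
    refine squeeze_zero (fun n => by positivity) (fun n => ?_) hinv
    rw [div_eq_mul_inv]
    have h1 : ((i n % 2 : ℕ) : ℝ) ≤ 1 := by
      have : i n % 2 ≤ 1 := by omega
      exact_mod_cast this
    have h2 : 0 ≤ (Real.sqrt ((2 * n : ℕ) : ℝ))⁻¹ := by positivity
    nlinarith
  have hx1 : Tendsto (fun n => (K7.xx (i n) (k n) : ℝ) / Real.sqrt ((2 * n : ℕ) : ℝ)) atTop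
      (𝓝 p.2) := by
    have := (hk1.const_mul 2).sub hmod
    rw [show 2 * (p.2 / 2) - 0 = p.2 by ring] at this
    refine this.congr fun n => ?_
    unfold K7.xx
    simp only [Int.cast_sub, Int.cast_mul, Int.cast_ofNat, Int.cast_natCast]
    ring
  have hy1 : Tendsto (fun n => ((K7.xx (i n) (k n) + h : ℤ) : ℝ) /
      Real.sqrt ((2 * n : ℕ) : ℝ)) atTop (𝓝 p.2) := by
    have := hx1.add (hinv.const_mul (h : ℝ))
    rw [mul_zero, add_zero] at this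
    refine this.congr fun n => ?_
    push_cast
    ring
  have hinv2 : Tendsto (fun n : ℕ => (((2 * n : ℕ) : ℝ))⁻¹) atTop (𝓝 0) :=
    tendsto_inv_atTop_zero.comp K7.tendsto_two
  have hij : ∀ᶠ n in atTop, i n + j ≤ 2 * n := by
    have h1 : Tendsto (fun n => (i n : ℝ) / ((2 * n : ℕ) : ℝ) + (j : ℝ) * ((2 * n : ℕ) : ℝ)⁻¹) atTop
        (𝓝 (p.1 + j * 0)) := hi1.add (hinv2.const_mul (j : ℝ))
    rw [mul_zero, add_zero] at h1
    filter_upwards [h1.eventually_lt_const hs1, eventually_gt_atTop 0] with n hn hn0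
    have hpos : (0 : ℝ) < ((2 * n : ℕ) : ℝ) := by exact_mod_cast (by omega : 0 < 2 * n)
    rw [← div_eq_mul_inv, ← add_div, div_lt_one hpos] at hn
    exact_mod_cast hn.le
  have hm1 : Tendsto (fun n => ((2 * n - i n - j : ℕ) : ℝ) / ((2 * n : ℕ) : ℝ)) atTop
      (𝓝 (1 - p.1)) := by
    have h1 : Tendsto (fun n => 1 - (i n : ℝ) / ((2 * n : ℕ) : ℝ) -
        (j : ℝ) * ((2 * n : ℕ) : ℝ)⁻¹) atTop (𝓝 (1 - p.1 - j * 0)) :=
      (hi1.const_sub 1).sub (hinv2.const_mul (j : ℝ))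
    rw [mul_zero, sub_zero] at h1
    refine h1.congr' ?_
    filter_upwards [hij, eventually_gt_atTop 0] with n hn hn0
    have hpos : (0 : ℝ) < ((2 * n : ℕ) : ℝ) := by exact_mod_cast (by omega : 0 < 2 * n)
    rw [Nat.cast_sub (by omega), Nat.cast_sub (by omega)]
    field_simp
  have hLl := scaled_limC hL hs0 ht hi1 hx1 (Eventually.of_forall fun n => by
    refine ⟨((i n / 2 : ℕ) : ℤ) + k n, ?_⟩
    unfold K7.xx
    omega) hψl
  have hRl := scaled_limC hR hs2 ht hm1 hy1 (by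
    filter_upwards [hij] with n hn
    refine ⟨(n : ℤ) - ((i n / 2 : ℕ) : ℤ) - ((i n % 2 : ℕ) : ℤ) + k n + e - j, ?_⟩
    unfold K7.xx
    omega) hψl
  have hxt : Tendsto (fun n => (K7.xx (i n) (k n) : ℝ)) atTop atTop := by
    have := hx1.pos_mul_atTop ht K7.tendsto_sqrt_two
    refine this.congr' ?_
    filter_upwards [eventually_gt_atTop 0] with n hn0
    have hpos : (0 : ℝ) < ((2 * n : ℕ) : ℝ) := by exact_mod_cast (by omega : 0 < 2 * n)
    have := Real.sqrt_pos.2 hpos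
    field_simp
  have hψ0 : Tendsto ψ atTop (𝓝 0) := by
    have h1 := hψl.mul hinv
    rw [mul_zero] at h1
    refine h1.congr' ?_
    filter_upwards [eventually_gt_atTop 0] with n hn0
    have hpos : (0 : ℝ) < ((2 * n : ℕ) : ℝ) := by exact_mod_cast (by omega : 0 < 2 * n)
    have := Real.sqrt_pos.2 hpos
    field_simp
  have hΦ : Tendsto (fun n => Φ (ψ n) j h) atTop (𝓝 ((φ j h : ℝ) : ℂ)) :=
    (hΨ.cont j h).comp hψ0
  have hxa : Tendsto (fun n => ((1 / 2 * ((K7.xx (i n) (k n) : ℝ) /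
      Real.sqrt ((2 * n : ℕ) : ℝ)) ^ a : ℝ) : ℂ)) atTop (𝓝 ((1 / 2 * p.2 ^ a : ℝ) : ℂ)) :=
    (Complex.continuous_ofReal.tendsto _).comp ((hx1.pow a).const_mul (1 / 2))
  have hall := ((hxa.mul hLl).mul hRl).mul hΦ
  have hgoal : ((φ j h * (C * C' * K7.HH a s p) * Real.exp (-(b * χ ^ 2 / 2)) : ℝ) : ℂ) =
      ((1 / 2 * p.2 ^ a : ℝ) : ℂ) *
        ((C * K7.gm s p.1 p.2 * Real.exp (-(b * (p.1 * χ ^ 2) / 2)) : ℝ) : ℂ) *
        ((C' * K7.gm s (1 - p.1) p.2 * Real.exp (-(b * ((1 - p.1) * χ ^ 2) / 2)) : ℝ) : ℂ) *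
        ((φ j h : ℝ) : ℂ) := by
    rw [← Complex.ofReal_mul, ← Complex.ofReal_mul, ← Complex.ofReal_mul]
    congr 1
    have e1 : Real.exp (-(b * χ ^ 2 / 2)) = Real.exp (-(b * (p.1 * χ ^ 2) / 2)) *
        Real.exp (-(b * ((1 - p.1) * χ ^ 2) / 2)) := by
      rw [← Real.exp_add]
      congr 1
      ring
    rw [e1]
    unfold K7.HH
    ring
  rw [hgoal]
  refine hall.congr' ?_
  filter_upwards [hij, hxt.eventually_gt_atTop (j : ℝ)] with n hn hx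
  have hjx : (j : ℤ) < K7.xx (i n) (k n) := by exact_mod_cast hx
  unfold GGc
  rw [if_pos hn, hΨ.far _ j _ _ hjx, add_sub_cancel_left]

lemma TTc_bd {a : ℕ} {L R : ℕ → ℤ → ℂ} {Ψ : ℕ → ℤ → ℤ → ℂ} {Lb Rb : ℕ → ℤ → ℝ}
    {s C C' : ℝ} {f φ : ℕ → ℤ → ℝ} {q : ℕ} {ψ₀ : ℕ → ℤ → ℤ → ℝ}
    (hLb : Profile s Lb C) (hRb : Profile s Rb C') (hψ : Marked f q φ ψ₀)
    (h1 : ∀ m y, ‖L m y‖ ≤ Lb m y) (h2 : ∀ m y, ‖R m y‖ ≤ Rb m y)
    (h3 : ∀ m x y, ‖Ψ m x y‖ ≤ ψ₀ m x y) {B c : ℝ} (hc : 0 < c) (N : ℕ)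
    (hbd : ∀ (j : ℕ) (h : ℤ), ∀ p ∈ K7.DD,
      K7.GG a Lb ψ₀ Rb N j h ⌊p.1 * (N : ℝ)⌋₊ ⌊p.2 * (Real.sqrt N / 2)⌋₊ ≤
        B * (φ j h * (1 + (j : ℝ)) ^ 2) * K7.maj a c p) (z : ℕ × ℤ) :
    ‖TTc a L Ψ R N z‖ ≤ (B * ∫ p in K7.DD, K7.maj a c p) * (φ z.1 z.2 * (1 + (z.1 : ℝ)) ^ 2) := by
  obtain ⟨j, h⟩ := z
  simp only
  unfold TTc
  refine (norm_integral_le_of_norm_le ((K7.maj_int a hc).const_mul
    (B * (φ j h * (1 + (j : ℝ)) ^ 2))) ?_).trans ?_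
  · rw [ae_restrict_iff' K7.measurableSet_DD]
    refine Eventually.of_forall fun p hp => ?_
    exact (GGc_norm hLb hRb hψ h1 h2 h3 N j h _ _).trans (hbd j h p hp)
  · rw [integral_const_mul]
    exact le_of_eq (by ring)

/-! ### the sum as an integral -/

lemma int_floorC (N : ℕ) (hN : 0 < N) {mu : ℝ} (hmu : 0 < mu) (G : ℕ → ℕ → ℂ) (M : ℕ)
    (hG : ∀ i < N, ∀ k, M ≤ k → G i k = 0) :
    ∫ p in K7.DD, G ⌊p.1 * (N : ℝ)⌋₊ ⌊p.2 * mu⌋₊ =
      ((1 / N * (1 / mu) : ℝ) : ℂ) * ∑ i ∈ Finset.range N, ∑ k ∈ Finset.range M, G i k := by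
  have hN' : (0 : ℝ) < N := by exact_mod_cast hN
  have e1 : ∫ p in K7.DD, G ⌊p.1 * (N : ℝ)⌋₊ ⌊p.2 * mu⌋₊ =
      ∫ p in K7.DD, ∑ i ∈ Finset.range N, ∑ k ∈ Finset.range M,
        G i k * ((K7.chi N i p.1 * K7.chi mu k p.2 : ℝ) : ℂ) := by
    refine setIntegral_congr_fun K7.measurableSet_DD fun p hp => ?_
    have h1 : p.1 ∈ Set.Ioo (0 : ℝ) 1 := hp.1
    have h2 : p.2 ∈ Set.Ioi (0 : ℝ) := hp.2
    have h3 : ⌊p.1 * (N : ℝ)⌋₊ < N := by
      rw [Nat.floor_lt (by have := h1.1; positivity)]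
      have := h1.2
      nlinarith
    show G ⌊p.1 * (N : ℝ)⌋₊ ⌊p.2 * mu⌋₊ = _
    simp only [K7.chi_eq hN' _ h1.1.le, K7.chi_eq hmu _ (le_of_lt h2)]
    rw [Finset.sum_eq_single ⌊p.1 * (N : ℝ)⌋₊]
    · by_cases h4 : ⌊p.2 * mu⌋₊ < M
      · rw [Finset.sum_eq_single ⌊p.2 * mu⌋₊]
        · simp
        · intro k _ hk
          rw [if_neg (fun h : ⌊p.2 * mu⌋₊ = k => hk h.symm)]; simp
        · intro h; exact absurd (Finset.mem_range.2 h4) h
      · rw [hG _ h3 _ (not_lt.1 h4)]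
        symm
        refine Finset.sum_eq_zero fun k hk => ?_
        rw [if_neg (fun h : ⌊p.2 * mu⌋₊ = k => h4 (h ▸ Finset.mem_range.1 hk))]; simp
    · intro i _ hi
      refine Finset.sum_eq_zero fun k _ => ?_
      rw [if_neg (fun h => hi h.symm)]; simp
    · intro h; exact absurd (Finset.mem_range.2 h3) h
  rw [e1]
  have hintr : ∀ i k, IntegrableOn (fun p : ℝ × ℝ => K7.chi N i p.1 * K7.chi mu k p.2) K7.DD := by
    intro i k
    unfold K7.DD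
    rw [IntegrableOn, Measure.volume_eq_prod, ← Measure.prod_restrict]
    exact (K7.chi_integrable _ _ _).mul_prod (K7.chi_integrable _ _ _)
  have hint : ∀ i k, IntegrableOn (fun p : ℝ × ℝ =>
      G i k * ((K7.chi N i p.1 * K7.chi mu k p.2 : ℝ) : ℂ)) K7.DD := by
    intro i k
    exact (hintr i k).ofReal.const_mul (G i k)
  rw [integral_finsetSum _ (fun i _ => integrable_finsetSum _ (fun k _ => hint i k))]
  rw [Finset.mul_sum]
  refine Finset.sum_congr rfl fun i hi => ?_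
  rw [integral_finsetSum _ (fun k _ => hint i k), Finset.mul_sum]
  refine Finset.sum_congr rfl fun k _ => ?_
  rw [integral_const_mul, integral_complex_ofReal]
  have hi' : i < N := Finset.mem_range.1 hi
  have e2 : ∫ p in K7.DD, K7.chi N i p.1 * K7.chi mu k p.2 = 1 / N * (1 / mu) := by
    unfold K7.DD
    rw [Measure.volume_eq_prod, setIntegral_prod_mul, ← integral_Ico_eq_integral_Ioo,
      ← integral_Ici_eq_integral_Ioi, K7.chi_int hN', K7.chi_int hmu]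
    · intro t ht
      exact le_trans (by positivity) ht.1
    · intro t ht
      refine ⟨le_trans (by positivity) ht.1, lt_of_lt_of_le ht.2 ?_⟩
      rw [div_le_one hN']
      exact_mod_cast hi'
  rw [e2]; ring

lemma sum_xxC (i N : ℕ) (hi : i ≤ N) (F : ℤ → ℂ)
    (hF : ∀ x, F x ≠ 0 → 0 < x ∧ x ≤ i ∧ Even ((i : ℤ) + x)) :
    ∑ k ∈ Finset.range (N + 1), F (K7.xx i k) = ∑ x ∈ Finset.Icc 1 (i : ℤ), F x := by
  refine Finset.sum_bij_ne_zero (fun k _ _ => K7.xx i k) ?_ ?_ ?_ ?_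
  · intro k _ hk
    have := hF _ hk
    rw [Finset.mem_Icc]
    omega
  · intro k _ _ k' _ _ h
    unfold K7.xx at h
    omega
  · intro x _ hx
    obtain ⟨h1, h2, e, he⟩ := hF _ hx
    have hxx : K7.xx i ((x + ((i % 2 : ℕ) : ℤ)) / 2).toNat = x := by
      unfold K7.xx
      omega
    refine ⟨((x + ((i % 2 : ℕ) : ℤ)) / 2).toNat, ?_, ?_, hxx⟩
    · rw [Finset.mem_range]
      omega
    · rw [hxx]; exact hx
  · intro k _ _; rfl

/-- unscaled summand -/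
noncomputable def FFc (a : ℕ) (L : ℕ → ℤ → ℂ) (Ψ : ℕ → ℤ → ℤ → ℂ) (R : ℕ → ℤ → ℂ) (N i j : ℕ)
    (x y : ℤ) : ℂ :=
  (x : ℂ) ^ a * L i x * Ψ j x y * R (N - i - j) y

/-- support condition -/
def Supp (L : ℕ → ℤ → ℂ) : Prop := ∀ m y, L m y ≠ 0 → 0 < y ∧ y ≤ m ∧ Even ((m : ℤ) + y)

lemma GGc_sum {L R : ℕ → ℤ → ℂ} (hL : Supp L)
    (Ψ : ℕ → ℤ → ℤ → ℂ) (a N j : ℕ) (h : ℤ) (i : ℕ) (hi : i < N) :
    ∑ k ∈ Finset.range (N + 1), GGc a L Ψ R N j h i k =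
      ((1 / 2 * (1 / Real.sqrt N) ^ a * N * N : ℝ) : ℂ) *
        (if i + j ≤ N then ∑ x ∈ Finset.Icc 1 (i : ℤ), FFc a L Ψ R N i j x (x + h) else 0) := by
  split_ifs with hij
  · rw [← sum_xxC i N hi.le (fun x => FFc a L Ψ R N i j x (x + h)), Finset.mul_sum]
    · refine Finset.sum_congr rfl fun k _ => ?_
      unfold GGc FFc
      rw [if_pos hij, div_pow, div_pow, one_pow]
      push_cast
      ring
    · intro x hx
      have : L i x ≠ 0 := by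
        intro h0
        apply hx
        simp only [FFc, h0]
        ring
      exact hL _ _ this
  · rw [mul_zero]
    refine Finset.sum_eq_zero fun k _ => ?_
    unfold GGc
    rw [if_neg hij]

lemma TTc_eq {L R : ℕ → ℤ → ℂ} (hL : Supp L)
    (Ψ : ℕ → ℤ → ℤ → ℂ) (a N : ℕ) (hN : 0 < N) (j : ℕ) (h : ℤ) :
    TTc a L Ψ R N (j, h) = (((N : ℝ) ^ ((1 - (a : ℝ)) / 2) : ℝ) : ℂ) * ∑ i ∈ Finset.range N,
      if i + j ≤ N then ∑ x ∈ Finset.Icc 1 (i : ℤ), FFc a L Ψ R N i j x (x + h) else 0 := by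
  have hN' : (0 : ℝ) < N := by exact_mod_cast hN
  have hsq : 0 < Real.sqrt N := Real.sqrt_pos.2 hN'
  unfold TTc
  simp only
  rw [int_floorC N hN (mu := Real.sqrt N / 2) (by positivity) (GGc a L Ψ R N j h) (N + 1)]
  · rw [Finset.sum_congr rfl (fun i hi => GGc_sum hL Ψ a N j h i (Finset.mem_range.1 hi)),
      ← Finset.mul_sum, ← mul_assoc]
    congr 1
    rw [← Complex.ofReal_mul]
    congr 1
    have e1 : (N : ℝ) ^ ((1 - (a : ℝ)) / 2) = Real.sqrt N * (1 / Real.sqrt N) ^ a := by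
      rw [sub_div, Real.rpow_sub hN', ← Real.sqrt_eq_rpow, div_pow, one_pow, mul_one_div]
      congr 1
      rw [Real.sqrt_eq_rpow, ← Real.rpow_natCast, ← Real.rpow_mul hN'.le]
      congr 1; ring
    rw [e1]
    have e3 : 1 / (N : ℝ) * (1 / (Real.sqrt N / 2)) * (1 / 2 * (1 / Real.sqrt N) ^ a * N * N) =
        (N / Real.sqrt N) * (1 / Real.sqrt N) ^ a := by
      field_simp
    rw [e3, Real.div_sqrt]
  · intro i hi k hk
    unfold GGc
    split_ifs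
    · have : L i (K7.xx i k) = 0 := by
        by_contra h0
        have h1 := (hL _ _ h0).2.1
        unfold K7.xx at h1
        omega
      rw [this]; ring
    · rfl

lemma TTc_zero {L R : ℕ → ℤ → ℂ} (hL : Supp L) (hR : Supp R)
    (Ψ : ℕ → ℤ → ℤ → ℂ) (a N : ℕ) (hN : 0 < N) (z : ℕ × ℤ)
    (hz : z ∉ Finset.range (N + 1) ×ˢ Finset.Icc (-(N : ℤ)) N) : TTc a L Ψ R N z = 0 := by
  obtain ⟨j, h⟩ := z
  rw [TTc_eq hL Ψ a N hN j h]
  have : ∑ i ∈ Finset.range N,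
      (if i + j ≤ N then ∑ x ∈ Finset.Icc 1 (i : ℤ), FFc a L Ψ R N i j x (x + h) else 0) = 0 := by
    refine Finset.sum_eq_zero fun i hi => ?_
    split_ifs with hij
    · refine Finset.sum_eq_zero fun x hx => ?_
      rw [Finset.mem_Icc] at hx
      rw [Finset.mem_product, Finset.mem_range, Finset.mem_Icc] at hz
      have hR0 : R (N - i - j) (x + h) = 0 := by
        by_contra h0
        have h1 := hR _ _ h0
        apply hz
        have := Finset.mem_range.1 hi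
        refine ⟨by omega, ?_, ?_⟩
        · simp only
          omega
        · simp only
          have := h1.2.1
          omega
      unfold FFc
      rw [hR0, mul_zero]
    · rfl
  rw [this, mul_zero]

lemma shift_sumC {m N : ℕ} {i : ℕ} (hm : m ≤ N) (hi : i ≤ N) {x : ℤ}
    (hx : x ∈ Finset.Icc 1 (i : ℤ))
    (u : ℤ → ℂ) (hu : ∀ y, u y ≠ 0 → 0 < y ∧ y ≤ m) :
    ∑ y ∈ Finset.Icc 1 (m : ℤ), u y = ∑ h ∈ Finset.Icc (-(N : ℤ)) N, u (x + h) := by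
  rw [Finset.mem_Icc] at hx
  symm
  refine Finset.sum_bij_ne_zero (fun h _ _ => x + h) ?_ ?_ ?_ ?_
  · intro h _ hh
    have := hu _ hh
    rw [Finset.mem_Icc]
    omega
  · intro h _ _ h' _ _ e
    omega
  · intro y hy hy0
    rw [Finset.mem_Icc] at hy
    refine ⟨y - x, ?_, ?_, by ring⟩
    · rw [Finset.mem_Icc]; omega
    · rw [add_sub_cancel]; exact hy0
  · intro h _ _; rfl

lemma SSC_eq {L R : ℕ → ℤ → ℂ} (hL : Supp L) (hR : Supp R)
    (Ψ : ℕ → ℤ → ℤ → ℂ) (a N : ℕ) (hN : 0 < N) :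
    (((N : ℝ) ^ ((1 - (a : ℝ)) / 2) : ℝ) : ℂ) * SSC a L Ψ R N = ∑' z, TTc a L Ψ R N z := by
  rw [tsum_eq_sum (s := Finset.range (N + 1) ×ˢ Finset.Icc (-(N : ℤ)) N)
    (fun z hz => TTc_zero hL hR Ψ a N hN z hz), Finset.sum_product,
    Finset.sum_congr rfl (fun j _ => Finset.sum_congr rfl (fun h _ => TTc_eq hL Ψ a N hN j h))]
  simp only [← Finset.mul_sum]
  congr 1
  unfold SSC
  rw [Finset.sum_range_succ]
  have e0 : ∑ j ∈ Finset.range (N + 1 - N), ∑ x ∈ Finset.Icc 1 (N : ℤ),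
      ∑ y ∈ Finset.Icc 1 ((N - N - j : ℕ) : ℤ),
      (x : ℂ) ^ a * L N x * Ψ j x y * R (N - N - j) y = 0 := by
    refine Finset.sum_eq_zero fun j _ => Finset.sum_eq_zero fun x _ => ?_
    simp
  rw [e0, add_zero]
  have e1 : ∀ i ∈ Finset.range N, ∑ j ∈ Finset.range (N + 1 - i), ∑ x ∈ Finset.Icc 1 (i : ℤ),
      ∑ y ∈ Finset.Icc 1 ((N - i - j : ℕ) : ℤ),
      (x : ℂ) ^ a * L i x * Ψ j x y * R (N - i - j) y =
      ∑ j ∈ Finset.range (N + 1), ∑ h ∈ Finset.Icc (-(N : ℤ)) N,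
        if i + j ≤ N then ∑ x ∈ Finset.Icc 1 (i : ℤ), FFc a L Ψ R N i j x (x + h) else 0 := by
    intro i hi
    have hi' : i < N := Finset.mem_range.1 hi
    have e2 : Finset.range (N + 1 - i) = (Finset.range (N + 1)).filter (fun j => i + j ≤ N) := by
      ext j
      simp only [Finset.mem_range, Finset.mem_filter]
      omega
    rw [e2, Finset.sum_filter]
    refine Finset.sum_congr rfl fun j _ => ?_
    split_ifs with hij
    · rw [Finset.sum_comm (s := Finset.Icc (-(N : ℤ)) N)]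
      refine Finset.sum_congr rfl fun x hx => ?_
      refine shift_sumC (i := i) (by omega) hi'.le hx (fun y => FFc a L Ψ R N i j x y) ?_
      intro y hy
      have hR0 : R (N - i - j) y ≠ 0 := by
        intro h0
        apply hy
        simp only [FFc, h0, mul_zero]
      have := hR _ _ hR0
      exact ⟨this.1, this.2.1⟩
    · simp
  rw [Finset.sum_congr rfl e1, Finset.sum_comm]
  refine Finset.sum_congr rfl fun j _ => ?_
  rw [Finset.sum_comm]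

end MarkC

theorem marked_limC {f : ℕ → ℤ → ℝ} (hf : FreeLaw f) {s b : ℝ} (hs : 0 < s)
    {L R : ℝ → ℕ → ℤ → ℂ} {C C' : ℝ} (hC : 0 < C) (hC' : 0 < C') (hL : ProfC s b L C)
    (hR : ProfC s b R C') :
    ∃ c : ℕ → ℝ, (∀ a, 0 < c a) ∧ ∀ (a q : ℕ) (φ : ℕ → ℤ → ℝ) (ψ₀ : ℕ → ℤ → ℤ → ℝ)
      (Φ : ℝ → ℕ → ℤ → ℂ) (Ψ : ℝ → ℕ → ℤ → ℤ → ℂ),
      Marked f q φ ψ₀ → TwMarked φ ψ₀ Φ Ψ → ∀ (χ : ℝ) (ψ : ℕ → ℝ),
      Tendsto (fun n : ℕ => ψ n * Real.sqrt ((2 * n : ℕ) : ℝ)) atTop (𝓝 χ) →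
      Tendsto (fun n : ℕ => ((((2 * n : ℕ) : ℝ) ^ ((1 - (a : ℝ)) / 2) : ℝ) : ℂ) *
        SSC a (L (ψ n)) (Ψ (ψ n)) (R (ψ n)) (2 * n)) atTop
        (𝓝 ((c a * (∑' p : ℕ × ℤ, φ p.1 p.2) * Real.exp (-(b * χ ^ 2 / 2)) : ℝ) : ℂ)) := by
  refine ⟨fun a => C * C' * ∫ p in K7.DD, K7.HH a s p, fun a => ?_, ?_⟩
  · have := K7.HH_int_pos a hs
    positivity
  intro a q φ ψ₀ Φ Ψ hψ hΨ χ ψ hψl
  -- the real majorants
  obtain ⟨K₁, c₁, hK₁, hc₁, hbd₁⟩ := hL.bd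
  obtain ⟨K₂, c₂, hK₂, hc₂, hbd₂⟩ := hR.bd
  have hc0 : 0 < min c₁ c₂ := lt_min hc₁ hc₂
  have hpL := MarkC.bb_profile hK₁ hc0
  have hpR := MarkC.bb_profile hK₂ hc0
  have hLb : ∀ t : ℝ, |t| ≤ Real.pi → ∀ m y, ‖L t m y‖ ≤ MarkC.bb K₁ (min c₁ c₂) m y := by
    intro t ht m y
    unfold MarkC.bb
    split_ifs with hcond
    · refine (hbd₁ t ht m y).trans ?_
      have h1 : Real.exp (-(c₁ * (y : ℝ) ^ 2 / (m + 1))) ≤
          Real.exp (-(min c₁ c₂ * (y : ℝ) ^ 2 / (m + 1))) := by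
        rw [Real.exp_le_exp]
        have : min c₁ c₂ * (y : ℝ) ^ 2 / (m + 1) ≤ c₁ * (y : ℝ) ^ 2 / (m + 1) := by
          gcongr
          exact min_le_left _ _
        linarith
      have h2 : Real.exp (-(c₁ * t ^ 2 * m)) ≤ 1 := by
        rw [Real.exp_le_one_iff]
        have : 0 ≤ c₁ * t ^ 2 * m := by positivity
        linarith
      calc K₁ * |(y : ℝ)| / ((m : ℝ) + 1) ^ (3 / 2 : ℝ) *
            Real.exp (-(c₁ * (y : ℝ) ^ 2 / (m + 1))) * Real.exp (-(c₁ * t ^ 2 * m))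
          ≤ K₁ * |(y : ℝ)| / ((m : ℝ) + 1) ^ (3 / 2 : ℝ) *
            Real.exp (-(min c₁ c₂ * (y : ℝ) ^ 2 / (m + 1))) * 1 := by gcongr
        _ = _ := mul_one _
    · have h0 : L t m y = 0 := by
        by_contra h'
        exact hcond (hL.supp t m y h')
      rw [h0, norm_zero]
  have hRb : ∀ t : ℝ, |t| ≤ Real.pi → ∀ m y, ‖R t m y‖ ≤ MarkC.bb K₂ (min c₁ c₂) m y := by
    intro t ht m y
    unfold MarkC.bb
    split_ifs with hcond
    · refine (hbd₂ t ht m y).trans ?_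
      have h1 : Real.exp (-(c₂ * (y : ℝ) ^ 2 / (m + 1))) ≤
          Real.exp (-(min c₁ c₂ * (y : ℝ) ^ 2 / (m + 1))) := by
        rw [Real.exp_le_exp]
        have : min c₁ c₂ * (y : ℝ) ^ 2 / (m + 1) ≤ c₂ * (y : ℝ) ^ 2 / (m + 1) := by
          gcongr
          exact min_le_right _ _
        linarith
      have h2 : Real.exp (-(c₂ * t ^ 2 * m)) ≤ 1 := by
        rw [Real.exp_le_one_iff]
        have : 0 ≤ c₂ * t ^ 2 * m := by positivity
        linarith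
      calc K₂ * |(y : ℝ)| / ((m : ℝ) + 1) ^ (3 / 2 : ℝ) *
            Real.exp (-(c₂ * (y : ℝ) ^ 2 / (m + 1))) * Real.exp (-(c₂ * t ^ 2 * m))
          ≤ K₂ * |(y : ℝ)| / ((m : ℝ) + 1) ^ (3 / 2 : ℝ) *
            Real.exp (-(min c₁ c₂ * (y : ℝ) ^ 2 / (m + 1))) * 1 := by gcongr
        _ = _ := mul_one _
    · have h0 : R t m y = 0 := by
        by_contra h'
        exact hcond (hR.supp t m y h')
      rw [h0, norm_zero]
  obtain ⟨B, c, hB, hc, hbd⟩ := K7.GG_bd hpL hpR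
  -- the frequencies are small
  have hsmall : ∀ᶠ n in atTop, |ψ n| ≤ Real.pi := by
    have hinv : Tendsto (fun n : ℕ => (Real.sqrt ((2 * n : ℕ) : ℝ))⁻¹) atTop (𝓝 0) :=
      tendsto_inv_atTop_zero.comp K7.tendsto_sqrt_two
    have h1 := hψl.mul hinv
    rw [mul_zero] at h1
    have h2 : Tendsto ψ atTop (𝓝 0) := by
      refine h1.congr' ?_
      filter_upwards [eventually_gt_atTop 0] with n hn0
      have hpos : (0 : ℝ) < ((2 * n : ℕ) : ℝ) := by exact_mod_cast (by omega : 0 < 2 * n)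
      have := Real.sqrt_pos.2 hpos
      field_simp
    have h3 := h2.abs
    rw [abs_zero] at h3
    exact h3.eventually_le_const Real.pi_pos
  -- limit of one term
  have hterm : ∀ z : ℕ × ℤ, Tendsto (fun n : ℕ =>
      MarkC.TTc a (L (ψ n)) (Ψ (ψ n)) (R (ψ n)) (2 * n) z) atTop
      (𝓝 (((φ z.1 z.2 * (C * C' * ∫ p in K7.DD, K7.HH a s p) *
        Real.exp (-(b * χ ^ 2 / 2)) : ℝ) : ℂ))) := by
    rintro ⟨j, h⟩
    simp only
    by_cases hjh : φ j h = 0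
    · rw [hjh, zero_mul, zero_mul, Complex.ofReal_zero]
      refine tendsto_const_nhds.congr' ?_
      filter_upwards with n
      unfold MarkC.TTc
      symm
      have : ∀ p : ℝ × ℝ, MarkC.GGc a (L (ψ n)) (Ψ (ψ n)) (R (ψ n)) (2 * n) j h
          ⌊p.1 * ((2 * n : ℕ) : ℝ)⌋₊ ⌊p.2 * (Real.sqrt ((2 * n : ℕ) : ℝ) / 2)⌋₊ = 0 := by
        intro p
        unfold MarkC.GGc
        split_ifs
        · have h1 : ∀ x : ℤ, Ψ (ψ n) j x (x + h) = 0 := by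
            intro x
            have h2 := (hΨ.le (ψ n) j x (x + h)).trans (hψ.le j x (x + h))
            rw [add_sub_cancel_left, hjh] at h2
            exact norm_le_zero_iff.1 h2
          rw [h1, mul_zero]
        · rfl
      simp only [this]
      simp
    · have e : (((φ j h * (C * C' * ∫ p in K7.DD, K7.HH a s p) *
          Real.exp (-(b * χ ^ 2 / 2)) : ℝ) : ℂ)) = ∫ p in K7.DD,
          (((φ j h * (C * C' * K7.HH a s p) * Real.exp (-(b * χ ^ 2 / 2)) : ℝ) : ℂ)) := by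
        rw [integral_complex_ofReal, integral_mul_const, integral_const_mul, integral_const_mul]
      rw [e]
      unfold MarkC.TTc
      refine tendsto_integral_filter_of_dominated_convergence
        (fun p => B * (φ j h * (1 + (j : ℝ)) ^ 2) * K7.maj a c p) ?_ ?_ ?_ ?_
      · exact Eventually.of_forall fun n => (MarkC.GGc_meas a _ _ _ _ j h _ _).aestronglyMeasurable
      · filter_upwards [eventually_gt_atTop 0, hsmall] with n hn hn2
        rw [ae_restrict_iff' K7.measurableSet_DD]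
        refine Eventually.of_forall fun p hp => ?_
        exact (MarkC.GGc_norm hpL hpR hψ (hLb _ hn2) (hRb _ hn2) (hΨ.le _) (2 * n) j h _ _).trans
          (hbd a f q φ ψ₀ hf hψ (2 * n) j h (by omega) p hp)
      · exact (K7.maj_int a hc).const_mul _
      · rw [ae_restrict_iff' K7.measurableSet_DD]
        exact Eventually.of_forall fun p hp => MarkC.GGc_lim hL hR hf hψ hΨ hψl a j h hjh hp
  have h1 : Tendsto (fun n : ℕ => ∑' z, MarkC.TTc a (L (ψ n)) (Ψ (ψ n)) (R (ψ n)) (2 * n) z) atTop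
      (𝓝 (∑' z : ℕ × ℤ, (((φ z.1 z.2 * (C * C' * ∫ p in K7.DD, K7.HH a s p) *
        Real.exp (-(b * χ ^ 2 / 2)) : ℝ) : ℂ)))) := by
    refine tendsto_tsum_of_dominated_convergence
      (bound := fun z : ℕ × ℤ => (B * ∫ p in K7.DD, K7.maj a c p) *
        (φ z.1 z.2 * (1 + (z.1 : ℝ)) ^ 2))
      ((K7.phi_summable hf hψ).mul_left _) hterm ?_
    filter_upwards [eventually_gt_atTop 0, hsmall] with n hn hn2 z
    exact MarkC.TTc_bd hpL hpR hψ (hLb _ hn2) (hRb _ hn2) (hΨ.le _) hc (2 * n)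
      (fun j h p hp => hbd a f q φ ψ₀ hf hψ (2 * n) j h (by omega) p hp) z
  rw [← Complex.ofReal_tsum, tsum_mul_right, tsum_mul_right] at h1
  have e2 : (∑' p : ℕ × ℤ, φ p.1 p.2) * (C * C' * ∫ p in K7.DD, K7.HH a s p) *
      Real.exp (-(b * χ ^ 2 / 2)) = (C * C' * ∫ p in K7.DD, K7.HH a s p) *
      (∑' p : ℕ × ℤ, φ p.1 p.2) * Real.exp (-(b * χ ^ 2 / 2)) := by ring
  rw [e2] at h1
  refine h1.congr' ?_
  filter_upwards [eventually_gt_atTop 0] with n hn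
  exact (MarkC.SSC_eq (fun m y => hL.supp _ m y) (fun m y => hR.supp _ m y) (Ψ (ψ n)) a (2 * n)
    (by omega)).symm

end Pool.Agent.SAPY
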