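import Pool.Agent.SAPY.Defs

/-!
The twisted kernels of the polygons: elementary properties.
-/

namespace Pool.Agent.SAPY

open Filter Topology Pool.Agent.SAPX Pool.Agent.SAPF Pool.Agent.SAPK

namespace TwK

lemma norm_tw (μ ψ : ℝ) (p : PW) : ‖tw μ ψ p‖ = 1 := by
  unfold tw
  exact Complex.norm_exp_I_mul_ofReal _

lemma tendsto_tw (μ : ℝ) (p : PW) : Tendsto (fun ψ => tw μ ψ p) (𝓝 0) (𝓝 1) := by
  have h : Continuous fun ψ : ℝ => tw μ ψ p := by
    unfold tw
    fun_prop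
  have h0 : tw μ 0 p = 1 := by
    unfold tw
    simp
  have h1 := h.tendsto 0
  rwa [h0] at h1

lemma norm_sum_tw (s : Finset PW) (w : PW → ℝ) (hw : ∀ p, 0 ≤ w p) (μ ψ : ℝ) :
    ‖∑ p ∈ s, (w p : ℂ) * tw μ ψ p‖ ≤ ∑ p ∈ s, w p := by
  refine (norm_sum_le _ _).trans (Finset.sum_le_sum fun p _ => ?_)
  rw [norm_mul, norm_tw, mul_one, Complex.norm_real, Real.norm_eq_abs, abs_of_nonneg (hw p)]

lemma tendsto_sum_tw (s : Finset PW) (w : PW → ℝ) (μ : ℝ) :
    Tendsto (fun ψ => ∑ p ∈ s, (w p : ℂ) * tw μ ψ p) (𝓝 0) (𝓝 ((∑ p ∈ s, w p : ℝ) : ℂ)) := by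
  have h : ((∑ p ∈ s, w p : ℝ) : ℂ) = ∑ p ∈ s, (w p : ℂ) * 1 := by
    push_cast
    exact Finset.sum_congr rfl fun p _ => (mul_one _).symm
  rw [h]
  exact tendsto_finsetSum _ fun p _ => (tendsto_tw μ p).const_mul _

variable {A : Set Word} {u c μ : ℝ} {ω : PW → ℝ}

lemma wnn (h0 : ∀ p, 0 ≤ ω p) (p : PW) : 0 ≤ ω p * wt u c p :=
  mul_nonneg (h0 p) (wt_pos u c p).le

lemma mkfC_le (h0 : ∀ p, 0 ≤ ω p) (ψ : ℝ) (m : ℕ) (d : ℤ) :
    ‖mkfC A u c μ ω ψ m d‖ ≤ mkf A u c ω m d := by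
  unfold mkfC mkf
  exact norm_sum_tw _ (fun p => ω p * wt u c p) (wnn h0) μ ψ

lemma mkgC_le (h0 : ∀ p, 0 ≤ ω p) (ψ : ℝ) (m : ℕ) (x y : ℤ) :
    ‖mkgC A u c μ ω ψ m x y‖ ≤ mkg A u c ω m x y := by
  unfold mkgC mkg
  split_ifs
  · exact norm_sum_tw _ (fun p => ω p * wt u c p) (wnn h0) μ ψ
  · rw [norm_zero]

lemma mkfC_cont (m : ℕ) (d : ℤ) :
    Tendsto (fun ψ => mkfC A u c μ ω ψ m d) (𝓝 0) (𝓝 (mkf A u c ω m d : ℂ)) := by
  unfold mkfC mkf
  exact tendsto_sum_tw _ (fun p => ω p * wt u c p) μ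

lemma mkgC_cont (m : ℕ) (x y : ℤ) :
    Tendsto (fun ψ => mkgC A u c μ ω ψ m x y) (𝓝 0) (𝓝 (mkg A u c ω m x y : ℂ)) := by
  unfold mkgC mkg
  split_ifs
  · exact tendsto_sum_tw _ (fun p => ω p * wt u c p) μ
  · rw [Complex.ofReal_zero]
    exact tendsto_const_nhds

open Classical in
lemma sub_le (h0 : ∀ p, 0 ≤ ω p) (ψ : ℝ) (m : ℕ) (x y : ℤ) :
    ‖mkfC A u c μ ω ψ m (y - x) - mkgC A u c μ ω ψ m x y‖ ≤
      mkf A u c ω m (y - x) - mkg A u c ω m x y := by
  by_cases h : 0 < x ∧ 0 < y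
  · have hsub : (blk A m).filter (fun p => ht p = y - x ∧ Disj x p) ⊆
        (blk A m).filter (fun p => ht p = y - x) := by
      intro p hp
      rw [Finset.mem_filter] at hp ⊢
      exact ⟨hp.1, hp.2.1⟩
    have h1 : mkfC A u c μ ω ψ m (y - x) - mkgC A u c μ ω ψ m x y =
        ∑ p ∈ (blk A m).filter (fun p => ht p = y - x) \
          (blk A m).filter (fun p => ht p = y - x ∧ Disj x p),
          ((ω p * wt u c p : ℝ) : ℂ) * tw μ ψ p := by
      unfold mkfC mkgC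
      rw [if_pos h, ← Finset.sum_sdiff hsub]
      ring
    have h2 : mkf A u c ω m (y - x) - mkg A u c ω m x y =
        ∑ p ∈ (blk A m).filter (fun p => ht p = y - x) \
          (blk A m).filter (fun p => ht p = y - x ∧ Disj x p), ω p * wt u c p := by
      unfold mkf mkg
      rw [if_pos h, ← Finset.sum_sdiff hsub]
      ring
    rw [h1, h2]
    exact norm_sum_tw _ (fun p => ω p * wt u c p) (wnn h0) μ ψ
  · have h1 : mkgC A u c μ ω ψ m x y = 0 := by
      unfold mkgC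
      rw [if_neg h]
    have h2 : mkg A u c ω m x y = 0 := by
      unfold mkg
      rw [if_neg h]
    rw [h1, h2, sub_zero, sub_zero]
    exact mkfC_le h0 ψ m _

open Classical in
lemma mkgC_far (ψ : ℝ) (m : ℕ) (x y : ℤ) (h : (m : ℤ) < x) :
    mkgC A u c μ ω ψ m x y = mkfC A u c μ ω ψ m (y - x) := by
  by_cases hd : (m : ℤ) ≤ |y - x|
  · have e1 : mkfC A u c μ ω ψ m (y - x) = 0 := by
      unfold mkfC
      refine Finset.sum_eq_zero fun p hp => ?_
      exfalso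
      rw [Finset.mem_filter, mem_blk] at hp
      have := abs_ht_lt hp.1.2.1
      rw [hp.2, hp.1.1] at this
      omega
    rw [e1]
    unfold mkgC
    split_ifs
    · refine Finset.sum_eq_zero fun p hp => ?_
      exfalso
      rw [Finset.mem_filter, mem_blk] at hp
      have := abs_ht_lt hp.1.2.1
      rw [hp.2.1, hp.1.1] at this
      omega
    · rfl
  · push Not at hd
    rw [abs_lt] at hd
    unfold mkgC
    rw [if_pos (by constructor <;> omega)]
    unfold mkfC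
    refine Finset.sum_congr ?_ fun _ _ => rfl
    ext p
    rw [Finset.mem_filter, Finset.mem_filter]
    refine ⟨fun hp => ⟨hp.1, hp.2.1⟩, fun hp => ⟨hp.1, hp.2, ?_⟩⟩
    have hm := (mem_blk.1 hp.1).1
    exact disj_of_far1 (by rw [hm]; exact h)

lemma one_wt (p : PW) : one p * wt u c p = wt u c p := one_mul _

end TwK

theorem twKilledA {A : Set Word} (hA : IsClass A) (u c μ : ℝ) :
    TwKilled (mkf A u c one) (mkg A u c one) (mkfC A u c μ one) (mkgC A u c μ one) :=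
  ⟨TwK.mkgC_le one_nonneg', TwK.sub_le one_nonneg', TwK.mkgC_cont⟩

theorem twCap_lam (A : Set Word) (u c μ : ℝ) : TwCap (lamA A u c one) (lamC A u c μ) := by
  constructor
  · intro ψ m x
    unfold lamC lamA
    split_ifs
    · simp only [TwK.one_wt]
      exact TwK.norm_sum_tw _ (fun p => wt u c p) (fun p => (wt_pos u c p).le) μ ψ
    · rw [norm_zero]
  · intro m x
    unfold lamC lamA
    split_ifs
    · simp only [TwK.one_wt]
      exact TwK.tendsto_sum_tw _ (fun p => wt u c p) μ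
    · rw [Complex.ofReal_zero]
      exact tendsto_const_nhds

theorem twCap_rho (A : Set Word) (u c μ : ℝ) : TwCap (rhoA A u c one) (rhoC A u c μ) := by
  constructor
  · intro ψ m x
    unfold rhoC rhoA
    split_ifs
    · simp only [TwK.one_wt]
      exact TwK.norm_sum_tw _ (fun p => wt u c p) (fun p => (wt_pos u c p).le) μ ψ
    · rw [norm_zero]
  · intro m x
    unfold rhoC rhoA
    split_ifs
    · simp only [TwK.one_wt]
      exact TwK.tendsto_sum_tw _ (fun p => wt u c p) μ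
    · rw [Complex.ofReal_zero]
      exact tendsto_const_nhds

theorem twMarkedA (A : Set Word) (u c μ : ℝ) {ω : PW → ℝ} (h0 : ∀ p, 0 ≤ ω p) :
    TwMarked (mkf A u c ω) (mkg A u c ω) (mkfC A u c μ ω) (mkgC A u c μ ω) :=
  ⟨TwK.mkgC_le h0, TwK.mkgC_far, TwK.mkfC_cont⟩

end Pool.Agent.SAPY
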