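import Pool.Agent.SAPY.Defs

/-!
The twisted law of the blocks of the polygons.
-/

namespace Pool.Agent.SAPY

open Filter Topology Pool.Agent.SAPX
open Pool.Agent.SAPF Pool.Agent.SAPK

namespace TwL

/-! ### second order expansion of the characteristic function -/

lemma exp_I_sub (y : ℝ) : ‖Complex.exp (Complex.I * (y : ℂ)) - 1 - Complex.I * y +
    ((y ^ 2 / 2 : ℝ) : ℂ)‖ ≤ 4 * |y| ^ 3 := by
  have hn : ‖Complex.I * (y : ℂ)‖ = |y| := by
    rw [norm_mul, Complex.norm_I, one_mul, Complex.norm_real, Real.norm_eq_abs]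
  have e2 : (Complex.I * (y : ℂ)) ^ 2 = -((y : ℂ) ^ 2) := by
    rw [mul_pow, Complex.I_sq]; ring
  rcases le_or_gt |y| 1 with h | h
  · have h1 := Complex.exp_bound (x := Complex.I * (y : ℂ)) (by rw [hn]; exact h) (n := 3)
      (by norm_num)
    rw [hn] at h1
    have e1 : ∑ m ∈ Finset.range 3, (Complex.I * (y : ℂ)) ^ m / (m.factorial : ℂ) =
        1 + Complex.I * y - ((y ^ 2 / 2 : ℝ) : ℂ) := by
      rw [Finset.sum_range_succ, Finset.sum_range_succ, Finset.sum_range_one, e2]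
      simp [Nat.factorial]
      ring
    rw [e1] at h1
    have e3 : Complex.exp (Complex.I * (y : ℂ)) - 1 - Complex.I * y + ((y ^ 2 / 2 : ℝ) : ℂ) =
        Complex.exp (Complex.I * (y : ℂ)) - (1 + Complex.I * y - ((y ^ 2 / 2 : ℝ) : ℂ)) := by ring
    rw [e3]
    refine h1.trans ?_
    have h2 : 0 ≤ |y| ^ 3 := by positivity
    have h3 : ((Nat.succ 3 : ℕ) : ℝ) * (((Nat.factorial 3 : ℕ) : ℝ) * ((3 : ℕ) : ℝ))⁻¹ ≤ 4 := by
      norm_num [Nat.factorial]
    calc |y| ^ 3 * (((Nat.succ 3 : ℕ) : ℝ) * (((Nat.factorial 3 : ℕ) : ℝ) * ((3 : ℕ) : ℝ))⁻¹)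
        ≤ |y| ^ 3 * 4 := mul_le_mul_of_nonneg_left h3 h2
      _ = 4 * |y| ^ 3 := by ring
  · have h1 : ‖Complex.exp (Complex.I * (y : ℂ)) - 1‖ ≤ |y| := by
      have := Real.norm_exp_I_mul_ofReal_sub_one_le (x := y)
      rwa [Real.norm_eq_abs] at this
    have h2 : ‖((y ^ 2 / 2 : ℝ) : ℂ)‖ = |y| ^ 2 / 2 := by
      rw [Complex.norm_real, Real.norm_eq_abs, abs_of_nonneg (by positivity), sq_abs]
    have h3 : ‖Complex.exp (Complex.I * (y : ℂ)) - 1 - Complex.I * y + ((y ^ 2 / 2 : ℝ) : ℂ)‖ ≤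
        |y| + |y| + |y| ^ 2 / 2 := by
      refine (norm_add_le _ _).trans ?_
      rw [h2]
      have h4 := norm_sub_le (Complex.exp (Complex.I * (y : ℂ)) - 1) (Complex.I * y)
      rw [hn] at h4
      linarith
    refine h3.trans ?_
    have h5 : |y| ≤ |y| ^ 3 := by nlinarith [mul_pos (show 0 < |y| by linarith) (show 0 < |y| by linarith)]
    have h6 : |y| ^ 2 ≤ |y| ^ 3 := by nlinarith [sq_nonneg |y|]
    linarith

/-- the modulus of a sum of two oscillating weights -/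
lemma norm_two {w₁ w₂ : ℝ} (h1 : 0 < w₁) (h2 : 0 < w₂) {ψ : ℝ} (hψ : |ψ| ≤ Real.pi) (y : ℝ) :
    ‖(w₁ : ℂ) * Complex.exp (Complex.I * ((ψ * y : ℝ) : ℂ)) +
      (w₂ : ℂ) * Complex.exp (Complex.I * ((ψ * (y + 1) : ℝ) : ℂ))‖ ≤
      w₁ + w₂ - 2 * w₁ * w₂ / (Real.pi ^ 2 * (w₁ + w₂)) * ψ ^ 2 := by
  have hpi := Real.pi_pos
  have e1 : (w₁ : ℂ) * Complex.exp (Complex.I * ((ψ * y : ℝ) : ℂ)) +
      (w₂ : ℂ) * Complex.exp (Complex.I * ((ψ * (y + 1) : ℝ) : ℂ)) =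
      Complex.exp (Complex.I * ((ψ * y : ℝ) : ℂ)) *
        ((w₁ : ℂ) + (w₂ : ℂ) * Complex.exp (Complex.I * (ψ : ℂ))) := by
    have : Complex.exp (Complex.I * ((ψ * (y + 1) : ℝ) : ℂ)) =
        Complex.exp (Complex.I * ((ψ * y : ℝ) : ℂ)) * Complex.exp (Complex.I * (ψ : ℂ)) := by
      rw [← Complex.exp_add]
      congr 1
      push_cast
      ring
    rw [this]
    ring
  rw [e1, norm_mul, Complex.norm_exp_I_mul_ofReal, one_mul]
  set κ : ℝ := 2 * w₁ * w₂ / (Real.pi ^ 2 * (w₁ + w₂)) with hκ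
  have hw : 0 < w₁ + w₂ := by linarith
  have hκ1 : κ * (w₁ + w₂) = 2 * w₁ * w₂ / Real.pi ^ 2 := by
    rw [hκ]
    field_simp
  have hκ0 : 0 < κ := by rw [hκ]; positivity
  have hψ2 : ψ ^ 2 ≤ Real.pi ^ 2 := by
    rw [← sq_abs]
    exact pow_le_pow_left₀ (abs_nonneg _) hψ 2
  have h3 : 0 ≤ w₁ + w₂ - κ * ψ ^ 2 := by
    have h4 : κ * ψ ^ 2 ≤ κ * Real.pi ^ 2 := mul_le_mul_of_nonneg_left hψ2 hκ0.le
    have h5 : κ * Real.pi ^ 2 * (w₁ + w₂) = 2 * w₁ * w₂ := by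
      rw [mul_right_comm, hκ1]
      field_simp
    have h6 : κ * Real.pi ^ 2 ≤ w₁ + w₂ := by
      rw [← mul_le_mul_iff_left₀ hw, h5]
      nlinarith [sq_nonneg (w₁ - w₂), mul_pos h1 h2]
    linarith
  have hcos := Real.cos_le_one_sub_mul_cos_sq hψ
  have h7 : ‖(w₁ : ℂ) + (w₂ : ℂ) * Complex.exp (Complex.I * (ψ : ℂ))‖ ^ 2 =
      (w₁ + w₂ * Real.cos ψ) ^ 2 + (w₂ * Real.sin ψ) ^ 2 := by
    rw [Complex.sq_norm, Complex.normSq_apply, mul_comm Complex.I, Complex.exp_mul_I]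
    have ec : Complex.cos (ψ : ℂ) = ((Real.cos ψ : ℝ) : ℂ) := (Complex.ofReal_cos ψ).symm
    have es : Complex.sin (ψ : ℂ) = ((Real.sin ψ : ℝ) : ℂ) := (Complex.ofReal_sin ψ).symm
    rw [ec, es]
    simp [-Complex.ofReal_cos, -Complex.ofReal_sin]
    ring
  have h8 : ‖(w₁ : ℂ) + (w₂ : ℂ) * Complex.exp (Complex.I * (ψ : ℂ))‖ ^ 2 ≤
      (w₁ + w₂ - κ * ψ ^ 2) ^ 2 := by
    rw [h7]
    have h9 := Real.sin_sq_add_cos_sq ψ
    have h10 : (w₁ + w₂ * Real.cos ψ) ^ 2 + (w₂ * Real.sin ψ) ^ 2 =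
        (w₁ + w₂) ^ 2 - 2 * w₁ * w₂ * (1 - Real.cos ψ) := by
      have : (w₁ + w₂ * Real.cos ψ) ^ 2 + (w₂ * Real.sin ψ) ^ 2 =
        w₁ ^ 2 + 2 * w₁ * w₂ * Real.cos ψ + w₂ ^ 2 * (Real.sin ψ ^ 2 + Real.cos ψ ^ 2) := by ring
      rw [this, h9]
      ring
    rw [h10]
    have h11 : 2 / Real.pi ^ 2 * ψ ^ 2 ≤ 1 - Real.cos ψ := by linarith
    have h12 : 2 * w₁ * w₂ * (2 / Real.pi ^ 2 * ψ ^ 2) ≤ 2 * w₁ * w₂ * (1 - Real.cos ψ) :=
      mul_le_mul_of_nonneg_left h11 (by positivity)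
    have h13 : 2 * w₁ * w₂ * (2 / Real.pi ^ 2 * ψ ^ 2) = 2 * (κ * (w₁ + w₂)) * ψ ^ 2 := by
      rw [hκ1]; ring
    have h14 : (w₁ + w₂ - κ * ψ ^ 2) ^ 2 =
        (w₁ + w₂) ^ 2 - 2 * (κ * (w₁ + w₂)) * ψ ^ 2 + (κ * ψ ^ 2) ^ 2 := by ring
    rw [h14]
    have h15 := sq_nonneg (κ * ψ ^ 2)
    linarith
  exact (abs_le_of_sq_le_sq' h8 h3).2

/-! ### the additive functional -/

/-- the additive functional of a block -/
noncomputable def yy (μ : ℝ) (q : PW) : ℝ := spn q - μ * ln q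

lemma tw_eq {μ ψ : ℝ} {q : PW} (hq : IsPIrr q) :
    tw μ ψ q = Complex.exp (Complex.I * ((ψ * yy μ q : ℝ) : ℂ)) := by
  unfold tw yy spn
  have h1 : (X q.2 : ℝ) = X q.1 := by exact_mod_cast hq.pb.span.symm
  have h2 : |((X q.1 : ℤ) : ℝ)| = X q.1 := abs_of_pos (by exact_mod_cast hq.pos)
  rw [h1, h2, add_self_div_two]

lemma norm_tw (μ ψ : ℝ) (q : PW) : ‖tw μ ψ q‖ = 1 := by
  unfold tw
  exact Complex.norm_exp_I_mul_ofReal _

lemma tw_swap (μ ψ : ℝ) (q : PW) : tw μ ψ (q.2, q.1) = tw μ ψ q := by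
  unfold tw ln
  simp only
  congr 4
  push_cast
  ring

lemma spn_le (q : PW) : spn q ≤ ln q := by
  have h1 := abs_X_le q.1
  have h2 : (|X q.1| : ℤ) ≤ (ln q : ℤ) := by
    unfold ln; push_cast; omega
  unfold spn
  exact_mod_cast h2

lemma spn_nonneg (q : PW) : 0 ≤ spn q := abs_nonneg _

lemma abs_yy_le (μ : ℝ) (q : PW) : |yy μ q| ≤ (1 + |μ|) * ln q := by
  unfold yy
  have h1 := spn_le q
  have h0 := spn_nonneg q
  have h2 : |spn q - μ * ln q| ≤ |spn q| + |μ * ln q| := abs_sub _ _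
  rw [abs_of_nonneg h0, abs_mul, abs_of_nonneg (Nat.cast_nonneg (α := ℝ) (ln q))] at h2
  nlinarith

section sums
variable {A : Set Word} {u c : ℝ}

open Classical in
lemma mkf_sum (ω : PW → ℝ) (m : ℕ) (d : ℤ) :
    mkf A u c ω m d = ∑ q ∈ (blk A m).filter (fun q => ht q = d), ω q * wt u c q := rfl

open Classical in
lemma abs_mkf_le {ω : PW → ℝ} {K : ℝ} {q : ℕ} (h1 : ∀ p, |ω p| ≤ K * (ln p : ℝ) ^ q)
    (m : ℕ) (d : ℤ) : |mkf A u c ω m d| ≤ K * ((m : ℝ) ^ q * mkf A u c one m d) := by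
  unfold mkf
  refine (Finset.abs_sum_le_sum_abs _ _).trans ?_
  rw [Finset.mul_sum, Finset.mul_sum]
  refine Finset.sum_le_sum fun p hp => ?_
  rw [Finset.mem_filter, mem_blk] at hp
  have h2 := h1 p
  rw [hp.1.1] at h2
  rw [abs_mul, abs_of_pos (wt_pos u c p)]
  calc |ω p| * wt u c p ≤ (K * (m : ℝ) ^ q) * wt u c p :=
        mul_le_mul_of_nonneg_right h2 (wt_pos u c p).le
    _ = K * ((m : ℝ) ^ q * (one p * wt u c p)) := by simp only [one]; ring

lemma summable_pow_mul (hf : FreeLaw (mkf A u c one)) (q : ℕ) :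
    Summable (fun p : ℕ × ℤ => (p.1 : ℝ) ^ q * mkf A u c one p.1 p.2) := by
  obtain ⟨δ, hδ, hs⟩ := summable_pow hf q
  refine Summable.of_nonneg_of_le (fun p => mul_nonneg (by positivity) (hf.nonneg _ _))
    (fun p => ?_) hs
  exact le_mul_of_one_le_right (mul_nonneg (by positivity) (hf.nonneg _ _))
    (Real.one_le_exp (by positivity))

lemma summable_of_abs (hf : FreeLaw (mkf A u c one)) {ω : PW → ℝ} {K : ℝ} {q : ℕ}
    (h1 : ∀ p, |ω p| ≤ K * (ln p : ℝ) ^ q) :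
    Summable (fun p : ℕ × ℤ => mkf A u c ω p.1 p.2) := by
  refine Summable.of_norm_bounded ((summable_pow_mul hf q).mul_left K) fun p => ?_
  rw [Real.norm_eq_abs]
  exact abs_mkf_le h1 p.1 p.2

open Classical in
lemma mkf_yy (μ : ℝ) (m : ℕ) (d : ℤ) :
    mkf A u c (yy μ) m d = mkf A u c spn m d - μ * (mkf A u c one m d * m) := by
  unfold mkf
  rw [Finset.sum_mul, Finset.mul_sum, ← Finset.sum_sub_distrib]
  refine Finset.sum_congr rfl fun p hp => ?_
  rw [Finset.mem_filter, mem_blk] at hp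
  unfold yy one
  rw [hp.1.1]
  ring

lemma tsum_yy (hf : FreeLaw (mkf A u c one)) :
    ∑' p : ℕ × ℤ, mkf A u c (yy (muA A u c)) p.1 p.2 = 0 := by
  have h1 : Summable (fun p : ℕ × ℤ => mkf A u c spn p.1 p.2) :=
    summable_of_abs hf (K := 1) (q := 1) fun p => by
      rw [abs_of_nonneg (spn_nonneg p), one_mul, pow_one]
      exact spn_le p
  have h2 : Summable (fun p : ℕ × ℤ => mkf A u c one p.1 p.2 * p.1) := by
    refine (summable_pow_mul hf 1).congr fun p => ?_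
    rw [pow_one, mul_comm]
  have h3 : ∑' p : ℕ × ℤ, mkf A u c (yy (muA A u c)) p.1 p.2 =
      (∑' p : ℕ × ℤ, mkf A u c spn p.1 p.2) -
        muA A u c * ∑' p : ℕ × ℤ, mkf A u c one p.1 p.2 * p.1 := by
    rw [← tsum_mul_left, ← h1.tsum_sub (h2.mul_left _)]
    exact tsum_congr fun p => mkf_yy _ _ _
  have h4 : (∑' p : ℕ × ℤ, mkf A u c one p.1 p.2 * p.1) = mean (mkf A u c one) := rfl
  rw [h3, h4]
  unfold muA
  rw [div_mul_cancel₀ _ (mean_pos hf).ne', sub_self]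

/-- the remainder of the second order expansion -/
noncomputable def rem (A : Set Word) (u c μ ψ : ℝ) (p : ℕ × ℤ) : ℂ :=
  ((mkf A u c one p.1 p.2 : ℂ) - mkfC A u c μ one ψ p.1 p.2) +
    Complex.I * ψ * (mkf A u c (yy μ) p.1 p.2 : ℂ) -
    ((ψ ^ 2 / 2 : ℝ) : ℂ) * (mkf A u c (fun q => (yy μ q) ^ 2) p.1 p.2 : ℂ)

open Classical in
lemma rem_le (μ ψ : ℝ) (p : ℕ × ℤ) : ‖rem A u c μ ψ p‖ ≤
    4 * (1 + |μ|) ^ 3 * |ψ| ^ 3 * ((p.1 : ℝ) ^ 3 * mkf A u c one p.1 p.2) := by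
  have h1 : rem A u c μ ψ p = ∑ q ∈ (blk A p.1).filter (fun q => ht q = p.2),
      (wt u c q : ℂ) * -(Complex.exp (Complex.I * ((ψ * yy μ q : ℝ) : ℂ)) - 1 -
        Complex.I * ((ψ * yy μ q : ℝ) : ℂ) + (((ψ * yy μ q) ^ 2 / 2 : ℝ) : ℂ)) := by
    unfold rem mkfC mkf
    push_cast
    rw [Finset.mul_sum, Finset.mul_sum, ← Finset.sum_sub_distrib, ← Finset.sum_add_distrib,
      ← Finset.sum_sub_distrib]
    refine Finset.sum_congr rfl fun q hq => ?_
    rw [Finset.mem_filter, mem_blk] at hq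
    rw [tw_eq hq.1.2.1]
    simp only [one]
    push_cast
    ring
  rw [h1]
  refine (norm_sum_le _ _).trans ?_
  rw [mkf_sum, Finset.mul_sum, Finset.mul_sum]
  refine Finset.sum_le_sum fun q hq => ?_
  rw [Finset.mem_filter, mem_blk] at hq
  rw [norm_mul, norm_neg, Complex.norm_real, Real.norm_eq_abs, abs_of_pos (wt_pos u c q)]
  have h2 := exp_I_sub (ψ * yy μ q)
  have h3 := abs_yy_le μ q
  rw [hq.1.1] at h3
  have h4 : |ψ * yy μ q| ^ 3 ≤ (|ψ| * ((1 + |μ|) * p.1)) ^ 3 := by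
    rw [abs_mul]
    exact pow_le_pow_left₀ (by positivity) (mul_le_mul_of_nonneg_left h3 (abs_nonneg _)) 3
  calc wt u c q * ‖Complex.exp (Complex.I * ((ψ * yy μ q : ℝ) : ℂ)) - 1 -
        Complex.I * ((ψ * yy μ q : ℝ) : ℂ) + (((ψ * yy μ q) ^ 2 / 2 : ℝ) : ℂ)‖
      ≤ wt u c q * (4 * (|ψ| * ((1 + |μ|) * p.1)) ^ 3) :=
        mul_le_mul_of_nonneg_left (h2.trans (mul_le_mul_of_nonneg_left h4 (by norm_num)))
          (wt_pos u c q).le
    _ = 4 * (1 + |μ|) ^ 3 * |ψ| ^ 3 * ((p.1 : ℝ) ^ 3 * (one q * wt u c q)) := by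
        simp only [one]; ring

open Classical in
lemma mkfC_le (μ ψ : ℝ) (m : ℕ) (d : ℤ) : ‖mkfC A u c μ one ψ m d‖ ≤ mkf A u c one m d := by
  unfold mkfC mkf
  refine (norm_sum_le _ _).trans (Finset.sum_le_sum fun q _ => ?_)
  rw [norm_mul, norm_tw, mul_one, Complex.norm_real, Real.norm_eq_abs,
    abs_of_nonneg (mul_nonneg (one_nonneg' q) (wt_pos u c q).le)]

open Classical in
lemma mkfC_symm (μ ψ : ℝ) (m : ℕ) (d : ℤ) :
    mkfC A u c μ one ψ m (-d) = mkfC A u c μ one ψ m d := by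
  have key : ∀ (d : ℤ) (p : PW), p ∈ (blk A m).filter (fun p => ht p = d) →
      ((p.2, p.1) : PW) ∈ (blk A m).filter (fun p => ht p = -d) := by
    intro d p hp
    rw [Finset.mem_filter, mem_blk] at hp ⊢
    obtain ⟨⟨h1, h2, h3, h4⟩, h5⟩ := hp
    refine ⟨⟨?_, Law.isPIrr_swap h2, h4, h3⟩, ?_⟩
    · rw [← h1]; unfold ln; simp only; ring
    · unfold ht at h5 ⊢
      simp only
      omega
  unfold mkfC
  refine Finset.sum_bij (fun p _ => ((p.2, p.1) : PW)) ?_ ?_ ?_ ?_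
  · intro p hp
    have := key (-d) p hp
    rwa [neg_neg] at this
  · intro p _ q _ h
    simp only [Prod.mk.injEq] at h
    exact Prod.ext h.2 h.1
  · intro p hp
    exact ⟨(p.2, p.1), key d p hp, rfl⟩
  · intro p _
    rw [tw_swap]
    congr 2
    unfold wt ln one
    simp only
    congr 2
    push_cast
    ring

open Classical in
lemma mkfC_lip (μ ψ : ℝ) (m : ℕ) (d : ℤ) :
    ‖mkfC A u c μ one ψ m d - (mkf A u c one m d : ℂ)‖ ≤
      (1 + |μ|) * |ψ| * m * mkf A u c one m d := by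
  unfold mkfC mkf
  push_cast
  rw [← Finset.sum_sub_distrib, Finset.mul_sum]
  refine (norm_sum_le _ _).trans (Finset.sum_le_sum fun q hq => ?_)
  rw [Finset.mem_filter, mem_blk] at hq
  have e1 : ((one q : ℝ) : ℂ) * (wt u c q : ℂ) * tw μ ψ q - ((one q : ℝ) : ℂ) * (wt u c q : ℂ) =
      ((one q * wt u c q : ℝ) : ℂ) * (tw μ ψ q - 1) := by
    push_cast; ring
  rw [e1, norm_mul, Complex.norm_real, Real.norm_eq_abs,
    abs_of_nonneg (mul_nonneg (one_nonneg' q) (wt_pos u c q).le), tw_eq hq.1.2.1]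
  have h1 := Real.norm_exp_I_mul_ofReal_sub_one_le (x := ψ * yy μ q)
  rw [Real.norm_eq_abs, abs_mul] at h1
  have h3 := abs_yy_le μ q
  rw [hq.1.1] at h3
  calc one q * wt u c q * ‖Complex.exp (Complex.I * ((ψ * yy μ q : ℝ) : ℂ)) - 1‖
      ≤ one q * wt u c q * (|ψ| * ((1 + |μ|) * m)) :=
        mul_le_mul_of_nonneg_left (h1.trans (mul_le_mul_of_nonneg_left h3 (abs_nonneg _)))
          (mul_nonneg (one_nonneg' q) (wt_pos u c q).le)
    _ = (1 + |μ|) * |ψ| * m * (one q * wt u c q) := by ring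

end sums

/-! ### the block `(bw, EE)` -/

lemma take_cases {w t : Word} (h : t <+: w) : ∃ i ≤ w.length, t = w.take i :=
  ⟨t.length, h.length_le, List.prefix_iff_eq_take.1 h⟩

lemma drop_cases {w t : Word} (h : t <:+ w) : ∃ i ≤ w.length, t = w.drop i :=
  ⟨w.length - t.length, Nat.sub_le _ _, List.suffix_iff_eq_drop.1 h⟩

lemma infix_cases {w t : Word} (h : t <:+: w) : ∃ i ≤ w.length, ∃ j ≤ w.length,
    t = (w.drop i).take j := by
  obtain ⟨a, b, hab⟩ := h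
  have h1 := congrArg List.length hab
  simp only [List.length_append] at h1
  refine ⟨a.length, by omega, t.length, by omega, ?_⟩
  rw [← hab, List.append_assoc, List.drop_left', List.take_left']
  · rfl
  · rfl

lemma isBr_bw : IsBr bw := by
  refine ⟨?_, ?_, ?_⟩
  · intro t ht hx hy
    obtain ⟨i, hi, j, hj, rfl⟩ := infix_cases ht
    have key : ∀ i ≤ bw.length, ∀ j ≤ bw.length, X ((bw.drop i).take j) = 0 →
        Y ((bw.drop i).take j) = 0 → (bw.drop i).take j = [] := by decide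
    exact key i hi j hj hx hy
  · intro t ht h0
    obtain ⟨i, hi, rfl⟩ := take_cases ht
    have key : ∀ i ≤ bw.length, bw.take i ≠ [] → 0 < X (bw.take i) := by decide
    exact key i hi h0
  · intro t ht
    obtain ⟨i, hi, rfl⟩ := drop_cases ht
    have key : ∀ i ≤ bw.length, 0 ≤ X (bw.drop i) := by decide
    exact key i hi

lemma isBr_EE : IsBr [Dir.E, Dir.E] := isBr_replicate_E 2

lemma isPIrr_bw : IsPIrr (bw, [Dir.E, Dir.E]) := by
  refine ⟨⟨isBr_bw, isBr_EE, by decide⟩, by decide, ?_⟩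
  intro q r hq hr h1 h2
  simp only at h1 h2
  have hq2 : q.2 <+: [Dir.E, Dir.E] := ⟨r.2, h2.symm⟩
  rcases prefix_pair hq2 with h3 | h3 | h3
  · left
    have h4 : q.1 = [] := IsBr.eq_nil_of_X hq.br1 (by rw [hq.span, h3]; rfl)
    exact Prod.ext h4 h3
  · exfalso
    have h4 : X q.1 = 1 := by rw [hq.span, h3]; simp [Dir.dx]
    obtain ⟨i, hi, h5⟩ := take_cases (w := bw) (t := q.1) ⟨r.1, h1.symm⟩
    have h6 : r.1 = bw.drop i := by
      have h7 : bw.take i ++ r.1 = bw.take i ++ bw.drop i := by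
        rw [List.take_append_drop, ← h5, ← h1]
      exact List.append_cancel_left h7
    have key : ∀ i ≤ bw.length, X (bw.take i) = 1 →
        (∃ j ≤ bw.length, (bw.drop i).take j ≠ [] ∧ X ((bw.drop i).take j) ≤ 0) ∨
        (∃ j ≤ bw.length, X ((bw.take i).drop j) < 0) := by decide
    rcases key i hi (by rw [← h5]; exact h4) with ⟨j, -, h8, h9⟩ | ⟨j, -, h9⟩
    · have h10 := hr.br1.pos (u := (bw.drop i).take j) (by rw [h6]; exact List.take_prefix _ _) h8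
      omega
    · have h10 := hq.br1.suf (v := (bw.take i).drop j) (by rw [h5]; exact List.drop_suffix _ _)
      omega
  · right
    have h4 : r.2 = [] := by
      have h5 := congrArg List.length h2
      rw [h3] at h5
      simp at h5
      exact h5
    have h5 : r.1 = [] := IsBr.eq_nil_of_X hr.br1 (by rw [hr.span, h4]; rfl)
    exact Prod.ext h5 h4

lemma isPIrr_one {p : PW} (h1 : IsBr p.1) (h2 : IsBr p.2) (h3 : X p.1 = 1) (h4 : X p.2 = 1) :
    IsPIrr p := Law.isPIrr_of_X_one ⟨h1, h2, by rw [h3, h4]⟩ h3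

lemma X_EN (j : ℕ) : X (Dir.E :: List.replicate j Dir.N) = 1 := by
  rw [X_cons]
  have : X (List.replicate j Dir.N) = 0 := by simp [X, Dir.dx]
  rw [this]
  simp [Dir.dx]

lemma Y_EN (j : ℕ) : Y (Dir.E :: List.replicate j Dir.N) = j := by
  rw [Y_cons]
  have : Y (List.replicate j Dir.N) = j := by simp [Y, Dir.dy]
  rw [this]
  simp [Dir.dy]

/-- the block of length 8, height 2 and span 1 -/
noncomputable def b1 : PW :=
  (Dir.E :: List.replicate 4 Dir.N, Dir.E :: List.replicate 2 Dir.N)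

/-- the block of length 8, height 2 and span 2 -/
noncomputable def b2 : PW := (bw, [Dir.E, Dir.E])

lemma b1_mem {A : Set Word} (hA : IsClass A) : b1 ∈ blk A 8 := by
  rw [mem_blk]
  exact ⟨rfl, isPIrr_one (PrmK.isBr_EN 4) (PrmK.isBr_EN 2) (X_EN 4) (X_EN 2), hA.EN 4, hA.EN 2⟩

lemma b2_mem {A : Set Word} (hA : IsClass A) (hb : bw ∈ A) : b2 ∈ blk A 8 := by
  rw [mem_blk]
  exact ⟨rfl, isPIrr_bw, hb, (hA.mul (v := [Dir.E]) (w := [Dir.E]) isBr_singleton_E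
    isBr_singleton_E).2 ⟨hA.E, hA.E⟩⟩

end TwL

open TwL in
open Classical in
theorem twLawA {A : Set Word} (hA : IsClass A) (hb : bw ∈ A) {u c : ℝ}
    (hf : FreeLaw (mkf A u c one)) :
    TwLaw (mkf A u c one) (mkfC A u c (muA A u c) one) (s2A A u c (muA A u c)) := by
  set μ : ℝ := muA A u c with hμ
  have hyb : ∀ p, |(yy μ p)| ≤ (1 + |μ|) * (ln p : ℝ) ^ 1 := fun p => by
    rw [pow_one]; exact abs_yy_le μ p
  have hyb2 : ∀ p, |(yy μ p) ^ 2| ≤ (1 + |μ|) ^ 2 * (ln p : ℝ) ^ 2 := fun p => by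
    rw [abs_pow, ← mul_pow]
    exact pow_le_pow_left₀ (abs_nonneg _) (abs_yy_le μ p) 2
  have hs1 := summable_of_abs hf hyb
  have hs2 := summable_of_abs hf hyb2
  refine ⟨?_, mkfC_le μ, mkfC_symm μ, ⟨1 + |μ|, by positivity, mkfC_lip μ⟩, ?_, ?_, ?_⟩
  · -- positivity of the second moment
    have h0 : ∀ p : ℕ × ℤ, 0 ≤ mkf A u c (fun q => (yy μ q) ^ 2) p.1 p.2 := fun p =>
      mkf_nonneg (fun q => sq_nonneg _) _ _
    have hEE : yy μ ([Dir.E], [Dir.E]) = 1 - 2 * μ := by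
      unfold yy spn ln
      simp [Dir.dx]
      ring
    have hEN : yy μ ([Dir.E, Dir.N], [Dir.E]) = 1 - 3 * μ := by
      unfold yy spn ln
      simp [Dir.dx]
      ring
    change 0 < ∑' p : ℕ × ℤ, mkf A u c (fun q => (yy μ q) ^ 2) p.1 p.2
    by_cases h : 1 - 2 * μ = 0
    · refine hs2.tsum_pos h0 (3, 1) ?_
      refine lt_of_lt_of_le (mul_pos ?_ (wt_pos u c _))
        (mkf_ge (fun q => sq_nonneg (yy μ q)) (blk_EN hA) ht_EN)
      rw [hEN]
      have : 1 - 3 * μ ≠ 0 := fun h' => by linarith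
      positivity
    · refine hs2.tsum_pos h0 (2, 0) ?_
      refine lt_of_lt_of_le (mul_pos ?_ (wt_pos u c _))
        (mkf_ge (fun q => sq_nonneg (yy μ q)) (blk_EE hA) ht_EE)
      rw [hEE]
      positivity
  · -- second order expansion
    have hs3 := summable_pow_mul hf 3
    refine ⟨4 * (1 + |μ|) ^ 3 * ∑' p : ℕ × ℤ, (p.1 : ℝ) ^ 3 * mkf A u c one p.1 p.2, ?_, ?_⟩
    · exact mul_nonneg (by positivity)
        (tsum_nonneg fun p => mul_nonneg (by positivity) (hf.nonneg _ _))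
    intro ψ
    have hsR : Summable (fun p : ℕ × ℤ => 4 * (1 + |μ|) ^ 3 * |ψ| ^ 3 *
        ((p.1 : ℝ) ^ 3 * mkf A u c one p.1 p.2)) := hs3.mul_left _
    have hR : Summable (fun p => rem A u c μ ψ p) :=
      Summable.of_norm_bounded hsR fun p => rem_le μ ψ p
    have hb1 : Summable (fun p : ℕ × ℤ => Complex.I * ψ * (mkf A u c (yy μ) p.1 p.2 : ℂ)) :=
      (Complex.summable_ofReal.2 hs1).mul_left _
    have hb2 : Summable (fun p : ℕ × ℤ => ((ψ ^ 2 / 2 : ℝ) : ℂ) *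
        (mkf A u c (fun q => (yy μ q) ^ 2) p.1 p.2 : ℂ)) :=
      (Complex.summable_ofReal.2 hs2).mul_left _
    have e1 : (fun p : ℕ × ℤ => (mkf A u c one p.1 p.2 : ℂ) - mkfC A u c μ one ψ p.1 p.2) =
        fun p => rem A u c μ ψ p - Complex.I * ψ * (mkf A u c (yy μ) p.1 p.2 : ℂ) +
          ((ψ ^ 2 / 2 : ℝ) : ℂ) * (mkf A u c (fun q => (yy μ q) ^ 2) p.1 p.2 : ℂ) := by
      funext p
      unfold rem
      ring
    have e2 : (∑' p : ℕ × ℤ, ((mkf A u c one p.1 p.2 : ℂ) - mkfC A u c μ one ψ p.1 p.2)) =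
        (∑' p : ℕ × ℤ, rem A u c μ ψ p) + ((s2A A u c μ / 2 * ψ ^ 2 : ℝ) : ℂ) := by
      rw [e1, (hR.sub hb1).tsum_add hb2, hR.tsum_sub hb1, tsum_mul_left, tsum_mul_left,
        ← Complex.ofReal_tsum, ← Complex.ofReal_tsum, hμ, tsum_yy hf, ← hμ]
      have e3 : s2A A u c μ = ∑' p : ℕ × ℤ, mkf A u c (fun q => (yy μ q) ^ 2) p.1 p.2 := rfl
      rw [← e3]
      push_cast
      ring
    rw [e2, add_sub_cancel_right]
    refine (norm_tsum_le_tsum_norm hR.norm).trans ?_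
    refine (hR.norm.tsum_le_tsum (fun p => rem_le μ ψ p) hsR).trans ?_
    rw [tsum_mul_left]
    apply le_of_eq
    ring
  · -- the gap
    set w₁ := wt u c b1 with hw₁
    set w₂ := wt u c b2 with hw₂
    have h1 : 0 < w₁ := wt_pos _ _ _
    have h2 : 0 < w₂ := wt_pos _ _ _
    have hpi := Real.pi_pos
    refine ⟨2 * w₁ * w₂ / (Real.pi ^ 2 * (w₁ + w₂)), by positivity, 8, 2, fun ψ hψ => ?_⟩
    set S : Finset PW := (blk A 8).filter (fun p => ht p = 2) with hS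
    have m1 : b1 ∈ S := by
      rw [hS, Finset.mem_filter]
      refine ⟨b1_mem hA, ?_⟩
      unfold ht b1
      simp only
      rw [Y_EN, Y_EN]
      norm_num
    have m2 : b2 ∈ S := by
      rw [hS, Finset.mem_filter]
      refine ⟨b2_mem hA hb, ?_⟩
      unfold ht b2
      decide
    have hne : b1 ≠ b2 := by
      intro h
      have h3 := congrArg (fun p : PW => X p.1) h
      unfold b1 b2 at h3
      simp only at h3
      rw [X_EN] at h3
      revert h3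
      decide
    have m3 : b2 ∈ S.erase b1 := Finset.mem_erase.2 ⟨hne.symm, m2⟩
    have e1 : mkfC A u c μ one ψ 8 2 = ((w₁ : ℂ) * tw μ ψ b1 + (w₂ : ℂ) * tw μ ψ b2) +
        ∑ q ∈ (S.erase b1).erase b2, ((one q * wt u c q : ℝ) : ℂ) * tw μ ψ q := by
      unfold mkfC
      rw [← hS, ← Finset.add_sum_erase S _ m1, ← Finset.add_sum_erase (S.erase b1) _ m3]
      simp only [one, one_mul]
      ring
    have e2 : mkf A u c one 8 2 = (w₁ + w₂) +
        ∑ q ∈ (S.erase b1).erase b2, one q * wt u c q := by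
      unfold mkf
      rw [← hS, ← Finset.add_sum_erase S _ m1, ← Finset.add_sum_erase (S.erase b1) _ m3]
      simp only [one, one_mul]
      ring
    have h3 : ‖∑ q ∈ (S.erase b1).erase b2, ((one q * wt u c q : ℝ) : ℂ) * tw μ ψ q‖ ≤
        ∑ q ∈ (S.erase b1).erase b2, one q * wt u c q := by
      refine (norm_sum_le _ _).trans (Finset.sum_le_sum fun q _ => ?_)
      rw [norm_mul, norm_tw, mul_one, Complex.norm_real, Real.norm_eq_abs,
        abs_of_nonneg (mul_nonneg (one_nonneg' q) (wt_pos u c q).le)]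
    have h4 := norm_two h1 h2 hψ (yy μ b1)
    have h5 : yy μ b2 = yy μ b1 + 1 := by
      unfold yy spn
      have a1 : X b1.1 = 1 := X_EN 4
      have a2 : X b2.1 = 2 := by unfold b2; decide
      have a3 : ln b1 = 8 := rfl
      have a4 : ln b2 = 8 := rfl
      rw [a1, a2, a3, a4]
      norm_num
      ring
    rw [← h5, ← tw_eq (mem_blk.1 (b1_mem hA)).2.1, ← tw_eq (mem_blk.1 (b2_mem hA hb)).2.1] at h4
    rw [e1, e2]
    refine (norm_add_le _ _).trans ?_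
    linarith
  · -- downward blocks
    intro x hx
    refine ⟨x + 2, ?_⟩
    have hp : IsPIrr ([Dir.E], Dir.E :: List.replicate x Dir.N) :=
      isPIrr_one isBr_singleton_E (PrmK.isBr_EN x) (by simp [Dir.dx]) (X_EN x)
    have hm : ([Dir.E], Dir.E :: List.replicate x Dir.N) ∈ blk A (x + 2) := by
      rw [mem_blk]
      refine ⟨?_, hp, hA.E, hA.EN x⟩
      unfold ln
      simp
      omega
    refine lt_of_lt_of_le (mul_pos one_pos (wt_pos u c _)) (mkf_ge one_nonneg' hm ?_)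
    unfold ht
    simp only
    rw [Y_EN]
    simp [Dir.dy]

end Pool.Agent.SAPY
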