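import Pool.Agent.SAPY.Prof
import Pool.Agent.SAPY.MarkC
import Pool.Agent.SAPY.FourC
import Pool.Agent.SAPY.GauF
import Pool.Agent.SAPY.TwK
import Pool.Agent.SAPY.TwL
import Pool.Agent.SAPY.InterC

/-!
Asymptotics at fixed width: marked interior blocks, marked ends.
-/

namespace Pool.Agent.SAPY

open Filter Topology Pool.Agent.SAPX Pool.Agent.SAPF Pool.Agent.SAPK

/-- contribution of marked ends -/
theorem end_lim1 {s : ℝ} {R : ℕ → ℤ → ℝ} {C : ℝ} (hR : Profile s R C) {w : ℕ → ℤ → ℝ}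
    (hw : ∀ m x, 0 ≤ w m x) {δ : ℝ} (hδ : 0 < δ)
    (ht : Summable (fun p : ℕ × ℤ => w p.1 p.2 * Real.exp (δ * p.1))) :
    Tendsto (fun N : ℕ => (N : ℝ) * ∑ i ∈ Finset.range (N + 1),
      ∑ x ∈ Finset.Icc 1 (i : ℤ), w i x * R (N - i) x) atTop (𝓝 0) := by
  obtain ⟨K, c, hK, hc, hbd⟩ := hR.bd
  -- polynomial against exponential
  obtain ⟨P, hP, hpoly⟩ : ∃ P : ℝ, 0 < P ∧ ∀ i : ℕ,
      (i : ℝ) * ((i : ℝ) + 1) ^ (3 / 2 : ℝ) ≤ P * Real.exp (δ * i) := by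
    refine ⟨((3 : ℕ).factorial : ℝ) / δ ^ 3 * Real.exp δ, by positivity, fun i => ?_⟩
    have h1 := Real.pow_div_factorial_le_exp (δ * (1 + (i : ℝ))) (by positivity) 3
    have hfac : (0 : ℝ) < ((3 : ℕ).factorial : ℝ) := by exact_mod_cast Nat.factorial_pos _
    rw [div_le_iff₀ hfac, mul_pow, show δ * (1 + (i : ℝ)) = δ + δ * i by ring, Real.exp_add] at h1
    have hi0 : (0 : ℝ) ≤ i := by positivity
    have h2 : ((i : ℝ) + 1) ^ (3 / 2 : ℝ) ≤ (1 + (i : ℝ)) ^ 2 := by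
      rw [add_comm (i : ℝ) 1, ← Real.rpow_natCast (1 + (i : ℝ)) 2]
      refine Real.rpow_le_rpow_of_exponent_le (by linarith) ?_
      norm_num
    calc (i : ℝ) * ((i : ℝ) + 1) ^ (3 / 2 : ℝ) ≤ (1 + (i : ℝ)) * (1 + (i : ℝ)) ^ 2 := by
          gcongr; linarith
      _ = (δ ^ 3 * (1 + (i : ℝ)) ^ 3) / δ ^ 3 := by field_simp
      _ ≤ (Real.exp δ * Real.exp (δ * i) * ((3 : ℕ).factorial : ℝ)) / δ ^ 3 := by gcongr
      _ = _ := by ring
  have hone : ∀ (N : ℕ), ∀ i ∈ Finset.range (N + 1), ∀ x ∈ Finset.Icc 1 (i : ℤ),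
      w i x * R (N - i) x ≤
        K * P / ((N : ℝ) + 1) ^ (3 / 2 : ℝ) * (w i x * Real.exp (δ * i)) := by
    intro N i hi x hx
    have hiN : i ≤ N := by have := Finset.mem_range.1 hi; omega
    rw [Finset.mem_Icc] at hx
    have hx1 : (1 : ℝ) ≤ x := by exact_mod_cast hx.1
    have hxi : (x : ℝ) ≤ i := by exact_mod_cast hx.2
    have h1 := hbd (N - i) x
    have h2 : Real.exp (-(c * (x : ℝ) ^ 2 / (((N - i : ℕ) : ℝ) + 1))) ≤ 1 := by
      rw [Real.exp_le_one_iff]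
      have : 0 ≤ c * (x : ℝ) ^ 2 / (((N - i : ℕ) : ℝ) + 1) := by positivity
      linarith
    have h3 : ((N : ℝ) + 1) ^ (3 / 2 : ℝ) ≤
        (((N - i : ℕ) : ℝ) + 1) ^ (3 / 2 : ℝ) * ((i : ℝ) + 1) ^ (3 / 2 : ℝ) := by
      rw [← Real.mul_rpow (by positivity) (by positivity)]
      refine Real.rpow_le_rpow (by positivity) ?_ (by norm_num)
      have e : ((N - i : ℕ) : ℝ) = N - i := Nat.cast_sub hiN
      have e1 : (i : ℝ) ≤ N := by exact_mod_cast hiN
      have e2 : (0 : ℝ) ≤ i := by positivity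
      rw [e]
      nlinarith [mul_nonneg e2 (sub_nonneg.2 e1)]
    have hN1 : (0 : ℝ) < ((N : ℝ) + 1) ^ (3 / 2 : ℝ) := by positivity
    have hm1 : (0 : ℝ) < (((N - i : ℕ) : ℝ) + 1) ^ (3 / 2 : ℝ) := by positivity
    have h4 : R (N - i) x ≤ K * P / ((N : ℝ) + 1) ^ (3 / 2 : ℝ) * Real.exp (δ * i) := by
      calc R (N - i) x ≤ K * |(x : ℝ)| / ((((N - i : ℕ) : ℝ)) + 1) ^ (3 / 2 : ℝ) *
            Real.exp (-(c * (x : ℝ) ^ 2 / (((N - i : ℕ) : ℝ) + 1))) := h1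
        _ ≤ K * (i : ℝ) / ((((N - i : ℕ) : ℝ)) + 1) ^ (3 / 2 : ℝ) * 1 := by
            rw [abs_of_pos (by linarith : (0 : ℝ) < x)]
            gcongr
        _ ≤ K * (i : ℝ) * (((i : ℝ) + 1) ^ (3 / 2 : ℝ) / ((N : ℝ) + 1) ^ (3 / 2 : ℝ)) := by
            rw [mul_one, div_eq_mul_one_div]
            refine mul_le_mul_of_nonneg_left ?_ (by positivity)
            rw [div_le_div_iff₀ hm1 hN1, one_mul, mul_comm]
            exact h3
        _ = K / ((N : ℝ) + 1) ^ (3 / 2 : ℝ) * ((i : ℝ) * ((i : ℝ) + 1) ^ (3 / 2 : ℝ)) := by ring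
        _ ≤ K / ((N : ℝ) + 1) ^ (3 / 2 : ℝ) * (P * Real.exp (δ * i)) :=
            mul_le_mul_of_nonneg_left (hpoly i) (by positivity)
        _ = _ := by ring
    calc w i x * R (N - i) x ≤
        w i x * (K * P / ((N : ℝ) + 1) ^ (3 / 2 : ℝ) * Real.exp (δ * i)) :=
          mul_le_mul_of_nonneg_left h4 (hw i x)
      _ = _ := by ring
  set W := ∑' p : ℕ × ℤ, w p.1 p.2 * Real.exp (δ * p.1) with hW
  have hsum : ∀ N : ℕ, ∑ i ∈ Finset.range (N + 1), ∑ x ∈ Finset.Icc 1 (i : ℤ),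
      w i x * Real.exp (δ * i) ≤ W := by
    intro N
    rw [Finset.sum_sigma']
    have hinj : Set.InjOn (fun z : (_ : ℕ) × ℤ => ((z.1, z.2) : ℕ × ℤ))
        ((Finset.range (N + 1)).sigma fun i => Finset.Icc 1 (i : ℤ) : Finset ((_ : ℕ) × ℤ)) := by
      intro z _ z' _ h
      obtain ⟨a, b⟩ := z
      obtain ⟨a', b'⟩ := z'
      simp only [Prod.mk.injEq] at h
      obtain ⟨rfl, rfl⟩ := h
      rfl
    have e1 : ∑ z ∈ (Finset.range (N + 1)).sigma (fun i => Finset.Icc 1 (i : ℤ)),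
        w z.1 z.2 * Real.exp (δ * z.1) =
        ∑ p ∈ ((Finset.range (N + 1)).sigma (fun i => Finset.Icc 1 (i : ℤ))).image
          (fun z : (_ : ℕ) × ℤ => ((z.1, z.2) : ℕ × ℤ)), w p.1 p.2 * Real.exp (δ * p.1) := by
      rw [Finset.sum_image hinj]
    rw [e1]
    exact ht.sum_le_tsum _ fun p _ => mul_nonneg (hw _ _) (Real.exp_pos _).le
  have hW0 : 0 ≤ W := tsum_nonneg fun p => mul_nonneg (hw _ _) (Real.exp_pos _).le
  have hlim : Tendsto (fun N : ℕ => K * P * W * ((N : ℝ) + 1) ^ (-(1 / 2) : ℝ)) atTop (𝓝 0) := by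
    have h1 : Tendsto (fun N : ℕ => ((N : ℝ) + 1) ^ (-(1 / 2) : ℝ)) atTop (𝓝 0) :=
      (tendsto_rpow_neg_atTop (by norm_num : (0 : ℝ) < 1 / 2)).comp
        (tendsto_atTop_add_const_right _ _ tendsto_natCast_atTop_atTop)
    simpa using h1.const_mul (K * P * W)
  refine squeeze_zero (fun N => ?_) (fun N => ?_) hlim
  · refine mul_nonneg (by positivity) (Finset.sum_nonneg fun i _ => Finset.sum_nonneg fun x _ => ?_)
    exact mul_nonneg (hw _ _) (hR.nonneg _ _)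
  · have hN1 : (0 : ℝ) < (N : ℝ) + 1 := by positivity
    have e1 : ∑ i ∈ Finset.range (N + 1), ∑ x ∈ Finset.Icc 1 (i : ℤ), w i x * R (N - i) x ≤
        K * P / ((N : ℝ) + 1) ^ (3 / 2 : ℝ) * W := by
      calc ∑ i ∈ Finset.range (N + 1), ∑ x ∈ Finset.Icc 1 (i : ℤ), w i x * R (N - i) x
          ≤ ∑ i ∈ Finset.range (N + 1), ∑ x ∈ Finset.Icc 1 (i : ℤ),
            K * P / ((N : ℝ) + 1) ^ (3 / 2 : ℝ) * (w i x * Real.exp (δ * i)) :=
            Finset.sum_le_sum fun i hi => Finset.sum_le_sum fun x hx => hone N i hi x hx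
        _ = K * P / ((N : ℝ) + 1) ^ (3 / 2 : ℝ) * ∑ i ∈ Finset.range (N + 1),
            ∑ x ∈ Finset.Icc 1 (i : ℤ), w i x * Real.exp (δ * i) := by
            simp only [Finset.mul_sum]
        _ ≤ _ := by gcongr; exact hsum N
    calc (N : ℝ) * ∑ i ∈ Finset.range (N + 1), ∑ x ∈ Finset.Icc 1 (i : ℤ),
          w i x * R (N - i) x
        ≤ ((N : ℝ) + 1) * (K * P / ((N : ℝ) + 1) ^ (3 / 2 : ℝ) * W) := by
          refine mul_le_mul (by linarith) e1
            (Finset.sum_nonneg fun i _ => Finset.sum_nonneg fun x _ =>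
              mul_nonneg (hw _ _) (hR.nonneg _ _)) (by positivity)
      _ = K * P * W * (((N : ℝ) + 1) ^ (1 : ℝ) / ((N : ℝ) + 1) ^ (3 / 2 : ℝ)) := by
          rw [Real.rpow_one]; ring
      _ = K * P * W * ((N : ℝ) + 1) ^ (-(1 / 2) : ℝ) := by
          rw [← Real.rpow_sub hN1]
          norm_num


theorem tail_blk1 {A : Set Word} {u c : ℝ} (hf : FreeLaw (mkf A u c one)) {ω : PW → ℝ} {q : ℕ}
    (h0 : ∀ p, 0 ≤ ω p) (h1 : ∀ p, IsPIrr p → ω p ≤ (ln p : ℝ) ^ q) :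
    Tendsto (fun N : ℕ => (N : ℝ) * ∑ p ∈ blk A N, ω p * wt u c p) atTop (𝓝 0) := by
  have h2 := tail_blk hf (ω := fun p => (ln p : ℝ) * ω p) (q := q + 1)
    (fun p => mul_nonneg (Nat.cast_nonneg _) (h0 p)) (fun p hp => by
      have := h1 p hp
      rw [pow_succ, mul_comm]
      exact mul_le_mul_of_nonneg_right this (Nat.cast_nonneg _))
  refine squeeze_zero' (Eventually.of_forall fun N => ?_) ?_ h2
  · exact mul_nonneg (by positivity)
      (Finset.sum_nonneg fun p _ => mul_nonneg (h0 p) (wt_pos u c p).le)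
  · filter_upwards [eventually_ge_atTop 1] with N hN
    have hN' : (1 : ℝ) ≤ N := by exact_mod_cast hN
    have h3 : ∑ p ∈ blk A N, (ln p : ℝ) * ω p * wt u c p =
        N * ∑ p ∈ blk A N, ω p * wt u c p := by
      rw [Finset.mul_sum]
      refine Finset.sum_congr rfl fun p hp => ?_
      rw [(mem_blk.1 hp).1, mul_assoc]
    rw [h3]
    have h4 : 0 ≤ ∑ p ∈ blk A N, ω p * wt u c p :=
      Finset.sum_nonneg fun p _ => mul_nonneg (h0 p) (wt_pos u c p).le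
    have h5 : (1 : ℝ) ≤ (N : ℝ) ^ (1 / 2 : ℝ) := Real.one_le_rpow hN' (by norm_num)
    exact le_mul_of_one_le_left (mul_nonneg (by positivity) h4) h5

theorem fixed_ends {A : Set Word} (hA : IsClass A) {u c : ℝ}
    (hf : FreeLaw (mkf A u c one)) {q : ℕ} {ω : PW → ℝ} (h0 : ∀ p, 0 ≤ ω p)
    (h1 : ∀ p, IsPIrr p → ω p ≤ (ln p : ℝ) ^ q) (hω : ∀ q, IsPIrr q → ω (q.2, q.1) = ω q) :
    Tendsto (fun n : ℕ => ((2 * (n + 1) : ℕ) : ℝ) *
      ∑ p ∈ can A n, wt u c p * (tot ω p - inr 0 ω p)) atTop (𝓝 0) := by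
  obtain ⟨C, C', hC, hC', hL, hR⟩ := profiles hA hf
  obtain ⟨hl0, δ, hδ, hls⟩ := tail_lam hf h0 h1
  obtain ⟨hr0, δ', hδ', hrs⟩ := tail_rho hf h0 h1
  have e1 := (end_lim1 hR hl0 hδ hls).comp tendsto_N
  have e2 := (end_lim1 hL hr0 hδ' hrs).comp tendsto_N
  have e3 := (tail_blk1 hf h0 h1).comp tendsto_N
  have e4 := ((e1.add e2).const_mul 2).add e3
  simp only [add_zero, mul_zero] at e4
  refine tendsto_of_tendsto_of_tendsto_of_le_of_le' tendsto_const_nhds e4 ?_ ?_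
  · refine Eventually.of_forall fun n => ?_
    refine mul_nonneg (by positivity) (Finset.sum_nonneg fun p _ => ?_)
    exact mul_nonneg (wt_pos u c p).le (sub_nonneg.2 (inr_le_tot h0 p))
  · filter_upwards [eventually_ge_atTop 2] with n hn
    have h2 := mul_le_mul_of_nonneg_left (ends_sum hA u c h0 hω hn)
      (show (0 : ℝ) ≤ ((2 * n + 2 : ℕ) : ℝ) by positivity)
    simp only [Function.comp]
    rw [show 2 * (n + 1) = 2 * n + 2 by ring]
    refine h2.trans (le_of_eq ?_)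
    ring

/-! ### extraction of the width -/

/-- orthogonality of the characters -/
lemma int_char (k : ℤ) : ∫ ψ in (-Real.pi)..Real.pi,
    Complex.exp (Complex.I * ((ψ * (k : ℝ) : ℝ) : ℂ)) = if k = 0 then 2 * Real.pi else 0 := by
  split_ifs with h
  · rw [h]
    simp
    ring
  · have hk : (Complex.I * (k : ℂ)) ≠ 0 := by
      simp [Complex.I_ne_zero, h]
    have h1 := integral_exp_mul_complex (a := -Real.pi) (b := Real.pi) hk
    have h2 : (fun ψ : ℝ => Complex.exp (Complex.I * ((ψ * (k : ℝ) : ℝ) : ℂ))) =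
        fun ψ : ℝ => Complex.exp (Complex.I * (k : ℂ) * ψ) := by
      funext ψ
      congr 1
      push_cast
      ring
    rw [h2, h1]
    have h3 : Complex.exp (Complex.I * (k : ℂ) * (Real.pi : ℝ)) =
        Complex.exp (Complex.I * (k : ℂ) * ((-Real.pi : ℝ) : ℂ)) := by
      rw [Complex.exp_eq_exp_iff_exists_int]
      refine ⟨k, ?_⟩
      push_cast
      ring
    rw [h3, sub_self, zero_div]
    simp

lemma tw_can {A : Set Word} {n : ℕ} {p : PW} (hp : p ∈ can A n) (μ ψ : ℝ) :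
    tw μ ψ p = Complex.exp (Complex.I *
      ((ψ * ((X p.1 : ℝ) - μ * ((2 * (n + 1) : ℕ) : ℝ)) : ℝ) : ℂ)) := by
  obtain ⟨h1, h2, -, -⟩ := mem_can.1 hp
  unfold tw
  rw [← h2.pb.span, h1]
  congr 4
  push_cast
  ring

lemma tw_cont (μ : ℝ) (p : PW) : Continuous fun ψ => tw μ ψ p := by
  unfold tw
  fun_prop

/-- the sum over the polygons of width `W - 1` as a Fourier coefficient -/
lemma extract {A : Set Word} {n : ℕ} (W : ℤ) (μ : ℝ) (r : PW → ℝ) :
    ∫ ψ in (-Real.pi)..Real.pi, (∑ p ∈ can A n, (r p : ℂ) * tw μ ψ p) *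
      Complex.exp (-(Complex.I * ((ψ * ((W : ℝ) - μ * ((2 * (n + 1) : ℕ) : ℝ)) : ℝ) : ℂ))) =
    ((2 * Real.pi * ∑ p ∈ canW A n W, r p : ℝ) : ℂ) := by
  classical
  have h1 : ∀ ψ : ℝ, (∑ p ∈ can A n, (r p : ℂ) * tw μ ψ p) *
      Complex.exp (-(Complex.I * ((ψ * ((W : ℝ) - μ * ((2 * (n + 1) : ℕ) : ℝ)) : ℝ) : ℂ))) =
      ∑ p ∈ can A n, (r p : ℂ) *
        Complex.exp (Complex.I * ((ψ * ((X p.1 - W : ℤ) : ℝ) : ℝ) : ℂ)) := by
    intro ψ
    rw [Finset.sum_mul]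
    refine Finset.sum_congr rfl fun p hp => ?_
    rw [tw_can hp, mul_assoc, ← Complex.exp_add]
    congr 2
    push_cast
    ring
  simp only [h1]
  rw [intervalIntegral.integral_finsetSum]
  · have h2 : ∀ p ∈ can A n, ∫ ψ in (-Real.pi)..Real.pi, (r p : ℂ) *
        Complex.exp (Complex.I * ((ψ * ((X p.1 - W : ℤ) : ℝ) : ℝ) : ℂ)) =
        if X p.1 = W then ((2 * Real.pi * r p : ℝ) : ℂ) else 0 := by
      intro p _
      rw [intervalIntegral.integral_const_mul, int_char]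
      by_cases h : X p.1 = W
      · rw [if_pos (by omega), if_pos h]
        push_cast
        ring
      · rw [if_neg (by omega), if_neg h]
        simp
    rw [Finset.sum_congr rfl h2, ← Finset.sum_filter]
    unfold canW
    push_cast
    rw [Finset.mul_sum]
  · intro p _
    apply Continuous.intervalIntegrable
    fun_prop

theorem fixed_sum {A : Set Word} (hA : IsClass A) (hb : bw ∈ A) {u c : ℝ}
    (hf : FreeLaw (mkf A u c one)) : ∃ k : ℕ → ℝ, (∀ a, 0 < k a) ∧ ∃ b, 0 < b ∧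
    ∀ (a q : ℕ) (ω : PW → ℝ), (∀ p, 0 ≤ ω p) →
    (∀ p, IsPIrr p → ω p ≤ (ln p : ℝ) ^ q) → (∀ q, IsPIrr q → ω (q.2, q.1) = ω q) →
    (∀ (n : ℕ → ℕ) (W : ℕ → ℤ) (z : ℝ), Tendsto n atTop atTop →
    Tendsto (fun j => ((W j : ℝ) - muA A u c * ((2 * (n j + 1) : ℕ) : ℝ)) /
      Real.sqrt ((2 * (n j + 1) : ℕ) : ℝ)) atTop (𝓝 z) →
    Tendsto (fun j : ℕ => ((2 * (n j + 1) : ℕ) : ℝ) ^ ((2 - (a : ℝ)) / 2) *
      ∑ p ∈ canW A (n j) (W j), wt u c p * inr a ω p) atTop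
      (𝓝 (k a * (∑' p : ℕ × ℤ, mkf A u c ω p.1 p.2) * gau b z))) ∧
    ∃ K, ∀ n : ℕ, 2 ≤ n → ∀ W : ℤ, ((2 * (n + 1) : ℕ) : ℝ) ^ ((2 - (a : ℝ)) / 2) *
      ∑ p ∈ canW A n W, wt u c p * inr a ω p ≤ K := by
  set μ := muA A u c with hμ
  have hT := twLawA hA hb hf
  rw [← hμ] at hT
  have hK := twKilledA hA u c μ
  obtain ⟨C, hC, hL⟩ : ∃ C, 0 < C ∧ ProfC (var (mkf A u c one))
      (s2A A u c μ / mean (mkf A u c one)) (LC A u c μ) C :=
    profC hf hT (killedA hA u c) (capLaw_lam hA hf) (rec_occ _ _) hK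
      (twCap_lam A u c μ) (fun ψ => recC_occC _ _)
  obtain ⟨C', hC', hR⟩ : ∃ C, 0 < C ∧ ProfC (var (mkf A u c one))
      (s2A A u c μ / mean (mkf A u c one)) (RC A u c μ) C :=
    profC hf hT ((killedA hA u c).rev hf) (capLaw_rho hA hf) (rec_occ _ _)
      (TwKilled.rev hf hT hK) (twCap_rho A u c μ) (fun ψ => recC_occC _ _)
  have hbpos : 0 < s2A A u c μ / mean (mkf A u c one) := div_pos hT.s2_pos (mean_pos hf)
  obtain ⟨k, hk, hlim⟩ := marked_limC hf (var_pos hf) hC hC' hL hR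
  refine ⟨fun a => 2 * k a, fun a => mul_pos two_pos (hk a), _, hbpos, ?_⟩
  intro a q ω h0 h1 hω
  have hM := markedA A u c h0 h1
  have hTM := twMarkedA A u c μ h0
  have hl := hlim a q _ _ _ _ hM hTM
  obtain ⟨K, c', hK', hc', hbd⟩ := marked_bdC hf hL hR a q hM hTM
  set S : ℝ → ℕ → ℂ := fun ψ n => if 3 ≤ n then
    ((((2 * n : ℕ) : ℝ) ^ ((1 - (a : ℝ)) / 2) : ℝ) : ℂ) *
      ∑ p ∈ can A (n - 1), ((wt u c p * inr a ω p : ℝ) : ℂ) * tw μ ψ p else 0 with hS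
  have hSeq : ∀ ψ n, 3 ≤ n → S ψ n = 2 * (((((2 * n : ℕ) : ℝ) ^ ((1 - (a : ℝ)) / 2) : ℝ) : ℂ) *
      SSC a (LC A u c μ ψ) (mkgC A u c μ ω ψ) (RC A u c μ ψ) (2 * n)) := by
    intro ψ n hn
    simp only [hS]
    rw [if_pos hn, interiorC hA u c μ ψ a h0 hω (by omega),
      show 2 * (n - 1) + 2 = 2 * n by omega]
    ring
  have hcont : ∀ n, Continuous fun ψ => S ψ n := by
    intro n
    simp only [hS]
    split_ifs
    · refine continuous_const.mul (continuous_finsetSum _ fun p _ => ?_)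
      exact continuous_const.mul (tw_cont μ p)
    · exact continuous_const
  have hSlim : ∀ (χ : ℝ) (ψ : ℕ → ℝ),
      Tendsto (fun n : ℕ => ψ n * Real.sqrt ((2 * n : ℕ) : ℝ)) atTop (𝓝 χ) →
      Tendsto (fun n => S (ψ n) n) atTop
        (𝓝 (((2 * k a * ∑' p : ℕ × ℤ, mkf A u c ω p.1 p.2) * Real.exp
          (-(s2A A u c μ / mean (mkf A u c one) * χ ^ 2 / 2)) : ℝ) : ℂ)) := by
    intro χ ψ hψ
    have h2 := (hl χ ψ hψ).const_mul 2
    refine Tendsto.congr' ?_ (h2.trans_eq ?_)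
    · filter_upwards [eventually_ge_atTop 3] with n hn
      exact (hSeq (ψ n) n hn).symm
    · congr 1
      push_cast
      ring
  have hSbd : ∀ n : ℕ, 1 ≤ n → ∀ ψ : ℝ, |ψ| ≤ Real.pi →
      ‖S ψ n‖ ≤ 2 * K * Real.exp (-(c' * ψ ^ 2 * ((2 * n : ℕ) : ℝ))) := by
    intro n hn ψ hψ
    by_cases h3 : 3 ≤ n
    · rw [hSeq ψ n h3, norm_mul, show ‖(2 : ℂ)‖ = 2 by simp]
      have := hbd n hn ψ hψ
      linarith
    · simp only [hS]
      rw [if_neg h3, norm_zero]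
      positivity
  have hex : ∀ (n : ℕ) (W : ℤ), 2 ≤ n →
      ((Real.sqrt ((2 * (n + 1) : ℕ) : ℝ) / (2 * Real.pi) : ℝ) : ℂ) *
      ∫ ψ in (-Real.pi)..Real.pi, S ψ (n + 1) * Complex.exp (-(Complex.I *
        ((ψ * ((W : ℝ) - μ * ((2 * (n + 1) : ℕ) : ℝ)) : ℝ) : ℂ))) =
      ((((2 * (n + 1) : ℕ) : ℝ) ^ ((2 - (a : ℝ)) / 2) *
        ∑ p ∈ canW A n W, wt u c p * inr a ω p : ℝ) : ℂ) := by
    intro n W hn
    have h4 : ∀ ψ : ℝ, S ψ (n + 1) * Complex.exp (-(Complex.I *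
        ((ψ * ((W : ℝ) - μ * ((2 * (n + 1) : ℕ) : ℝ)) : ℝ) : ℂ))) =
        ((((2 * (n + 1) : ℕ) : ℝ) ^ ((1 - (a : ℝ)) / 2) : ℝ) : ℂ) *
        ((∑ p ∈ can A n, ((wt u c p * inr a ω p : ℝ) : ℂ) * tw μ ψ p) *
          Complex.exp (-(Complex.I *
            ((ψ * ((W : ℝ) - μ * ((2 * (n + 1) : ℕ) : ℝ)) : ℝ) : ℂ)))) := by
      intro ψ
      simp only [hS]
      rw [if_pos (by omega), Nat.add_sub_cancel, mul_assoc]
    simp only [h4]
    rw [intervalIntegral.integral_const_mul, extract]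
    have hN : (0 : ℝ) < ((2 * (n + 1) : ℕ) : ℝ) := by positivity
    have h5 : ((2 * (n + 1) : ℕ) : ℝ) ^ ((2 - (a : ℝ)) / 2) =
        Real.sqrt ((2 * (n + 1) : ℕ) : ℝ) * ((2 * (n + 1) : ℕ) : ℝ) ^ ((1 - (a : ℝ)) / 2) := by
      rw [Real.sqrt_eq_rpow, ← Real.rpow_add hN]
      congr 1
      ring
    rw [h5, ← Complex.ofReal_mul, ← Complex.ofReal_mul]
    congr 1
    have := Real.pi_pos
    field_simp
  refine ⟨?_, ?_⟩
  · intro n W z hn hW
    have h6 := local_of_fourier hcont hbpos hSlim hc' hSbd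
      (n := fun j => n j + 1) (tendsto_add_atTop_nat 1 |>.comp hn) hW
    have h7 : Tendsto (fun j : ℕ => ((((2 * (n j + 1) : ℕ) : ℝ) ^ ((2 - (a : ℝ)) / 2) *
        ∑ p ∈ canW A (n j) (W j), wt u c p * inr a ω p : ℝ) : ℂ)) atTop
        (𝓝 ((2 * k a * (∑' p : ℕ × ℤ, mkf A u c ω p.1 p.2) *
          gau (s2A A u c μ / mean (mkf A u c one)) z : ℝ) : ℂ)) := by
      refine h6.congr' ?_
      filter_upwards [hn.eventually (eventually_ge_atTop 2)] with j hj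
      exact hex (n j) (W j) hj
    exact Complex.continuous_re.tendsto _ |>.comp h7
  · refine ⟨Real.sqrt (Real.pi / c') / (2 * Real.pi) * (2 * K), fun n hn W => ?_⟩
    have hN : (0 : ℝ) < ((2 * (n + 1) : ℕ) : ℝ) := by positivity
    have hpi := Real.pi_pos
    have h8 := congrArg norm (hex n W hn)
    rw [Complex.norm_real, norm_mul, Complex.norm_real, Real.norm_eq_abs, Real.norm_eq_abs,
      abs_of_nonneg (by positivity : (0 : ℝ) ≤
        Real.sqrt ((2 * (n + 1) : ℕ) : ℝ) / (2 * Real.pi))] at h8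
    refine (le_abs_self _).trans (h8.symm.le.trans ?_)
    have hgi : MeasureTheory.Integrable (fun ψ : ℝ =>
        Real.exp (-(c' * ((2 * (n + 1) : ℕ) : ℝ)) * ψ ^ 2)) :=
      integrable_exp_neg_mul_sq (by positivity)
    have h9 : ‖∫ ψ in (-Real.pi)..Real.pi, S ψ (n + 1) * Complex.exp (-(Complex.I *
        ((ψ * ((W : ℝ) - μ * ((2 * (n + 1) : ℕ) : ℝ)) : ℝ) : ℂ)))‖ ≤
        2 * K * Real.sqrt (Real.pi / (c' * ((2 * (n + 1) : ℕ) : ℝ))) := by
      calc _ ≤ ∫ ψ in (-Real.pi)..Real.pi,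
            2 * K * Real.exp (-(c' * ((2 * (n + 1) : ℕ) : ℝ)) * ψ ^ 2) := by
            apply intervalIntegral.norm_integral_le_of_norm_le (by linarith)
            · refine Eventually.of_forall fun ψ hψ => ?_
              rw [norm_mul]
              have e1 : ‖Complex.exp (-(Complex.I *
                ((ψ * ((W : ℝ) - μ * ((2 * (n + 1) : ℕ) : ℝ)) : ℝ) : ℂ)))‖ = 1 := by
                rw [← mul_neg, ← Complex.ofReal_neg, mul_comm]
                exact Complex.norm_exp_ofReal_mul_I _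
              rw [e1, mul_one]
              refine (hSbd (n + 1) (by omega) ψ (abs_le.2 ⟨hψ.1.le, hψ.2⟩)).trans (le_of_eq ?_)
              congr 2
              ring
            · exact (hgi.const_mul _).intervalIntegrable
        _ ≤ ∫ ψ : ℝ, 2 * K * Real.exp (-(c' * ((2 * (n + 1) : ℕ) : ℝ)) * ψ ^ 2) := by
            rw [intervalIntegral.integral_of_le (by linarith)]
            apply MeasureTheory.setIntegral_le_integral (hgi.const_mul _)
            exact Eventually.of_forall fun θ => by positivity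
        _ = _ := by
            rw [MeasureTheory.integral_const_mul, integral_gaussian]
    calc Real.sqrt ((2 * (n + 1) : ℕ) : ℝ) / (2 * Real.pi) * _
        ≤ Real.sqrt ((2 * (n + 1) : ℕ) : ℝ) / (2 * Real.pi) *
          (2 * K * Real.sqrt (Real.pi / (c' * ((2 * (n + 1) : ℕ) : ℝ)))) :=
          mul_le_mul_of_nonneg_left h9 (by positivity)
      _ = (Real.sqrt ((2 * (n + 1) : ℕ) : ℝ) *
          Real.sqrt (Real.pi / (c' * ((2 * (n + 1) : ℕ) : ℝ)))) / (2 * Real.pi) * (2 * K) := by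
          ring
      _ = _ := by
          rw [← Real.sqrt_mul hN.le]
          congr 3
          field_simp

end Pool.Agent.SAPY
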