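import Pool.Agent.SAPY.LocC

/-!
Module Y3: asymptotics of the twisted occupation measures (complex version of SAPX/LimitL.lean).
-/

namespace Pool.Agent.SAPY

open Filter Topology Pool.Agent.SAPX

namespace LimC

/-- twisted law of the first non admissible block -/
noncomputable def kapC (F : ℕ → ℤ → ℂ) (G : ℕ → ℤ → ℤ → ℂ) (L : ℕ → ℤ → ℂ) (k : ℕ) (z : ℤ) : ℂ :=
  ∑ j ∈ Finset.range k, ∑ x ∈ Finset.Icc (z - ((k : ℤ) - j)) (z + ((k : ℤ) - j)),
    L j x * (F (k - j) (z - x) - G (k - j) x z)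

/-! ### signed convolution -/

lemma recC_free {F : ℕ → ℤ → ℂ} {G : ℕ → ℤ → ℤ → ℂ} {l L : ℕ → ℤ → ℂ} (hL : RecC G l L) :
    RecC (freeC F) (fun m y => l m y - kapC F G L m y) L := by
  intro m y
  have h := hL m y
  change L m y = (l m y - kapC F G L m y) + _
  rw [kapC]
  have e : ∑ k ∈ Finset.range m, ∑ x ∈ Finset.Icc (y - ((m : ℤ) - k)) (y + ((m : ℤ) - k)),
      L k x * (F (m - k) (y - x) - G (m - k) x y) =
      (∑ k ∈ Finset.range m, ∑ x ∈ Finset.Icc (y - ((m : ℤ) - k)) (y + ((m : ℤ) - k)),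
        L k x * freeC F (m - k) x y) -
      ∑ k ∈ Finset.range m, ∑ x ∈ Finset.Icc (y - ((m : ℤ) - k)) (y + ((m : ℤ) - k)),
        L k x * G (m - k) x y := by
    rw [← Finset.sum_sub_distrib]
    refine Finset.sum_congr rfl fun k _ => ?_
    rw [← Finset.sum_sub_distrib]
    refine Finset.sum_congr rfl fun x _ => ?_
    rw [freeC]
    ring
  rw [e]
  linear_combination h

lemma recC_sum {g : ℕ → ℤ → ℤ → ℂ} {ι : Type} (s : Finset ι) (c : ι → ℂ)
    (l' L' : ι → ℕ → ℤ → ℂ) (h : ∀ i ∈ s, RecC g (l' i) (L' i)) :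
    RecC g (fun m y => ∑ i ∈ s, c i * l' i m y) (fun m y => ∑ i ∈ s, c i * L' i m y) := by
  intro m y
  have e : ∑ k ∈ Finset.range m, ∑ x ∈ Finset.Icc (y - ((m : ℤ) - k)) (y + ((m : ℤ) - k)),
      (∑ i ∈ s, c i * L' i k x) * g (m - k) x y =
      ∑ i ∈ s, c i * ∑ k ∈ Finset.range m,
        ∑ x ∈ Finset.Icc (y - ((m : ℤ) - k)) (y + ((m : ℤ) - k)), L' i k x * g (m - k) x y := by
    simp only [Finset.sum_mul, Finset.mul_sum]
    symm
    rw [Finset.sum_comm]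
    refine Finset.sum_congr rfl fun k _ => ?_
    rw [Finset.sum_comm]
    refine Finset.sum_congr rfl fun x _ => Finset.sum_congr rfl fun i _ => ?_
    ring
  rw [e, ← Finset.sum_add_distrib]
  refine Finset.sum_congr rfl fun i hi => ?_
  rw [h i hi m y]
  ring

lemma recC_unique {g : ℕ → ℤ → ℤ → ℂ} {l l' L L' : ℕ → ℤ → ℂ} (h : RecC g l L)
    (h' : RecC g l' L') {M : ℕ} (hll : ∀ m ≤ M, ∀ y, l m y = l' m y) :
    ∀ m ≤ M, ∀ y, L m y = L' m y := by
  intro m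
  induction m using Nat.strong_induction_on with
  | _ m ih =>
    intro hm y
    rw [h m y, h' m y, hll m hm y]
    congr 1
    refine Finset.sum_congr rfl fun k hk => Finset.sum_congr rfl fun x _ => ?_
    have := Finset.mem_range.1 hk
    rw [ih k this (by omega) x]

lemma recC_shift {F : ℕ → ℤ → ℂ} (k : ℕ) (z : ℤ) :
    RecC (freeC F) (dlC k z) (fun m y => if k ≤ m then uC F (m - k) (y - z) else 0) := by
  intro m y
  change (if k ≤ m then uC F (m - k) (y - z) else 0) = dlC k z m y +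
    ∑ j ∈ Finset.range m, ∑ x ∈ Finset.Icc (y - ((m : ℤ) - j)) (y + ((m : ℤ) - j)),
      (if k ≤ j then uC F (j - k) (x - z) else 0) * F (m - j) (y - x)
  by_cases hkm : k ≤ m
  · rw [if_pos hkm]
    obtain ⟨n, rfl⟩ := Nat.exists_eq_add_of_le hkm
    rw [Nat.add_sub_cancel_left]
    have h := recC_occC (freeC F) (dlC 0 0) n (y - z)
    change uC F n (y - z) = dlC 0 0 n (y - z) + ∑ i ∈ Finset.range n,
      ∑ x ∈ Finset.Icc (y - z - ((n : ℤ) - i)) (y - z + ((n : ℤ) - i)),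
        uC F i x * F (n - i) (y - z - x) at h
    rw [h]
    congr 1
    · unfold dlC
      by_cases hh : k + n = k ∧ y = z
      · rw [if_pos hh, if_pos ⟨by omega, by omega⟩]
      · rw [if_neg hh, if_neg (fun h' => hh ⟨by omega, by omega⟩)]
    · rw [← Finset.sum_range_add_sum_Ico _ (Nat.le_add_right k n)]
      rw [Finset.sum_eq_zero (s := Finset.range k), zero_add, Finset.sum_Ico_eq_sum_range,
        Nat.add_sub_cancel_left]
      · refine Finset.sum_congr rfl fun i hi => ?_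
        refine Finset.sum_nbij' (fun x => x + z) (fun x => x - z) ?_ ?_ ?_ ?_ ?_
        · intro x hx
          rw [Finset.mem_Icc] at hx ⊢
          push_cast
          constructor <;> omega
        · intro x hx
          rw [Finset.mem_Icc] at hx ⊢
          push_cast at hx
          constructor <;> omega
        · intro x _
          ring
        · intro x _
          ring
        · intro x _
          rw [if_pos (Nat.le_add_right k i), Nat.add_sub_cancel_left, Nat.add_sub_add_left,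
            show x + z - z = x by ring, show y - (x + z) = y - z - x by ring]
      · intro j hj
        refine Finset.sum_eq_zero fun x _ => ?_
        have := Finset.mem_range.1 hj
        rw [if_neg (by omega), zero_mul]
  · rw [if_neg hkm]
    have h1 : dlC k z m y = 0 := by
      unfold dlC
      rw [if_neg (fun h' => hkm (by omega))]
    rw [h1, zero_add]
    symm
    refine Finset.sum_eq_zero fun j hj => Finset.sum_eq_zero fun x _ => ?_
    have := Finset.mem_range.1 hj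
    rw [if_neg (by omega), zero_mul]

/-- the occupation measure as a convolution of the complex law with the free renewal measure -/
lemma convC {F : ℕ → ℤ → ℂ} {a L : ℕ → ℤ → ℂ} (hL : RecC (freeC F) a L)
    (ha : ∀ k z, a k z ≠ 0 → |z| ≤ (k : ℤ)) (m : ℕ) (y : ℤ) :
    L m y = ∑ k ∈ Finset.range (m + 1), ∑ z ∈ Finset.Icc (-(m : ℤ)) m,
      a k z * uC F (m - k) (y - z) := by
  have h1 := recC_sum (g := freeC F) (Finset.range (m + 1) ×ˢ Finset.Icc (-(m : ℤ)) m)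
    (fun p => a p.1 p.2) (fun p => dlC p.1 p.2)
    (fun p => fun m y => if p.1 ≤ m then uC F (m - p.1) (y - p.2) else 0)
    (fun p _ => recC_shift p.1 p.2)
  have h2 := recC_unique hL h1 (M := m) (by
    intro n hn w
    by_cases hw : |w| ≤ (n : ℤ)
    · rw [Finset.sum_eq_single (n, w)]
      · unfold dlC
        rw [if_pos ⟨rfl, rfl⟩, mul_one]
      · intro p _ hp
        unfold dlC
        rw [if_neg (fun h => hp (Prod.ext h.1.symm h.2.symm)), mul_zero]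
      · intro hp
        exfalso
        apply hp
        rw [Finset.mem_product, Finset.mem_range, Finset.mem_Icc]
        have := abs_le.1 hw
        refine ⟨?_, ?_, ?_⟩ <;> simp only <;> omega
    · have h3 : a n w = 0 := by
        by_contra h
        exact hw (ha n w h)
      rw [h3]
      symm
      refine Finset.sum_eq_zero fun p _ => ?_
      unfold dlC
      by_cases hp : n = p.1 ∧ w = p.2
      · rw [← hp.1, ← hp.2, h3, zero_mul]
      · rw [if_neg hp, mul_zero]) m le_rfl y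
  rw [h2, Finset.sum_product]
  refine Finset.sum_congr rfl fun k hk => Finset.sum_congr rfl fun z _ => ?_
  have := Finset.mem_range.1 hk
  simp only
  rw [if_pos (by omega)]

/-! ### comparison with the real quantities -/

section
variable {f : ℕ → ℤ → ℝ} {g : ℕ → ℤ → ℤ → ℝ} {l L : ℕ → ℤ → ℝ}
  {F : ℝ → ℕ → ℤ → ℂ} {G : ℝ → ℕ → ℤ → ℤ → ℂ} {l' L' : ℝ → ℕ → ℤ → ℂ}

lemma L_le (hL : Rec g l L) (hG : TwKilled f g F G) (hl' : TwCap l l')
    (hL' : ∀ ψ, RecC (G ψ) (l' ψ) (L' ψ)) (ψ : ℝ) (m : ℕ) (y : ℤ) : ‖L' ψ m y‖ ≤ L m y :=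
  recC_norm_le hL (hL' ψ) (hG.le ψ) (hl'.le ψ) m y

lemma kapC_le (hL : Rec g l L) (hG : TwKilled f g F G) (hl' : TwCap l l')
    (hL' : ∀ ψ, RecC (G ψ) (l' ψ) (L' ψ)) (ψ : ℝ) (k : ℕ) (z : ℤ) :
    ‖kapC (F ψ) (G ψ) (L' ψ) k z‖ ≤ kap f g L k z := by
  unfold kapC kap
  refine (norm_sum_le _ _).trans (Finset.sum_le_sum fun j _ => ?_)
  refine (norm_sum_le _ _).trans (Finset.sum_le_sum fun x _ => ?_)
  rw [norm_mul]
  have h1 := L_le hL hG hl' hL' ψ j x
  exact mul_le_mul h1 (hG.sub ψ _ _ _) (norm_nonneg _) ((norm_nonneg _).trans h1)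

/-- complex signed law -/
noncomputable def aC (F : ℝ → ℕ → ℤ → ℂ) (G : ℝ → ℕ → ℤ → ℤ → ℂ) (l' L' : ℝ → ℕ → ℤ → ℂ)
    (ψ : ℝ) (k : ℕ) (z : ℤ) : ℂ := l' ψ k z - kapC (F ψ) (G ψ) (L' ψ) k z

lemma aC_le (hL : Rec g l L) (hG : TwKilled f g F G) (hl' : TwCap l l')
    (hL' : ∀ ψ, RecC (G ψ) (l' ψ) (L' ψ)) (ψ : ℝ) (k : ℕ) (z : ℤ) :
    ‖aC F G l' L' ψ k z‖ ≤ l k z + kap f g L k z := by
  unfold aC
  exact (norm_sub_le _ _).trans (add_le_add (hl'.le ψ k z) (kapC_le hL hG hl' hL' ψ k z))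

lemma aC_supp (hf : FreeLaw f) (hg : Killed f g) (hl : CapLaw l) (hL : Rec g l L)
    (hG : TwKilled f g F G) (hl' : TwCap l l') (hL' : ∀ ψ, RecC (G ψ) (l' ψ) (L' ψ)) (ψ : ℝ)
    (k : ℕ) (z : ℤ) (h : aC F G l' L' ψ k z ≠ 0) : |z| ≤ (k : ℤ) ∧ Even ((k : ℤ) + z) := by
  by_cases h1 : kap f g L k z = 0
  · have h2 : l k z ≠ 0 := by
      intro h0
      have h3 := aC_le hL hG hl' hL' ψ k z
      rw [h0, h1, add_zero] at h3
      exact h (norm_le_zero_iff.1 h3)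
    have h4 := hl.supp k z h2
    refine ⟨abs_le.2 ⟨by omega, h4.2.1⟩, h4.2.2⟩
  · exact K5.kap_supp hf hg hl hL h1

lemma aC_bound (hf : FreeLaw f) (hg : Killed f g) (hl : CapLaw l) (hL : Rec g l L)
    (hG : TwKilled f g F G) (hl' : TwCap l l') (hL' : ∀ ψ, RecC (G ψ) (l' ψ) (L' ψ)) :
    ∃ K δ, 0 < K ∧ 0 < δ ∧ ∀ (ψ : ℝ) (k : ℕ) (z : ℤ), ‖aC F G l' L' ψ k z‖ ≤
      K / ((k : ℝ) + 1) ^ (3 / 2 : ℝ) * Real.exp (-(δ * |(z : ℝ)|)) := by
  obtain ⟨K1, δ1, hK1, hδ1, h1⟩ := kap_bound hf hg hl hL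
  obtain ⟨K2, δ2, hK2, hδ2, h2⟩ := K5.aa_bound hf hg hl hL
  refine ⟨K2 + 2 * K1, min δ1 δ2, by positivity, by positivity, fun ψ k z => ?_⟩
  have hk : (0 : ℝ) < ((k : ℝ) + 1) ^ (3 / 2 : ℝ) := Real.rpow_pos_of_pos (by positivity) _
  have hz : 0 ≤ |(z : ℝ)| := abs_nonneg _
  have e1 : kap f g L k z ≤ K1 / ((k : ℝ) + 1) ^ (3 / 2 : ℝ) *
      Real.exp (-(min δ1 δ2 * |(z : ℝ)|)) := by
    refine (h1 k z).trans ?_
    refine mul_le_mul_of_nonneg_left ?_ (by positivity)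
    apply Real.exp_le_exp.2
    have := mul_le_mul_of_nonneg_right (min_le_left δ1 δ2) hz
    linarith
  have e2 : |l k z - kap f g L k z| ≤ K2 / ((k : ℝ) + 1) ^ (3 / 2 : ℝ) *
      Real.exp (-(min δ1 δ2 * |(z : ℝ)|)) := by
    refine (h2 k z).trans ?_
    refine mul_le_mul_of_nonneg_left ?_ (by positivity)
    apply Real.exp_le_exp.2
    have := mul_le_mul_of_nonneg_right (min_le_right δ1 δ2) hz
    linarith
  have e3 := aC_le hL hG hl' hL' ψ k z
  have e4 := le_abs_self (l k z - kap f g L k z)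
  have e5 : (K2 + 2 * K1) / ((k : ℝ) + 1) ^ (3 / 2 : ℝ) * Real.exp (-(min δ1 δ2 * |(z : ℝ)|)) =
      K2 / ((k : ℝ) + 1) ^ (3 / 2 : ℝ) * Real.exp (-(min δ1 δ2 * |(z : ℝ)|)) +
      2 * (K1 / ((k : ℝ) + 1) ^ (3 / 2 : ℝ) * Real.exp (-(min δ1 δ2 * |(z : ℝ)|))) := by
    ring
  rw [e5]
  linarith

/-! ### continuity at frequency zero -/

lemma F_cont {s2 : ℝ} (hF : TwLaw f F s2) (m : ℕ) (d : ℤ) :
    Tendsto (fun ψ => F ψ m d) (𝓝 0) (𝓝 (f m d : ℂ)) := by
  obtain ⟨K, hK, h⟩ := hF.lip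
  rw [tendsto_iff_norm_sub_tendsto_zero]
  have h1 : Tendsto (fun ψ : ℝ => K * |ψ| * m * f m d) (𝓝 0) (𝓝 0) := by
    have h2 : Continuous fun ψ : ℝ => K * |ψ| * m * f m d := by fun_prop
    have h3 := h2.tendsto 0
    simpa using h3
  exact squeeze_zero (fun ψ => norm_nonneg _) (fun ψ => h ψ m d) h1

lemma L_cont (hL : Rec g l L) (hG : TwKilled f g F G) (hl' : TwCap l l')
    (hL' : ∀ ψ, RecC (G ψ) (l' ψ) (L' ψ)) (m : ℕ) (y : ℤ) :
    Tendsto (fun ψ => L' ψ m y) (𝓝 0) (𝓝 (L m y : ℂ)) := by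
  induction m using Nat.strong_induction_on generalizing y with
  | _ m ih =>
    have e1 : (fun ψ => L' ψ m y) = fun ψ => l' ψ m y + ∑ k ∈ Finset.range m,
        ∑ x ∈ Finset.Icc (y - ((m : ℤ) - k)) (y + ((m : ℤ) - k)), L' ψ k x * G ψ (m - k) x y := by
      funext ψ
      exact hL' ψ m y
    rw [e1, hL m y]
    push_cast
    refine (hl'.cont m y).add (tendsto_finsetSum _ fun k hk => tendsto_finsetSum _ fun x _ => ?_)
    exact (ih k (Finset.mem_range.1 hk) x).mul (hG.cont _ _ _)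

lemma aC_cont {s2 : ℝ} (hF : TwLaw f F s2) (hL : Rec g l L) (hG : TwKilled f g F G)
    (hl' : TwCap l l') (hL' : ∀ ψ, RecC (G ψ) (l' ψ) (L' ψ)) (k : ℕ) (z : ℤ) :
    Tendsto (fun ψ => aC F G l' L' ψ k z) (𝓝 0) (𝓝 ((l k z - kap f g L k z : ℝ) : ℂ)) := by
  unfold aC kapC kap
  push_cast
  refine (hl'.cont k z).sub (tendsto_finsetSum _ fun j _ => tendsto_finsetSum _ fun x _ => ?_)
  exact (L_cont hL hG hl' hL' j x).mul ((F_cont hF _ _).sub (hG.cont _ _ _))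

/-! ### antisymmetrisation -/

lemma antiC (hf : FreeLaw f) {s2 : ℝ} (hF : TwLaw f F s2) (hg : Killed f g) (hl : CapLaw l)
    (hL : Rec g l L) (hG : TwKilled f g F G) (hl' : TwCap l l')
    (hL' : ∀ ψ, RecC (G ψ) (l' ψ) (L' ψ)) (ψ : ℝ) (m : ℕ) {y : ℤ} (hy : 0 < y) :
    L' ψ m y = ∑ k ∈ Finset.range (m + 1), ∑ z ∈ Finset.Icc (-(m : ℤ)) m,
      aC F G l' L' ψ k z * (uC (F ψ) (m - k) (y - z) - uC (F ψ) (m - k) (y + z)) := by
  have hs : ∀ k z, aC F G l' L' ψ k z ≠ 0 → |z| ≤ (k : ℤ) :=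
    fun k z h => (aC_supp hf hg hl hL hG hl' hL' ψ k z h).1
  have hr : RecC (freeC (F ψ)) (aC F G l' L' ψ) (L' ψ) := recC_free (hL' ψ)
  have h1 := convC hr hs m y
  have h2 := convC hr hs m (-y)
  have h3 : L' ψ m (-y) = 0 := by
    by_contra h
    have h4 := L_le hL hG hl' hL' ψ m (-y)
    have h5 : L m (-y) ≠ 0 := by
      intro h0
      rw [h0] at h4
      exact h (norm_le_zero_iff.1 h4)
    have := hL.supp hf hg hl h5
    omega
  rw [h3] at h2
  have e : ∑ k ∈ Finset.range (m + 1), ∑ z ∈ Finset.Icc (-(m : ℤ)) m,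
      aC F G l' L' ψ k z * (uC (F ψ) (m - k) (y - z) - uC (F ψ) (m - k) (y + z)) =
      (∑ k ∈ Finset.range (m + 1), ∑ z ∈ Finset.Icc (-(m : ℤ)) m,
      aC F G l' L' ψ k z * uC (F ψ) (m - k) (y - z)) -
      ∑ k ∈ Finset.range (m + 1), ∑ z ∈ Finset.Icc (-(m : ℤ)) m,
      aC F G l' L' ψ k z * uC (F ψ) (m - k) (-y - z) := by
    rw [← Finset.sum_sub_distrib]
    refine Finset.sum_congr rfl fun k _ => ?_
    rw [← Finset.sum_sub_distrib]
    refine Finset.sum_congr rfl fun z _ => ?_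
    rw [show -y - z = -(y + z) by ring, uC_symm hf hF]
    ring
  rw [e, ← h1, ← h2, sub_zero]

/-- rescaled difference, for the first half of the times -/
noncomputable def GG (F : ℕ → ℤ → ℂ) (m : ℕ) (y : ℤ) (p : ℕ × ℤ) : ℂ :=
  if 2 * p.1 ≤ m then ((m : ℝ) : ℂ) * (uC F (m - p.1) (y - p.2) - uC F (m - p.1) (y + p.2)) else 0

lemma norm_nat (m : ℕ) : ‖((m : ℝ) : ℂ)‖ = m := by
  rw [Complex.norm_real, Real.norm_eq_abs, abs_of_nonneg (Nat.cast_nonneg m)]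

lemma GG_bound {K : ℝ} (hK : 0 < K)
    (hd : ∀ (ψ : ℝ) (m : ℕ) (y z : ℤ), ‖uC (F ψ) m (y - z) - uC (F ψ) m (y + z)‖ ≤
      K * |(z : ℝ)| / (m + 1))
    (ψ : ℝ) (m : ℕ) (y : ℤ) (p : ℕ × ℤ) : ‖GG (F ψ) m y p‖ ≤ 2 * K * |(p.2 : ℝ)| := by
  unfold GG
  split_ifs with h
  · rw [norm_mul, norm_nat]
    have h1 := hd ψ (m - p.1) y p.2
    have h2 := mul_le_mul_of_nonneg_left h1 (Nat.cast_nonneg (α := ℝ) m)
    refine h2.trans ?_
    have h3 : (0 : ℝ) < ((m - p.1 : ℕ) : ℝ) + 1 := by positivity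
    rw [← mul_div_assoc, div_le_iff₀ h3]
    have h4 : (m : ℝ) ≤ 2 * (((m - p.1 : ℕ) : ℝ) + 1) := by
      have : m ≤ 2 * ((m - p.1) + 1) := by omega
      exact_mod_cast this
    have h5 : 0 ≤ K * |(p.2 : ℝ)| := by positivity
    calc (m : ℝ) * (K * |(p.2 : ℝ)|) ≤ 2 * (((m - p.1 : ℕ) : ℝ) + 1) * (K * |(p.2 : ℝ)|) :=
          mul_le_mul_of_nonneg_right h4 h5
      _ = _ := by ring
  · rw [norm_zero]
    positivity

lemma split (hf : FreeLaw f) {s2 : ℝ} (hF : TwLaw f F s2) (hg : Killed f g) (hl : CapLaw l)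
    (hL : Rec g l L) (hG : TwKilled f g F G) (hl' : TwCap l l')
    (hL' : ∀ ψ, RecC (G ψ) (l' ψ) (L' ψ)) {K K' δ : ℝ} (hK : 0 < K) (hK' : 0 < K')
    (hδ : 0 < δ)
    (hd : ∀ (ψ : ℝ) (m : ℕ) (y z : ℤ), ‖uC (F ψ) m (y - z) - uC (F ψ) m (y + z)‖ ≤
      K * |(z : ℝ)| / (m + 1))
    (ha : ∀ (ψ : ℝ) (k : ℕ) (z : ℤ), ‖aC F G l' L' ψ k z‖ ≤
      K' / ((k : ℝ) + 1) ^ (3 / 2 : ℝ) * Real.exp (-(δ * |(z : ℝ)|)))
    (ψ : ℝ) (m : ℕ) {y : ℤ} (hy : 0 < y) :
    ‖((m : ℝ) : ℂ) * L' ψ m y - ∑' p : ℕ × ℤ, aC F G l' L' ψ p.1 p.2 * GG (F ψ) m y p‖ ≤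
      4 * K * K' * (∑' z : ℤ, |(z : ℝ)| * Real.exp (-(δ * |(z : ℝ)|))) * K5.RR m := by
  have hS := K5.sum_z hδ
  set S := ∑' z : ℤ, |(z : ℝ)| * Real.exp (-(δ * |(z : ℝ)|)) with hSdef
  have hS0 : 0 ≤ S := tsum_nonneg fun z => by positivity
  have e1 : ∑' p : ℕ × ℤ, aC F G l' L' ψ p.1 p.2 * GG (F ψ) m y p =
      ∑ k ∈ Finset.range (m + 1), ∑ z ∈ Finset.Icc (-(m : ℤ)) m,
        aC F G l' L' ψ k z * GG (F ψ) m y (k, z) := by
    rw [tsum_eq_sum (s := Finset.range (m + 1) ×ˢ Finset.Icc (-(m : ℤ)) m), Finset.sum_product]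
    intro p hp
    by_cases h1 : p.1 ≤ m
    · have h2 : aC F G l' L' ψ p.1 p.2 = 0 := by
        by_contra h
        have h3 := (aC_supp hf hg hl hL hG hl' hL' ψ p.1 p.2 h).1
        apply hp
        rw [Finset.mem_product, Finset.mem_range, Finset.mem_Icc]
        have := abs_le.1 h3
        refine ⟨by omega, by omega, by omega⟩
      rw [h2, zero_mul]
    · unfold GG
      rw [if_neg (by omega), mul_zero]
  rw [e1, antiC hf hF hg hl hL hG hl' hL' ψ m hy, Finset.mul_sum, ← Finset.sum_sub_distrib]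
  refine (norm_sum_le _ _).trans ?_
  have step : ∀ k ∈ Finset.range (m + 1),
      ‖((m : ℝ) : ℂ) * ∑ z ∈ Finset.Icc (-(m : ℤ)) m,
        aC F G l' L' ψ k z * (uC (F ψ) (m - k) (y - z) - uC (F ψ) (m - k) (y + z)) -
      ∑ z ∈ Finset.Icc (-(m : ℤ)) m, aC F G l' L' ψ k z * GG (F ψ) m y (k, z)‖ ≤
      4 * K * K' * S / ((m : ℝ) + 1) ^ (1 / 2 : ℝ) * (1 / (((m - k : ℕ) : ℝ) + 1)) := by
    intro k hk
    rw [Finset.mul_sum, ← Finset.sum_sub_distrib]
    refine (norm_sum_le _ _).trans ?_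
    have hm0 : (0 : ℝ) < (m : ℝ) + 1 := by positivity
    have hmk : (0 : ℝ) < ((m - k : ℕ) : ℝ) + 1 := by positivity
    have hk0 : (0 : ℝ) < (k : ℝ) + 1 := by positivity
    have hmp : (0 : ℝ) < ((m : ℝ) + 1) ^ (1 / 2 : ℝ) := Real.rpow_pos_of_pos hm0 _
    have h1 : ∀ z ∈ Finset.Icc (-(m : ℤ)) m,
        ‖((m : ℝ) : ℂ) * (aC F G l' L' ψ k z *
            (uC (F ψ) (m - k) (y - z) - uC (F ψ) (m - k) (y + z))) -
          aC F G l' L' ψ k z * GG (F ψ) m y (k, z)‖ ≤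
        4 * K * K' / ((m : ℝ) + 1) ^ (1 / 2 : ℝ) * (1 / (((m - k : ℕ) : ℝ) + 1)) *
          (|(z : ℝ)| * Real.exp (-(δ * |(z : ℝ)|))) := by
      intro z _
      unfold GG
      simp only
      split_ifs with h
      · rw [show ((m : ℝ) : ℂ) * (aC F G l' L' ψ k z *
          (uC (F ψ) (m - k) (y - z) - uC (F ψ) (m - k) (y + z))) - aC F G l' L' ψ k z *
          (((m : ℝ) : ℂ) * (uC (F ψ) (m - k) (y - z) - uC (F ψ) (m - k) (y + z))) = 0 by ring,
          norm_zero]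
        positivity
      · rw [mul_zero, sub_zero, norm_mul, norm_mul, norm_nat]
        have h2 := hd ψ (m - k) y z
        have h3 := ha ψ k z
        have h4 : (m : ℝ) / ((k : ℝ) + 1) ^ (3 / 2 : ℝ) ≤ 4 / ((m : ℝ) + 1) ^ (1 / 2 : ℝ) := by
          have h5 : (m : ℝ) + 1 ≤ 2 * ((k : ℝ) + 1) := by
            have : m + 1 ≤ 2 * (k + 1) := by omega
            exact_mod_cast this
          rw [div_le_div_iff₀ (Real.rpow_pos_of_pos hk0 _) hmp]
          calc (m : ℝ) * ((m : ℝ) + 1) ^ (1 / 2 : ℝ)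
              ≤ ((m : ℝ) + 1) * ((m : ℝ) + 1) ^ (1 / 2 : ℝ) :=
                mul_le_mul_of_nonneg_right (by linarith) hmp.le
            _ = ((m : ℝ) + 1) ^ (3 / 2 : ℝ) := by
                rw [show (3 / 2 : ℝ) = 1 + 1 / 2 by norm_num, Real.rpow_add hm0, Real.rpow_one]
            _ ≤ (2 * ((k : ℝ) + 1)) ^ (3 / 2 : ℝ) :=
                Real.rpow_le_rpow hm0.le h5 (by norm_num)
            _ = 2 ^ (3 / 2 : ℝ) * ((k : ℝ) + 1) ^ (3 / 2 : ℝ) :=
                Real.mul_rpow (by norm_num) hk0.le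
            _ ≤ 4 * ((k : ℝ) + 1) ^ (3 / 2 : ℝ) := by
                refine mul_le_mul_of_nonneg_right ?_ (Real.rpow_nonneg hk0.le _)
                have : (2 : ℝ) ^ (3 / 2 : ℝ) ≤ 2 ^ (2 : ℝ) :=
                  Real.rpow_le_rpow_of_exponent_le (by norm_num) (by norm_num)
                rw [Real.rpow_two] at this
                linarith
        calc (m : ℝ) * (‖aC F G l' L' ψ k z‖ *
              ‖uC (F ψ) (m - k) (y - z) - uC (F ψ) (m - k) (y + z)‖)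
            ≤ (m : ℝ) * ((K' / ((k : ℝ) + 1) ^ (3 / 2 : ℝ) * Real.exp (-(δ * |(z : ℝ)|))) *
              (K * |(z : ℝ)| / (((m - k : ℕ) : ℝ) + 1))) := by
              refine mul_le_mul_of_nonneg_left ?_ (Nat.cast_nonneg m)
              exact mul_le_mul h3 h2 (norm_nonneg _) (by positivity)
          _ = ((m : ℝ) / ((k : ℝ) + 1) ^ (3 / 2 : ℝ)) * (K * K' *
              (1 / (((m - k : ℕ) : ℝ) + 1)) * (|(z : ℝ)| * Real.exp (-(δ * |(z : ℝ)|)))) := by
              ring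
          _ ≤ (4 / ((m : ℝ) + 1) ^ (1 / 2 : ℝ)) * (K * K' *
              (1 / (((m - k : ℕ) : ℝ) + 1)) * (|(z : ℝ)| * Real.exp (-(δ * |(z : ℝ)|)))) :=
              mul_le_mul_of_nonneg_right h4 (by positivity)
          _ = _ := by ring
    refine (Finset.sum_le_sum h1).trans ?_
    rw [← Finset.mul_sum]
    have h2 : ∑ z ∈ Finset.Icc (-(m : ℤ)) m, |(z : ℝ)| * Real.exp (-(δ * |(z : ℝ)|)) ≤ S :=
      hS.sum_le_tsum _ fun z _ => by positivity
    calc 4 * K * K' / ((m : ℝ) + 1) ^ (1 / 2 : ℝ) * (1 / (((m - k : ℕ) : ℝ) + 1)) * _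
        ≤ 4 * K * K' / ((m : ℝ) + 1) ^ (1 / 2 : ℝ) * (1 / (((m - k : ℕ) : ℝ) + 1)) * S :=
          mul_le_mul_of_nonneg_left h2 (by positivity)
      _ = _ := by ring
  refine (Finset.sum_le_sum step).trans ?_
  rw [← Finset.mul_sum]
  have hmp : (0 : ℝ) < ((m : ℝ) + 1) ^ (1 / 2 : ℝ) := Real.rpow_pos_of_pos (by positivity) _
  refine (mul_le_mul_of_nonneg_left (K5.harm m) (by positivity)).trans (le_of_eq ?_)
  unfold K5.RR
  ring

lemma term_lim {s2 C : ℝ}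
    (hC : ∀ (t χ : ℝ), 0 < t → ∀ (z : ℤ)
      (m : ℕ → ℕ) (y : ℕ → ℤ) (ψ : ℕ → ℝ), Tendsto m atTop atTop →
      (∀ᶠ k in atTop, Even ((m k : ℤ) + y k + z)) →
      Tendsto (fun k => (y k : ℝ) / Real.sqrt (m k)) atTop (𝓝 t) →
      Tendsto (fun k => ψ k * Real.sqrt (m k)) atTop (𝓝 χ) →
      Tendsto (fun k => ((m k : ℝ) : ℂ) *
        (uC (F (ψ k)) (m k) (y k - z) - uC (F (ψ k)) (m k) (y k + z))) atTop
        (𝓝 ((C * z * (t * Real.exp (-(t ^ 2 / (2 * var f)))) *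
          Real.exp (-(s2 / mean f * χ ^ 2 / 2)) : ℝ) : ℂ)))
    {t χ : ℝ} (ht : 0 < t) {m : ℕ → ℕ} {y : ℕ → ℤ} {ψ : ℕ → ℝ} (hm : Tendsto m atTop atTop)
    (hp : ∀ᶠ k in atTop, Even ((m k : ℤ) + y k))
    (hy : Tendsto (fun k => (y k : ℝ) / Real.sqrt (m k)) atTop (𝓝 t))
    (hψ : Tendsto (fun k => ψ k * Real.sqrt (m k)) atTop (𝓝 χ))
    (i : ℕ) (z : ℤ) (hiz : Even ((i : ℤ) + z)) :
    Tendsto (fun k => GG (F (ψ k)) (m k) (y k) (i, z)) atTop
      (𝓝 ((C * z * (t * Real.exp (-(t ^ 2 / (2 * var f)))) *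
          Real.exp (-(s2 / mean f * χ ^ 2 / 2)) : ℝ) : ℂ)) := by
  have hm' : Tendsto (fun k => m k - i) atTop atTop := (tendsto_sub_atTop_nat i).comp hm
  have hm1 : Tendsto (fun k => ((m k - i : ℕ) : ℝ)) atTop atTop :=
    tendsto_natCast_atTop_atTop.comp hm'
  have hr : Tendsto (fun k => (m k : ℝ) / ((m k - i : ℕ) : ℝ)) atTop (𝓝 1) := by
    have h1 : Tendsto (fun k => 1 + (i : ℝ) / ((m k - i : ℕ) : ℝ)) atTop (𝓝 (1 + 0)) :=
      tendsto_const_nhds.add (tendsto_const_nhds.div_atTop hm1)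
    rw [add_zero] at h1
    refine h1.congr' ?_
    filter_upwards [hm.eventually (eventually_ge_atTop (i + 1))] with k hk
    have h2 : (0 : ℝ) < ((m k - i : ℕ) : ℝ) := by
      have : 0 < m k - i := by omega
      exact_mod_cast this
    have h3 : (m k : ℝ) = ((m k - i : ℕ) : ℝ) + i := by
      have : m k = (m k - i) + i := by omega
      exact_mod_cast this
    have h4 : (m k : ℝ) / ((m k - i : ℕ) : ℝ) =
        (((m k - i : ℕ) : ℝ) + i) / ((m k - i : ℕ) : ℝ) := by rw [← h3]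
    rw [h4, add_div, div_self h2.ne']
  have hy' : Tendsto (fun k => (y k : ℝ) / Real.sqrt ((m k - i : ℕ) : ℝ)) atTop (𝓝 t) := by
    have h1 := hy.mul (hr.sqrt)
    rw [Real.sqrt_one, mul_one] at h1
    refine h1.congr' ?_
    filter_upwards [hm.eventually (eventually_ge_atTop (i + 1))] with k hk
    have h2 : (0 : ℝ) < (m k : ℝ) := by
      have : 0 < m k := by omega
      exact_mod_cast this
    rw [Real.sqrt_div h2.le]
    have h3 : Real.sqrt (m k) ≠ 0 := (Real.sqrt_pos.2 h2).ne'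
    field_simp
  have hψ' : Tendsto (fun k => ψ k * Real.sqrt ((m k - i : ℕ) : ℝ)) atTop (𝓝 χ) := by
    have h1 := hψ.div (hr.sqrt) (by rw [Real.sqrt_one]; exact one_ne_zero)
    rw [Real.sqrt_one, div_one] at h1
    refine h1.congr' ?_
    filter_upwards [hm.eventually (eventually_ge_atTop (i + 1))] with k hk
    have h2 : (0 : ℝ) < (m k : ℝ) := by
      have : 0 < m k := by omega
      exact_mod_cast this
    have h4 : (0 : ℝ) < ((m k - i : ℕ) : ℝ) := by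
      have : 0 < m k - i := by omega
      exact_mod_cast this
    rw [Pi.div_apply, Real.sqrt_div h2.le]
    have h3 : Real.sqrt (m k) ≠ 0 := (Real.sqrt_pos.2 h2).ne'
    have h5 : Real.sqrt ((m k - i : ℕ) : ℝ) ≠ 0 := (Real.sqrt_pos.2 h4).ne'
    field_simp
  have h1 := hC t χ ht z (fun k => m k - i) y ψ hm' (by
    filter_upwards [hp, hm.eventually (eventually_ge_atTop i)] with k hk hk2
    have h2 := hk.add hiz
    rw [Nat.cast_sub hk2]
    have h3 : (m k : ℤ) - i + y k + z = (m k + y k + (i + z)) - 2 * i := by ring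
    rw [h3]
    exact h2.sub (even_two_mul _)) hy' hψ'
  have hrc : Tendsto (fun k => (((m k : ℝ) / ((m k - i : ℕ) : ℝ) : ℝ) : ℂ)) atTop (𝓝 1) := by
    have h3 := (Complex.continuous_ofReal.tendsto 1).comp hr
    rw [Complex.ofReal_one] at h3
    exact h3
  have h2 := hrc.mul h1
  rw [one_mul] at h2
  refine h2.congr' ?_
  filter_upwards [hm.eventually (eventually_ge_atTop (2 * i + 1))] with k hk
  unfold GG
  simp only
  rw [if_pos (by omega), ← mul_assoc]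
  have h3 : (0 : ℝ) < ((m k - i : ℕ) : ℝ) := by
    have : 0 < m k - i := by omega
    exact_mod_cast this
  rw [← Complex.ofReal_mul, div_mul_cancel₀ _ h3.ne']

end

end LimC

section
variable {f : ℕ → ℤ → ℝ} (hf : FreeLaw f) {F : ℝ → ℕ → ℤ → ℂ} {s2 : ℝ} (hF : TwLaw f F s2)
include hf hF

theorem LC_lim : ∃ C, 0 < C ∧ ∀ (g : ℕ → ℤ → ℤ → ℝ) (l L : ℕ → ℤ → ℝ)
    (G : ℝ → ℕ → ℤ → ℤ → ℂ) (l' L' : ℝ → ℕ → ℤ → ℂ), Killed f g → CapLaw l → Rec g l L →
    TwKilled f g F G → TwCap l l' → (∀ ψ, RecC (G ψ) (l' ψ) (L' ψ)) →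
    ∀ (t χ : ℝ), 0 < t → ∀ (m : ℕ → ℕ) (y : ℕ → ℤ) (ψ : ℕ → ℝ), Tendsto m atTop atTop →
    (∀ᶠ k in atTop, Even ((m k : ℤ) + y k)) →
    Tendsto (fun k => (y k : ℝ) / Real.sqrt (m k)) atTop (𝓝 t) →
    Tendsto (fun k => ψ k * Real.sqrt (m k)) atTop (𝓝 χ) →
    Tendsto (fun k => ((m k : ℝ) : ℂ) * L' (ψ k) (m k) (y k)) atTop
      (𝓝 ((C * VV f g l L * (t * Real.exp (-(t ^ 2 / (2 * var f)))) *
        Real.exp (-(s2 / mean f * χ ^ 2 / 2)) : ℝ) : ℂ)) := by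
  obtain ⟨C, hC0, hC⟩ := uC_diff_lim hf hF
  obtain ⟨K, hK, hd⟩ := uC_diff hf hF
  refine ⟨C, hC0, fun g l L G l' L' hg hl hL hG hl' hL' t χ ht m y ψ hm hp hy hψ => ?_⟩
  obtain ⟨K', δ, hK', hδ, ha⟩ := LimC.aC_bound hf hg hl hL hG hl' hL'
  -- the frequencies tend to zero
  have hψ0 : Tendsto ψ atTop (𝓝 0) := by
    have hs : Tendsto (fun k => Real.sqrt (m k)) atTop atTop :=
      (Real.tendsto_sqrt_atTop).comp (tendsto_natCast_atTop_atTop.comp hm)
    have h1 := hψ.mul (tendsto_inv_atTop_zero.comp hs)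
    rw [mul_zero] at h1
    refine h1.congr' ?_
    filter_upwards [hs.eventually (eventually_gt_atTop 0)] with k hk
    simp only [Function.comp_apply]
    rw [mul_assoc, mul_inv_cancel₀ hk.ne', mul_one]
  -- the sign of y
  have hypos : ∀ᶠ k in atTop, 0 < y k := by
    filter_upwards [hy.eventually (lt_mem_nhds ht)] with k hk
    by_contra h
    push Not at h
    have h1 : (y k : ℝ) ≤ 0 := by exact_mod_cast h
    have h2 : (y k : ℝ) / Real.sqrt (m k) ≤ 0 :=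
      div_nonpos_of_nonpos_of_nonneg h1 (Real.sqrt_nonneg _)
    linarith
  -- main part
  have hmain : Tendsto (fun k => ∑' p : ℕ × ℤ, LimC.aC F G l' L' (ψ k) p.1 p.2 *
      LimC.GG (F (ψ k)) (m k) (y k) p) atTop (𝓝 (∑' p : ℕ × ℤ,
        ((l p.1 p.2 - kap f g L p.1 p.2 : ℝ) : ℂ) *
        ((C * p.2 * (t * Real.exp (-(t ^ 2 / (2 * var f)))) *
          Real.exp (-(s2 / mean f * χ ^ 2 / 2)) : ℝ) : ℂ))) := by
    refine tendsto_tsum_of_dominated_convergence (K5.sum_dom (K := K' * (2 * K)) hδ) ?_ ?_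
    · intro p
      by_cases hs : |p.2| ≤ (p.1 : ℤ) ∧ Even ((p.1 : ℤ) + p.2)
      · exact ((LimC.aC_cont hF hL hG hl' hL' p.1 p.2).comp hψ0).mul
          (LimC.term_lim hC ht hm hp hy hψ p.1 p.2 hs.2)
      · have h0 : ∀ φ, LimC.aC F G l' L' φ p.1 p.2 = 0 := by
          intro φ
          by_contra h
          exact hs (LimC.aC_supp hf hg hl hL hG hl' hL' φ p.1 p.2 h)
        have h1 : l p.1 p.2 - kap f g L p.1 p.2 = 0 := by
          by_contra h
          exact hs (K5.aa_supp hf hg hl hL p.1 p.2 h)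
        simp only [h0, zero_mul, h1, Complex.ofReal_zero]
        exact tendsto_const_nhds
    · refine Filter.Eventually.of_forall fun k p => ?_
      rw [norm_mul]
      have h1 := ha (ψ k) p.1 p.2
      have h2 := LimC.GG_bound hK hd (ψ k) (m k) (y k) p
      refine (mul_le_mul h1 h2 (norm_nonneg _) (by positivity)).trans (le_of_eq ?_)
      ring
  have hlim : (∑' p : ℕ × ℤ, ((l p.1 p.2 - kap f g L p.1 p.2 : ℝ) : ℂ) *
      ((C * p.2 * (t * Real.exp (-(t ^ 2 / (2 * var f)))) *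
          Real.exp (-(s2 / mean f * χ ^ 2 / 2)) : ℝ) : ℂ)) =
      ((C * VV f g l L * (t * Real.exp (-(t ^ 2 / (2 * var f)))) *
        Real.exp (-(s2 / mean f * χ ^ 2 / 2)) : ℝ) : ℂ) := by
    have h1 : C * VV f g l L * (t * Real.exp (-(t ^ 2 / (2 * var f)))) *
        Real.exp (-(s2 / mean f * χ ^ 2 / 2)) =
        ∑' p : ℕ × ℤ, (l p.1 p.2 - kap f g L p.1 p.2) *
          (C * p.2 * (t * Real.exp (-(t ^ 2 / (2 * var f)))) *
          Real.exp (-(s2 / mean f * χ ^ 2 / 2))) := by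
      rw [VV, ← tsum_mul_left, ← tsum_mul_right, ← tsum_mul_right]
      refine tsum_congr fun p => ?_
      ring
    rw [h1, Complex.ofReal_tsum]
    refine tsum_congr fun p => ?_
    push_cast
    ring
  rw [hlim] at hmain
  -- remainder
  have hrem : Tendsto (fun k => ((m k : ℝ) : ℂ) * L' (ψ k) (m k) (y k) -
      ∑' p : ℕ × ℤ, LimC.aC F G l' L' (ψ k) p.1 p.2 * LimC.GG (F (ψ k)) (m k) (y k) p)
      atTop (𝓝 0) := by
    have h1 : Tendsto (fun k => 4 * K * K' *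
        (∑' z : ℤ, |(z : ℝ)| * Real.exp (-(δ * |(z : ℝ)|))) * K5.RR (m k)) atTop (𝓝 0) := by
      have h2 := (K5.RR_lim.comp hm).const_mul (4 * K * K' *
        (∑' z : ℤ, |(z : ℝ)| * Real.exp (-(δ * |(z : ℝ)|))))
      rw [mul_zero] at h2
      exact h2
    refine squeeze_zero_norm' ?_ h1
    filter_upwards [hypos] with k hk
    exact LimC.split hf hF hg hl hL hG hl' hL' hK hK' hδ hd ha (ψ k) (m k) hk
  have := hrem.add hmain
  rw [zero_add] at this
  refine this.congr fun k => ?_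
  ring

end

end Pool.Agent.SAPY
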