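import Pool.Agent.SAPY.Defs

/-!
Module Y1 (RenU): characteristic functions of the twisted renewal measure.
-/

namespace Pool.Agent.SAPY

open Filter Topology Pool.Agent.SAPX

namespace RenU

/-! ### complex renewal recursion -/

/-- complex renewal recursion -/
def CRen (a V : ℕ → ℂ) : Prop :=
  ∀ n, V n = (if n = 0 then 1 else 0) + ∑ k ∈ Finset.range n, V k * a (n - k)

theorem CRen.ps {a V : ℕ → ℂ} (h : CRen a V) (h0 : a 0 = 0) :
    (PowerSeries.mk V : PowerSeries ℂ) * (1 - PowerSeries.mk a) = 1 := by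
  have h1 : (PowerSeries.mk V : PowerSeries ℂ) =
      1 + PowerSeries.mk V * PowerSeries.mk a := by
    ext n
    rw [PowerSeries.coeff_mk, map_add, PowerSeries.coeff_one, PowerSeries.coeff_mul,
      Finset.Nat.sum_antidiagonal_eq_sum_range_succ_mk, Finset.sum_range_succ, h n]
    simp [h0]
  rw [mul_sub, mul_one]
  nth_rewrite 1 [h1]
  ring

/-- the algebra of the perturbation -/
theorem pert {R : Type*} [CommRing R] {V a v p D G e J b m1 : R} (hV : V * (1 - a) = 1)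
    (hv : v * (1 - p) = 1) (hD : D = p - a) (hve : v = m1 * G + e) (hGD : G * D = b * G - J) :
    V = v - b * m1 * (V * G) + m1 * (V * J) - (V * e) * D := by
  have h1 : V = v - V * (v * D) := by
    have h2 : V * (v * D) = v * (V * (1 - a)) - V * (v * (1 - p)) := by rw [hD]; ring
    rw [hV, hv] at h2
    linear_combination h2
  have h3 : V * (v * D) = m1 * (V * (G * D)) + (V * e) * D := by rw [hve]; ring
  rw [h3, hGD] at h1
  linear_combination h1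

/-- coefficients of a product, bounded by `sup × ℓ¹` -/
theorem norm_conv_le {x y : ℕ → ℂ} {A B : ℝ} (hA : 0 ≤ A) (hx : ∀ n, ‖x n‖ ≤ A)
    (hy : ∀ n, ∑ k ∈ Finset.range (n + 1), ‖y k‖ ≤ B) (n : ℕ) :
    ‖∑ k ∈ Finset.range (n + 1), x k * y (n - k)‖ ≤ A * B := by
  refine (norm_sum_le _ _).trans ?_
  have h1 : ∑ k ∈ Finset.range (n + 1), ‖x k * y (n - k)‖ ≤
      ∑ k ∈ Finset.range (n + 1), A * ‖y (n - k)‖ :=
    Finset.sum_le_sum fun k _ => by
      rw [norm_mul]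
      exact mul_le_mul_of_nonneg_right (hx k) (norm_nonneg _)
  refine h1.trans ?_
  rw [← Finset.mul_sum]
  refine mul_le_mul_of_nonneg_left ?_ hA
  have h2 := Finset.sum_range_reflect (fun j => ‖y j‖) (n + 1)
  have h3 : ∀ k ∈ Finset.range (n + 1), ‖y (n + 1 - 1 - k)‖ = ‖y (n - k)‖ := fun k _ => by simp
  rw [Finset.sum_congr rfl h3] at h2
  rw [h2]
  exact hy n

theorem coeff_mul_mk (x y : ℕ → ℂ) (n : ℕ) :
    PowerSeries.coeff n ((PowerSeries.mk x : PowerSeries ℂ) * PowerSeries.mk y) =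
      ∑ k ∈ Finset.range (n + 1), x k * y (n - k) := by
  rw [PowerSeries.coeff_mul, Finset.Nat.sum_antidiagonal_eq_sum_range_succ_mk]
  simp

theorem geom_sum_le' {r : ℝ} (hr0 : 0 ≤ r) (hr1 : r < 1) (n : ℕ) :
    ∑ k ∈ Finset.range n, r ^ k ≤ 1 / (1 - r) := by
  rw [geom_sum_eq hr1.ne n]
  have h1 : (r ^ n - 1) / (r - 1) = (1 - r ^ n) / (1 - r) := by
    rw [← neg_div_neg_eq]; congr 1 <;> ring
  rw [h1]
  have h2 : 0 ≤ r ^ n := pow_nonneg hr0 n
  exact div_le_div_of_nonneg_right (by linarith) (by linarith)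

/-- comparison of the renewal sequence with a geometric sequence -/
theorem main_cmp {a V : ℕ → ℂ} {p v : ℕ → ℝ} {μ K r ρ M ε : ℝ} {β : ℂ} (hμ : 0 < μ)
    (hr0 : 0 ≤ r) (hr1 : r < 1) (hρ0 : 0 ≤ ρ) (hρ1 : ρ < 1) (hK : 0 ≤ K) (hM : 0 ≤ M)
    (hε : 0 ≤ ε)
    (hV : CRen a V) (ha0 : a 0 = 0) (hv : K1Ren p v) (hp0 : p 0 = 0)
    (hvb : ∀ n, |v n - 1 / μ| ≤ K * r ^ n) (hV1 : ∀ n, ‖V n‖ ≤ 1)
    (hD : ∀ n, ∑ j ∈ Finset.range (n + 1), ‖(p j : ℂ) - a j‖ ≤ ε * M)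
    (htail : ∀ n, ‖β - ∑ j ∈ Finset.range (n + 1), ((p j : ℂ) - a j)‖ ≤ ε * M * ρ ^ n)
    (hβ : ‖β‖ ≤ μ / 2) (m : ℕ) :
    ‖(μ : ℂ) * V m - ((1 + β / μ)⁻¹) ^ (m + 1)‖ ≤
      μ * (K * r ^ m + (1 / μ * (M / (1 - ρ)) + K / (1 - r) * M) * ε) +
      ‖β‖ * Real.exp (2 * ‖β‖ / μ * (m + 1)) *
        (K / (1 - r) + (1 / μ * (M / (1 - ρ)) + K / (1 - r) * M) * ε * (m + 1)) := by
  have hμC : (μ : ℂ) ≠ 0 := by exact_mod_cast hμ.ne'
  obtain ⟨K1, hK1⟩ : ∃ K1, K1 = 1 / μ * (M / (1 - ρ)) + K / (1 - r) * M := ⟨_, rfl⟩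
  have hr1' : 0 < 1 - r := by linarith
  have hρ1' : 0 < 1 - ρ := by linarith
  have hK10 : 0 ≤ K1 := by rw [hK1]; positivity
  rw [← hK1]
  -- the sequences
  obtain ⟨e, he⟩ : ∃ e : ℕ → ℂ, e = fun n => (v n : ℂ) - 1 / μ := ⟨_, rfl⟩
  obtain ⟨J, hJ⟩ : ∃ J : ℕ → ℂ, J = fun n => β - ∑ j ∈ Finset.range (n + 1), ((p j : ℂ) - a j) :=
    ⟨_, rfl⟩
  have heb : ∀ n, ‖e n‖ ≤ K * r ^ n := by
    intro n
    have h1 : e n = ((v n - 1 / μ : ℝ) : ℂ) := by rw [he]; push_cast; ring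
    rw [h1, Complex.norm_real, Real.norm_eq_abs]
    exact hvb n
  have hes : ∀ n, ∑ k ∈ Finset.range n, ‖e k‖ ≤ K / (1 - r) := by
    intro n
    calc ∑ k ∈ Finset.range n, ‖e k‖ ≤ ∑ k ∈ Finset.range n, K * r ^ k :=
          Finset.sum_le_sum fun k _ => heb k
      _ = K * ∑ k ∈ Finset.range n, r ^ k := by rw [Finset.mul_sum]
      _ ≤ K * (1 / (1 - r)) := mul_le_mul_of_nonneg_left (geom_sum_le' hr0 hr1 n) hK
      _ = K / (1 - r) := by ring
  have hJs : ∀ n, ∑ k ∈ Finset.range n, ‖J k‖ ≤ ε * (M / (1 - ρ)) := by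
    intro n
    calc ∑ k ∈ Finset.range n, ‖J k‖ ≤ ∑ k ∈ Finset.range n, ε * M * ρ ^ k :=
          Finset.sum_le_sum fun k _ => by rw [hJ]; exact htail k
      _ = ε * M * ∑ k ∈ Finset.range n, ρ ^ k := by rw [Finset.mul_sum]
      _ ≤ ε * M * (1 / (1 - ρ)) :=
          mul_le_mul_of_nonneg_left (geom_sum_le' hρ0 hρ1 n) (by positivity)
      _ = ε * (M / (1 - ρ)) := by ring
  -- power series
  have hvC : CRen (fun n => (p n : ℂ)) (fun n => (v n : ℂ)) := by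
    intro n
    have := congrArg (fun x : ℝ => (x : ℂ)) (hv n)
    change (v n : ℂ) = (if n = 0 then 1 else 0) +
      ∑ k ∈ Finset.range n, (v k : ℂ) * (p (n - k) : ℂ)
    rw [this]
    push_cast
    congr 1
    split_ifs <;> simp
  have hps := hV.ps ha0
  have hps' := hvC.ps (by simp [hp0])
  have hve : (PowerSeries.mk (fun n => (v n : ℂ)) : PowerSeries ℂ) =
      PowerSeries.C (1 / (μ : ℂ)) * PowerSeries.mk (fun _ => (1 : ℂ)) + PowerSeries.mk e := by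
    ext n
    rw [map_add, PowerSeries.coeff_C_mul, PowerSeries.coeff_mk, PowerSeries.coeff_mk,
      PowerSeries.coeff_mk, he]
    ring
  have hDd : (PowerSeries.mk (fun n => (p n : ℂ) - a n) : PowerSeries ℂ) =
      PowerSeries.mk (fun n => (p n : ℂ)) - PowerSeries.mk a := by
    ext n
    rw [map_sub, PowerSeries.coeff_mk, PowerSeries.coeff_mk, PowerSeries.coeff_mk]
  have hGD : (PowerSeries.mk (fun _ => (1 : ℂ)) : PowerSeries ℂ) *
      PowerSeries.mk (fun n => (p n : ℂ) - a n) =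
      PowerSeries.C β * PowerSeries.mk (fun _ => (1 : ℂ)) - PowerSeries.mk J := by
    ext n
    rw [mul_comm, coeff_mul_mk, map_sub, PowerSeries.coeff_C_mul, PowerSeries.coeff_mk,
      PowerSeries.coeff_mk, hJ]
    simp
  have hmain := pert hps hps' hDd hve hGD
  -- partial sums
  obtain ⟨S, hS⟩ : ∃ S : ℕ → ℂ, S = fun n => ∑ k ∈ Finset.range n, V k := ⟨_, rfl⟩
  obtain ⟨err, herr⟩ : ∃ err : ℕ → ℂ, err = fun n => e n +
      1 / μ * (∑ k ∈ Finset.range (n + 1), V k * J (n - k)) -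
      ∑ k ∈ Finset.range (n + 1), (∑ i ∈ Finset.range (k + 1), V i * e (k - i)) *
        ((p (n - k) : ℂ) - a (n - k)) := ⟨_, rfl⟩
  have hVe : (PowerSeries.mk V : PowerSeries ℂ) * PowerSeries.mk e =
      PowerSeries.mk (fun n => ∑ i ∈ Finset.range (n + 1), V i * e (n - i)) := by
    ext n
    rw [coeff_mul_mk, PowerSeries.coeff_mk]
  have hrec : ∀ n, V n = 1 / μ - β / μ * S (n + 1) + err n := by
    intro n
    have h1 := congrArg (PowerSeries.coeff n) hmain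
    rw [hVe, map_sub, map_add, map_sub, coeff_mul_mk, mul_assoc, PowerSeries.coeff_C_mul,
      PowerSeries.coeff_C_mul, PowerSeries.coeff_C_mul, coeff_mul_mk, coeff_mul_mk,
      PowerSeries.coeff_mk, PowerSeries.coeff_mk] at h1
    have h2 : (v n : ℂ) = 1 / μ + e n := by rw [he]; ring
    rw [h1, h2, herr, hS]
    simp only [mul_one]
    ring
  -- bound of the error
  have herrb : ∀ n, ‖err n‖ ≤ K * r ^ n + K1 * ε := by
    intro n
    have h1 : ‖∑ k ∈ Finset.range (n + 1), V k * J (n - k)‖ ≤ 1 * (ε * (M / (1 - ρ))) :=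
      norm_conv_le zero_le_one hV1 (fun n => hJs (n + 1)) n
    have h2 : ∀ k, ‖∑ i ∈ Finset.range (k + 1), V i * e (k - i)‖ ≤ 1 * (K / (1 - r)) :=
      fun k => norm_conv_le zero_le_one hV1 (fun n => hes (n + 1)) k
    have h3 : ‖∑ k ∈ Finset.range (n + 1), (∑ i ∈ Finset.range (k + 1), V i * e (k - i)) *
        ((p (n - k) : ℂ) - a (n - k))‖ ≤ 1 * (K / (1 - r)) * (ε * M) :=
      norm_conv_le (by positivity) h2 hD n
    have h4 : ‖1 / (μ : ℂ) * (∑ k ∈ Finset.range (n + 1), V k * J (n - k))‖ ≤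
        1 / μ * (ε * (M / (1 - ρ))) := by
      rw [norm_mul, norm_div, norm_one, Complex.norm_real, Real.norm_eq_abs, abs_of_pos hμ]
      exact mul_le_mul_of_nonneg_left (by linarith) (by positivity)
    rw [herr]
    refine (norm_sub_le _ _).trans ?_
    have h5 := norm_add_le (e n) (1 / (μ : ℂ) * (∑ k ∈ Finset.range (n + 1), V k * J (n - k)))
    have h6 := heb n
    have h7 : K * r ^ n + K1 * ε =
        K * r ^ n + 1 / μ * (ε * (M / (1 - ρ))) + 1 * (K / (1 - r)) * (ε * M) := by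
      rw [hK1]; ring
    rw [h7]
    linarith
  -- comparison
  obtain ⟨x, hx⟩ : ∃ x : ℂ, x = (1 + β / μ)⁻¹ := ⟨_, rfl⟩
  have hbμ : ‖β / (μ : ℂ)‖ = ‖β‖ / μ := by
    rw [norm_div, Complex.norm_real, Real.norm_eq_abs, abs_of_pos hμ]
  have hbμ2 : ‖β‖ / μ ≤ 1 / 2 := by
    rw [div_le_iff₀ hμ]; linarith
  have hlow : 1 - ‖β‖ / μ ≤ ‖1 + β / (μ : ℂ)‖ := by
    have h1 := norm_sub_norm_le (1 : ℂ) (-(β / (μ : ℂ)))
    rw [norm_one, norm_neg, hbμ, sub_neg_eq_add] at h1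
    exact h1
  have hne : 1 + β / (μ : ℂ) ≠ 0 := by
    intro h0
    rw [h0, norm_zero] at hlow
    linarith
  obtain ⟨Y, hY⟩ : ∃ Y, Y = Real.exp (2 * ‖β‖ / μ) := ⟨_, rfl⟩
  have hY1 : 1 ≤ Y := by
    rw [hY]; exact Real.one_le_exp (by positivity)
  have hxY : ‖x‖ ≤ Y := by
    rw [hx, norm_inv]
    have h1 : 0 < 1 - ‖β‖ / μ := by linarith
    have h2 : ‖1 + β / (μ : ℂ)‖⁻¹ ≤ (1 - ‖β‖ / μ)⁻¹ := inv_anti₀ h1 hlow
    refine h2.trans ?_
    have h3 : (1 - ‖β‖ / μ)⁻¹ ≤ 1 + 2 * ‖β‖ / μ := by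
      rw [inv_le_comm₀ h1 (by positivity), ← one_div, div_le_iff₀ (by positivity)]
      have h4 : 0 ≤ ‖β‖ / μ := by positivity
      have h5 : 2 * ‖β‖ / μ = 2 * (‖β‖ / μ) := by ring
      rw [h5]
      nlinarith
    refine h3.trans ?_
    rw [hY]
    have := Real.add_one_le_exp (2 * ‖β‖ / μ)
    linarith
  have hxe : (1 + β / (μ : ℂ)) * x = 1 := by rw [hx]; exact mul_inv_cancel₀ hne
  have hstep : ∀ n, β * S (n + 1) - (1 - x ^ (n + 1)) =
      x * (β * S n - (1 - x ^ n)) + β * x * err n := by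
    intro n
    have h1 : S (n + 1) = S n + V n := by rw [hS]; simp only [Finset.sum_range_succ]
    have h2 := hrec n
    have h3 : (1 + β / (μ : ℂ)) * S (n + 1) = S n + 1 / μ + err n := by
      linear_combination h1 + h2
    have h4 : S (n + 1) = x * (S n + 1 / μ + err n) := by
      rw [← h3, ← mul_assoc, mul_comm x, hxe, one_mul]
    have h5 : β / μ * x = 1 - x := by linear_combination hxe
    rw [h4, pow_succ]
    linear_combination h5
  have hcmp : ∀ n, ‖β * S n - (1 - x ^ n)‖ ≤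
      ‖β‖ * Y ^ n * ∑ l ∈ Finset.range n, ‖err l‖ := by
    intro n
    induction n with
    | zero => simp [hS]
    | succ n ih =>
      rw [hstep n, Finset.sum_range_succ]
      refine (norm_add_le _ _).trans ?_
      rw [norm_mul, norm_mul, norm_mul]
      have hs0 : 0 ≤ ∑ l ∈ Finset.range n, ‖err l‖ := Finset.sum_nonneg fun _ _ => norm_nonneg _
      have h1 : ‖x‖ * ‖β * S n - (1 - x ^ n)‖ ≤
          Y * (‖β‖ * Y ^ n * ∑ l ∈ Finset.range n, ‖err l‖) :=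
        mul_le_mul hxY ih (norm_nonneg _) (by linarith)
      have h2 : ‖β‖ * ‖x‖ * ‖err n‖ ≤ ‖β‖ * Y ^ (n + 1) * ‖err n‖ := by
        refine mul_le_mul_of_nonneg_right ?_ (norm_nonneg _)
        refine mul_le_mul_of_nonneg_left ?_ (norm_nonneg _)
        exact hxY.trans (le_self_pow₀ hY1 (by omega))
      calc _ ≤ Y * (‖β‖ * Y ^ n * ∑ l ∈ Finset.range n, ‖err l‖) +
            ‖β‖ * Y ^ (n + 1) * ‖err n‖ := add_le_add h1 h2
        _ = _ := by ring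
  have herrs : ∀ n : ℕ, ∑ l ∈ Finset.range n, ‖err l‖ ≤ K / (1 - r) + K1 * ε * n := by
    intro n
    calc ∑ l ∈ Finset.range n, ‖err l‖ ≤ ∑ l ∈ Finset.range n, (K * r ^ l + K1 * ε) :=
          Finset.sum_le_sum fun l _ => herrb l
      _ = K * ∑ l ∈ Finset.range n, r ^ l + n * (K1 * ε) := by
          rw [Finset.sum_add_distrib, ← Finset.mul_sum]
          simp
      _ ≤ K * (1 / (1 - r)) + n * (K1 * ε) :=
          add_le_add (mul_le_mul_of_nonneg_left (geom_sum_le' hr0 hr1 n) hK) le_rfl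
      _ = _ := by ring
  -- conclusion
  have hfin : (μ : ℂ) * V m - x ^ (m + 1) =
      μ * err m - (β * S (m + 1) - (1 - x ^ (m + 1))) := by
    have h2 := hrec m
    rw [h2]
    field_simp
    ring
  rw [← hx, hfin]
  refine (norm_sub_le _ _).trans (add_le_add ?_ ?_)
  · rw [norm_mul, Complex.norm_real, Real.norm_eq_abs, abs_of_pos hμ]
    exact mul_le_mul_of_nonneg_left (herrb m) hμ.le
  · refine (hcmp (m + 1)).trans ?_
    have h1 : Y ^ (m + 1) = Real.exp (2 * ‖β‖ / μ * (m + 1)) := by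
      rw [hY, ← Real.exp_nat_mul]
      congr 1
      push_cast
      ring
    rw [h1]
    have h2 := herrs (m + 1)
    push_cast at h2
    exact mul_le_mul_of_nonneg_left h2 (by positivity)

/-! ### the twisted renewal equation -/

section

variable {f : ℕ → ℤ → ℝ} {Φ : ℕ → ℤ → ℂ}

theorem uC_rec (Φ : ℕ → ℤ → ℂ) (m : ℕ) (y : ℤ) : uC Φ m y = dlC 0 0 m y +
    ∑ k ∈ Finset.range m, ∑ x ∈ Finset.Icc (y - ((m : ℤ) - k)) (y + ((m : ℤ) - k)),
      uC Φ k x * Φ (m - k) (y - x) := recC_occC (freeC Φ) (dlC 0 0) m y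

theorem norm_uC_le (hle : ∀ m d, ‖Φ m d‖ ≤ f m d) (m : ℕ) (d : ℤ) : ‖uC Φ m d‖ ≤ uu f m d := by
  refine recC_norm_le (rec_occ (free f) (dl 0 0)) (recC_occC (freeC Φ) (dlC 0 0))
    (fun m x y => hle _ _) (fun m y => ?_) m d
  unfold dlC dl
  split_ifs <;> simp

theorem uC_neg (hs : ∀ m d, Φ m (-d) = Φ m d) (m : ℕ) (d : ℤ) : uC Φ m (-d) = uC Φ m d := by
  induction m using Nat.strong_induction_on generalizing d with
  | _ m ih =>
    rw [uC_rec, uC_rec]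
    congr 1
    · unfold dlC
      simp
    · refine Finset.sum_congr rfl fun k hk => ?_
      refine Finset.sum_nbij' (fun x => -x) (fun x => -x) (fun x hx => ?_) (fun x hx => ?_)
        (fun x _ => neg_neg x) (fun x _ => neg_neg x) (fun x _ => ?_)
      · rw [Finset.mem_Icc] at hx ⊢; omega
      · rw [Finset.mem_Icc] at hx ⊢; omega
      · rw [ih k (Finset.mem_range.1 hk), ← hs (m - k) (-d - x)]
        congr 2
        ring

/-- convolution of finitely supported functions on `ℤ` -/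
theorem conv {k r : ℕ} (G : ℤ → ℤ → ℂ) (hG : ∀ x e, G x e ≠ 0 → |x| ≤ k ∧ |e| ≤ r) :
    ∑ d ∈ Finset.Icc (-((k + r : ℕ) : ℤ)) ((k + r : ℕ) : ℤ),
      ∑ x ∈ Finset.Icc (d - (r : ℤ)) (d + r), G x (d - x) =
    ∑ x ∈ Finset.Icc (-(k : ℤ)) k, ∑ e ∈ Finset.Icc (-(r : ℤ)) r, G x e := by
  have hG' : ∀ x e, ¬(|x| ≤ (k : ℤ) ∧ |e| ≤ (r : ℤ)) → G x e = 0 := by
    intro x e h
    by_contra hc
    exact h (hG x e hc)
  have h1 : ∀ d, ∑ x ∈ Finset.Icc (d - (r : ℤ)) (d + r), G x (d - x) =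
      ∑ x ∈ Finset.Icc (-(k : ℤ)) k, G x (d - x) := by
    intro d
    refine Finset.sum_congr_of_eq_on_inter (fun x _ hx => hG' _ _ fun h => hx ?_)
      (fun x _ hx => hG' _ _ fun h => hx ?_) (fun x _ _ => rfl)
    · rw [k1_mem]; exact h.1
    · rw [Finset.mem_Icc]
      have := abs_le.1 h.2
      omega
  rw [Finset.sum_congr rfl fun d _ => h1 d, Finset.sum_comm]
  refine Finset.sum_congr rfl fun x hx => ?_
  rw [k1_mem, abs_le] at hx
  have h2 : ∑ e ∈ Finset.Icc (-(r : ℤ)) r, G x e =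
      ∑ d ∈ Finset.Icc (x - (r : ℤ)) (x + r), G x (d - x) := by
    refine Finset.sum_nbij' (fun e => x + e) (fun d => d - x) (fun e he => ?_) (fun d hd => ?_)
      (fun e _ => by ring) (fun d _ => by ring) (fun e _ => by rw [add_sub_cancel_left])
    · rw [Finset.mem_Icc] at he ⊢; omega
    · rw [Finset.mem_Icc] at hd ⊢; omega
  rw [h2]
  symm
  refine Finset.sum_subset (fun d hd => ?_) (fun d _ hd => hG' _ _ fun h => hd ?_)
  · rw [Finset.mem_Icc] at hd ⊢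
    push_cast
    omega
  · rw [Finset.mem_Icc]
    have := abs_le.1 h.2
    omega

theorem sum_sin (hs : ∀ m d, Φ m (-d) = Φ m d) (θ : ℝ) (m : ℕ) :
    ∑ d ∈ Finset.Icc (-(m : ℤ)) m, Φ m d * ((Real.sin (θ * d) : ℝ) : ℂ) = 0 := by
  have h1 : ∑ d ∈ Finset.Icc (-(m : ℤ)) m, Φ m d * ((Real.sin (θ * d) : ℝ) : ℂ) =
      ∑ d ∈ Finset.Icc (-(m : ℤ)) m, -(Φ m d * ((Real.sin (θ * d) : ℝ) : ℂ)) := by
    refine Finset.sum_nbij' (fun x => -x) (fun x => -x) (fun x hx => ?_) (fun x hx => ?_)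
      (fun x _ => neg_neg x) (fun x _ => neg_neg x) (fun x _ => ?_)
    · rw [Finset.mem_Icc] at hx ⊢; omega
    · rw [Finset.mem_Icc] at hx ⊢; omega
    · rw [hs]
      have h2 : Real.sin (θ * ((-x : ℤ) : ℝ)) = -Real.sin (θ * x) := by
        push_cast
        rw [mul_neg, Real.sin_neg]
      rw [h2, Complex.ofReal_neg]
      ring
  rw [Finset.sum_neg_distrib] at h1
  linear_combination (1 / 2) * h1

/-- cosine transform of the kernel -/
noncomputable def aC (Φ : ℕ → ℤ → ℂ) (θ : ℝ) (m : ℕ) : ℂ :=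
  ∑ d ∈ Finset.Icc (-(m : ℤ)) m, Φ m d * ((Real.cos (θ * d) : ℝ) : ℂ)

theorem UC_ren (hf : FreeLaw f) (hle : ∀ m d, ‖Φ m d‖ ≤ f m d) (hs : ∀ m d, Φ m (-d) = Φ m d)
    (θ : ℝ) : CRen (aC Φ θ) (UC Φ θ) := by
  have hsu : ∀ {m : ℕ} {d : ℤ}, uC Φ m d ≠ 0 → |d| ≤ m := by
    intro m d h
    refine (uu_supp hf (m := m) (d := d) fun h0 => h ?_).1
    have := norm_uC_le hle m d
    rw [h0] at this
    exact norm_le_zero_iff.1 this
  have hsf : ∀ {m : ℕ} {d : ℤ}, Φ m d ≠ 0 → |d| ≤ m := by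
    intro m d h
    refine (hf.supp m d fun h0 => h ?_).2.1
    have := hle m d
    rw [h0] at this
    exact norm_le_zero_iff.1 this
  intro m
  unfold UC
  rw [Finset.sum_congr rfl fun d _ => by rw [uC_rec Φ m d]]
  simp only [add_mul, Finset.sum_add_distrib]
  congr 1
  · split_ifs with h
    · subst h
      simp [dlC]
    · refine Finset.sum_eq_zero fun d _ => ?_
      unfold dlC
      rw [if_neg (fun hc => h hc.1), zero_mul]
  · simp only [Finset.sum_mul]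
    rw [Finset.sum_comm]
    refine Finset.sum_congr rfl fun k hk => ?_
    have hk' := Finset.mem_range.1 hk
    obtain ⟨r, rfl⟩ := Nat.exists_eq_add_of_lt hk'
    have hr : k + r + 1 - k = r + 1 := by omega
    have hr' : ((k + r + 1 : ℕ) : ℤ) - k = ((r + 1 : ℕ) : ℤ) := by push_cast; ring
    rw [hr]
    simp only [hr']
    have h1 := conv (k := k) (r := r + 1)
      (fun x e => uC Φ k x * Φ (r + 1) e * ((Real.cos (θ * (x + e : ℤ)) : ℝ) : ℂ))
      (fun x e h => by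
        have h2 := left_ne_zero_of_mul h
        exact ⟨hsu (left_ne_zero_of_mul h2), hsf (right_ne_zero_of_mul h2)⟩)
    have h2 : ∀ d x : ℤ, x + (d - x) = d := fun d x => by ring
    simp only [h2] at h1
    rw [show k + r + 1 = k + (r + 1) by ring, h1]
    unfold aC
    simp only [Finset.mul_sum]
    refine Finset.sum_congr rfl fun x _ => ?_
    have h3 : ∀ e : ℤ, uC Φ k x * Φ (r + 1) e * ((Real.cos (θ * ((x + e : ℤ) : ℝ)) : ℝ) : ℂ) =
        uC Φ k x * ((Real.cos (θ * x) : ℝ) : ℂ) *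
          (Φ (r + 1) e * ((Real.cos (θ * e) : ℝ) : ℂ)) -
          uC Φ k x * ((Real.sin (θ * x) : ℝ) : ℂ) *
          (Φ (r + 1) e * ((Real.sin (θ * e) : ℝ) : ℂ)) := by
      intro e
      have h4 : Real.cos (θ * ((x + e : ℤ) : ℝ)) = Real.cos (θ * x) * Real.cos (θ * e) -
          Real.sin (θ * x) * Real.sin (θ * e) := by
        push_cast
        rw [mul_add, Real.cos_add]
      rw [h4, Complex.ofReal_sub, Complex.ofReal_mul, Complex.ofReal_mul]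
      ring
    rw [Finset.sum_congr rfl fun e _ => h3 e, Finset.sum_sub_distrib, ← Finset.mul_sum,
      ← Finset.mul_sum, sum_sin hs, mul_zero, sub_zero, Finset.mul_sum]

theorem aC_zero (hf : FreeLaw f) (hle : ∀ m d, ‖Φ m d‖ ≤ f m d) (θ : ℝ) : aC Φ θ 0 = 0 := by
  unfold aC
  refine Finset.sum_eq_zero fun d _ => ?_
  have := hle 0 d
  rw [hf.zero] at this
  rw [norm_le_zero_iff.1 this, zero_mul]

theorem norm_aC_le (hle : ∀ m d, ‖Φ m d‖ ≤ f m d) (θ : ℝ) (m : ℕ) :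
    ‖aC Φ θ m‖ ≤ ∑ d ∈ Finset.Icc (-(m : ℤ)) m, f m d * |Real.cos (θ * d)| := by
  unfold aC
  refine (norm_sum_le _ _).trans (Finset.sum_le_sum fun d _ => ?_)
  rw [norm_mul, Complex.norm_real, Real.norm_eq_abs]
  exact mul_le_mul_of_nonneg_right (hle m d) (abs_nonneg _)

theorem norm_aC_le' (hf : FreeLaw f) (hle : ∀ m d, ‖Φ m d‖ ≤ f m d) (θ : ℝ) (m : ℕ) :
    ‖aC Φ θ m‖ ≤ k1p f m - if m = 3 then f 3 1 * (1 - |Real.cos θ|) else 0 := by
  refine (norm_aC_le hle θ m).trans ?_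
  split_ifs with h
  · subst h
    have h2 : f 3 1 * (1 - |Real.cos θ|) ≤
        ∑ d ∈ Finset.Icc (-((3 : ℕ) : ℤ)) (3 : ℕ), f 3 d * (1 - |Real.cos (θ * d)|) := by
      have := Finset.single_le_sum (s := Finset.Icc (-((3 : ℕ) : ℤ)) (3 : ℕ))
        (f := fun d : ℤ => f 3 d * (1 - |Real.cos (θ * d)|))
        (fun d _ => mul_nonneg (hf.nonneg 3 d) (by linarith [Real.abs_cos_le_one (θ * d)]))
        (show (1 : ℤ) ∈ Finset.Icc (-((3 : ℕ) : ℤ)) (3 : ℕ) by simp)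
      simpa using this
    have h3 : ∑ d ∈ Finset.Icc (-((3 : ℕ) : ℤ)) (3 : ℕ), f 3 d * (1 - |Real.cos (θ * d)|) =
        k1p f 3 - ∑ d ∈ Finset.Icc (-((3 : ℕ) : ℤ)) (3 : ℕ), f 3 d * |Real.cos (θ * d)| := by
      unfold k1p
      rw [← Finset.sum_sub_distrib]
      exact Finset.sum_congr rfl fun d _ => by ring
    linarith
  · rw [sub_zero]
    unfold k1p
    refine Finset.sum_le_sum fun d _ => ?_
    exact mul_le_of_le_one_right (hf.nonneg m d) (Real.abs_cos_le_one _)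

theorem exp_sub_one_le (x : ℝ) : Real.exp x - 1 ≤ x * Real.exp x := by
  have h1 := Real.add_one_le_exp (-x)
  have h2 : Real.exp (-x) * Real.exp x = 1 := by rw [← Real.exp_add]; simp
  have h3 := mul_le_mul_of_nonneg_right h1 (Real.exp_pos x).le
  rw [h2] at h3
  linarith

/-- exponential bound, uniformly in the twist -/
theorem UC_bd (hf : FreeLaw f) : ∃ c, 0 < c ∧ ∀ Φ : ℕ → ℤ → ℂ, (∀ m d, ‖Φ m d‖ ≤ f m d) →
    (∀ m d, Φ m (-d) = Φ m d) → ∀ (θ : ℝ) (m : ℕ), |θ| ≤ Real.pi / 2 →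
    ‖UC Φ θ m‖ ≤ Real.exp (-(c * θ ^ 2 * m)) := by
  obtain ⟨δ, D⟩ := hf.k1D
  have hδ := D.δpos
  have hM := D.M_pos
  obtain ⟨M, hMdef⟩ : ∃ M, M = k1M (k1p f) δ := ⟨_, rfl⟩
  rw [← hMdef] at hM
  have h31 := hf.three
  obtain ⟨c, hc⟩ : ∃ c, c = min (δ / 16) (f 3 1 / (8 * M)) := ⟨_, rfl⟩
  have hc0 : 0 < c := by
    rw [hc]
    exact lt_min (by positivity) (by positivity)
  refine ⟨c, hc0, fun Φ hle hs θ m hθ => ?_⟩
  have hpi := Real.pi_pos
  have hpi4 := Real.pi_le_four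
  have hθ2 : θ ^ 2 ≤ 4 := by
    rw [← sq_abs]
    nlinarith [abs_nonneg θ]
  obtain ⟨κ, hκ⟩ : ∃ κ, κ = c * θ ^ 2 := ⟨_, rfl⟩
  have hκ0 : 0 ≤ κ := by rw [hκ]; positivity
  have hκδ : κ ≤ δ / 4 := by
    have h1 : c ≤ δ / 16 := hc ▸ min_le_left _ _
    rw [hκ]
    calc c * θ ^ 2 ≤ δ / 16 * 4 := mul_le_mul h1 hθ2 (sq_nonneg _) (by positivity)
      _ = δ / 4 := by ring
  obtain ⟨q, hq⟩ : ∃ q, q = f 3 1 * (1 - |Real.cos θ|) := ⟨_, rfl⟩
  have hcos : |Real.cos θ| ≤ 1 - θ ^ 2 / 8 := by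
    have h1 : 0 ≤ Real.cos θ :=
      Real.cos_nonneg_of_mem_Icc ⟨by linarith [neg_abs_le θ], (le_abs_self θ).trans hθ⟩
    rw [abs_of_nonneg h1]
    refine (Real.cos_le_one_sub_mul_cos_sq (by linarith)).trans ?_
    have h2 : 1 / 8 ≤ 2 / Real.pi ^ 2 := by
      rw [div_le_div_iff₀ (by norm_num) (by positivity)]
      nlinarith
    have h3 := mul_le_mul_of_nonneg_right h2 (sq_nonneg θ)
    linarith
  have hqκ : κ * M ≤ q := by
    have h1 : c ≤ f 3 1 / (8 * M) := hc ▸ min_le_right _ _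
    calc κ * M = c * θ ^ 2 * M := by rw [hκ]
      _ ≤ f 3 1 / (8 * M) * θ ^ 2 * M := by gcongr
      _ = f 3 1 * (θ ^ 2 / 8) := by field_simp
      _ ≤ f 3 1 * (1 - |Real.cos θ|) := mul_le_mul_of_nonneg_left (by linarith) h31.le
      _ = q := hq.symm
  have hq0 : 0 ≤ q := le_trans (by positivity) hqκ
  obtain ⟨w, hw⟩ : ∃ w, w = Real.exp κ := ⟨_, rfl⟩
  have hw1 : 1 ≤ w := by rw [hw]; exact Real.one_le_exp hκ0
  have hwro : w ≤ k1ro δ := by
    rw [hw]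
    exact Real.exp_le_exp.2 hκδ
  have hw0 : 0 < w := by linarith
  -- termwise bound
  have hb : ∀ j : ℕ, ‖aC Φ θ j‖ * w ^ j ≤
      k1p f j + κ * k1W (k1p f) δ j - if j = 3 then q else 0 := by
    intro j
    have e1 : ‖aC Φ θ j‖ ≤ k1p f j - if j = 3 then q else 0 := by
      rw [hq]; exact norm_aC_le' hf hle θ j
    have e2 : w ^ j - 1 ≤ j * κ * w ^ j := by
      have := exp_sub_one_le (j * κ)
      rwa [Real.exp_nat_mul, ← hw] at this
    have e3 : (1 : ℝ) ≤ w ^ j := one_le_pow₀ hw1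
    have e4 := D.le_W hw1 hwro (j := 1) (by norm_num) j
    rw [pow_one] at e4
    have e5 : 0 ≤ (if j = 3 then q else 0) := by split_ifs <;> linarith
    have e6 : ‖aC Φ θ j‖ * w ^ j ≤ (k1p f j - if j = 3 then q else 0) * w ^ j :=
      mul_le_mul_of_nonneg_right e1 (by linarith)
    have e7 : k1p f j * (w ^ j - 1) ≤ κ * k1W (k1p f) δ j := by
      calc k1p f j * (w ^ j - 1) ≤ k1p f j * (j * κ * w ^ j) :=
            mul_le_mul_of_nonneg_left e2 (D.pnn j)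
        _ = κ * (j * k1p f j * w ^ j) := by ring
        _ ≤ _ := mul_le_mul_of_nonneg_left e4 hκ0
    have e8 : (if j = 3 then q else 0) ≤ (if j = 3 then q else 0) * w ^ j :=
      le_mul_of_one_le_right e5 e3
    nlinarith
  have hb' : ∀ j : ℕ, 0 ≤ k1p f j + κ * k1W (k1p f) δ j - if j = 3 then q else 0 :=
    fun j => le_trans (mul_nonneg (norm_nonneg _) (pow_nonneg hw0.le j)) (hb j)
  have hsum : HasSum (fun j : ℕ => k1p f j + κ * k1W (k1p f) δ j - if j = 3 then q else 0)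
      (1 + κ * ∑' j, k1W (k1p f) δ j - q) :=
    (D.tot.add (D.summableW.hasSum.mul_left _)).sub (hasSum_ite_eq 3 q)
  have hmass : ∀ n : ℕ, ∑ j ∈ Finset.range (n + 1), ‖aC Φ θ j‖ * w ^ j ≤ 1 := by
    intro n
    calc ∑ j ∈ Finset.range (n + 1), ‖aC Φ θ j‖ * w ^ j
        ≤ ∑ j ∈ Finset.range (n + 1),
          (k1p f j + κ * k1W (k1p f) δ j - if j = 3 then q else 0) :=
          Finset.sum_le_sum fun j _ => hb j
      _ ≤ 1 + κ * ∑' j, k1W (k1p f) δ j - q :=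
          sum_le_hasSum _ (fun j _ => hb' j) hsum
      _ ≤ 1 := by
          have := mul_le_mul_of_nonneg_left D.tsumW_le hκ0
          rw [← hMdef] at this
          linarith
  have key : ∀ m, ‖UC Φ θ m‖ * w ^ m ≤ 1 := by
    intro m
    induction m using Nat.strong_induction_on with
    | _ m ih =>
      have hren := UC_ren hf hle hs θ m
      rcases Nat.eq_zero_or_pos m with rfl | hm
      · rw [hren]
        simp
      · rw [if_neg hm.ne', zero_add] at hren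
        rw [hren]
        have e1 : ‖∑ k ∈ Finset.range m, UC Φ θ k * aC Φ θ (m - k)‖ * w ^ m ≤
            ∑ k ∈ Finset.range m, (‖UC Φ θ k‖ * w ^ k) * (‖aC Φ θ (m - k)‖ * w ^ (m - k)) := by
          have e2 := norm_sum_le (Finset.range m) (fun k => UC Φ θ k * aC Φ θ (m - k))
          refine (mul_le_mul_of_nonneg_right e2 (by positivity)).trans (le_of_eq ?_)
          rw [Finset.sum_mul]
          refine Finset.sum_congr rfl fun k hk => ?_
          have : w ^ m = w ^ k * w ^ (m - k) := by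
            rw [← pow_add]; congr 1; have := Finset.mem_range.1 hk; omega
          rw [norm_mul, this]
          ring
        refine e1.trans ?_
        have e3 : ∑ k ∈ Finset.range m, (‖UC Φ θ k‖ * w ^ k) * (‖aC Φ θ (m - k)‖ * w ^ (m - k)) ≤
            ∑ k ∈ Finset.range m, 1 * (‖aC Φ θ (m - k)‖ * w ^ (m - k)) :=
          Finset.sum_le_sum fun k hk =>
            mul_le_mul_of_nonneg_right (ih k (Finset.mem_range.1 hk)) (by positivity)
        refine e3.trans ?_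
        rw [← Finset.mul_sum, one_mul]
        have e4 : ∑ k ∈ Finset.range m, ‖aC Φ θ (m - k)‖ * w ^ (m - k) ≤
            ∑ j ∈ Finset.range (m + 1), ‖aC Φ θ j‖ * w ^ j := by
          rw [← Finset.sum_range_reflect (fun j => ‖aC Φ θ j‖ * w ^ j) (m + 1),
            Finset.sum_range_succ]
          have : ∀ k ∈ Finset.range m, ‖aC Φ θ (m + 1 - 1 - k)‖ * w ^ (m + 1 - 1 - k) =
              ‖aC Φ θ (m - k)‖ * w ^ (m - k) := fun k _ => by simp
          rw [Finset.sum_congr rfl this]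
          have : 0 ≤ ‖aC Φ θ (m + 1 - 1 - m)‖ * w ^ (m + 1 - 1 - m) := by positivity
          linarith
        exact e4.trans (hmass m)
  have h1 := key m
  have h2 : w ^ m = Real.exp (c * θ ^ 2 * m) := by
    rw [hw, hκ, ← Real.exp_nat_mul]
    congr 1
    ring
  rw [h2] at h1
  rw [Real.exp_neg, ← one_div, le_div_iff₀ (Real.exp_pos _)]
  exact h1

end

/-! ### the perturbation -/

/-- tail estimate -/
theorem tailC {p s : ℕ → ℝ} {F : ℝ → ℕ → ℝ} {δ : ℝ} (D : K1D p s F δ) {g : ℕ → ℂ} {S : ℂ} {B : ℝ}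
    (hB : 0 ≤ B) (hg : HasSum g S) (hgB : ∀ m, ‖g m‖ ≤ B * k1W p δ m) (k : ℕ) :
    ‖S - ∑ m ∈ Finset.range (k + 1), g m‖ ≤ B * k1M p δ * (k1ro δ)⁻¹ ^ k := by
  have hro := D.ro_gt
  have hro0 : 0 < k1ro δ := by linarith
  obtain ⟨G, hG⟩ : ∃ G : ℕ → ℝ, G = fun m => k1W p δ m * k1ro δ ^ m := ⟨_, rfl⟩
  have hGs : Summable G := hG ▸ D.summableM
  have hG0 : ∀ m, 0 ≤ G m := fun m => by
    rw [hG]; exact mul_nonneg (k1W_nonneg D m) (pow_nonneg hro0.le _)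
  have hGM : ∑' m, G m = k1M p δ := by rw [hG]; rfl
  have h1 : S - ∑ m ∈ Finset.range (k + 1), g m = ∑' m, g (m + (k + 1)) := by
    have h := hg.summable.sum_add_tsum_nat_add (k + 1)
    rw [hg.tsum_eq] at h
    rw [← h]
    ring
  have h2 : Summable fun m => G (m + (k + 1)) := (summable_nat_add_iff (k + 1)).2 hGs
  have h3 : ∀ m, ‖g (m + (k + 1))‖ ≤ B * (k1ro δ)⁻¹ ^ k * G (m + (k + 1)) := by
    intro m
    rw [hG]
    exact (hgB _).trans (D.tail_term hB k (m + (k + 1)) (by omega))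
  have h5 := tsum_of_norm_bounded (h2.mul_left (B * (k1ro δ)⁻¹ ^ k)).hasSum h3
  have h6 : ∑' m, G (m + (k + 1)) ≤ k1M p δ := by
    have h := hGs.sum_add_tsum_nat_add (k + 1)
    have : 0 ≤ ∑ i ∈ Finset.range (k + 1), G i := Finset.sum_nonneg fun i _ => hG0 i
    linarith
  rw [h1]
  refine h5.trans ?_
  rw [tsum_mul_left]
  have h7 := mul_le_mul_of_nonneg_left h6
    (mul_nonneg hB (pow_nonneg (inv_nonneg.2 hro0.le) k) : 0 ≤ B * (k1ro δ)⁻¹ ^ k)
  linarith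

theorem pow_lim {n : ℕ → ℕ} {z : ℕ → ℂ} {t : ℂ} (hn : Tendsto n atTop atTop)
    (hz : Tendsto (fun k => ((n k : ℝ) : ℂ) * z k) atTop (𝓝 t)) :
    Tendsto (fun k => (1 + z k) ^ (n k)) atTop (𝓝 (Complex.exp t)) := by
  have hnR : Tendsto (fun k => (n k : ℝ)) atTop atTop := tendsto_natCast_atTop_atTop.comp hn
  have hz0 : Tendsto (fun k => ‖z k‖) atTop (𝓝 0) := by
    have h1 := hz.norm.mul (tendsto_inv_atTop_zero.comp hnR)
    rw [mul_zero] at h1
    refine h1.congr' ?_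
    filter_upwards [hnR.eventually_gt_atTop 0] with k hk
    rw [norm_mul, Complex.norm_real, Real.norm_eq_abs, abs_of_pos hk]
    simp only [Function.comp]
    field_simp
  have hsm : ∀ᶠ k in atTop, ‖z k‖ ≤ 1 / 2 := by
    filter_upwards [hz0.eventually_lt_const (show (0 : ℝ) < 1 / 2 by norm_num)] with k hk
    exact hk.le
  have h2 : Tendsto (fun k => ((n k : ℝ) : ℂ) * (Complex.log (1 + z k) - z k)) atTop (𝓝 0) := by
    have h3 : Tendsto (fun k => ‖((n k : ℝ) : ℂ) * z k‖ * ‖z k‖) atTop (𝓝 (‖t‖ * 0)) :=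
      hz.norm.mul hz0
    rw [mul_zero] at h3
    refine squeeze_zero_norm' ?_ h3
    filter_upwards [hsm] with k hk
    rw [norm_mul, norm_mul, mul_assoc]
    refine mul_le_mul_of_nonneg_left ?_ (norm_nonneg _)
    refine (Complex.norm_log_one_add_sub_self_le (by linarith)).trans ?_
    have h4 : (1 - ‖z k‖)⁻¹ ≤ 2 := by
      rw [inv_le_comm₀ (by linarith) (by norm_num)]
      linarith
    have h5 := mul_le_mul_of_nonneg_left h4 (sq_nonneg ‖z k‖)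
    nlinarith
  have h3 : Tendsto (fun k => ((n k : ℝ) : ℂ) * Complex.log (1 + z k)) atTop (𝓝 t) := by
    have h4 := h2.add hz
    rw [zero_add] at h4
    refine h4.congr fun k => ?_
    ring
  refine ((Complex.continuous_exp.tendsto _).comp h3).congr' ?_
  filter_upwards [hsm] with k hk
  have hne : 1 + z k ≠ 0 := by
    intro h0
    have h4 : z k = -1 := by linear_combination h0
    rw [h4, norm_neg, norm_one] at hk
    norm_num at hk
  simp only [Function.comp]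
  rw [Complex.ofReal_natCast, Complex.exp_nat_mul, Complex.exp_log hne]

section

variable {f : ℕ → ℤ → ℝ} {F : ℝ → ℕ → ℤ → ℂ} {s2 : ℝ}

theorem beta (hf : FreeLaw f) (hF : TwLaw f F s2) : ∃ M ρ C : ℝ, 0 ≤ M ∧ 0 ≤ ρ ∧ ρ < 1 ∧ 0 ≤ C ∧
    ∀ ψ θ : ℝ, ∃ β : ℂ,
      ‖β - ((s2 / 2 * ψ ^ 2 + var f * mean f / 2 * θ ^ 2 : ℝ) : ℂ)‖ ≤
        C * (|ψ| ^ 3 + θ ^ 4 + |ψ| * θ ^ 2) ∧
      (∀ n, ∑ j ∈ Finset.range (n + 1), ‖(k1p f j : ℂ) - aC (F ψ) θ j‖ ≤ (|ψ| + θ ^ 2) * M) ∧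
      (∀ n, ‖β - ∑ j ∈ Finset.range (n + 1), ((k1p f j : ℂ) - aC (F ψ) θ j)‖ ≤
        (|ψ| + θ ^ 2) * M * ρ ^ n) := by
  obtain ⟨δ, D⟩ := hf.k1D
  obtain ⟨K, hK0, hK⟩ := hF.lip
  obtain ⟨K', hK'0, hK'⟩ := hF.sec
  have hM := D.M_pos
  refine ⟨(K + 1) * k1M (k1p f) δ, (k1ro δ)⁻¹, K' + (3 + K) * k1M (k1p f) δ, by positivity,
    (K1D.r_pos δ).le, D.r_lt, by positivity, fun ψ θ => ?_⟩
  have hle := hF.le ψ
  have hzero : ∀ {m : ℕ} {d : ℤ}, d ∉ Finset.Icc (-(m : ℤ)) m → F ψ m d = 0 := by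
    intro m d h
    have := hle m d
    rw [hf.k1_zero h] at this
    exact norm_le_zero_iff.1 this
  -- the three parts
  obtain ⟨D1, hD1⟩ : ∃ D1 : ℕ → ℂ, D1 = fun m : ℕ =>
    ∑ d ∈ Finset.Icc (-(m : ℤ)) m, ((f m d : ℂ) - F ψ m d) := ⟨_, rfl⟩
  obtain ⟨D3, hD3⟩ : ∃ D3 : ℕ → ℂ, D3 = fun m : ℕ =>
    ∑ d ∈ Finset.Icc (-(m : ℤ)) m, (F ψ m d - (f m d : ℂ)) *
      ((1 - Real.cos (θ * d) : ℝ) : ℂ) := ⟨_, rfl⟩
  obtain ⟨Dt, hDt⟩ : ∃ Dt : ℕ → ℂ, Dt = fun m => (k1p f m : ℂ) - aC (F ψ) θ m := ⟨_, rfl⟩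
  have hsplit : ∀ m, Dt m = D1 m + ((k1p f m - k1F f θ m : ℝ) : ℂ) + D3 m := by
    intro m
    rw [hDt, hD1, hD3]
    simp only
    unfold k1p k1F aC
    push_cast
    rw [← Finset.sum_sub_distrib, ← Finset.sum_sub_distrib, ← Finset.sum_add_distrib,
      ← Finset.sum_add_distrib]
    refine Finset.sum_congr rfl fun d _ => ?_
    ring
  -- first part
  have hs1 : Summable fun p : ℕ × ℤ => ((f p.1 p.2 : ℂ) - F ψ p.1 p.2) := by
    refine Summable.of_norm_bounded (hf.total.summable.mul_left 2) fun p => ?_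
    refine (norm_sub_le _ _).trans ?_
    rw [Complex.norm_real, Real.norm_eq_abs, abs_of_nonneg (hf.nonneg _ _)]
    have := hle p.1 p.2
    linarith
  have hsum1 : HasSum D1 (∑' p : ℕ × ℤ, ((f p.1 p.2 : ℂ) - F ψ p.1 p.2)) := by
    refine hs1.hasSum.prod_fiberwise fun m => ?_
    rw [hD1]
    refine hasSum_sum_of_ne_finset_zero fun d hd => ?_
    simp only
    rw [hzero hd, hf.k1_zero hd]
    simp
  -- second part
  have hR : ∀ m, |k1p f m - k1F f θ m - θ ^ 2 / 2 * k1s f m| ≤ 3 * θ ^ 4 * k1W (k1p f) δ m := by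
    intro m
    have h1 := D.Fd2 θ m
    have h2 : k1p f m - k1F f θ m - θ ^ 2 / 2 * k1s f m =
        -(k1F f θ m - k1p f m + θ ^ 2 * k1s f m / 2) := by ring
    rw [h2, abs_neg]
    refine h1.trans ?_
    have := D.le_W' (j := 4) (by norm_num) m
    calc 3 * θ ^ 4 * (m : ℝ) ^ 4 * k1p f m = 3 * θ ^ 4 * ((m : ℝ) ^ 4 * k1p f m) := by ring
      _ ≤ _ := mul_le_mul_of_nonneg_left this (by positivity)
  have hRs : Summable fun m => k1p f m - k1F f θ m - θ ^ 2 / 2 * k1s f m :=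
    Summable.of_norm_bounded (D.summableW.mul_left (3 * θ ^ 4)) fun m => hR m
  obtain ⟨r2, hr2⟩ : ∃ r2, r2 = ∑' m, (k1p f m - k1F f θ m - θ ^ 2 / 2 * k1s f m) := ⟨_, rfl⟩
  have hσ : ∑' m, k1s f m = var f * mean f := by
    rw [hf.k1_var]
    have := (mean_pos hf).ne'
    field_simp
  have hsum2 : HasSum (fun m => k1p f m - k1F f θ m) (θ ^ 2 / 2 * (var f * mean f) + r2) := by
    have h1 := (D.summable_s.hasSum.mul_left (θ ^ 2 / 2)).add hRs.hasSum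
    rw [hσ, ← hr2] at h1
    refine h1.congr_fun ?_ |> fun h => h
    intro m
    ring
  have hr2b : |r2| ≤ 3 * θ ^ 4 * k1M (k1p f) δ := by
    rw [hr2]
    refine (k1_abs_tsum_le (D.summableW.mul_left (3 * θ ^ 4)) hR).trans ?_
    rw [tsum_mul_left]
    exact mul_le_mul_of_nonneg_left D.tsumW_le (by positivity)
  -- third part
  have hD3b : ∀ m, ‖D3 m‖ ≤ K * (|ψ| * θ ^ 2) * k1W (k1p f) δ m := by
    intro m
    have h1 := D.le_W' (j := 3) (by norm_num) m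
    have h2 : ‖D3 m‖ ≤ ∑ d ∈ Finset.Icc (-(m : ℤ)) m, K * (|ψ| * θ ^ 2) * (m : ℝ) ^ 3 * f m d := by
      rw [hD3]
      refine (norm_sum_le _ _).trans (Finset.sum_le_sum fun d hd => ?_)
      rw [norm_mul, Complex.norm_real, Real.norm_eq_abs]
      have h3 : |1 - Real.cos (θ * d)| ≤ θ ^ 2 * (m : ℝ) ^ 2 := by
        rw [abs_sub_comm]
        refine (k1_cos_sub _).trans ?_
        have := k1_sq_le hd
        calc (θ * (d : ℝ)) ^ 2 = θ ^ 2 * (d : ℝ) ^ 2 := by ring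
          _ ≤ _ := mul_le_mul_of_nonneg_left this (sq_nonneg _)
      have h4 := hf.nonneg m d
      calc ‖F ψ m d - (f m d : ℂ)‖ * |1 - Real.cos (θ * d)| ≤
            (K * |ψ| * m * f m d) * (θ ^ 2 * (m : ℝ) ^ 2) :=
            mul_le_mul (hK ψ m d) h3 (abs_nonneg _) (by positivity)
        _ = _ := by ring
    refine h2.trans ?_
    rw [← Finset.mul_sum]
    calc K * (|ψ| * θ ^ 2) * (m : ℝ) ^ 3 * ∑ d ∈ Finset.Icc (-(m : ℤ)) m, f m d =
          K * (|ψ| * θ ^ 2) * ((m : ℝ) ^ 3 * k1p f m) := by unfold k1p; ring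
      _ ≤ _ := mul_le_mul_of_nonneg_left h1 (by positivity)
  have hs3 : Summable D3 := Summable.of_norm_bounded (D.summableW.mul_left _) hD3b
  have hr3b : ‖∑' m, D3 m‖ ≤ K * (|ψ| * θ ^ 2) * k1M (k1p f) δ := by
    refine (tsum_of_norm_bounded (D.summableW.mul_left (K * (|ψ| * θ ^ 2))).hasSum hD3b).trans ?_
    rw [tsum_mul_left]
    exact mul_le_mul_of_nonneg_left D.tsumW_le (by positivity)
  -- total
  have hsum2C : HasSum (fun m => ((k1p f m - k1F f θ m : ℝ) : ℂ))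
      ((θ ^ 2 / 2 * (var f * mean f) + r2 : ℝ) : ℂ) := Complex.hasSum_ofReal.2 hsum2
  have htot : HasSum Dt (∑' p : ℕ × ℤ, ((f p.1 p.2 : ℂ) - F ψ p.1 p.2) +
      ((θ ^ 2 / 2 * (var f * mean f) + r2 : ℝ) : ℂ) + ∑' m, D3 m) := by
    have h1 := (hsum1.add hsum2C).add hs3.hasSum
    have h2 : Dt = fun m => D1 m + ((k1p f m - k1F f θ m : ℝ) : ℂ) + D3 m := funext hsplit
    rw [h2]
    exact h1
  -- norm of the terms
  have hDtb : ∀ m, ‖Dt m‖ ≤ (K + 1) * (|ψ| + θ ^ 2) * k1W (k1p f) δ m := by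
    intro m
    have h1 := D.le_W' (j := 1) (by norm_num) m
    have h2 := D.le_W' (j := 2) (by norm_num) m
    have h3 : ‖Dt m‖ ≤ ∑ d ∈ Finset.Icc (-(m : ℤ)) m,
        (K * |ψ| * ((m : ℝ) ^ 1 * f m d) + θ ^ 2 * ((m : ℝ) ^ 2 * f m d)) := by
      have h4 : Dt m = ∑ d ∈ Finset.Icc (-(m : ℤ)) m,
          ((f m d : ℂ) - F ψ m d * ((Real.cos (θ * d) : ℝ) : ℂ)) := by
        rw [hDt]
        simp only
        unfold k1p aC
        push_cast
        rw [← Finset.sum_sub_distrib]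
      rw [h4]
      refine (norm_sum_le _ _).trans (Finset.sum_le_sum fun d hd => ?_)
      have h5 : (f m d : ℂ) - F ψ m d * ((Real.cos (θ * d) : ℝ) : ℂ) =
          -(F ψ m d - (f m d : ℂ)) + F ψ m d * ((1 - Real.cos (θ * d) : ℝ) : ℂ) := by
        push_cast; ring
      rw [h5]
      refine (norm_add_le _ _).trans (add_le_add ?_ ?_)
      · rw [norm_neg]
        refine (hK ψ m d).trans (le_of_eq ?_)
        ring
      · rw [norm_mul, Complex.norm_real, Real.norm_eq_abs]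
        have h6 : |1 - Real.cos (θ * d)| ≤ θ ^ 2 * (m : ℝ) ^ 2 := by
          rw [abs_sub_comm]
          refine (k1_cos_sub _).trans ?_
          have := k1_sq_le hd
          calc (θ * (d : ℝ)) ^ 2 = θ ^ 2 * (d : ℝ) ^ 2 := by ring
            _ ≤ _ := mul_le_mul_of_nonneg_left this (sq_nonneg _)
        calc ‖F ψ m d‖ * |1 - Real.cos (θ * d)| ≤ f m d * (θ ^ 2 * (m : ℝ) ^ 2) :=
              mul_le_mul (hle m d) h6 (abs_nonneg _) (hf.nonneg _ _)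
          _ = _ := by ring
    refine h3.trans ?_
    rw [Finset.sum_add_distrib, ← Finset.mul_sum, ← Finset.mul_sum, ← Finset.mul_sum,
      ← Finset.mul_sum]
    have h7 : ∑ d ∈ Finset.Icc (-(m : ℤ)) m, f m d = k1p f m := rfl
    rw [h7]
    have h8 := mul_le_mul_of_nonneg_left h1 (show 0 ≤ K * |ψ| by positivity)
    have h9 := mul_le_mul_of_nonneg_left h2 (sq_nonneg θ)
    have h10 := k1W_nonneg D m
    have h11 : 0 ≤ K * θ ^ 2 * k1W (k1p f) δ m := by positivity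
    have h12 : 0 ≤ |ψ| * k1W (k1p f) δ m := by positivity
    nlinarith
  refine ⟨∑' p : ℕ × ℤ, ((f p.1 p.2 : ℂ) - F ψ p.1 p.2) +
      ((θ ^ 2 / 2 * (var f * mean f) + r2 : ℝ) : ℂ) + ∑' m, D3 m, ?_, fun n => ?_, fun n => ?_⟩
  · have h1 : ∑' p : ℕ × ℤ, ((f p.1 p.2 : ℂ) - F ψ p.1 p.2) +
        ((θ ^ 2 / 2 * (var f * mean f) + r2 : ℝ) : ℂ) + ∑' m, D3 m -
        ((s2 / 2 * ψ ^ 2 + var f * mean f / 2 * θ ^ 2 : ℝ) : ℂ) =
        (∑' p : ℕ × ℤ, ((f p.1 p.2 : ℂ) - F ψ p.1 p.2) - ((s2 / 2 * ψ ^ 2 : ℝ) : ℂ)) +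
        ((r2 : ℂ) + ∑' m, D3 m) := by
      push_cast; ring
    rw [h1]
    have h2 : ‖(r2 : ℂ)‖ ≤ 3 * θ ^ 4 * k1M (k1p f) δ := by
      rw [Complex.norm_real, Real.norm_eq_abs]; exact hr2b
    have h3 := norm_add_le (∑' p : ℕ × ℤ, ((f p.1 p.2 : ℂ) - F ψ p.1 p.2) -
      ((s2 / 2 * ψ ^ 2 : ℝ) : ℂ)) ((r2 : ℂ) + ∑' m, D3 m)
    have h4 := norm_add_le (r2 : ℂ) (∑' m, D3 m)
    have h5 := hK' ψ
    have e1 : 0 ≤ K' * (θ ^ 4 + |ψ| * θ ^ 2) := by positivity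
    have e2 : 0 ≤ 3 * k1M (k1p f) δ * (|ψ| ^ 3 + |ψ| * θ ^ 2) := by positivity
    have e3 : 0 ≤ K * k1M (k1p f) δ * (|ψ| ^ 3 + θ ^ 4) := by positivity
    have e4 : (K' + (3 + K) * k1M (k1p f) δ) * (|ψ| ^ 3 + θ ^ 4 + |ψ| * θ ^ 2) =
        K' * |ψ| ^ 3 + 3 * θ ^ 4 * k1M (k1p f) δ + K * (|ψ| * θ ^ 2) * k1M (k1p f) δ +
        K' * (θ ^ 4 + |ψ| * θ ^ 2) + 3 * k1M (k1p f) δ * (|ψ| ^ 3 + |ψ| * θ ^ 2) +
        K * k1M (k1p f) δ * (|ψ| ^ 3 + θ ^ 4) := by ring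
    rw [e4]
    linarith
  · calc ∑ j ∈ Finset.range (n + 1), ‖(k1p f j : ℂ) - aC (F ψ) θ j‖ ≤
          ∑ j ∈ Finset.range (n + 1), (K + 1) * (|ψ| + θ ^ 2) * k1W (k1p f) δ j :=
          Finset.sum_le_sum fun j _ => by
            have := hDtb j
            rwa [hDt] at this
      _ ≤ ∑' j, (K + 1) * (|ψ| + θ ^ 2) * k1W (k1p f) δ j :=
          (D.summableW.mul_left _).sum_le_tsum _
            (fun j _ => mul_nonneg (by positivity) (k1W_nonneg D j))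
      _ = (K + 1) * (|ψ| + θ ^ 2) * ∑' j, k1W (k1p f) δ j := tsum_mul_left
      _ ≤ (K + 1) * (|ψ| + θ ^ 2) * k1M (k1p f) δ :=
          mul_le_mul_of_nonneg_left D.tsumW_le (by positivity)
      _ = _ := by ring
  · have h1 := tailC D (B := (K + 1) * (|ψ| + θ ^ 2)) (by positivity) htot hDtb n
    rw [hDt] at h1
    refine h1.trans (le_of_eq ?_)
    ring

/-- the renewal sequence at frequency zero -/
theorem v_info (hf : FreeLaw f) : ∃ K r : ℝ, 0 ≤ K ∧ 0 ≤ r ∧ r < 1 ∧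
    ∀ n, |UU f 0 n - 1 / mean f| ≤ K * r ^ n := by
  obtain ⟨θ₀, K, r, C, h1, h2, h3, h4, h5, h6⟩ := k1_info hf
  obtain ⟨w, μ', g1, g2, g3, g4, g5⟩ := h6 0 (by simpa using h1.le)
  have hμ := mean_pos hf
  have e1 : w = 1 := by
    have : |mean f * (w - 1)| ≤ 0 := by simpa using g2
    have h7 := abs_nonpos_iff.1 this
    have h8 := (mul_eq_zero.1 h7).resolve_left hμ.ne'
    linarith
  have e2 : μ' = mean f := by
    have : |μ' - mean f| ≤ 0 := by simpa using g3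
    have h7 := abs_nonpos_iff.1 this
    linarith
  refine ⟨K, r, h2.le, h3.le, h4, fun n => ?_⟩
  have := g5 n
  rwa [e1, e2, one_pow, mul_one] at this

theorem k1F_zero (f : ℕ → ℤ → ℝ) : k1F f 0 = k1p f := by
  funext m
  unfold k1F k1p
  refine Finset.sum_congr rfl fun d _ => ?_
  simp

theorem UC_limit (hf : FreeLaw f) (hF : TwLaw f F s2) {m : ℕ → ℕ} {θ ψ : ℕ → ℝ} {φ χ : ℝ}
    (hm : Tendsto m atTop atTop)
    (hθ : Tendsto (fun k => θ k * Real.sqrt (m k)) atTop (𝓝 φ))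
    (hψ : Tendsto (fun k => ψ k * Real.sqrt (m k)) atTop (𝓝 χ)) :
    Tendsto (fun k => UC (F (ψ k)) (θ k) (m k)) atTop
      (𝓝 ((1 / mean f * Real.exp (-(var f * φ ^ 2 / 2)) *
        Real.exp (-(s2 / mean f * χ ^ 2 / 2)) : ℝ) : ℂ)) := by
  obtain ⟨M, ρ, C, hM, hρ0, hρ1, hC, hβ⟩ := beta hf hF
  obtain ⟨K, r, hK, hr0, hr1, hv⟩ := v_info hf
  obtain ⟨c, hc, hbd⟩ := UC_bd hf
  obtain ⟨δ, D⟩ := hf.k1D
  have hμ := mean_pos hf
  obtain ⟨μ, hμdef⟩ : ∃ μ, μ = mean f := ⟨_, rfl⟩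
  rw [← hμdef] at hμ hv
  choose b hb1 hb2 hb3 using hβ
  rw [← hμdef] at hb1
  have hmR : Tendsto (fun k => (m k : ℝ)) atTop atTop := tendsto_natCast_atTop_atTop.comp hm
  have hsq : Tendsto (fun k => Real.sqrt (m k)) atTop atTop := Real.tendsto_sqrt_atTop.comp hmR
  have hto0 : ∀ {x : ℕ → ℝ} {z : ℝ}, Tendsto (fun k => x k * Real.sqrt (m k)) atTop (𝓝 z) →
      Tendsto x atTop (𝓝 0) := by
    intro x z hx
    have h1 : Tendsto (fun k => x k * Real.sqrt (m k) * (Real.sqrt (m k))⁻¹) atTop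
        (𝓝 (z * 0)) := hx.mul (tendsto_inv_atTop_zero.comp hsq)
    rw [mul_zero] at h1
    refine h1.congr' ?_
    filter_upwards [hsq.eventually_gt_atTop 0] with k hk
    rw [mul_assoc, mul_inv_cancel₀ hk.ne', mul_one]
  have hθ0 := hto0 hθ
  have hψ0 := hto0 hψ
  have haψ0 : Tendsto (fun k => |ψ k|) atTop (𝓝 0) := by simpa using hψ0.abs
  have hθ20 : Tendsto (fun k => θ k ^ 2) atTop (𝓝 0) := by simpa using hθ0.pow 2
  have hmsq : ∀ {x : ℕ → ℝ} {z : ℝ}, Tendsto (fun k => x k * Real.sqrt (m k)) atTop (𝓝 z) →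
      Tendsto (fun k => (m k : ℝ) * x k ^ 2) atTop (𝓝 (z ^ 2)) := by
    intro x z hx
    refine (hx.pow 2).congr fun k => ?_
    rw [mul_pow, Real.sq_sqrt (Nat.cast_nonneg _)]
    ring
  have hmθ := hmsq hθ
  have hmψ := hmsq hψ
  -- the value of the exponent
  obtain ⟨B, hB⟩ : ∃ B : ℝ, B = s2 / 2 * χ ^ 2 + var f * μ / 2 * φ ^ 2 := ⟨_, rfl⟩
  have hmb : Tendsto (fun k => ((m k : ℝ) : ℂ) * b (ψ k) (θ k)) atTop (𝓝 (B : ℂ)) := by
    have h1 : Tendsto (fun k => (m k : ℝ) * (s2 / 2 * ψ k ^ 2 + var f * μ / 2 * θ k ^ 2)) atTop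
        (𝓝 B) := by
      have h2 := (hmψ.const_mul (s2 / 2)).add (hmθ.const_mul (var f * μ / 2))
      rw [hB]
      refine h2.congr fun k => ?_
      ring
    have h2 : Tendsto (fun k => (((m k : ℝ) * (s2 / 2 * ψ k ^ 2 + var f * μ / 2 * θ k ^ 2) : ℝ) : ℂ))
        atTop (𝓝 (B : ℂ)) := (Complex.continuous_ofReal.tendsto B).comp h1
    have h3 : Tendsto (fun k => ((m k : ℝ) : ℂ) * (b (ψ k) (θ k) -
        ((s2 / 2 * ψ k ^ 2 + var f * μ / 2 * θ k ^ 2 : ℝ) : ℂ))) atTop (𝓝 0) := by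
      have h4 : Tendsto (fun k => C * ((m k : ℝ) * ψ k ^ 2 * |ψ k| +
          (m k : ℝ) * θ k ^ 2 * θ k ^ 2 + (m k : ℝ) * θ k ^ 2 * |ψ k|)) atTop
          (𝓝 (C * (χ ^ 2 * 0 + φ ^ 2 * 0 + φ ^ 2 * 0))) :=
        (((hmψ.mul haψ0).add (hmθ.mul hθ20)).add (hmθ.mul haψ0)).const_mul C
      simp only [mul_zero, add_zero] at h4
      refine squeeze_zero_norm (fun k => ?_) h4
      rw [norm_mul, Complex.norm_real, Real.norm_eq_abs, abs_of_nonneg (Nat.cast_nonneg (m k))]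
      refine (mul_le_mul_of_nonneg_left (hb1 (ψ k) (θ k)) (Nat.cast_nonneg (m k))).trans
        (le_of_eq ?_)
      have h5 : |ψ k| ^ 3 = ψ k ^ 2 * |ψ k| := by rw [← sq_abs (ψ k)]; ring
      rw [h5]
      ring
    have h4 := h3.add h2
    rw [zero_add] at h4
    refine h4.congr fun k => ?_
    push_cast
    ring
  have hbn : Tendsto (fun k => (m k : ℝ) * ‖b (ψ k) (θ k)‖) atTop (𝓝 |B|) := by
    have h1 := hmb.norm
    rw [Complex.norm_real, Real.norm_eq_abs] at h1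
    refine h1.congr fun k => ?_
    rw [norm_mul, Complex.norm_real, Real.norm_eq_abs, abs_of_nonneg (Nat.cast_nonneg (m k))]
  have hb0 : Tendsto (fun k => ‖b (ψ k) (θ k)‖) atTop (𝓝 0) := by
    have h1 := hbn.mul (tendsto_inv_atTop_zero.comp hmR)
    rw [mul_zero] at h1
    refine h1.congr' ?_
    filter_upwards [hmR.eventually_gt_atTop 0] with k hk
    simp only [Function.comp]
    field_simp
  have hbn1 : Tendsto (fun k => ‖b (ψ k) (θ k)‖ * ((m k : ℝ) + 1)) atTop (𝓝 |B|) := by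
    have h1 := hbn.add hb0
    rw [add_zero] at h1
    refine h1.congr fun k => ?_
    ring
  -- the power
  have hpow : Tendsto (fun k => ((1 + b (ψ k) (θ k) / (μ : ℂ))⁻¹) ^ (m k + 1)) atTop
      (𝓝 ((Real.exp (-(B / μ)) : ℝ) : ℂ)) := by
    have h1 : Tendsto (fun k => (((m k + 1 : ℕ) : ℝ) : ℂ) * (b (ψ k) (θ k) / (μ : ℂ))) atTop
        (𝓝 ((B / μ : ℝ) : ℂ)) := by
      have h2 : Tendsto (fun k => b (ψ k) (θ k)) atTop (𝓝 0) := by
        rw [tendsto_zero_iff_norm_tendsto_zero]; exact hb0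
      have h3 := (hmb.add h2).div_const (μ : ℂ)
      rw [add_zero, ← Complex.ofReal_div] at h3
      refine h3.congr fun k => ?_
      push_cast
      ring
    have hm1 : Tendsto (fun k => m k + 1) atTop atTop := (tendsto_add_atTop_nat 1).comp hm
    have h2 := pow_lim hm1 h1
    have h3 := h2.inv₀ (Complex.exp_ne_zero _)
    have h4 : (Complex.exp ((B / μ : ℝ) : ℂ))⁻¹ = ((Real.exp (-(B / μ)) : ℝ) : ℂ) := by
      rw [← Complex.exp_neg]; push_cast; ring_nf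
    rw [h4] at h3
    refine h3.congr fun k => ?_
    rw [inv_pow]
  -- the error
  obtain ⟨K1, hK1⟩ : ∃ K1, K1 = 1 / μ * (M / (1 - ρ)) + K / (1 - r) * M := ⟨_, rfl⟩
  obtain ⟨ε, hε⟩ : ∃ ε : ℕ → ℝ, ε = fun k => |ψ k| + θ k ^ 2 := ⟨_, rfl⟩
  have hε0 : Tendsto ε atTop (𝓝 0) := by
    rw [hε]
    have := haψ0.add hθ20
    simpa using this
  have hrm : Tendsto (fun k => r ^ m k) atTop (𝓝 0) :=
    (tendsto_pow_atTop_nhds_zero_of_lt_one hr0 hr1).comp hm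
  have herr : Tendsto (fun k => μ * (K * r ^ m k + K1 * ε k) +
      ‖b (ψ k) (θ k)‖ * Real.exp (2 * ‖b (ψ k) (θ k)‖ / μ * (m k + 1)) *
        (K / (1 - r) + K1 * ε k * (m k + 1))) atTop (𝓝 0) := by
    have h1 : Tendsto (fun k => μ * (K * r ^ m k + K1 * ε k)) atTop
        (𝓝 (μ * (K * 0 + K1 * 0))) :=
      ((hrm.const_mul K).add (hε0.const_mul K1)).const_mul μ
    have h2 : Tendsto (fun k => Real.exp (2 / μ * (‖b (ψ k) (θ k)‖ * ((m k : ℝ) + 1)))) atTop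
        (𝓝 (Real.exp (2 / μ * |B|))) := (hbn1.const_mul (2 / μ)).rexp
    have h3 : Tendsto (fun k => K / (1 - r) * ‖b (ψ k) (θ k)‖ +
        K1 * ε k * (‖b (ψ k) (θ k)‖ * ((m k : ℝ) + 1))) atTop
        (𝓝 (K / (1 - r) * 0 + K1 * 0 * |B|)) :=
      (hb0.const_mul _).add ((hε0.const_mul K1).mul hbn1)
    have h4 := h1.add (h2.mul h3)
    simp only [mul_zero, zero_mul, add_zero] at h4
    refine h4.congr fun k => ?_
    have h5 : 2 / μ * (‖b (ψ k) (θ k)‖ * ((m k : ℝ) + 1)) =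
        2 * ‖b (ψ k) (θ k)‖ / μ * (m k + 1) := by ring
    rw [h5]
    ring
  have hcmp : Tendsto (fun k => (μ : ℂ) * UC (F (ψ k)) (θ k) (m k) -
      ((1 + b (ψ k) (θ k) / (μ : ℂ))⁻¹) ^ (m k + 1)) atTop (𝓝 0) := by
    refine squeeze_zero_norm' ?_ herr
    have hpi := Real.pi_pos
    have h1 : ∀ᶠ k in atTop, |θ k| ≤ Real.pi / 2 := by
      have h2 : Tendsto (fun k => |θ k|) atTop (𝓝 0) := by simpa using hθ0.abs
      filter_upwards [h2.eventually_lt_const (show (0 : ℝ) < Real.pi / 2 by positivity)] with k hk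
      exact hk.le
    have h2 : ∀ᶠ k in atTop, ‖b (ψ k) (θ k)‖ ≤ μ / 2 := by
      filter_upwards [hb0.eventually_lt_const (show (0 : ℝ) < μ / 2 by positivity)] with k hk
      exact hk.le
    filter_upwards [h1, h2] with k hk1 hk2
    have h3 : K1Ren (k1p f) (UU f 0) := by
      have := k1_UU_ren hf 0
      rwa [k1F_zero] at this
    have h4 : ∀ n, ‖UC (F (ψ k)) (θ k) n‖ ≤ 1 := by
      intro n
      refine (hbd (F (ψ k)) (hF.le (ψ k)) (hF.symm (ψ k)) (θ k) n hk1).trans ?_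
      rw [Real.exp_le_one_iff]
      have : 0 ≤ c * θ k ^ 2 * n := by positivity
      linarith
    have h5 := main_cmp hμ hr0 hr1 hρ0 hρ1 hK hM (ε := ε k) (by rw [hε]; positivity)
      (UC_ren hf (hF.le (ψ k)) (hF.symm (ψ k)) (θ k)) (aC_zero hf (hF.le (ψ k)) (θ k)) h3 D.p0
      hv h4 (by rw [hε]; exact hb2 (ψ k) (θ k)) (by rw [hε]; exact hb3 (ψ k) (θ k)) hk2 (m k)
    rw [← hK1] at h5
    exact h5
  -- conclusion
  have hfin := hcmp.add hpow
  rw [zero_add] at hfin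
  have h1 : Tendsto (fun k => (1 / (μ : ℂ)) * ((μ : ℂ) * UC (F (ψ k)) (θ k) (m k))) atTop
      (𝓝 ((1 / (μ : ℂ)) * ((Real.exp (-(B / μ)) : ℝ) : ℂ))) := by
    refine Tendsto.const_mul _ (hfin.congr fun k => ?_)
    ring
  have hμC : (μ : ℂ) ≠ 0 := by exact_mod_cast hμ.ne'
  have h2 : (1 / (μ : ℂ)) * ((Real.exp (-(B / μ)) : ℝ) : ℂ) =
      ((1 / mean f * Real.exp (-(var f * φ ^ 2 / 2)) *
        Real.exp (-(s2 / mean f * χ ^ 2 / 2)) : ℝ) : ℂ) := by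
    rw [← hμdef, mul_assoc, ← Real.exp_add]
    have h3 : -(B / μ) = -(var f * φ ^ 2 / 2) + -(s2 / μ * χ ^ 2 / 2) := by
      rw [hB]
      field_simp
      ring
    rw [h3]
    push_cast
    ring
  rw [h2] at h1
  refine h1.congr fun k => ?_
  field_simp

end

end RenU

section
variable {f : ℕ → ℤ → ℝ} (hf : FreeLaw f) {F : ℝ → ℕ → ℤ → ℂ} {s2 : ℝ} (hF : TwLaw f F s2)
include hf hF

theorem uC_le (ψ : ℝ) (m : ℕ) (d : ℤ) : ‖uC (F ψ) m d‖ ≤ uu f m d :=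
  RenU.norm_uC_le (hF.le ψ) m d

theorem uC_symm (ψ : ℝ) (m : ℕ) (d : ℤ) : uC (F ψ) m (-d) = uC (F ψ) m d :=
  RenU.uC_neg (hF.symm ψ) m d

theorem UC_bound : ∃ c, 0 < c ∧ ∀ (ψ θ : ℝ) (m : ℕ), |θ| ≤ Real.pi / 2 →
    ‖UC (F ψ) θ m‖ ≤ Real.exp (-(c * θ ^ 2 * m)) := by
  obtain ⟨c, hc, h⟩ := RenU.UC_bd hf
  exact ⟨c, hc, fun ψ θ m hθ => h (F ψ) (hF.le ψ) (hF.symm ψ) θ m hθ⟩

theorem UC_lim {m : ℕ → ℕ} {θ ψ : ℕ → ℝ} {φ χ : ℝ} (hm : Tendsto m atTop atTop)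
    (hθ : Tendsto (fun k => θ k * Real.sqrt (m k)) atTop (𝓝 φ))
    (hψ : Tendsto (fun k => ψ k * Real.sqrt (m k)) atTop (𝓝 χ)) :
    Tendsto (fun k => UC (F (ψ k)) (θ k) (m k)) atTop
      (𝓝 ((1 / mean f * Real.exp (-(var f * φ ^ 2 / 2)) *
        Real.exp (-(s2 / mean f * χ ^ 2 / 2)) : ℝ) : ℂ)) :=
  RenU.UC_limit hf hF hm hθ hψ

end

end Pool.Agent.SAPY
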