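import Pool.Agent.SAPY.Defs
import Pool.Agent.SAPY.RenU

/-!
Local estimates for the twisted renewal measure, by Fourier inversion on `[-π/2, π/2]`.
-/

namespace Pool.Agent.SAPY

open Filter Topology Pool.Agent.SAPX

namespace LocC

open MeasureTheory

/-- the transform is continuous -/
lemma cont (F : ℕ → ℤ → ℂ) (m : ℕ) : Continuous (fun θ : ℝ => UC F θ m) := by
  unfold UC
  fun_prop

lemma orth (a d : ℤ) (h : Even (a + d)) :
    ∫ θ in (-(Real.pi / 2))..(Real.pi / 2),
      ((Real.cos (θ * a) : ℝ) : ℂ) * ((Real.cos (θ * d) : ℝ) : ℂ) =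
      ((Real.pi / 2 * ((if a = d then 1 else 0) + (if a = -d then 1 else 0)) : ℝ) : ℂ) := by
  rw [← lu_orth a d h, ← intervalIntegral.integral_ofReal]
  simp only [Complex.ofReal_mul]

section
variable {f : ℕ → ℤ → ℝ} (hf : FreeLaw f) {F : ℝ → ℕ → ℤ → ℂ} {s2 : ℝ} (hF : TwLaw f F s2)
include hf hF

lemma supp {ψ : ℝ} {m : ℕ} {d : ℤ} (h : uC (F ψ) m d ≠ 0) : |d| ≤ m ∧ Even ((m : ℤ) + d) := by
  refine uu_supp hf fun h0 => h ?_
  have h1 := uC_le hf hF ψ m d
  rw [h0] at h1
  exact norm_le_zero_iff.1 h1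

/-- Fourier inversion -/
lemma inv (ψ : ℝ) (m : ℕ) (d : ℤ) (hd : Even ((m : ℤ) + d)) :
    uC (F ψ) m d = ((1 / Real.pi : ℝ) : ℂ) *
      ∫ θ in (-(Real.pi / 2))..(Real.pi / 2),
        UC (F ψ) θ m * ((Real.cos (θ * d) : ℝ) : ℂ) := by
  have hpi := Real.pi_pos
  have h1 : ∫ θ in (-(Real.pi / 2))..(Real.pi / 2), UC (F ψ) θ m * ((Real.cos (θ * d) : ℝ) : ℂ)
      = ∑ a ∈ Finset.Icc (-(m : ℤ)) m, uC (F ψ) m a *
        ((Real.pi / 2 * ((if a = d then 1 else 0) + (if a = -d then 1 else 0)) : ℝ) : ℂ) := by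
    unfold UC
    simp only [Finset.sum_mul]
    rw [intervalIntegral.integral_finsetSum]
    · refine Finset.sum_congr rfl fun a _ => ?_
      by_cases ha : uC (F ψ) m a = 0
      · simp [ha]
      · have hpar := (supp hf hF ha).2
        have : Even (a + d) := by
          rw [Int.even_add] at hpar hd ⊢
          tauto
        rw [← orth a d this, ← intervalIntegral.integral_const_mul]
        simp only [mul_assoc]
    · intro a _
      apply Continuous.intervalIntegrable
      fun_prop
  rw [h1]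
  by_cases hdm : |d| ≤ m
  · rw [abs_le] at hdm
    have h2 : ∀ a, uC (F ψ) m a *
        ((Real.pi / 2 * ((if a = d then 1 else 0) + (if a = -d then 1 else 0)) : ℝ) : ℂ)
        = (if a = d then ((Real.pi / 2 : ℝ) : ℂ) * uC (F ψ) m d else 0) +
          (if a = -d then ((Real.pi / 2 : ℝ) : ℂ) * uC (F ψ) m d else 0) := by
      intro a
      split_ifs with e1 e2 e2
      · rw [← e1]; push_cast; ring
      · rw [← e1]; push_cast; ring
      · rw [e2, uC_symm hf hF]; push_cast; ring
      · push_cast; ring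
    simp only [h2, Finset.sum_add_distrib, Finset.sum_ite_eq']
    rw [if_pos (Finset.mem_Icc.2 hdm), if_pos (Finset.mem_Icc.2 ⟨by omega, by omega⟩)]
    rw [← two_mul, ← mul_assoc, ← mul_assoc]
    have : ((1 / Real.pi : ℝ) : ℂ) * 2 * ((Real.pi / 2 : ℝ) : ℂ) = 1 := by
      rw [show (2 : ℂ) = ((2 : ℝ) : ℂ) by norm_num, ← Complex.ofReal_mul, ← Complex.ofReal_mul]
      rw [show 1 / Real.pi * 2 * (Real.pi / 2) = 1 by field_simp, Complex.ofReal_one]
    rw [this, one_mul]
  · have h0 : uC (F ψ) m d = 0 := by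
      by_contra hne
      exact hdm (supp hf hF hne).1
    rw [h0, Finset.sum_eq_zero, mul_zero]
    intro a ha
    rw [Finset.mem_Icc] at ha
    rw [abs_le, not_and_or] at hdm
    rw [if_neg (by omega), if_neg (by omega)]
    simp

lemma diff_eq (ψ : ℝ) (m : ℕ) (y z : ℤ) (hd : Even ((m : ℤ) + y + z)) :
    uC (F ψ) m (y - z) - uC (F ψ) m (y + z) = ((2 / Real.pi : ℝ) : ℂ) *
      ∫ θ in (-(Real.pi / 2))..(Real.pi / 2),
        UC (F ψ) θ m * ((Real.sin (θ * y) * Real.sin (θ * z) : ℝ) : ℂ) := by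
  rw [inv hf hF ψ m (y - z) (by
      have : (m : ℤ) + (y - z) = (m + y + z) - (z + z) := by ring
      rw [this]; exact hd.sub (Even.add_self z)), inv hf hF ψ m (y + z) (by rwa [← add_assoc]),
    ← mul_sub, ← intervalIntegral.integral_sub]
  · rw [← intervalIntegral.integral_const_mul, ← intervalIntegral.integral_const_mul]
    congr 1
    ext θ
    have e1 : θ * ((y - z : ℤ) : ℝ) = θ * y - θ * z := by push_cast; ring
    have e2 : θ * ((y + z : ℤ) : ℝ) = θ * y + θ * z := by push_cast; ring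
    rw [e1, e2, Real.cos_sub, Real.cos_add]
    push_cast
    ring
  · apply Continuous.intervalIntegrable
    exact (cont (F ψ) m).mul (by fun_prop)
  · apply Continuous.intervalIntegrable
    exact (cont (F ψ) m).mul (by fun_prop)

lemma diff_odd (ψ : ℝ) (m : ℕ) (y z : ℤ) (hd : ¬ Even ((m : ℤ) + y + z)) :
    uC (F ψ) m (y - z) - uC (F ψ) m (y + z) = 0 := by
  have h1 : uC (F ψ) m (y - z) = 0 := by
    by_contra h
    have := (supp hf hF h).2
    apply hd
    have e : (m : ℤ) + y + z = (m + (y - z)) + (z + z) := by ring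
    rw [e]; exact this.add (Even.add_self z)
  have h2 : uC (F ψ) m (y + z) = 0 := by
    by_contra h
    have := (supp hf hF h).2
    exact hd (by rwa [add_assoc])
  rw [h1, h2, sub_zero]

end

end LocC

section
variable {f : ℕ → ℤ → ℝ} (hf : FreeLaw f) {F : ℝ → ℕ → ℤ → ℂ} {s2 : ℝ} (hF : TwLaw f F s2)
include hf hF

open MeasureTheory LocC in
theorem uC_diff : ∃ K, 0 < K ∧ ∀ (ψ : ℝ) (m : ℕ) (y z : ℤ),
    ‖uC (F ψ) m (y - z) - uC (F ψ) m (y + z)‖ ≤ K * |(z : ℝ)| / (m + 1) := by
  obtain ⟨c, hc, hb⟩ := UC_bound hf hF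
  set M := ∫ θ : ℝ, |θ| * Real.exp (-(1 * θ ^ 2)) with hM
  have hM0 : 0 ≤ M := integral_nonneg fun θ => by positivity
  refine ⟨2 / Real.pi * (Real.exp (c * (Real.pi / 2) ^ 2) * (M / c)) + 1, by positivity, ?_⟩
  intro ψ m y z
  have hm1 : (0 : ℝ) < m + 1 := by positivity
  by_cases hpar : Even ((m : ℤ) + y + z)
  swap
  · rw [diff_odd hf hF ψ m y z hpar, norm_zero]
    positivity
  rw [diff_eq hf hF ψ m y z hpar, norm_mul, Complex.norm_real, Real.norm_eq_abs,
    abs_of_pos (by positivity : (0 : ℝ) < 2 / Real.pi)]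
  have hpi : -(Real.pi / 2) ≤ Real.pi / 2 := by linarith [Real.pi_pos]
  have h1 : ‖∫ θ in (-(Real.pi / 2))..(Real.pi / 2),
      UC (F ψ) θ m * ((Real.sin (θ * y) * Real.sin (θ * z) : ℝ) : ℂ)‖ ≤
      Real.exp (c * (Real.pi / 2) ^ 2) * |(z : ℝ)| * (M / (c * (m + 1))) := by
    have hint := lu_int_abs (b := c * (m + 1)) (by positivity)
    calc ‖∫ θ in (-(Real.pi / 2))..(Real.pi / 2),
        UC (F ψ) θ m * ((Real.sin (θ * y) * Real.sin (θ * z) : ℝ) : ℂ)‖
        ≤ ∫ θ in (-(Real.pi / 2))..(Real.pi / 2),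
          Real.exp (c * (Real.pi / 2) ^ 2) * |(z : ℝ)| *
            (|θ| * Real.exp (-(c * (m + 1) * θ ^ 2))) := by
          apply intervalIntegral.norm_integral_le_of_norm_le hpi
          · refine Eventually.of_forall fun θ hθ => ?_
            have hθ' : |θ| ≤ Real.pi / 2 := abs_le.2 ⟨hθ.1.le, hθ.2⟩
            have h2 := hb ψ θ m hθ'
            have h3 : |Real.sin (θ * y)| ≤ 1 := Real.abs_sin_le_one _
            have h4 : |Real.sin (θ * z)| ≤ |θ| * |(z : ℝ)| := by
              rw [← abs_mul]; exact Real.abs_sin_le_abs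
            rw [norm_mul, Complex.norm_real, norm_mul, Real.norm_eq_abs, Real.norm_eq_abs]
            have h5 : Real.exp (-(c * θ ^ 2 * m)) ≤
                Real.exp (c * (Real.pi / 2) ^ 2) * Real.exp (-(c * (m + 1) * θ ^ 2)) := by
              rw [← Real.exp_add]
              apply Real.exp_le_exp.2
              have : θ ^ 2 ≤ (Real.pi / 2) ^ 2 := by
                rw [← sq_abs]
                exact pow_le_pow_left₀ (abs_nonneg _) hθ' 2
              nlinarith
            calc ‖UC (F ψ) θ m‖ * (|Real.sin (θ * y)| * |Real.sin (θ * z)|)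
                ≤ ((Real.exp (c * (Real.pi / 2) ^ 2) * Real.exp (-(c * (m + 1) * θ ^ 2)))) *
                  (1 * (|θ| * |(z : ℝ)|)) := by
                  refine mul_le_mul (h2.trans h5)
                    (mul_le_mul h3 h4 (abs_nonneg _) zero_le_one) (by positivity) (by positivity)
              _ = _ := by ring
          · exact (hint.const_mul _).intervalIntegrable
      _ ≤ ∫ θ : ℝ, Real.exp (c * (Real.pi / 2) ^ 2) * |(z : ℝ)| *
            (|θ| * Real.exp (-(c * (m + 1) * θ ^ 2))) := by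
          rw [intervalIntegral.integral_of_le hpi]
          apply setIntegral_le_integral (hint.const_mul _)
          exact Eventually.of_forall fun θ => by positivity
      _ = _ := by
          rw [integral_const_mul, lu_moment (by positivity)]
  calc 2 / Real.pi * ‖∫ θ in (-(Real.pi / 2))..(Real.pi / 2),
      UC (F ψ) θ m * ((Real.sin (θ * y) * Real.sin (θ * z) : ℝ) : ℂ)‖
      ≤ 2 / Real.pi * (Real.exp (c * (Real.pi / 2) ^ 2) * |(z : ℝ)| * (M / (c * (m + 1)))) :=
        mul_le_mul_of_nonneg_left h1 (by positivity)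
    _ = 2 / Real.pi * (Real.exp (c * (Real.pi / 2) ^ 2) * (M / c)) * |(z : ℝ)| / (m + 1) := by
        field_simp
    _ ≤ _ := by
        apply div_le_div_of_nonneg_right _ hm1.le
        apply mul_le_mul_of_nonneg_right _ (abs_nonneg _)
        linarith

open MeasureTheory LocC in
theorem uC_diff_lim : ∃ C, 0 < C ∧ ∀ (t χ : ℝ), 0 < t → ∀ (z : ℤ)
    (m : ℕ → ℕ) (y : ℕ → ℤ) (ψ : ℕ → ℝ), Tendsto m atTop atTop →
    (∀ᶠ k in atTop, Even ((m k : ℤ) + y k + z)) →
    Tendsto (fun k => (y k : ℝ) / Real.sqrt (m k)) atTop (𝓝 t) →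
    Tendsto (fun k => ψ k * Real.sqrt (m k)) atTop (𝓝 χ) →
    Tendsto (fun k => ((m k : ℝ) : ℂ) *
      (uC (F (ψ k)) (m k) (y k - z) - uC (F (ψ k)) (m k) (y k + z))) atTop
      (𝓝 ((C * z * (t * Real.exp (-(t ^ 2 / (2 * var f)))) *
        Real.exp (-(s2 / mean f * χ ^ 2 / 2)) : ℝ) : ℂ)) := by
  obtain ⟨c, hc, hb⟩ := UC_bound hf hF
  have hmean := mean_pos hf
  have hvar := var_pos hf
  refine ⟨2 / Real.pi * (1 / mean f) * (1 / var f * Real.sqrt (2 * Real.pi / var f)), by positivity,
    ?_⟩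
  intro t χ ht z m y ψ hm hpar hy hψ
  have hmR : Tendsto (fun k => (m k : ℝ)) atTop atTop := tendsto_natCast_atTop_atTop.comp hm
  have hsq : Tendsto (fun k => Real.sqrt (m k)) atTop atTop := Real.tendsto_sqrt_atTop.comp hmR
  have hsqpos : ∀ᶠ k in atTop, 0 < Real.sqrt (m k) := hsq.eventually_gt_atTop 0
  set E : ℝ := Real.exp (-(s2 / mean f * χ ^ 2 / 2)) with hE
  -- the integrand
  set H : ℕ → ℝ → ℂ := fun k => Set.indicator (Set.Ioc (-(Real.pi / 2)) (Real.pi / 2))
    (fun θ => UC (F (ψ k)) θ (m k) * ((Real.sin (θ * y k) * Real.sin (θ * z) : ℝ) : ℂ)) with hH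
  have hpi : -(Real.pi / 2) ≤ Real.pi / 2 := by linarith [Real.pi_pos]
  have hHint : ∀ k, ∫ θ in (-(Real.pi / 2))..(Real.pi / 2),
      UC (F (ψ k)) θ (m k) * ((Real.sin (θ * y k) * Real.sin (θ * z) : ℝ) : ℂ) = ∫ θ, H k θ := by
    intro k
    rw [intervalIntegral.integral_of_le hpi, hH, integral_indicator measurableSet_Ioc]
  set G : ℕ → ℝ → ℂ := fun k φ => ((Real.sqrt (m k) : ℝ) : ℂ) * H k (φ / Real.sqrt (m k)) with hG
  have hGint : ∀ᶠ k in atTop, ((m k : ℝ) : ℂ) *
      (uC (F (ψ k)) (m k) (y k - z) - uC (F (ψ k)) (m k) (y k + z)) =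
      ((2 / Real.pi : ℝ) : ℂ) * ∫ φ, G k φ := by
    filter_upwards [hpar, hsqpos] with k hk hs
    rw [diff_eq hf hF _ _ _ _ hk, hHint, hG]
    rw [integral_const_mul, MeasureTheory.Measure.integral_comp_div (H k), abs_of_pos hs,
      Complex.real_smul, ← mul_assoc ((Real.sqrt (m k) : ℝ) : ℂ), ← Complex.ofReal_mul,
      Real.mul_self_sqrt (Nat.cast_nonneg _)]
    ring
  have hlim : Tendsto (fun k => ∫ φ, G k φ) atTop (𝓝 (∫ φ : ℝ,
      ((1 / mean f * z * E * (Real.exp (-(var f * φ ^ 2 / 2)) * (Real.sin (φ * t) * φ)) : ℝ) :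
        ℂ))) := by
    apply tendsto_integral_filter_of_dominated_convergence
      (fun φ => |(z : ℝ)| * (|φ| * Real.exp (-(c * φ ^ 2))))
    · refine Eventually.of_forall fun k => ?_
      apply Measurable.aestronglyMeasurable
      apply Measurable.const_mul
      apply Measurable.comp (g := H k)
      · apply Measurable.indicator _ measurableSet_Ioc
        exact ((cont (F (ψ k)) (m k)).mul (by fun_prop)).measurable
      · fun_prop
    · filter_upwards [hsqpos] with k hs
      refine Eventually.of_forall fun φ => ?_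
      simp only [hG, hH, Set.indicator_apply]
      split_ifs with hmem
      · have hθ' : |φ / Real.sqrt (m k)| ≤ Real.pi / 2 := abs_le.2 ⟨hmem.1.le, hmem.2⟩
        have h2 := hb (ψ k) _ (m k) hθ'
        have h3 : |Real.sin (φ / Real.sqrt (m k) * y k)| ≤ 1 := Real.abs_sin_le_one _
        have h4 : |Real.sin (φ / Real.sqrt (m k) * z)| ≤ |φ| / Real.sqrt (m k) * |(z : ℝ)| := by
          refine Real.abs_sin_le_abs.trans ?_
          rw [abs_mul, abs_div, abs_of_pos hs]
        have h5 : c * (φ / Real.sqrt (m k)) ^ 2 * (m k) = c * φ ^ 2 := by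
          rw [div_pow, Real.sq_sqrt (Nat.cast_nonneg _)]
          have : (m k : ℝ) ≠ 0 := by
            intro h0
            rw [h0, Real.sqrt_zero] at hs
            exact lt_irrefl _ hs
          field_simp
        rw [h5] at h2
        rw [norm_mul, norm_mul, Complex.norm_real, Complex.norm_real, norm_mul]
        simp only [Real.norm_eq_abs]
        rw [abs_of_pos hs]
        calc Real.sqrt (m k) * (‖UC (F (ψ k)) (φ / Real.sqrt (m k)) (m k)‖ *
              (|Real.sin (φ / Real.sqrt (m k) * y k)| * |Real.sin (φ / Real.sqrt (m k) * z)|))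
            ≤ Real.sqrt (m k) * ((Real.exp (-(c * φ ^ 2))) *
              (1 * (|φ| / Real.sqrt (m k) * |(z : ℝ)|))) := by
              gcongr
          _ = _ := by field_simp
      · rw [mul_zero, norm_zero]; positivity
    · exact (lu_int_abs hc).const_mul _
    · refine Eventually.of_forall fun φ => ?_
      have hθ : Tendsto (fun k => φ / Real.sqrt (m k) * Real.sqrt (m k)) atTop (𝓝 φ) := by
        refine tendsto_const_nhds.congr' ?_
        filter_upwards [hsqpos] with k hs
        field_simp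
      have hU := UC_lim hf hF hm hθ hψ
      have hs1 : Tendsto (fun k => Real.sin (φ / Real.sqrt (m k) * y k)) atTop
          (𝓝 (Real.sin (φ * t))) := by
        have : Tendsto (fun k => φ * ((y k : ℝ) / Real.sqrt (m k))) atTop (𝓝 (φ * t)) :=
          hy.const_mul φ
        have h2 := (Real.continuous_sin.tendsto (φ * t)).comp this
        refine h2.congr fun k => ?_
        simp only [Function.comp_apply]
        congr 1; ring
      have hs2 : Tendsto (fun k => Real.sqrt (m k) * Real.sin (φ / Real.sqrt (m k) * z)) atTop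
          (𝓝 (φ * z)) := by
        have h1 : Tendsto (fun k => φ * z * (Real.sqrt (m k))⁻¹) atTop (𝓝 (φ * z * 0)) :=
          (tendsto_inv_atTop_zero.comp hsq).const_mul _
        rw [mul_zero] at h1
        have h2 : Tendsto (fun k => φ * z * Real.sinc (φ * z * (Real.sqrt (m k))⁻¹)) atTop
            (𝓝 (φ * z * Real.sinc 0)) :=
          ((Real.continuous_sinc.tendsto 0).comp h1).const_mul _
        rw [Real.sinc_zero, mul_one] at h2
        refine h2.congr' ?_
        filter_upwards [hsqpos] with k hs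
        by_cases h0 : φ * (z : ℝ) = 0
        · rw [h0, zero_mul]
          have : φ / Real.sqrt (m k) * z = 0 := by
            rw [div_mul_eq_mul_div, h0, zero_div]
          rw [this, Real.sin_zero, mul_zero]
        · have hne : φ * z * (Real.sqrt (m k))⁻¹ ≠ 0 := mul_ne_zero h0 (inv_ne_zero hs.ne')
          rw [Real.sinc_of_ne_zero hne]
          have e1 : φ / Real.sqrt (m k) * z = φ * z * (Real.sqrt (m k))⁻¹ := by ring
          rw [e1, ← mul_div_assoc, mul_div_mul_left _ _ h0, div_inv_eq_mul, mul_comm]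
      have hmem : ∀ᶠ k in atTop, φ / Real.sqrt (m k) ∈ Set.Ioc (-(Real.pi / 2)) (Real.pi / 2) := by
        have h1 : Tendsto (fun k => φ / Real.sqrt (m k)) atTop (𝓝 0) := by
          have := (tendsto_inv_atTop_zero.comp hsq).const_mul φ
          rw [mul_zero] at this
          exact this.congr fun k => by simp [div_eq_mul_inv]
        exact h1.eventually (Ioc_mem_nhds (by linarith [Real.pi_pos]) (by linarith [Real.pi_pos]))
      have hall := (hU.mul ((Complex.continuous_ofReal.tendsto _).comp (hs1.mul hs2)))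
      rw [← Complex.ofReal_mul, ← hE] at hall
      have e : 1 / mean f * Real.exp (-(var f * φ ^ 2 / 2)) * E * (Real.sin (φ * t) * (φ * z)) =
          1 / mean f * z * E * (Real.exp (-(var f * φ ^ 2 / 2)) * (Real.sin (φ * t) * φ)) := by
        ring
      rw [e] at hall
      refine hall.congr' ?_
      filter_upwards [hmem] with k hk
      simp only [hG, hH, Set.indicator_of_mem hk, Function.comp_apply]
      push_cast
      ring
  rw [integral_complex_ofReal, integral_const_mul, lu_gauss_sin hvar] at hlim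
  have hfin := hlim.const_mul ((2 / Real.pi : ℝ) : ℂ)
  rw [← Complex.ofReal_mul] at hfin
  have e : 2 / Real.pi * (1 / mean f * z * E * (t / var f *
      (Real.sqrt (2 * Real.pi / var f) * Real.exp (-(t ^ 2 / (2 * var f)))))) =
      2 / Real.pi * (1 / mean f) * (1 / var f * Real.sqrt (2 * Real.pi / var f)) * z *
        (t * Real.exp (-(t ^ 2 / (2 * var f)))) * E := by ring
  rw [e] at hfin
  refine hfin.congr' ?_
  filter_upwards [hGint] with k hk
  exact hk.symm

end

end Pool.Agent.SAPY
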