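import Pool.Agent.SAPY.Defs
import Pool.Agent.SAPX.Models

/-!
The speed of the pulled polygons as a function of the force.
-/

namespace Pool.Agent.SAPY

open Filter Topology Pool.Agent.SAPX
open Pool.Agent.SAPF Pool.Agent.SAPK

namespace Speed

/-! ### an abstract family of exponential weights -/

section abs
variable {ι : Type*} {m s : ι → ℝ}

/-- exponential weight -/
noncomputable def w (m s : ι → ℝ) (u c : ℝ) (i : ι) : ℝ := Real.exp (-(u * m i) + 2 * c * s i)

lemma w_pos (u c : ℝ) (i : ι) : 0 < w m s u c i := Real.exp_pos _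

/-- total weight one and an exponential tail -/
structure Good (m s : ι → ℝ) (u c : ℝ) : Prop where
  one : HasSum (w m s u c) 1
  tail : ∃ δ > 0, Summable (fun i => w m s u c i * Real.exp (δ * m i))

/-- conditions on the two additive functionals -/
structure Adm (m s : ι → ℝ) : Prop where
  one_le : ∀ i, 1 ≤ s i
  le : ∀ i, 2 * s i ≤ m i

lemma Adm.m_pos (h : Adm m s) (i : ι) : 0 < m i := by
  have h1 := h.one_le i
  have h2 := h.le i
  linarith

lemma Adm.s_pos (h : Adm m s) (i : ι) : 0 < s i := by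
  have h1 := h.one_le i
  linarith

/-- mean speed -/
noncomputable def mu (m s : ι → ℝ) (u c : ℝ) : ℝ :=
  (∑' i, s i * w m s u c i) / (∑' i, m i * w m s u c i)

variable (hA : Adm m s) {u c u' c' : ℝ}
include hA

lemma sum_m (h : Good m s u c) : Summable (fun i => m i * w m s u c i) := by
  obtain ⟨δ, hδ, h1⟩ := h.tail
  refine Summable.of_nonneg_of_le (fun i => mul_nonneg (hA.m_pos i).le (w_pos u c i).le)
    (fun i => ?_) (h1.mul_left δ⁻¹)
  have h2 : δ * m i ≤ Real.exp (δ * m i) := by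
    have := Real.add_one_le_exp (δ * m i)
    linarith
  have h3 : m i ≤ δ⁻¹ * Real.exp (δ * m i) := by
    rw [inv_mul_eq_div, le_div_iff₀ hδ]
    linarith
  calc m i * w m s u c i ≤ (δ⁻¹ * Real.exp (δ * m i)) * w m s u c i :=
        mul_le_mul_of_nonneg_right h3 (w_pos u c i).le
    _ = δ⁻¹ * (w m s u c i * Real.exp (δ * m i)) := by ring

lemma sum_s (h : Good m s u c) : Summable (fun i => s i * w m s u c i) := by
  refine Summable.of_nonneg_of_le (fun i => mul_nonneg (hA.s_pos i).le (w_pos u c i).le)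
    (fun i => ?_) (sum_m hA h)
  refine mul_le_mul_of_nonneg_right ?_ (w_pos u c i).le
  have h1 := hA.one_le i
  have h2 := hA.le i
  linarith

lemma M_pos (h : Good m s u c) : 0 < ∑' i, m i * w m s u c i := by
  have h1 : ∑' i, w m s u c i ≤ ∑' i, m i * w m s u c i := by
    refine h.one.summable.tsum_le_tsum (fun i => ?_) (sum_m hA h)
    have h1 := hA.one_le i
    have h2 := hA.le i
    have h3 := w_pos (m := m) (s := s) u c i
    nlinarith
  rw [h.one.tsum_eq] at h1
  linarith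

lemma mu_nonneg (h : Good m s u c) : 0 ≤ mu m s u c :=
  div_nonneg (tsum_nonneg fun i => mul_nonneg (hA.s_pos i).le (w_pos u c i).le) (M_pos hA h).le

lemma mu_le (h : Good m s u c) : 2 * mu m s u c ≤ 1 := by
  unfold mu
  rw [← mul_div_assoc, div_le_one (M_pos hA h), ← tsum_mul_left]
  refine ((sum_s hA h).mul_left 2).tsum_le_tsum (fun i => ?_) (sum_m hA h)
  have h3 := w_pos (m := m) (s := s) u c i
  have h2 := hA.le i
  nlinarith

lemma mu_lt (h : Good m s u c) (hs : ∃ i, 2 * s i < m i) : 2 * mu m s u c < 1 := by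
  obtain ⟨j, hj⟩ := hs
  unfold mu
  rw [← mul_div_assoc, div_lt_one (M_pos hA h), ← tsum_mul_left]
  refine Summable.tsum_lt_tsum (i := j) (fun i => ?_) ?_ ((sum_s hA h).mul_left 2) (sum_m hA h)
  · have h3 := w_pos (m := m) (s := s) u c i
    have h2 := hA.le i
    nlinarith
  · have h3 := w_pos (m := m) (s := s) u c j
    nlinarith

lemma tangent_abs (h : Good m s u c) (h' : Good m s u' c') :
    2 * mu m s u c * (c' - c) ≤ u' - u := by
  have h1 : HasSum (fun i => w m s u c i - (u' - u) * (m i * w m s u c i) +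
      2 * (c' - c) * (s i * w m s u c i))
      (1 - (u' - u) * (∑' i, m i * w m s u c i) + 2 * (c' - c) * ∑' i, s i * w m s u c i) :=
    (h.one.sub ((sum_m hA h).hasSum.mul_left _)).add ((sum_s hA h).hasSum.mul_left _)
  have h2 := hasSum_le (fun i => ?_) h1 h'.one
  · have hM := M_pos hA h
    have h3 : 2 * mu m s u c * (c' - c) =
        (2 * (c' - c) * ∑' i, s i * w m s u c i) / (∑' i, m i * w m s u c i) := by
      unfold mu
      ring
    rw [h3, div_le_iff₀ hM]
    linarith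
  · have h4 : w m s u' c' i = w m s u c i *
        Real.exp (-((u' - u) * m i) + 2 * (c' - c) * s i) := by
      unfold w
      rw [← Real.exp_add]
      congr 1
      ring
    rw [h4]
    have h5 := Real.add_one_le_exp (-((u' - u) * m i) + 2 * (c' - c) * s i)
    have h6 := mul_le_mul_of_nonneg_left h5 (w_pos (m := m) (s := s) u c i).le
    refine le_trans (le_of_eq ?_) h6
    ring

lemma lip (h : Good m s u c) (h' : Good m s u' c') : |u' - u| ≤ |c' - c| := by
  have h1 := tangent_abs hA h h'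
  have h2 := tangent_abs hA h' h
  have e1 := mu_nonneg hA h
  have e2 := mu_nonneg hA h'
  have e3 := mu_le hA h
  have e4 := mu_le hA h'
  rcases le_total c c' with hc | hc
  · rw [abs_of_nonneg (sub_nonneg.2 hc), abs_le]
    constructor
    · nlinarith [mul_nonneg e1 (sub_nonneg.2 hc)]
    · nlinarith [mul_nonneg e2 (sub_nonneg.2 hc)]
  · rw [abs_of_nonpos (sub_nonpos.2 hc), abs_le]
    constructor
    · nlinarith [mul_nonneg e1 (sub_nonneg.2 hc)]
    · nlinarith [mul_nonneg e2 (sub_nonneg.2 hc)]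

lemma uniq (h : Good m s u c) (h' : Good m s u' c) : u' = u := by
  have h1 := lip hA h h'
  rw [sub_self, abs_zero] at h1
  have h2 := abs_nonpos_iff.1 h1
  linarith

/-- domination near `c` -/
lemma w_le (h : Good m s u c) (h' : Good m s u' c') {r : ℝ} (hr : |c' - c| ≤ r) (i : ι) :
    w m s u' c' i ≤ w m s u c i * Real.exp (2 * r * m i) := by
  unfold w
  rw [← Real.exp_add]
  apply Real.exp_le_exp.2
  have h1 := lip hA h h'
  have h2 := abs_le.1 (h1.trans hr)
  have h3 := abs_le.1 hr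
  have h4 := hA.m_pos i
  have h5 := hA.s_pos i
  have h6 := hA.le i
  have h7 : -(u' * m i) ≤ -(u * m i) + r * m i := by nlinarith
  have h8 : 2 * c' * s i ≤ 2 * c * s i + 2 * r * s i := by nlinarith
  have h9 : 2 * r * s i ≤ r * m i := by
    have hr0 : 0 ≤ r := (abs_nonneg _).trans hr
    nlinarith
  linarith

/-- continuity of the speed -/
lemma tendsto_mu {U : ℝ → ℝ} {c₀ : ℝ} (h0 : Good m s (U c₀) c₀)
    (hU : ∀ᶠ c in 𝓝 c₀, Good m s (U c) c) :
    Tendsto (fun c => mu m s (U c) c) (𝓝 c₀) (𝓝 (mu m s (U c₀) c₀)) := by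
  obtain ⟨δ, hδ, hsum⟩ := h0.tail
  have hr : ∀ᶠ c in 𝓝 c₀, |c - c₀| ≤ δ / 4 := by
    have h1 : Tendsto (fun c : ℝ => |c - c₀|) (𝓝 c₀) (𝓝 |c₀ - c₀|) := by
      apply Continuous.tendsto
      fun_prop
    rw [sub_self, abs_zero] at h1
    exact (h1.eventually (gt_mem_nhds (show (0:ℝ) < δ / 4 by positivity))).mono fun c hc => hc.le
  have hUt : Tendsto U (𝓝 c₀) (𝓝 (U c₀)) := by
    rw [tendsto_iff_norm_sub_tendsto_zero]
    have h1 : Tendsto (fun c : ℝ => |c - c₀|) (𝓝 c₀) (𝓝 |c₀ - c₀|) := by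
      apply Continuous.tendsto
      fun_prop
    rw [sub_self, abs_zero] at h1
    refine squeeze_zero' (Eventually.of_forall fun c => norm_nonneg _) ?_ h1
    filter_upwards [hU] with c hc
    rw [Real.norm_eq_abs]
    exact lip hA h0 hc
  have hwt : ∀ i, Tendsto (fun c => w m s (U c) c i) (𝓝 c₀) (𝓝 (w m s (U c₀) c₀ i)) := by
    intro i
    unfold w
    refine (Real.continuous_exp.tendsto _).comp ?_
    exact ((hUt.mul_const (m i)).neg).add ((tendsto_id.const_mul 2).mul_const (s i))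
  -- common bound
  have hb : Summable (fun i => (2 / δ) * (w m s (U c₀) c₀ i * Real.exp (δ * m i))) :=
    hsum.mul_left _
  have hdom : ∀ᶠ c in 𝓝 c₀, ∀ i, m i * w m s (U c) c i ≤
      (2 / δ) * (w m s (U c₀) c₀ i * Real.exp (δ * m i)) := by
    filter_upwards [hr, hU] with c hc hg i
    have h1 := w_le hA h0 hg hc i
    have h2 : m i ≤ (2 / δ) * Real.exp (δ / 2 * m i) := by
      have h3 := Real.add_one_le_exp (δ / 2 * m i)
      rw [div_mul_eq_mul_div, le_div_iff₀ hδ]
      linarith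
    have h4 : Real.exp (2 * (δ / 4) * m i) * Real.exp (δ / 2 * m i) = Real.exp (δ * m i) := by
      rw [← Real.exp_add]
      congr 1
      ring
    calc m i * w m s (U c) c i
        ≤ ((2 / δ) * Real.exp (δ / 2 * m i)) *
            (w m s (U c₀) c₀ i * Real.exp (2 * (δ / 4) * m i)) :=
          mul_le_mul h2 h1 (w_pos _ _ _).le (by positivity)
      _ = (2 / δ) * (w m s (U c₀) c₀ i *
            (Real.exp (2 * (δ / 4) * m i) * Real.exp (δ / 2 * m i))) := by ring
      _ = _ := by rw [h4]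
  have hM : Tendsto (fun c => ∑' i, m i * w m s (U c) c i) (𝓝 c₀)
      (𝓝 (∑' i, m i * w m s (U c₀) c₀ i)) := by
    refine tendsto_tsum_of_dominated_convergence hb (fun i => (hwt i).const_mul (m i)) ?_
    filter_upwards [hdom] with c hc i
    rw [Real.norm_eq_abs, abs_of_nonneg (mul_nonneg (hA.m_pos i).le (w_pos _ _ _).le)]
    exact hc i
  have hS : Tendsto (fun c => ∑' i, s i * w m s (U c) c i) (𝓝 c₀)
      (𝓝 (∑' i, s i * w m s (U c₀) c₀ i)) := by
    refine tendsto_tsum_of_dominated_convergence hb (fun i => (hwt i).const_mul (s i)) ?_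
    filter_upwards [hdom] with c hc i
    rw [Real.norm_eq_abs, abs_of_nonneg (mul_nonneg (hA.s_pos i).le (w_pos _ _ _).le)]
    refine le_trans (mul_le_mul_of_nonneg_right ?_ (w_pos _ _ _).le) (hc i)
    have h1 := hA.one_le i
    have h2 := hA.le i
    linarith
  exact hS.div hM (M_pos hA h0).ne'

/-- the range of the speed -/
lemma range_abs {U : ℝ → ℝ} (hU : ∀ c, 0 < c → Good m s (U c) c) (h3 : ∃ i, 2 * s i < m i)
    (h2 : ∃ i, m i = 2 ∧ s i = 1) : ∃ v₀ : ℝ, 0 ≤ v₀ ∧ v₀ < 1 ∧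
      (∀ c, 0 < c → v₀ ≤ 2 * mu m s (U c) c) ∧
      (∀ α, v₀ < α → ∃ c, 0 < c ∧ 2 * mu m s (U c) c < α) ∧
      (∀ α, v₀ < α → α < 1 → ∃ c, 0 < c ∧ 2 * mu m s (U c) c = α) := by
  set F : ℝ → ℝ := fun c => 2 * mu m s (U c) c with hF
  have hFc : ContinuousOn F (Set.Ioi 0) := by
    intro c₀ hc₀
    have h1 : ∀ᶠ c in 𝓝 c₀, Good m s (U c) c :=
      (lt_mem_nhds (Set.mem_Ioi.1 hc₀)).mono fun c hc => hU c hc
    exact ((tendsto_mu hA (hU c₀ hc₀) h1).const_mul 2).mono_left nhdsWithin_le_nhds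
  have hF0 : ∀ c, 0 < c → 0 ≤ F c := fun c hc =>
    mul_nonneg (by norm_num) (mu_nonneg hA (hU c hc))
  have hF1 : ∀ c, 0 < c → F c < 1 := fun c hc => mu_lt hA (hU c hc) h3
  have hne : (F '' Set.Ioi 0).Nonempty := ⟨F 1, 1, by simp, rfl⟩
  have hbd : BddBelow (F '' Set.Ioi 0) := ⟨0, by
    rintro _ ⟨c, hc, rfl⟩
    exact hF0 c hc⟩
  have hup : ∀ α, α < 1 → ∃ c, 0 < c ∧ α < F c := by
    intro α hα
    by_contra hcon
    push Not at hcon
    obtain ⟨j, hj1, hj2⟩ := h2
    have hge : ∀ c, 0 < c → c ≤ U c := by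
      intro c hc
      have h4 : w m s (U c) c j ≤ 1 :=
        le_hasSum (hU c hc).one j fun i _ => (w_pos _ _ _).le
      unfold w at h4
      rw [Real.exp_le_one_iff, hj1, hj2] at h4
      linarith
    have hle : ∀ c, 1 ≤ c → U c ≤ U 1 + α * (c - 1) := by
      intro c hc
      have hc0 : 0 < c := by linarith
      have h4 := tangent_abs hA (hU c hc0) (hU 1 one_pos)
      have h5 : 2 * mu m s (U c) c ≤ α := hcon c hc0
      have h6 : 2 * mu m s (U c) c * (c - 1) ≤ α * (c - 1) :=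
        mul_le_mul_of_nonneg_right h5 (by linarith)
      have h7 : 2 * mu m s (U c) c * (1 - c) = -(2 * mu m s (U c) c * (c - 1)) := by ring
      linarith
    set c : ℝ := max 1 ((|U 1| + |α| + 1) / (1 - α)) with hc
    have h1α : 0 < 1 - α := by linarith
    have hc1 : 1 ≤ c := le_max_left _ _
    have hc2 : (|U 1| + |α| + 1) / (1 - α) ≤ c := le_max_right _ _
    rw [div_le_iff₀ h1α] at hc2
    have h4 := hge c (by linarith)
    have h5 := hle c hc1
    have h6 := le_abs_self (U 1)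
    have h7 := neg_abs_le α
    nlinarith
  refine ⟨sInf (F '' Set.Ioi 0), ?_, ?_, ?_, ?_, ?_⟩
  · refine le_csInf hne ?_
    rintro _ ⟨c, hc, rfl⟩
    exact hF0 c hc
  · exact lt_of_le_of_lt (csInf_le hbd ⟨1, by simp, rfl⟩) (hF1 1 one_pos)
  · intro c hc
    exact csInf_le hbd ⟨c, hc, rfl⟩
  · intro α hα
    obtain ⟨_, ⟨c, hc, rfl⟩, h4⟩ := exists_lt_of_csInf_lt hne hα
    exact ⟨c, hc, h4⟩
  · intro α hα hα1
    obtain ⟨_, ⟨c, hc, rfl⟩, h4⟩ := exists_lt_of_csInf_lt hne hα
    obtain ⟨c', hc', h5⟩ := hup α hα1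
    have h6 := isPreconnected_Ioi.intermediate_value (Set.mem_Ioi.2 hc) (Set.mem_Ioi.2 hc') hFc
    obtain ⟨c'', hc'', h7⟩ := h6 ⟨h4.le, h5.le⟩
    exact ⟨c'', hc'', h7⟩

end abs

/-! ### the blocks -/

/-- the blocks -/
abbrev Bl : Type := (Law.PI : Set PW)

/-- length of a block -/
noncomputable def lb (p : Bl) : ℝ := (ln p.1 : ℝ)

/-- span of a block -/
noncomputable def sb (p : Bl) : ℝ := ((X p.1.1 : ℤ) : ℝ)

lemma wt_eq (u c : ℝ) (p : Bl) : wt u c p.1 = w lb sb u c p := by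
  have h1 : X p.1.2 = X p.1.1 := (IsPIrr.pb p.2).span.symm
  unfold wt w lb sb
  rw [h1]
  congr 1
  ring

lemma adm : Adm lb sb := by
  refine ⟨fun p => ?_, fun p => ?_⟩
  · have h1 : 0 < X p.1.1 := IsPIrr.pos p.2
    unfold sb
    exact_mod_cast (show (1 : ℤ) ≤ X p.1.1 by omega)
  · have h1 : X p.1.1 = X p.1.2 := (IsPIrr.pb p.2).span
    have h2 := (abs_le.1 (abs_X_le p.1.1)).2
    have h3 := (abs_le.1 (abs_X_le p.1.2)).2
    unfold sb lb ln
    have h4 : 2 * X p.1.1 ≤ (p.1.1.length : ℤ) + p.1.2.length := by omega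
    exact_mod_cast h4

lemma wp_univ (u c : ℝ) (p : PW) : Law.wp Set.univ u c p = ENNReal.ofReal (wt u c p) := by
  rw [Law.wp_eq, if_pos ⟨Set.mem_univ _, Set.mem_univ _⟩]

lemma hasSum_wt {u c : ℝ} (h : mass (Law.wp Set.univ u c) Law.PI ≠ ⊤) :
    HasSum (fun p : Bl => wt u c p.1) (mass (Law.wp Set.univ u c) Law.PI).toReal := by
  have h0 : mass (Law.wp Set.univ u c) Law.PI =
      ∑' p : Bl, ENNReal.ofReal (wt u c p.1) := by
    unfold mass
    exact tsum_congr fun p => wp_univ u c p.1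
  rw [h0] at h ⊢
  have h1 := ENNReal.hasSum_toReal h
  rw [← ENNReal.tsum_toReal_eq (fun p => ENNReal.ofReal_ne_top)] at h1
  refine (congrArg (fun f => HasSum f _) (funext fun p => ?_)).mpr h1
  exact (ENNReal.toReal_ofReal (wt_pos _ _ _).le).symm

lemma good {u c : ℝ} (hP : Params u c) : Good lb sb u c := by
  have hP' := paramsA_univ hP
  refine ⟨?_, ?_⟩
  · have h1 := Law.mass_PI isClass_univ hP'
    have h2 := hasSum_wt (u := u) (c := c) (by rw [h1]; exact ENNReal.one_ne_top)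
    rw [h1, ENNReal.toReal_one] at h2
    simpa only [wt_eq] using h2
  · obtain ⟨δ, hδ, h⟩ := Law.mass_PI_tail isClass_univ hP'
    refine ⟨δ, hδ, ?_⟩
    have h2 := (hasSum_wt h).summable
    refine (congrArg Summable (funext fun p => ?_)).mpr h2
    rw [wt_eq]
    unfold w
    rw [← Real.exp_add]
    congr 1
    ring

open Classical in
/-- a sum over lengths and heights is a sum over the blocks -/
lemma tsum_mkf {u c : ℝ} {ω : PW → ℝ} (h : Summable (fun p : Bl => ω p.1 * wt u c p.1)) :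
    ∑' x : ℕ × ℤ, mkf Set.univ u c ω x.1 x.2 = ∑' p : Bl, ω p.1 * wt u c p.1 := by
  have h1 : HasSum (Law.PI.indicator (fun p : PW => ω p * wt u c p))
      (∑' p : Bl, ω p.1 * wt u c p.1) := hasSum_subtype_iff_indicator.1 h.hasSum
  have h2 := h1.tsum_fiberwise (fun p : PW => ((ln p, ht p) : ℕ × ℤ))
  refine HasSum.tsum_eq ?_
  refine (congrArg (fun f => HasSum f _) (funext fun x => ?_)).mpr h2
  obtain ⟨m, d⟩ := x
  rw [tsum_subtype ((fun p : PW => ((ln p, ht p) : ℕ × ℤ)) ⁻¹' {(m, d)})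
    (fun p => Law.PI.indicator (fun p : PW => ω p * wt u c p) p)]
  rw [tsum_eq_sum (s := pwN m)]
  · unfold mkf blk
    rw [Finset.filter_filter, Finset.sum_filter]
    refine Finset.sum_congr rfl fun p hp => ?_
    have hp' : ln p = m := mem_pwN.1 hp
    by_cases hd : ht p = d
    · rw [Set.indicator_of_mem (show p ∈ (fun p : PW => ((ln p, ht p) : ℕ × ℤ)) ⁻¹' {(m, d)} from by
        simp [hp', hd])]
      by_cases hI : IsPIrr p
      · rw [Set.indicator_of_mem (show p ∈ Law.PI from hI),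
          if_pos ⟨⟨hI, Set.mem_univ _, Set.mem_univ _⟩, hd⟩]
      · rw [Set.indicator_of_notMem (show p ∉ Law.PI from hI), if_neg (fun hh => hI hh.1.1)]
    · rw [Set.indicator_of_notMem, if_neg (fun hh => hd hh.2)]
      intro hh
      simp only [Set.mem_preimage, Set.mem_singleton_iff, Prod.mk.injEq] at hh
      exact hd hh.2
  · intro p hp
    rw [Set.indicator_of_notMem]
    intro hh
    simp only [Set.mem_preimage, Set.mem_singleton_iff, Prod.mk.injEq] at hh
    exact hp (mem_pwN.2 hh.1)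

open Classical in
lemma mkf_ln (A : Set Word) (u c : ℝ) (m : ℕ) (d : ℤ) :
    mkf A u c one m d * (m : ℝ) = mkf A u c (fun p => (ln p : ℝ)) m d := by
  unfold mkf
  rw [Finset.sum_mul]
  refine Finset.sum_congr rfl fun p hp => ?_
  have h1 : ln p = m := (mem_blk.1 (Finset.mem_filter.1 hp).1).1
  simp only [one, one_mul, h1]
  ring

lemma muA_eq {u c : ℝ} (hG : Good lb sb u c) : muA Set.univ u c = mu lb sb u c := by
  unfold muA mean mu
  have e1 : ∀ p : Bl, spn p.1 * wt u c p.1 = sb p * w lb sb u c p := by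
    intro p
    have h1 := adm.s_pos p
    rw [wt_eq]
    congr 1
    unfold spn
    exact abs_of_pos h1
  have e2 : ∀ p : Bl, (ln p.1 : ℝ) * wt u c p.1 = lb p * w lb sb u c p := by
    intro p
    rw [wt_eq]
    rfl
  congr 1
  · rw [tsum_mkf]
    · exact tsum_congr e1
    · exact (summable_congr e1).2 (sum_s adm hG)
  · have h1 : ∀ x : ℕ × ℤ, mkf Set.univ u c one x.1 x.2 * (x.1 : ℝ) =
        mkf Set.univ u c (fun p => (ln p : ℝ)) x.1 x.2 := fun x => mkf_ln _ _ _ _ _
    rw [tsum_congr h1, tsum_mkf]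
    · exact tsum_congr e2
    · exact (summable_congr e2).2 (sum_m adm hG)

end Speed

open Speed in
/-- the tangent lines of the free energy lie below its graph -/
theorem tangent {u c u' c' : ℝ} (hP : Params u c) (hP' : Params u' c') :
    2 * muA Set.univ u c * (c' - c) ≤ u' - u := by
  rw [muA_eq (good hP)]
  exact tangent_abs adm (good hP) (good hP')

open Speed in
theorem speed_range : ∃ v₀ : ℝ, 0 ≤ v₀ ∧ v₀ < 1 ∧
    (∀ u c : ℝ, 0 < c → Params u c → v₀ ≤ 2 * muA Set.univ u c) ∧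
    (∀ α, v₀ < α → ∃ u c : ℝ, 0 < c ∧ Params u c ∧ 2 * muA Set.univ u c < α) ∧
    (∀ α, v₀ < α → α < 1 → ∃ u c : ℝ, 0 < c ∧ Params u c ∧ 2 * muA Set.univ u c = α) := by
  have hex : ∀ c : ℝ, ∃ u : ℝ, 0 < c → Params u c := by
    intro c
    by_cases hc : 0 < c
    · obtain ⟨u, hu⟩ := exists_params (f := 2 * c) (by positivity)
      refine ⟨u, fun _ => ?_⟩
      rwa [show 2 * c / 2 = c by ring] at hu
    · exact ⟨0, fun h => absurd h hc⟩
  choose U hU using hex
  have hEE : IsPIrr ([Dir.E], [Dir.E]) :=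
    Law.isPIrr_of_X_one ⟨isBr_singleton_E, isBr_singleton_E, rfl⟩ (by simp [Dir.dx])
  have hEN : IsPIrr ([Dir.E, Dir.N], [Dir.E]) :=
    Law.isPIrr_of_X_one ⟨Law.isBr_EN, isBr_singleton_E, by simp [Dir.dx]⟩ (by simp [Dir.dx])
  obtain ⟨v₀, h0, h1, h2, h3, h4⟩ := range_abs adm (U := U) (fun c hc => good (hU c hc))
    ⟨⟨_, hEN⟩, by norm_num [sb, lb, ln, Dir.dx]⟩
    ⟨⟨_, hEE⟩, by norm_num [lb, ln], by norm_num [sb, Dir.dx]⟩
  refine ⟨v₀, h0, h1, ?_, ?_, ?_⟩
  · intro u c hc hP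
    rw [muA_eq (good hP), uniq adm (good (hU c hc)) (good hP)]
    exact h2 c hc
  · intro α hα
    obtain ⟨c, hc, h5⟩ := h3 α hα
    refine ⟨U c, c, hc, hU c hc, ?_⟩
    rw [muA_eq (good (hU c hc))]
    exact h5
  · intro α hα hα1
    obtain ⟨c, hc, h5⟩ := h4 α hα hα1
    refine ⟨U c, c, hc, hU c hc, ?_⟩
    rw [muA_eq (good (hU c hc))]
    exact h5

end Pool.Agent.SAPY
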