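import Pool.Agent.SAPY.Defs
import Pool.Agent.SAPX.Models
import Pool.Agent.SAPY.Speed

/-!
The threshold for exponential rarity of the polygons of macroscopic width.
-/

namespace Pool.Agent.SAPY

open Filter Topology Pool.Agent.SAPX Pool.Agent.SAPF Pool.Agent.SAPK

namespace Rare

section can
variable {A : Set Word} {n : ℕ} {p : PW}

lemma X_pfl (l : List PW) : X (pfl l).1 = (l.map (fun q => X q.1)).sum := by
  induction l with
  | nil => simp
  | cons q l ih => simp [ih]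

lemma sum_spn (l : List PW) (hl : ∀ q ∈ l, IsPIrr q) :
    (l.map spn).sum = (((l.map (fun q => X q.1)).sum : ℤ) : ℝ) := by
  induction l with
  | nil => simp
  | cons q l ih =>
    have hpos : (0 : ℝ) < ((X q.1 : ℤ) : ℝ) := by exact_mod_cast (hl q (by simp)).pos
    rw [List.map_cons, List.map_cons, List.sum_cons, List.sum_cons,
      ih fun r hr => hl r (by simp [hr])]
    unfold spn
    push_cast
    rw [abs_of_pos hpos]

lemma tot_spn (hp : p ∈ can A n) : tot spn p = ((X p.1 : ℤ) : ℝ) := by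
  obtain ⟨h1, h2, -, -⟩ := mem_can.1 hp
  have h3 := blocks_spec h2.pb
  have h4 := X_pfl (blocks p)
  rw [h3.2] at h4
  unfold tot
  rw [sum_spn _ h3.1, ← h4]

lemma wt_can (hp : p ∈ can A n) (u c : ℝ) :
    wt u c p = Real.exp (-(u * (2 * n + 2)) + 2 * c * (X p.1 : ℝ)) := by
  obtain ⟨h1, h2, -, -⟩ := mem_can.1 hp
  unfold wt
  rw [h1, ← h2.pb.span]
  congr 1
  push_cast
  ring

lemma X_pos_can (hp : p ∈ can A n) : 0 < X p.1 := by
  obtain ⟨h1, h2, -, -⟩ := mem_can.1 hp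
  by_contra h
  have h0 : X p.1 = 0 := le_antisymm (not_lt.1 h) h2.pb.br1.X_nonneg
  exact h2.ne (SAPX.IsBr.eq_nil_of_X h2.pb.br1 h0)

lemma X_le_can (hp : p ∈ can A n) : X p.1 ≤ n + 1 := by
  obtain ⟨h1, h2, -, -⟩ := mem_can.1 hp
  have ha := abs_le.1 (abs_X_le p.1)
  have hb := abs_le.1 (abs_X_le p.2)
  have hs := h2.pb.span
  unfold ln at h1
  omega

lemma mkf_ln (A : Set Word) (u c : ℝ) (m : ℕ) (d : ℤ) :
    mkf A u c (fun q => (ln q : ℝ)) m d = mkf A u c one m d * m := by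
  classical
  unfold mkf
  rw [Finset.sum_mul]
  refine Finset.sum_congr rfl fun q hq => ?_
  rw [Finset.mem_filter, mem_blk] at hq
  simp only [one]
  rw [hq.1.1]
  ring

lemma mean_eq (A : Set Word) (u c : ℝ) :
    ∑' p : ℕ × ℤ, mkf A u c (fun q => (ln q : ℝ)) p.1 p.2 = mean (mkf A u c one) := by
  unfold mean
  exact tsum_congr fun p => mkf_ln A u c p.1 p.2

lemma tendsto_N : Tendsto (fun n : ℕ => ((2 * (n + 1) : ℕ) : ℝ)) atTop atTop :=
  tendsto_natCast_atTop_atTop.comp SAPX.tendsto_N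

end can

section sums
variable {A : Set Word} (hA : IsClass A) {u c : ℝ} (hf : FreeLaw (mkf A u c one))
include hA hf

lemma lims : ∃ k : ℝ, 0 < k ∧ 0 < mean (mkf A u c one) ∧
    0 < ∑' p : ℕ × ℤ, mkf A u c spn p.1 p.2 ∧
    Tendsto (fun n : ℕ => ((2 * (n + 1) : ℕ) : ℝ) ^ (3 / 2 : ℝ) *
      ∑ p ∈ can A n, wt u c p) atTop (𝓝 (k * mean (mkf A u c one))) ∧
    Tendsto (fun n : ℕ => ((2 * (n + 1) : ℕ) : ℝ) ^ (1 / 2 : ℝ) *
      ∑ p ∈ can A n, wt u c p * (X p.1 : ℝ)) atTop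
        (𝓝 (k * ∑' p : ℕ × ℤ, mkf A u c spn p.1 p.2)) := by
  obtain ⟨k, hk, htot⟩ := tot_lim hA hf
  have z1 := htot 1 (fun q => (ln q : ℝ)) (fun p => by positivity) (fun p _ => by simp)
    (fun q _ => by simp only [ln]; push_cast; ring)
  have hS : 0 < ∑' p : ℕ × ℤ, mkf A u c (fun q => (ln q : ℝ)) p.1 p.2 :=
    sum_mkf_pos hA hf (q := 1) (fun p => by positivity) (fun p _ => by simp) (by simp [ln])
  rw [mean_eq] at z1 hS
  have z2 := htot 1 spn (fun p => abs_nonneg _)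
    (fun p hp => sp_le hp) (fun q hq => by unfold spn; simp only; rw [hq.pb.span])
  have hS₁ : 0 < ∑' p : ℕ × ℤ, mkf A u c spn p.1 p.2 := sum_mkf_pos hA hf (q := 1)
    (fun p => abs_nonneg _) (fun p hp => sp_le hp) (by simp [spn, Dir.dx])
  refine ⟨k, hk, hS, hS₁, z1.congr fun n => ?_, z2.congr fun n => ?_⟩
  · have h1 : ∑ p ∈ can A n, wt u c p * tot (fun q => (ln q : ℝ)) p =
        ((2 * (n + 1) : ℕ) : ℝ) * ∑ p ∈ can A n, wt u c p := by
      rw [Finset.mul_sum]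
      refine Finset.sum_congr rfl fun p hp => ?_
      rw [tot_ln hp, mul_comm]
    rw [h1, ← mul_assoc]
    congr 1
    have hpos : (0 : ℝ) < ((2 * (n + 1) : ℕ) : ℝ) := by positivity
    nth_rewrite 2 [← Real.rpow_one ((2 * (n + 1) : ℕ) : ℝ)]
    rw [← Real.rpow_add hpos]
    norm_num
  · congr 1
    refine Finset.sum_congr rfl fun p hp => ?_
    rw [tot_spn hp]

lemma muA_pos : 0 < muA A u c := by
  obtain ⟨k, -, h1, h2, -⟩ := lims hA hf
  exact div_pos h2 h1

end sums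

lemma poly_exp {a : ℝ} (ha : 0 < a) (C : ℝ) :
    Tendsto (fun n : ℕ => C * (((2 * (n + 1) : ℕ) : ℝ) ^ 2 * Real.exp (-(a * n)))) atTop
      (𝓝 0) := by
  have h1 : Tendsto (fun n : ℕ => a * ((n : ℝ) + 1)) atTop atTop := by
    refine Tendsto.const_mul_atTop ha ?_
    exact tendsto_atTop_add_const_right _ _ tendsto_natCast_atTop_atTop
  have h2 := ((Real.tendsto_pow_mul_exp_neg_atTop_nhds_zero 2).comp h1).const_mul
    (C * (Real.exp a * (4 / a ^ 2)))
  rw [mul_zero] at h2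
  refine h2.congr fun n => ?_
  simp only [Function.comp]
  have h3 : Real.exp (-(a * n)) = Real.exp a * Real.exp (-(a * ((n : ℝ) + 1))) := by
    rw [← Real.exp_add]; congr 1; ring
  rw [h3]
  push_cast
  field_simp
  ring

section cards
variable {A : Set Word} {n : ℕ} {u c : ℝ}

open Classical in
lemma card_filter_le (hc : 0 ≤ c) (α : ℝ) :
    (((can A n).filter (fun p => α * n + 1 ≤ (X p.1 : ℝ))).card : ℝ) *
      Real.exp (-(u * (2 * n + 2)) + 2 * c * (α * n + 1)) ≤ ∑ p ∈ can A n, wt u c p := by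
  rw [← nsmul_eq_mul, ← Finset.sum_const]
  refine (Finset.sum_le_sum fun p hp => ?_).trans
    (Finset.sum_le_sum_of_subset_of_nonneg (Finset.filter_subset _ _)
      fun p _ _ => (wt_pos u c p).le)
  rw [Finset.mem_filter] at hp
  rw [wt_can hp.1]
  have := mul_le_mul_of_nonneg_left hp.2 (show 0 ≤ 2 * c by linarith)
  exact Real.exp_le_exp.2 (by linarith)

lemma sum_le_card (hc : 0 ≤ c) {S : Finset PW} (hS : S ⊆ can A n) :
    ∑ p ∈ S, wt u c p ≤
      (S.card : ℝ) * Real.exp (-(u * (2 * n + 2)) + 2 * c * (n + 1)) := by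
  rw [← nsmul_eq_mul, ← Finset.sum_const]
  refine Finset.sum_le_sum fun p hp => ?_
  rw [wt_can (hS hp)]
  have h1 : ((X p.1 : ℤ) : ℝ) ≤ n + 1 := by exact_mod_cast X_le_can (hS hp)
  have := mul_le_mul_of_nonneg_left h1 (show 0 ≤ 2 * c by linarith)
  exact Real.exp_le_exp.2 (by linarith)

lemma card_le_sum (hc : 0 ≤ c) :
    ((can A n).card : ℝ) * Real.exp (-(u * (2 * n + 2))) ≤ ∑ p ∈ can A n, wt u c p := by
  rw [← nsmul_eq_mul, ← Finset.sum_const]
  refine Finset.sum_le_sum fun p hp => ?_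
  rw [wt_can hp]
  have h1 : (0 : ℝ) ≤ ((X p.1 : ℤ) : ℝ) := by exact_mod_cast (X_pos_can hp).le
  have := mul_nonneg (show 0 ≤ 2 * c by linarith) h1
  exact Real.exp_le_exp.2 (by linarith)

end cards

end Rare

open Rare

theorem part_lim {A : Set Word} (hA : IsClass A) {u c : ℝ} (hf : FreeLaw (mkf A u c one)) :
    ∃ κ > 0, Tendsto (fun n : ℕ => ((2 * (n + 1) : ℕ) : ℝ) ^ (3 / 2 : ℝ) *
      ∑ p ∈ can A n, wt u c p) atTop (𝓝 κ) := by
  obtain ⟨k, hk, h1, -, h2, -⟩ := lims hA hf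
  exact ⟨_, mul_pos hk h1, h2⟩

theorem mean_width {A : Set Word} (hA : IsClass A) {u c : ℝ} (hf : FreeLaw (mkf A u c one)) :
    Tendsto (fun n : ℕ => (∑ p ∈ can A n, wt u c p * (X p.1 : ℝ)) / (∑ p ∈ can A n, wt u c p) /
      ((2 * (n + 1) : ℕ) : ℝ)) atTop (𝓝 (muA A u c)) := by
  obtain ⟨k, hk, h1, h2, h3, h4⟩ := lims hA hf
  have h5 := h4.div h3 (mul_pos hk h1).ne'
  have h6 : k * (∑' p : ℕ × ℤ, mkf A u c spn p.1 p.2) / (k * mean (mkf A u c one)) =
      muA A u c := by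
    unfold muA
    rw [mul_div_mul_left _ _ hk.ne']
  rw [h6] at h5
  refine h5.congr fun n => ?_
  simp only [Pi.div_apply]
  have hpos : (0 : ℝ) < ((2 * (n + 1) : ℕ) : ℝ) := by positivity
  have h7 : ((2 * (n + 1) : ℕ) : ℝ) ^ (3 / 2 : ℝ) =
      ((2 * (n + 1) : ℕ) : ℝ) ^ (1 / 2 : ℝ) * ((2 * (n + 1) : ℕ) : ℝ) := by
    nth_rewrite 3 [← Real.rpow_one ((2 * (n + 1) : ℕ) : ℝ)]
    rw [← Real.rpow_add hpos]
    norm_num
  rw [h7, mul_assoc, mul_div_mul_left _ _ (Real.rpow_pos_of_pos hpos _).ne', div_div,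
    mul_comm (∑ p ∈ can A n, wt u c p)]

open Classical in
theorem rare_of_gt {u c α : ℝ} (hc : 0 < c) (hP : Params u c)
    (h : 2 * muA Set.univ u c < α) : ∃ ε > 0, ∀ᶠ n : ℕ in atTop,
      (((can Set.univ n).filter (fun p => α * n + 1 ≤ (X p.1 : ℝ))).card : ℝ) ≤
        Real.exp (-ε * n) * ((can Set.univ n).card : ℝ) := by
  have hf := freeLaw isClass_univ (paramsA_univ hP)
  have hμ := muA_pos isClass_univ hf
  set μ := muA Set.univ u c with hμdef
  obtain ⟨η, hη⟩ : ∃ η, η = α - 2 * μ := ⟨_, rfl⟩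
  have hη0 : 0 < η := by rw [hη]; linarith
  obtain ⟨u', hP'⟩ := exists_params (f := c * η / 2) (by positivity)
  obtain ⟨c', hc'⟩ : ∃ c', c' = c * η / 2 / 2 := ⟨_, rfl⟩
  rw [← hc'] at hP'
  have hc'0 : 0 < c' := by rw [hc']; positivity
  have hf' := freeLaw isClass_univ (paramsA_univ hP')
  obtain ⟨κ, hκ, h1⟩ := part_lim isClass_univ hf
  obtain ⟨κ', hκ', h2⟩ := part_lim isClass_univ hf'
  have ht := tangent hP hP'
  rw [← hμdef] at ht
  have h3 := poly_exp (a := c * η) (by positivity)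
    ((κ + 1) * (2 / κ') * Real.exp (4 * μ * c + 2 * c'))
  refine ⟨c * η / 2, by positivity, ?_⟩
  filter_upwards [h1.eventually (gt_mem_nhds (show κ < κ + 1 by linarith)),
    h2.eventually (lt_mem_nhds (show κ' / 2 < κ' by linarith)),
    h3.eventually (gt_mem_nhds one_pos)] with n k1 k2 k3
  have hN : (1 : ℝ) ≤ ((2 * (n + 1) : ℕ) : ℝ) := by
    have : 1 ≤ 2 * (n + 1) := by omega
    exact_mod_cast this
  have hN1 : (1 : ℝ) ≤ ((2 * (n + 1) : ℕ) : ℝ) ^ (3 / 2 : ℝ) :=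
    Real.one_le_rpow hN (by norm_num)
  have hN2 : ((2 * (n + 1) : ℕ) : ℝ) ^ (3 / 2 : ℝ) ≤ ((2 * (n + 1) : ℕ) : ℝ) ^ 2 := by
    rw [← Real.rpow_natCast]
    exact Real.rpow_le_rpow_of_exponent_le hN (by norm_num)
  have hT : 0 ≤ ∑ p ∈ can Set.univ n, wt u c p := Finset.sum_nonneg fun p _ => (wt_pos u c p).le
  have hT' : 0 ≤ ∑ p ∈ can Set.univ n, wt u' c' p :=
    Finset.sum_nonneg fun p _ => (wt_pos u' c' p).le
  have a1 := card_filter_le (A := Set.univ) (n := n) (u := u) hc.le α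
  have a2 := sum_le_card (A := Set.univ) (n := n) (u := u') hc'0.le (Finset.Subset.refl _)
  have a3 := le_mul_of_one_le_left hT hN1
  set F : ℝ := (((can Set.univ n).filter (fun p => α * n + 1 ≤ (X p.1 : ℝ))).card : ℝ) with hF
  set D : ℝ := ((can Set.univ n).card : ℝ) with hD
  have hD0 : 0 ≤ D := by rw [hD]; positivity
  set a : ℝ := Real.exp (-(u * (2 * n + 2)) + 2 * c * (α * n + 1)) with ha
  set b : ℝ := Real.exp (-(u' * (2 * n + 2)) + 2 * c' * (n + 1)) with hb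
  have ha0 : 0 < a := Real.exp_pos _
  have hE : b ≤ Real.exp (-(c * η / 2) * n) * a *
      (Real.exp (4 * μ * c + 2 * c') * Real.exp (-(c * η * n))) := by
    rw [ha, hb, ← Real.exp_add, ← Real.exp_add, ← Real.exp_add]
    apply Real.exp_le_exp.2
    have hn : (0 : ℝ) ≤ n := Nat.cast_nonneg n
    have e1 := mul_le_mul_of_nonneg_right ht (show (0 : ℝ) ≤ 2 * n + 2 by linarith)
    have e2 : α = η + 2 * μ := by rw [hη]; ring
    have e3 : 0 ≤ μ * c' * n := by positivity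
    have e4 : 0 ≤ μ * c' := by positivity
    rw [e2]
    have e5 : c * η = 4 * c' := by rw [hc']; ring
    nlinarith [e1, e3, e4, e5, mul_nonneg hc.le hn]
  have hb2 : (κ + 1) * (2 / κ') * ((2 * (n + 1) : ℕ) : ℝ) ^ 2 * b ≤
      Real.exp (-(c * η / 2) * n) * a := by
    calc (κ + 1) * (2 / κ') * ((2 * (n + 1) : ℕ) : ℝ) ^ 2 * b
        ≤ (κ + 1) * (2 / κ') * ((2 * (n + 1) : ℕ) : ℝ) ^ 2 *
          (Real.exp (-(c * η / 2) * n) * a *
            (Real.exp (4 * μ * c + 2 * c') * Real.exp (-(c * η * n)))) :=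
          mul_le_mul_of_nonneg_left hE (by positivity)
      _ = Real.exp (-(c * η / 2) * n) * a * ((κ + 1) * (2 / κ') *
          Real.exp (4 * μ * c + 2 * c') *
            (((2 * (n + 1) : ℕ) : ℝ) ^ 2 * Real.exp (-(c * η * n)))) := by ring
      _ ≤ Real.exp (-(c * η / 2) * n) * a * 1 :=
          mul_le_mul_of_nonneg_left k3.le (by positivity)
      _ = _ := mul_one _
  have hc2 : κ' / 2 ≤ ((2 * (n + 1) : ℕ) : ℝ) ^ 2 * (D * b) := by
    refine k2.le.trans ?_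
    exact mul_le_mul hN2 a2 hT' (by positivity)
  have key : F * a ≤ Real.exp (-(c * η / 2) * n) * D * a := by
    calc F * a ≤ κ + 1 := a1.trans (a3.trans k1.le)
      _ = (κ + 1) * (2 / κ') * (κ' / 2) := by field_simp
      _ ≤ (κ + 1) * (2 / κ') * (((2 * (n + 1) : ℕ) : ℝ) ^ 2 * (D * b)) :=
          mul_le_mul_of_nonneg_left hc2 (by positivity)
      _ = (κ + 1) * (2 / κ') * ((2 * (n + 1) : ℕ) : ℝ) ^ 2 * b * D := by ring
      _ ≤ Real.exp (-(c * η / 2) * n) * a * D := mul_le_mul_of_nonneg_right hb2 hD0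
      _ = _ := by ring
  exact le_of_mul_le_mul_right key ha0

open Classical in
theorem not_rare_of_lt {α : ℝ} (h : ∀ ε > 0, ∃ u c : ℝ, 0 < c ∧ c < ε ∧ Params u c ∧
    α < 2 * muA Set.univ u c) : ¬ ∃ ε > 0, ∀ᶠ n : ℕ in atTop,
      (((can Set.univ n).filter (fun p => α * n + 1 ≤ (X p.1 : ℝ))).card : ℝ) ≤
        Real.exp (-ε * n) * ((can Set.univ n).card : ℝ) := by
  rintro ⟨ε, hε, hev⟩
  obtain ⟨u, c, hc, hcε, hP, hα⟩ := h (ε / 4) (by positivity)
  have hf := freeLaw isClass_univ (paramsA_univ hP)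
  have hμ := muA_pos isClass_univ hf
  set μ := muA Set.univ u c with hμdef
  obtain ⟨β, hβ⟩ : ∃ β, β = max α 0 := ⟨_, rfl⟩
  have hβμ : β < 2 * μ := by rw [hβ]; exact max_lt hα (by linarith)
  have hβα : α ≤ β := by rw [hβ]; exact le_max_left _ _
  have hβ0 : 0 ≤ β := by rw [hβ]; exact le_max_right _ _
  obtain ⟨ρ, hρ⟩ : ∃ ρ, ρ = (2 * μ - β) / 4 := ⟨_, rfl⟩
  have hρ0 : 0 < ρ := by rw [hρ]; linarith
  obtain ⟨κ, hκ, h1⟩ := part_lim isClass_univ hf
  have h2 := mean_width isClass_univ hf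
  have h3 : Tendsto (fun n : ℕ => Real.exp (2 * c - ε / 2 * n)) atTop (𝓝 0) := by
    refine Real.tendsto_exp_atBot.comp ?_
    have h5 : Tendsto (fun n : ℕ => ε / 2 * (n : ℝ)) atTop atTop :=
      Tendsto.const_mul_atTop (by positivity) tendsto_natCast_atTop_atTop
    have h6 := tendsto_atBot_add_const_left atTop (2 * c) (tendsto_neg_atTop_atBot.comp h5)
    exact h6.congr fun n => by simp only [Function.comp]; ring
  have h4 : Tendsto (fun n : ℕ => 1 / ((n : ℝ) + 1)) atTop (𝓝 0) :=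
    tendsto_one_div_add_atTop_nhds_zero_nat
  obtain ⟨n, k1, k2, k3, k4, k5⟩ := (hev.and ((h1.eventually (lt_mem_nhds hκ)).and
    ((h2.eventually (lt_mem_nhds (show μ - ρ < μ by linarith))).and
      ((h3.eventually (gt_mem_nhds hρ0)).and (h4.eventually (gt_mem_nhds hρ0)))))).exists
  have hn : (0 : ℝ) ≤ n := Nat.cast_nonneg n
  have hNpos : (0 : ℝ) < ((2 * (n + 1) : ℕ) : ℝ) := by positivity
  have hT : 0 < ∑ p ∈ can Set.univ n, wt u c p :=
    pos_of_mul_pos_right k2 (Real.rpow_pos_of_pos hNpos _).le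
  set T : ℝ := ∑ p ∈ can Set.univ n, wt u c p with hTdef
  set S := (can Set.univ n).filter (fun p => α * n + 1 ≤ (X p.1 : ℝ)) with hS
  have b1 := sum_le_card (A := Set.univ) (n := n) (u := u) hc.le (S := S)
    (Finset.filter_subset _ _)
  have b2 := card_le_sum (A := Set.univ) (n := n) (u := u) (c := c) hc.le
  rw [← hTdef] at b2
  set W : ℝ := ∑ p ∈ S, wt u c p with hW
  have b3 : ∑ p ∈ can Set.univ n, wt u c p * (X p.1 : ℝ) ≤ (β * n + 1) * T + (n + 1) * W := by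
    rw [hTdef, hW, hS, Finset.sum_filter, Finset.mul_sum, Finset.mul_sum,
      ← Finset.sum_add_distrib]
    refine Finset.sum_le_sum fun p hp => ?_
    have w0 := wt_pos u c p
    have x1 : ((X p.1 : ℤ) : ℝ) ≤ n + 1 := by exact_mod_cast X_le_can hp
    split_ifs with hx
    · have : 0 ≤ (β * n + 1) * wt u c p := by positivity
      nlinarith
    · rw [not_le] at hx
      have : α * n ≤ β * n := mul_le_mul_of_nonneg_right hβα hn
      nlinarith
  have b4 : (μ - ρ) * (2 * (n + 1)) * T < (β * n + 1) * T + (n + 1) * W := by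
    refine lt_of_lt_of_le ?_ b3
    rw [lt_div_iff₀ hNpos, lt_div_iff₀ hT] at k3
    refine lt_of_eq_of_lt ?_ k3
    push_cast
    ring
  have b5 : 1 ≤ ρ * (n + 1) := by
    rw [div_lt_iff₀ (by positivity)] at k5
    exact k5.le
  have b6 : ρ * T ≤ W := by
    have e1 : (n + 1) * (ρ * T) ≤ (n + 1) * W := by
      have e2 : 4 * ρ = 2 * μ - β := by rw [hρ]; ring
      have e3 : β * n + 1 ≤ β * (n + 1) + ρ * (n + 1) := by linarith
      have e4 := mul_le_mul_of_nonneg_right e3 hT.le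
      have e5 : (n + 1) * (ρ * T) = (2 * μ - β - 3 * ρ) * (n + 1) * T := by rw [← e2]; ring
      rw [e5]
      nlinarith [e4, b4]
    exact le_of_mul_le_mul_left e1 (by positivity)
  have hcard : 0 < ((can Set.univ n).card : ℝ) := by
    rw [Nat.cast_pos, Finset.card_pos, Finset.nonempty_iff_ne_empty]
    intro h0
    rw [hTdef, h0, Finset.sum_empty] at hT
    exact lt_irrefl _ hT
  have b7 : ρ * (((can Set.univ n).card : ℝ) * Real.exp (-(u * (2 * n + 2)))) ≤
      Real.exp (-ε * n) * ((can Set.univ n).card : ℝ) *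
        Real.exp (-(u * (2 * n + 2)) + 2 * c * (n + 1)) :=
    calc _ ≤ ρ * T := mul_le_mul_of_nonneg_left b2 hρ0.le
      _ ≤ W := b6
      _ ≤ _ := b1
      _ ≤ _ := mul_le_mul_of_nonneg_right k1 (Real.exp_pos _).le
  have b8 : ρ ≤ Real.exp (2 * c - ε / 2 * n) := by
    have e1 : Real.exp (-ε * n) * ((can Set.univ n).card : ℝ) *
        Real.exp (-(u * (2 * n + 2)) + 2 * c * (n + 1)) =
        Real.exp (-ε * n + 2 * c * (n + 1)) * (((can Set.univ n).card : ℝ) *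
          Real.exp (-(u * (2 * n + 2)))) := by
      rw [Real.exp_add, Real.exp_add]; ring
    rw [e1] at b7
    refine (le_of_mul_le_mul_right b7 (by positivity)).trans (Real.exp_le_exp.2 ?_)
    nlinarith
  exact absurd k4 (not_lt.2 b8)

end Pool.Agent.SAPY
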