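import Pool.Agent.SAPY.FixR
import Pool.Agent.SAPY.Speed
import Pool.Agent.SAPY.Rare
import Pool.Agent.SAPX.Models

/-!
Final assembly: self-avoiding polygons of given perimeter and given width.
-/

namespace Pool.Agent.SAPY

open Filter Topology Pool.Agent.SAPX Pool.Agent.SAPF Pool.Agent.SAPK

/-- mean area over a finite set of polygons -/
noncomputable def mArea {m : ℕ} (S : Set (ZMod m → ℤ × ℤ)) : ℝ :=
  (∑ᶠ v ∈ S, (area v : ℝ)) / (S.ncard : ℝ)

/-- polygons of perimeter `2 * n` and width at least `α * n` are exponentially rare -/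
def RareX (α : ℝ) : Prop := ∃ ε > 0, ∀ᶠ n : ℕ in atTop,
  ({v : ZMod (2 * n) → ℤ × ℤ | IsSAP (2 * n) v ∧ α * n ≤ width v}.ncard : ℝ) ≤
    Real.exp (-ε * n) * ({v : ZMod (2 * n) → ℤ × ℤ | IsSAP (2 * n) v}.ncard : ℝ)

lemma width_poly {A : Set Word} {n : ℕ} (hn : 2 ≤ n) {p : PW} (hp : p ∈ can A n) :
    width (poly n p) = X p.1 - 1 := by
  obtain ⟨ha, hE, -, -⟩ := isArcs_can hn hp
  have hX : X p.1 = 1 + width (poly n p) := by
    rw [← hE, X_cons, ha.Xa]; rfl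
  omega

lemma sum_width {n : ℕ} (hn : 2 ≤ n) (J : Set ℤ) (F : (ZMod (2 * n) → ℤ × ℤ) → ℝ)
    (hF : ∀ i v, F (rot i v) = F v) :
    ∑ᶠ v ∈ {v : ZMod (2 * n) → ℤ × ℤ | IsSAP (2 * n) v ∧ width v ∈ J}, F v =
      (2 * n : ℕ) * ∑ p ∈ canJ Set.univ n J, F (poly n p) := by
  classical
  have h1 := sum_SAc hn Set.univ (fun v => if width v ∈ J then F v else 0)
    (fun i v => by simp only [width_rot, hF])
  rw [SAc_univ hn] at h1
  have hfin := finite_SAP hn
  have hfin2 : {v : ZMod (2 * n) → ℤ × ℤ | IsSAP (2 * n) v ∧ width v ∈ J}.Finite :=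
    hfin.subset fun _ hv => hv.1
  have h2 : ∑ᶠ v ∈ {v : ZMod (2 * n) → ℤ × ℤ | IsSAP (2 * n) v ∧ width v ∈ J}, F v =
      ∑ᶠ v ∈ {v : ZMod (2 * n) → ℤ × ℤ | IsSAP (2 * n) v}, if width v ∈ J then F v else 0 := by
    rw [finsum_mem_eq_finite_toFinset_sum _ hfin2, finsum_mem_eq_finite_toFinset_sum _ hfin,
      ← Finset.sum_filter]
    congr 1
    ext v
    simp
  rw [h2, h1]
  congr 1
  unfold canJ
  rw [Finset.sum_filter]
  refine Finset.sum_congr rfl fun p hp => ?_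
  rw [width_poly hn hp]

lemma card_width {n : ℕ} (hn : 2 ≤ n) (J : Set ℤ) :
    ({v : ZMod (2 * n) → ℤ × ℤ | IsSAP (2 * n) v ∧ width v ∈ J}.ncard : ℝ) =
      (2 * n : ℕ) * ((canJ Set.univ n J).card : ℝ) := by
  have hfin2 : {v : ZMod (2 * n) → ℤ × ℤ | IsSAP (2 * n) v ∧ width v ∈ J}.Finite :=
    (finite_SAP hn).subset fun _ hv => hv.1
  have h1 := sum_width hn J (fun _ => 1) (fun _ _ => rfl)
  rw [finsum_mem_eq_finite_toFinset_sum _ hfin2] at h1
  rw [Set.ncard_eq_toFinset_card _ hfin2]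
  simpa using h1

lemma card_all {n : ℕ} (hn : 2 ≤ n) :
    ({v : ZMod (2 * n) → ℤ × ℤ | IsSAP (2 * n) v}.ncard : ℝ) =
      (2 * n : ℕ) * ((can Set.univ n).card : ℝ) := by
  have h1 := card_width hn Set.univ
  have h2 : canJ Set.univ n Set.univ = can Set.univ n := by
    unfold canJ
    simp
  rw [h2] at h1
  rw [← h1]
  congr 2
  ext v
  simp

lemma rare_iff (α : ℝ) : RareX α ↔ ∃ ε > 0, ∀ᶠ n : ℕ in atTop,
      ((canJ Set.univ n {w : ℤ | α * n ≤ w}).card : ℝ) ≤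
        Real.exp (-ε * n) * ((can Set.univ n).card : ℝ) := by
  unfold RareX
  refine exists_congr fun ε => and_congr_right fun _ => eventually_congr ?_
  filter_upwards [eventually_ge_atTop 2] with n hn
  have h1 := card_width hn {w : ℤ | α * n ≤ w}
  simp only [Set.mem_ofPred_eq] at h1
  rw [h1, card_all hn]
  have h2 : (0 : ℝ) < (2 * n : ℕ) := by
    have : 0 < 2 * n := by omega
    exact_mod_cast this
  constructor
  · intro h
    refine le_of_mul_le_mul_left ?_ h2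
    linarith
  · intro h
    calc _ ≤ ((2 * n : ℕ) : ℝ) * (Real.exp (-ε * n) * ((can Set.univ n).card : ℝ)) :=
          mul_le_mul_of_nonneg_left h h2.le
      _ = _ := by ring

open Classical in
lemma canJ_ge (α : ℝ) (n : ℕ) : canJ Set.univ n {w : ℤ | α * n ≤ w} =
    (can Set.univ n).filter (fun p => α * n + 1 ≤ (X p.1 : ℝ)) := by
  unfold canJ
  ext p
  rw [Finset.mem_filter, Finset.mem_filter]
  refine and_congr_right fun _ => ?_
  simp only [Set.mem_ofPred_eq]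
  push_cast
  constructor <;> intro h <;> linarith

/-- the mean area at the widths that correspond to the force `2 * c` -/
theorem areaY {u c α : ℝ} (hc : 0 < c) (hP : Params u c) (h : 2 * muA Set.univ u c = α) :
    ∃ C > 0, ∀ (J : ℕ → Set ℤ) (w : ℕ → ℤ) (B : ℝ),
      (∀ n, IsLeast (J n) (w n)) → (∀ n : ℕ, |(w n : ℝ) - α * n| ≤ B * Real.sqrt n) →
      Tendsto (fun n : ℕ =>
        mArea {v : ZMod (2 * n) → ℤ × ℤ | IsSAP (2 * n) v ∧ width v ∈ J n} /
          (n : ℝ) ^ (3 / 2 : ℝ)) atTop (𝓝 C) := by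
  obtain ⟨C, hC, hlim⟩ := ratioJ isClass_univ (Set.mem_univ bw) hc
    (freeLaw isClass_univ (paramsA_univ hP))
  refine ⟨C, hC, fun J w B hJ hB => ?_⟩
  have h5 := hlim J w B hJ (fun n => by rw [h]; exact hB n)
  refine h5.congr' ?_
  filter_upwards [eventually_ge_atTop 2] with n hn
  have hne : NeZero (2 * n) := ⟨by omega⟩
  congr 1
  unfold mArea
  rw [card_width hn, sum_width hn (J n) (fun v => (area v : ℝ)) (fun i v => by rw [area_rot])]
  have h2n : ((2 * n : ℕ) : ℝ) ≠ 0 := by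
    have : 2 * n ≠ 0 := by omega
    exact_mod_cast this
  rw [mul_div_mul_left _ _ h2n]

/-- **Main theorem, with the threshold.** -/
theorem mainY : ∃ v₀ : ℝ, 0 ≤ v₀ ∧ v₀ < 1 ∧ (∀ α < v₀, ¬RareX α) ∧ (∀ α > v₀, RareX α) ∧
    ∀ α, v₀ < α → α < 1 → ∃ C > 0, ∀ (J : ℕ → Set ℤ) (w : ℕ → ℤ) (B : ℝ),
      (∀ n, IsLeast (J n) (w n)) → (∀ n : ℕ, |(w n : ℝ) - α * n| ≤ B * Real.sqrt n) →
      Tendsto (fun n : ℕ =>
        mArea {v : ZMod (2 * n) → ℤ × ℤ | IsSAP (2 * n) v ∧ width v ∈ J n} /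
          (n : ℝ) ^ (3 / 2 : ℝ)) atTop (𝓝 C) := by
  obtain ⟨v₀, h0, h1, h2, h3, h4⟩ := speed_range
  refine ⟨v₀, h0, h1, fun α hα => ?_, fun α hα => ?_, fun α hα hα1 => ?_⟩
  · rw [rare_iff]
    simp only [canJ_ge]
    refine not_rare_of_lt fun ε hε => ?_
    obtain ⟨u, hP⟩ := exists_params hε
    exact ⟨u, ε / 2, by positivity, by linarith, hP, hα.trans_le (h2 _ _ (by positivity) hP)⟩
  · rw [rare_iff]
    simp only [canJ_ge]
    obtain ⟨u, c, hc, hP, h⟩ := h3 α hα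
    exact rare_of_gt hc hP h
  · obtain ⟨u, c, hc, hP, h⟩ := h4 α hα hα1
    exact areaY hc hP h

end Pool.Agent.SAPY
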