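import Pool.Agent.SAPY.LimC
import Pool.Agent.SAPY.Coin

/-!
The profile of the twisted occupation measures: consequence of the limit theorem and of the bound.
-/

namespace Pool.Agent.SAPY

open Filter Topology Pool.Agent.SAPX

section
variable {f : ℕ → ℤ → ℝ} (hf : FreeLaw f) {F : ℝ → ℕ → ℤ → ℂ} {s2 : ℝ} (hF : TwLaw f F s2)
include hf hF

theorem profC {g : ℕ → ℤ → ℤ → ℝ} (hg : Killed f g) {l L : ℕ → ℤ → ℝ} (hl : CapLaw l)
    (hL : Rec g l L) {G : ℝ → ℕ → ℤ → ℤ → ℂ} (hG : TwKilled f g F G) {l' L' : ℝ → ℕ → ℤ → ℂ}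
    (hl' : TwCap l l') (hL' : ∀ ψ, RecC (G ψ) (l' ψ) (L' ψ)) :
    ∃ C, 0 < C ∧ ProfC (var f) (s2 / mean f) L' C := by
  obtain ⟨C, hC, h⟩ := LC_lim hf hF
  refine ⟨C * VV f g l L, mul_pos hC (VV_pos hf hg hl hL), ?_, ?_, ?_⟩
  · intro ψ m y hy
    have h1 := recC_norm_le hL (hL' ψ) (hG.le ψ) (hl'.le ψ) m y
    refine hL.supp hf hg hl fun h0 => hy ?_
    rw [h0] at h1
    exact norm_le_zero_iff.1 h1
  · exact LC_bound hf hF hg hl hL hG hl' hL'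
  · exact fun t χ ht m y ψ => h g l L G l' L' hg hl hL hG hl' hL' t χ ht m y ψ

lemma TwKilled.rev {g : ℕ → ℤ → ℤ → ℝ} {G : ℝ → ℕ → ℤ → ℤ → ℂ} (hG : TwKilled f g F G) :
    TwKilled f (SAPX.rev g) F (fun ψ => revC (G ψ)) := by
  refine ⟨fun ψ m x y => hG.le ψ m y x, fun ψ m x y => ?_, fun m x y => hG.cont m y x⟩
  have h1 := hG.sub ψ m y x
  have h2 : F ψ m (x - y) = F ψ m (y - x) := by rw [← hF.symm ψ m (y - x), neg_sub]
  have h3 : f m (x - y) = f m (y - x) := by rw [← hf.symm m (y - x), neg_sub]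
  rw [h2, h3] at h1
  exact h1

end

end Pool.Agent.SAPY
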